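import Pool.Agent.Lib.ANT.Katai

/-!
# The Moebius function is orthogonal to linear phases and to mean limits of them
-/

open Filter Topology Finset ArithmeticFunction
open scoped ArithmeticFunction.Moebius ComplexConjugate Real

namespace Pool.Agent.Lib.ANT

/-- Periodic sequences are orthogonal to the Moebius function. -/
theorem tendsto_sum_periodic_moebius_nat {q : ℕ} (hq : 0 < q) (a : ℕ → ℂ)
    (ha : ∀ n, a (n % q) = a n) :
    Tendsto (fun N : ℕ => (∑ n ∈ Icc 1 N, a n * (μ n : ℂ)) / N) atTop (𝓝 0) := by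
  have : NeZero q := ⟨hq.ne'⟩
  have h := (tendsto_sum_periodic_mul_moebius fun b : ZMod q => a b.val).comp
    tendsto_natCast_atTop_atTop
  refine h.congr fun N => ?_
  simp only [Function.comp_apply, Nat.floor_natCast, ZMod.val_natCast, ha, Complex.ofReal_natCast]

lemma tendsto_geom_div {w : ℂ} (hw : ‖w‖ = 1) (h1 : w ≠ 1) :
    Tendsto (fun M : ℕ => (∑ m ∈ Icc 1 M, w ^ m) / M) atTop (𝓝 0) := by
  have h2 : ∀ M : ℕ, ‖∑ m ∈ Icc 1 M, w ^ m‖ ≤ 2 / ‖w - 1‖ := by
    intro M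
    have h3 : (∑ m ∈ Icc 1 M, w ^ m) * (w - 1) = w ^ (M + 1) - w := by
      induction M with
      | zero => simp
      | succ M ih =>
        rw [Finset.sum_Icc_succ_top (by omega), add_mul, ih]
        ring
    have h4 : 0 < ‖w - 1‖ := norm_pos_iff.2 (sub_ne_zero.2 h1)
    rw [le_div_iff₀ h4, ← norm_mul, h3]
    refine (norm_sub_le _ _).trans ?_
    rw [norm_pow, hw, one_pow]
    norm_num
  rw [tendsto_zero_iff_norm_tendsto_zero]
  refine squeeze_zero (fun _ => norm_nonneg _) (fun M => ?_)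
    (tendsto_const_div_atTop_nhds_zero_nat (2 / ‖w - 1‖))
  rw [norm_div, Complex.norm_natCast]
  exact div_le_div_of_nonneg_right (h2 M) (by positivity)

/-- `∑ n ≤ N, z ^ n μ(n) = o(N)` for every `z` on the unit circle. -/
theorem tendsto_sum_pow_mul_moebius {z : ℂ} (hz : ‖z‖ = 1) :
    Tendsto (fun N : ℕ => (∑ n ∈ Icc 1 N, z ^ n * (μ n : ℂ)) / N) atTop (𝓝 0) := by
  by_cases h : ∃ q : ℕ, 0 < q ∧ z ^ q = 1
  · obtain ⟨q, hq, h1⟩ := h
    exact tendsto_sum_periodic_moebius_nat hq (fun n => z ^ n) fun n => (pow_eq_pow_mod n h1).symm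
  · have hz0 : z ≠ 0 := by
      rintro rfl
      simp at hz
    have hinj : ∀ p q : ℕ, p < q → z ^ p ≠ z ^ q := by
      intro p q hpq h1
      obtain ⟨d, rfl⟩ := Nat.exists_eq_add_of_lt hpq
      refine h ⟨d + 1, by omega, ?_⟩
      rw [add_assoc, pow_add] at h1
      exact (mul_eq_left₀ (pow_ne_zero _ hz0)).1 h1.symm
    refine katai_moebius (fun n => z ^ n) (fun n => by rw [norm_pow, hz, one_pow])
      {p : ℕ | p.Prime} (fun _ hp => hp) not_summable_inv_primes fun p _ q _ hpq => ?_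
    have h1 : ‖z ^ p * conj (z ^ q)‖ = 1 := by
      rw [norm_mul, Complex.norm_conj, norm_pow, norm_pow, hz, one_pow, one_pow, one_mul]
    have h2 : z ^ p * conj (z ^ q) ≠ 1 := by
      intro h3
      have h4 : z ^ q * conj (z ^ q) = 1 := by
        rw [Complex.mul_conj', norm_pow, hz]
        simp
      have h5 : z ^ p = z ^ q := by
        have h6 : conj (z ^ q) ≠ 0 := right_ne_zero_of_mul_eq_one h4
        exact mul_right_cancel₀ h6 (h3.trans h4.symm)
      rcases lt_or_gt_of_ne hpq with h6 | h6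
      · exact hinj _ _ h6 h5
      · exact hinj _ _ h6 h5.symm
    refine (tendsto_geom_div h1 h2).congr fun M => ?_
    congr 1
    refine Finset.sum_congr rfl fun m _ => ?_
    rw [mul_pow, pow_mul, pow_mul, map_pow (starRingEnd ℂ) (z ^ q)]

/-- `∑ n ≤ N, e(n β) μ(n) = o(N)` for every real `β`. -/
theorem tendsto_sum_exp_mul_moebius (β : ℝ) :
    Tendsto (fun N : ℕ => (∑ n ∈ Icc 1 N, Complex.exp (2 * π * Complex.I * β * n) * (μ n : ℂ)) / N)
      atTop (𝓝 0) := by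
  have h : ‖Complex.exp (2 * π * Complex.I * β)‖ = 1 := by
    rw [show (2 * π * Complex.I * β : ℂ) = ((2 * π * β : ℝ) : ℂ) * Complex.I by push_cast; ring,
      Complex.norm_exp_ofReal_mul_I]
  refine (tendsto_sum_pow_mul_moebius h).congr fun N => ?_
  congr 1
  refine Finset.sum_congr rfl fun n _ => ?_
  rw [← Complex.exp_nat_mul, mul_comm (n : ℂ)]

theorem davenport_lite (β : ℝ) : Tendsto (fun N : ℕ => (∑ n ∈ Icc 1 N, (moebius n : ℂ) *
    Complex.exp (2 * Real.pi * Complex.I * β * n)) / N) atTop (𝓝 0) := by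
  simpa only [mul_comm (moebius _ : ℂ)] using tendsto_sum_exp_mul_moebius β

/-- Orthogonality to the Moebius function passes to limits in the mean. -/
theorem tendsto_sum_mul_moebius_of_approx (a : ℕ → ℂ)
    (h : ∀ δ : ℝ, 0 < δ → ∃ t : ℕ → ℂ,
      Tendsto (fun N : ℕ => (∑ n ∈ Icc 1 N, t n * (μ n : ℂ)) / N) atTop (𝓝 0) ∧
      ∀ᶠ N : ℕ in atTop, ∑ n ∈ Icc 1 N, ‖a n - t n‖ ≤ δ * N) :
    Tendsto (fun N : ℕ => (∑ n ∈ Icc 1 N, a n * (μ n : ℂ)) / N) atTop (𝓝 0) := by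
  rw [tendsto_div_iff_eventually]
  intro δ hδ
  obtain ⟨t, h1, h2⟩ := h (δ / 2) (half_pos hδ)
  filter_upwards [(tendsto_div_iff_eventually _).1 h1 _ (half_pos hδ), h2] with N h3 h4
  have h5 : ∑ n ∈ Icc 1 N, a n * (μ n : ℂ) =
      ∑ n ∈ Icc 1 N, t n * (μ n : ℂ) + ∑ n ∈ Icc 1 N, (a n - t n) * (μ n : ℂ) := by
    rw [← Finset.sum_add_distrib]
    exact Finset.sum_congr rfl fun n _ => by ring
  have h6 : ‖∑ n ∈ Icc 1 N, (a n - t n) * (μ n : ℂ)‖ ≤ ∑ n ∈ Icc 1 N, ‖a n - t n‖ := by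
    refine (norm_sum_le _ _).trans (Finset.sum_le_sum fun n _ => ?_)
    rw [norm_mul]
    exact mul_le_of_le_one_right (norm_nonneg _) (norm_moebius_le_one n)
  rw [h5]
  refine (norm_add_le _ _).trans ?_
  linarith

/-- Trigonometric polynomials are orthogonal to the Moebius function. -/
theorem tendsto_sum_trig_mul_moebius {ι : Type*} (s : Finset ι) (c z : ι → ℂ)
    (hz : ∀ i ∈ s, ‖z i‖ = 1) :
    Tendsto (fun N : ℕ => (∑ n ∈ Icc 1 N, (∑ i ∈ s, c i * z i ^ n) * (μ n : ℂ)) / N)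
      atTop (𝓝 0) := by
  have h := tendsto_finsetSum s fun i hi => (tendsto_sum_pow_mul_moebius (hz i hi)).const_mul (c i)
  simp only [mul_zero, Finset.sum_const_zero] at h
  refine h.congr fun N => ?_
  simp_rw [Finset.sum_mul, ← mul_div_assoc, ← Finset.sum_div, Finset.mul_sum]
  rw [Finset.sum_comm]
  simp_rw [mul_assoc]

/-- Besicovitch almost periodic sequences are orthogonal to the Moebius function. -/
theorem tendsto_sum_besicovitch_mul_moebius (a : ℕ → ℂ)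
    (h : ∀ δ : ℝ, 0 < δ → ∃ (k : ℕ) (c z : Fin k → ℂ), (∀ i, ‖z i‖ = 1) ∧
      ∀ᶠ N : ℕ in atTop, ∑ n ∈ Icc 1 N, ‖a n - ∑ i, c i * z i ^ n‖ ≤ δ * N) :
    Tendsto (fun N : ℕ => (∑ n ∈ Icc 1 N, a n * (μ n : ℂ)) / N) atTop (𝓝 0) := by
  refine tendsto_sum_mul_moebius_of_approx a fun δ hδ => ?_
  obtain ⟨k, c, z, h1, h2⟩ := h δ hδ
  exact ⟨_, tendsto_sum_trig_mul_moebius Finset.univ c z fun i _ => h1 i, h2⟩

end Pool.Agent.Lib.ANT
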