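import Pool.Agent.Lib.ANT.Mertens

/-!
# The divisor bound and bounds for `n / φ(n)`
-/

noncomputable section

open Finset

namespace Pool.Agent.Lib.ANT

/-- **Divisor bound**: `τ(n) ≤ C_ε n^ε`. -/
theorem exists_card_divisors_le (ε : ℝ) (hε : 0 < ε) :
    ∃ C : ℝ, 1 ≤ C ∧ ∀ n : ℕ, (n.divisors.card : ℝ) ≤ C * (n : ℝ) ^ ε := by
  have hl2 : (0.69 : ℝ) < Real.log 2 := by have := Real.log_two_gt_d9; linarith
  set B : ℝ := 1 + 1 / (ε * Real.log 2) with hB
  have hB0 : 0 < 1 / (ε * Real.log 2) := by positivity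
  have hB1 : 1 ≤ B := by linarith
  set K : ℕ := ⌈(2 : ℝ) ^ (1 / ε)⌉₊ with hK
  refine ⟨B ^ K, one_le_pow₀ hB1, fun n => ?_⟩
  rcases Nat.eq_zero_or_pos n with rfl | hn
  · simp only [Nat.divisors_zero, Finset.card_empty, Nat.cast_zero]; positivity
  have h1 : (n : ℝ) ^ ε = ∏ p ∈ n.primeFactors, ((p : ℝ) ^ n.factorization p) ^ ε := by
    rw [Real.finsetProd_rpow _ _ (fun p _ => by positivity)]
    congr 1
    conv_lhs => rw [← Nat.prod_factorization_pow_eq_self hn.ne']
    rw [Finsupp.prod, Nat.support_factorization]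
    push_cast
    rfl
  have h2 : ∏ p ∈ n.primeFactors, (if p < K then B else 1) ≤ B ^ K := by
    rw [Finset.prod_ite, Finset.prod_const_one, mul_one, Finset.prod_const]
    refine pow_le_pow_right₀ hB1 ?_
    calc _ ≤ (range K).card := Finset.card_le_card fun p hp =>
          Finset.mem_range.mpr (Finset.mem_filter.mp hp).2
      _ = K := Finset.card_range K
  rw [Nat.card_divisors hn.ne', h1]
  refine le_trans ?_ (mul_le_mul_of_nonneg_right h2 (Finset.prod_nonneg fun p _ => by positivity))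
  rw [← Finset.prod_mul_distrib]
  push_cast
  refine Finset.prod_le_prod (fun p _ => by positivity) fun p hp => ?_
  set a := n.factorization p
  have hp2 : (2 : ℝ) ≤ p := by exact_mod_cast (Nat.prime_of_mem_primeFactors hp).two_le
  split_ifs with h
  · have e1 : (2 : ℝ) ^ (a * ε) ≤ ((p : ℝ) ^ a) ^ ε := by
      rw [Real.rpow_mul (by norm_num), Real.rpow_natCast]
      gcongr
    have e2 : 1 + a * ε * Real.log 2 ≤ (2 : ℝ) ^ (a * ε) := by
      rw [Real.rpow_def_of_pos (by norm_num)]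
      have := Real.add_one_le_exp (Real.log 2 * (a * ε))
      linarith
    have e3 : (a : ℝ) + 1 ≤ B * (1 + a * ε * Real.log 2) := by
      have : B * (1 + a * ε * Real.log 2) =
          1 + 1 / (ε * Real.log 2) + a * ε * Real.log 2 + a := by
        rw [hB]; field_simp; ring
      rw [this]
      have : 0 ≤ a * ε * Real.log 2 := by positivity
      linarith
    exact e3.trans (mul_le_mul_of_nonneg_left (e2.trans e1) (by linarith))
  · have e1 : (2 : ℝ) ^ (1 / ε) ≤ p := (Nat.le_ceil _).trans (by exact_mod_cast not_lt.mp h)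
    have e2 : (2 : ℝ) ≤ (p : ℝ) ^ ε := by
      calc (2 : ℝ) = ((2 : ℝ) ^ (1 / ε)) ^ ε := by
            rw [← Real.rpow_mul (by norm_num), one_div_mul_cancel hε.ne', Real.rpow_one]
        _ ≤ (p : ℝ) ^ ε := by gcongr
    rw [one_mul, ← Real.rpow_natCast, ← Real.rpow_mul (by linarith), mul_comm,
      Real.rpow_mul (by linarith), Real.rpow_natCast]
    have e3 : (a : ℝ) + 1 ≤ 2 ^ a := by exact_mod_cast Nat.lt_two_pow_self
    exact e3.trans (by gcongr)

/-- `n / φ(n) ≤ τ(n)`. -/
theorem le_totient_mul_card_divisors (n : ℕ) : n ≤ n.totient * n.divisors.card := by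
  rcases Nat.eq_zero_or_pos n with rfl | hn
  · simp
  conv_lhs => rw [← Nat.sum_totient n]
  rw [mul_comm, ← smul_eq_mul]
  exact Finset.sum_le_card_nsmul _ _ _ fun d hd =>
    Nat.le_of_dvd (Nat.totient_pos.mpr hn) (Nat.totient_dvd_of_dvd (Nat.dvd_of_mem_divisors hd))

theorem div_totient_le_card_divisors (n : ℕ) : (n : ℝ) / n.totient ≤ n.divisors.card := by
  rcases Nat.eq_zero_or_pos n with rfl | hn
  · simp
  rw [div_le_iff₀ (by exact_mod_cast Nat.totient_pos.mpr hn), mul_comm]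
  exact_mod_cast le_totient_mul_card_divisors n

/-- `∑_{n ≤ N} n / φ(n) ≤ 3 N`. -/
theorem sum_div_totient_le (N : ℕ) : ∑ n ∈ Ioc 0 N, (n : ℝ) / n.totient ≤ 3 * N := by
  classical
  set Ps := (Ioc 0 N).filter Nat.Prime with hPs
  have hP : ∀ p ∈ Ps, p.Prime := fun p hp => (Finset.mem_filter.mp hp).2
  have hg : ∀ p ∈ Ps, (0 : ℝ) ≤ ((p : ℝ) - 1)⁻¹ := fun p hp => by
    have : (1 : ℝ) < p := by exact_mod_cast (hP p hp).one_lt
    exact inv_nonneg.mpr (by linarith)
  have h1 : ∀ n ∈ Ioc 0 N, (n : ℝ) / n.totient ≤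
      ∑ T ∈ Ps.powerset, if (∏ p ∈ T, p) ∣ n then ∏ p ∈ T, ((p : ℝ) - 1)⁻¹ else 0 := by
    intro n hn
    have hn' := Finset.mem_Ioc.mp hn
    rw [← prod_primeFactors_one_add_inv n hn'.1, Finset.prod_one_add, ← Finset.sum_filter]
    refine Finset.sum_le_sum_of_subset_of_nonneg ?_ ?_
    · intro T hT
      have hT' := Finset.mem_powerset.mp hT
      refine Finset.mem_filter.mpr ⟨Finset.mem_powerset.mpr fun p hp => ?_, ?_⟩
      · have hp' := hT' hp
        exact Finset.mem_filter.mpr ⟨Finset.mem_Ioc.mpr ⟨(Nat.prime_of_mem_primeFactors hp').pos,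
          (Nat.le_of_mem_primeFactors hp').trans hn'.2⟩, Nat.prime_of_mem_primeFactors hp'⟩
      · exact (Finset.prod_dvd_prod_of_subset _ _ (fun p => p) hT').trans
          (Nat.prod_primeFactors_dvd n)
    · intro T hT _
      exact Finset.prod_nonneg fun p hp =>
        hg p (Finset.mem_powerset.mp (Finset.mem_filter.mp hT).1 hp)
  refine (Finset.sum_le_sum h1).trans ?_
  rw [Finset.sum_comm]
  have h2 : ∀ T ∈ Ps.powerset,
      (∑ n ∈ Ioc 0 N, if (∏ p ∈ T, p) ∣ n then ∏ p ∈ T, ((p : ℝ) - 1)⁻¹ else 0) ≤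
        N * ∏ p ∈ T, ((p : ℝ) * (p - 1))⁻¹ := by
    intro T hT
    have hT' := Finset.mem_powerset.mp hT
    rw [← Finset.sum_filter, Finset.sum_const, Nat.Ioc_filter_dvd_card_eq_div, nsmul_eq_mul]
    simp_rw [mul_inv]
    rw [Finset.prod_mul_distrib, ← mul_assoc]
    refine mul_le_mul_of_nonneg_right ?_ (Finset.prod_nonneg fun p hp => hg p (hT' hp))
    rw [Finset.prod_inv_distrib, ← div_eq_mul_inv, ← Nat.cast_prod]
    exact Nat.cast_div_le
  refine (Finset.sum_le_sum h2).trans ?_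
  rw [← Finset.mul_sum, ← Finset.prod_one_add, mul_comm]
  refine mul_le_mul_of_nonneg_right ?_ (Nat.cast_nonneg _)
  have h3 : ∏ p ∈ Ps, (1 + ((p : ℝ) * (p - 1))⁻¹) ≤ ∏ p ∈ Ps, Real.exp ((p : ℝ) * (p - 1))⁻¹ := by
    refine Finset.prod_le_prod (fun p hp => ?_) fun p _ => ?_
    · have := hg p hp
      rw [mul_inv]; positivity
    · linarith [Real.add_one_le_exp ((p : ℝ) * (p - 1))⁻¹]
  rw [← Real.exp_sum] at h3
  have h4 : ∑ p ∈ Ps, ((p : ℝ) * (p - 1))⁻¹ ≤ 1 := by
    refine le_trans (Finset.sum_le_sum_of_subset_of_nonneg ?_ ?_) (sum_inv_mul_pred_le N)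
    · intro p hp
      obtain ⟨h1, h2⟩ := Finset.mem_filter.mp hp
      exact Finset.mem_Ioc.mpr ⟨h2.one_lt, (Finset.mem_Ioc.mp h1).2⟩
    · intro n hn _
      have : (1 : ℝ) < n := by exact_mod_cast (Finset.mem_Ioc.mp hn).1
      exact inv_nonneg.mpr (mul_nonneg (by linarith) (by linarith))
  have h5 := Real.exp_one_lt_d9
  have := Real.exp_le_exp.mpr h4
  linarith

/-- `n / φ(n) ≪ log log n`. -/
theorem div_totient_le_loglog (n : ℕ) (hn : 16 ≤ n) :
    (n : ℝ) / n.totient ≤ Real.exp 76 * Real.log (Real.log n) := by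
  classical
  have hl2 : (0.69 : ℝ) < Real.log 2 := by have := Real.log_two_gt_d9; linarith
  have hn' : (16 : ℝ) ≤ n := by exact_mod_cast hn
  have hL : 2.76 < Real.log n := by
    have : Real.log 16 = 4 * Real.log 2 := by
      rw [show (16 : ℝ) = 2 ^ 4 by norm_num, Real.log_pow]; norm_num
    have := Real.log_le_log (by norm_num) hn'
    linarith
  set L := Real.log n with hLdef
  set y := ⌊L⌋₊ with hy
  have hy2 : 2 ≤ y := Nat.le_floor (by push_cast; linarith)
  have hyL : (y : ℝ) ≤ L := Nat.floor_le (by linarith)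
  have hLy : L < y + 1 := Nat.lt_floor_add_one L
  have hy2' : (2 : ℝ) ≤ y := by exact_mod_cast hy2
  rw [← prod_primeFactors_one_add_inv n (by omega),
    ← Finset.prod_filter_mul_prod_filter_not n.primeFactors (fun p => p ≤ y)]
  have hg : ∀ p : ℕ, p.Prime → (0 : ℝ) ≤ ((p : ℝ) - 1)⁻¹ := fun p hp => by
    have : (1 : ℝ) < p := by exact_mod_cast hp.one_lt
    exact inv_nonneg.mpr (by linarith)
  have h1 : ∏ p ∈ n.primeFactors.filter (fun p => p ≤ y), (1 + ((p : ℝ) - 1)⁻¹) ≤
      Real.exp 73 * Real.log L := by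
    refine le_trans ?_ ((prod_one_sub_inv_prime_inv_le y hy2).trans ?_)
    · have h2 : ∏ p ∈ (Ioc 0 y).filter Nat.Prime, (1 - (p : ℝ)⁻¹)⁻¹ =
          ∏ p ∈ (Ioc 0 y).filter Nat.Prime, (1 + ((p : ℝ) - 1)⁻¹) := by
        refine Finset.prod_congr rfl fun p hp => ?_
        have : (1 : ℝ) < p := by exact_mod_cast (Finset.mem_filter.mp hp).2.one_lt
        have a1 : (p : ℝ) - 1 ≠ 0 := by linarith
        field_simp
        ring
      rw [h2]
      refine Finset.prod_le_prod_of_subset_of_one_le ?_ ?_ ?_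
      · intro p hp
        obtain ⟨h1, h2⟩ := Finset.mem_filter.mp hp
        have := Nat.prime_of_mem_primeFactors h1
        exact Finset.mem_filter.mpr ⟨Finset.mem_Ioc.mpr ⟨this.pos, h2⟩, this⟩
      · intro p hp
        have := hg p (Nat.prime_of_mem_primeFactors (Finset.mem_filter.mp hp).1)
        linarith
      · intro p hp _
        have := hg p (Finset.mem_filter.mp hp).2
        linarith
    · gcongr
  have hω : (n.primeFactors.card : ℝ) ≤ 2 * y := by
    have h2 : 2 ^ n.primeFactors.card ≤ n := by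
      calc 2 ^ n.primeFactors.card = ∏ _p ∈ n.primeFactors, 2 := by simp
        _ ≤ ∏ p ∈ n.primeFactors, p := Finset.prod_le_prod' fun p hp =>
            (Nat.prime_of_mem_primeFactors hp).two_le
        _ ≤ n := Nat.le_of_dvd (by omega) (Nat.prod_primeFactors_dvd n)
    have h3 : (2 : ℝ) ^ n.primeFactors.card ≤ n := by exact_mod_cast h2
    have h4 := Real.log_le_log (by positivity) h3
    rw [Real.log_pow] at h4
    have h5 : (0 : ℝ) ≤ n.primeFactors.card := Nat.cast_nonneg _
    by_contra hcon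
    push Not at hcon
    have h6 : 2 * y + 1 ≤ n.primeFactors.card := by
      have : 2 * y < n.primeFactors.card := by exact_mod_cast hcon
      omega
    have h7 : (2 * y + 1 : ℝ) ≤ n.primeFactors.card := by exact_mod_cast h6
    nlinarith
  have h2 : ∏ p ∈ n.primeFactors.filter (fun p => ¬ p ≤ y), (1 + ((p : ℝ) - 1)⁻¹) ≤
      Real.exp 2 := by
    calc _ ≤ ∏ _p ∈ n.primeFactors.filter (fun p => ¬ p ≤ y), Real.exp (y : ℝ)⁻¹ := by
          refine Finset.prod_le_prod (fun p hp => ?_) fun p hp => ?_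
          · have := hg p (Nat.prime_of_mem_primeFactors (Finset.mem_filter.mp hp).1)
            linarith
          · have h3 : y + 1 ≤ p := by have := (Finset.mem_filter.mp hp).2; omega
            have h4 : (y : ℝ) + 1 ≤ p := by exact_mod_cast h3
            have h5 : ((p : ℝ) - 1)⁻¹ ≤ (y : ℝ)⁻¹ := inv_anti₀ (by linarith) (by linarith)
            linarith [Real.add_one_le_exp (y : ℝ)⁻¹]
      _ ≤ Real.exp 2 := by
          rw [Finset.prod_const, ← Real.exp_nat_mul]
          refine Real.exp_le_exp.mpr ?_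
          have h3 : ((n.primeFactors.filter (fun p => ¬ p ≤ y)).card : ℝ) ≤ 2 * y :=
            le_trans (by exact_mod_cast Finset.card_filter_le _ _) hω
          rw [← div_eq_mul_inv, div_le_iff₀ (by linarith)]
          exact h3
  have hlL : 0 ≤ Real.log L := Real.log_nonneg (by linarith)
  calc _ ≤ (Real.exp 73 * Real.log L) * Real.exp 2 := by
        refine mul_le_mul h1 h2 (Finset.prod_nonneg fun p hp => ?_) (by positivity)
        have := hg p (Nat.prime_of_mem_primeFactors (Finset.mem_filter.mp hp).1)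
        linarith
    _ = Real.exp 75 * Real.log L := by
        rw [show (75 : ℝ) = 73 + 2 by norm_num, Real.exp_add]; ring
    _ ≤ Real.exp 76 * Real.log L := by gcongr; norm_num

end Pool.Agent.Lib.ANT
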