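import Mathlib.NumberTheory.LSeries.Positivity
import Mathlib.Analysis.Complex.Liouville
import Mathlib.Analysis.Complex.TaylorSeries
import Mathlib.Analysis.SpecialFunctions.Pow.Real
import Mathlib.Analysis.Complex.ExponentialBounds

/-!
# Estermann's lemma: a lower bound for the residue of a Dirichlet series with nonnegative
coefficients
-/

noncomputable section

open Finset Complex Filter Topology
open scoped ComplexOrder

namespace Pool.Agent.Lib.ANT

lemma iteratedDeriv_sub_one_mul {F : ℂ → ℂ} (hF : AnalyticAt ℂ F 2) (m : ℕ) :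
    iteratedDeriv (m + 1) (fun s => (s - 1) * F s) 2
      = iteratedDeriv (m + 1) F 2 + (m + 1) * iteratedDeriv m F 2 := by
  have h1 : ContDiffAt ℂ (m + 1 : ℕ) (fun s : ℂ => s - 1) 2 := by fun_prop
  rw [iteratedDeriv_fun_mul h1 hF.contDiffAt, sum_range_succ', sum_range_succ']
  have h2 : ∀ i, iteratedDeriv (i + 1) (fun s : ℂ => s - 1) 2 = if i = 0 then 1 else 0 := by
    intro i
    have : (fun s : ℂ => s - 1) = fun s => -1 + s := by ext; ring
    rw [this, iteratedDeriv_const_add (Nat.succ_pos i), iteratedDeriv_fun_id]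
    simp
  simp only [h2]
  norm_num
  ring

/-- Abel summation step -/
lemma abel_upper (b φ : ℕ → ℝ) (hb : ∀ m, 0 ≤ b m) (h0 : φ 0 = b 0)
    (h1 : ∀ m, φ (m + 1) = b (m + 1) - b m) {t : ℝ} (ht : 1 ≤ t) (Y : ℕ) :
    ∑ m ∈ range (Y + 2), φ m * t ^ m ≤ b (Y + 1) * t ^ (Y + 1) - (t - 1) * b 0 := by
  induction Y with
  | zero => simp [sum_range_succ, h0, h1]; nlinarith
  | succ Y ih =>
    rw [sum_range_succ, h1]
    have : b (Y + 1) * t ^ (Y + 1) ≤ b (Y + 1) * t ^ (Y + 1 + 1) :=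
      mul_le_mul_of_nonneg_left (pow_le_pow_right₀ ht (by omega)) (hb _)
    nlinarith

lemma tail_geom {f : ℕ → ℝ} {S M r : ℝ} (hr : 0 ≤ r) (hr1 : r < 1) (hf : HasSum f S)
    (hM : ∀ m, |f m| ≤ M * r ^ m) (Y : ℕ) :
    |S - ∑ m ∈ range Y, f m| ≤ M * r ^ Y * (1 - r)⁻¹ := by
  have h1 := (hasSum_nat_add_iff' Y).2 hf
  have h2 : HasSum (fun m : ℕ => M * r ^ Y * r ^ m) (M * r ^ Y * (1 - r)⁻¹) :=
    (hasSum_geometric_of_lt_one hr hr1).mul_left _
  exact h1.norm_le_of_bounded h2 (fun m => by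
    rw [Real.norm_eq_abs]
    refine (hM _).trans (le_of_eq ?_)
    ring)

theorem estermann {a : ℕ → ℂ} (ha : 0 ≤ a) (ha1 : a 1 = 1)
    (habs : LSeries.abscissaOfAbsConv a ≤ 1) {Φ : ℂ → ℂ} (hΦ : Differentiable ℂ Φ)
    (hΦF : ∀ s : ℂ, 1 < s.re → Φ s = (s - 1) * LSeries a s) {M : ℝ} (hM1 : 1 ≤ M)
    (hM : ∀ z ∈ Metric.sphere (2 : ℂ) (3 / 2), ‖Φ z‖ ≤ M) {β : ℝ} (hβ0 : 7 / 8 ≤ β) (hβ1 : β < 1)
    (hβ : Φ β = 0 ∨ ∀ σ ∈ Set.Icc β 1, Φ σ ≠ 0) :
    1 - β ≤ 2 * ‖Φ 1‖ * (30 * M / (1 - β)) ^ (4 * (1 - β)) := by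
  have hab : ∀ x : ℝ, 1 < x → LSeries.abscissaOfAbsConv a < x := fun x hx =>
    habs.trans_lt (by exact_mod_cast hx)
  have hF : AnalyticAt ℂ (LSeries a) 2 :=
    LSeries_analyticOnNhd a 2 (by simpa using hab 2 (by norm_num))
  have hev : Φ =ᶠ[𝓝 2] fun s => (s - 1) * LSeries a s := by
    have : {s : ℂ | 1 < s.re} ∈ 𝓝 (2 : ℂ) :=
      (isOpen_lt continuous_const continuous_re).mem_nhds (by simp)
    filter_upwards [this] with s hs using hΦF s hs
  set B : ℕ → ℂ := fun m => (-1) ^ m * iteratedDeriv m (LSeries a) 2 / m.factorial with hB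
  set P : ℕ → ℂ := fun m => (-1) ^ m * iteratedDeriv m Φ 2 / m.factorial with hP
  have hB0 : ∀ m, 0 ≤ B m := fun m => by
    have := LSeries.iteratedDeriv_alternating ha (hab 2 (by norm_num)) m
    exact div_nonneg (by simpa using this) (by exact_mod_cast Nat.zero_le _)
  have hP0 : P 0 = B 0 := by
    simp only [hP, hB, iteratedDeriv_zero]
    rw [hΦF 2 (by simp)]; norm_num
  have hP1 : ∀ m, P (m + 1) = B (m + 1) - B m := fun m => by
    simp only [hP, hB]
    rw [hev.iteratedDeriv_eq, iteratedDeriv_sub_one_mul hF, Nat.factorial_succ]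
    have : (m.factorial : ℂ) ≠ 0 := by exact_mod_cast m.factorial_ne_zero
    have : ((m : ℂ) + 1) ≠ 0 := Nat.cast_add_one_ne_zero m
    push_cast
    field_simp
    ring
  have hBim : ∀ m, B m = ((B m).re : ℂ) := fun m => by
    have := (Complex.nonneg_iff.1 (hB0 m)).2
    exact Complex.ext (by simp) (by simp [← this])
  have hPim : ∀ m, P m = ((P m).re : ℂ) := fun m => by
    cases m with
    | zero => rw [hP0]; exact hBim 0
    | succ m => rw [hP1, sub_re, ofReal_sub, ← hBim, ← hBim]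
  have hsum : ∀ σ : ℝ, HasSum (fun m => (((P m).re * (2 - σ) ^ m : ℝ) : ℂ)) (Φ σ) := fun σ => by
    refine (hasSum_taylorSeries_of_entire hΦ 2 σ).congr_fun fun m => ?_
    rw [ofReal_mul, ← hPim, smul_eq_mul, smul_eq_mul]
    simp only [hP]
    push_cast
    rw [show (2 - σ : ℂ) = (-1) * (σ - 2) by ring, mul_pow]
    have : ((-1 : ℂ) ^ m) * (-1) ^ m = 1 := by rw [← mul_pow]; simp
    linear_combination (iteratedDeriv m Φ 2 / m.factorial * ((σ : ℂ) - 2) ^ m) * this
  have hre : ∀ σ : ℝ, HasSum (fun m => (P m).re * (2 - σ) ^ m) (Φ σ).re := fun σ => by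
    simpa only [ofReal_re] using (Complex.hasSum_re (hsum σ))
  have him : ∀ σ : ℝ, (Φ σ).im = 0 := fun σ => by
    have := Complex.hasSum_im (hsum σ)
    simp only [ofReal_im] at this
    exact this.unique hasSum_zero
  have hPle : ∀ m, |(P m).re| ≤ M * (2 / 3) ^ m := fun m => by
    refine (abs_re_le_norm _).trans ?_
    have := Complex.norm_iteratedDeriv_le_of_forall_mem_sphere_norm_le m (by norm_num)
      hΦ.diffContOnCl hM
    have hf : (0 : ℝ) < m.factorial := by exact_mod_cast m.factorial_pos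
    simp only [hP, norm_div, norm_mul, norm_pow, norm_neg, norm_one, one_pow, one_mul,
      Complex.norm_natCast]
    rw [div_le_iff₀ hf]
    refine this.trans (le_of_eq ?_)
    rw [div_pow, div_pow]; field_simp
  have hb0 : 1 ≤ (B 0).re := by
    have hs : LSeriesSummable a 2 := LSeriesSummable_of_abscissaOfAbsConv_lt_re
      (by simpa using hab 2 (by norm_num))
    have := Summable.le_tsum hs 1 (fun n _ => by
      simpa using LSeries.term_nonneg (ha n) 2)
    rw [LSeries.term_of_ne_zero one_ne_zero, ha1] at this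
    simpa [hB, LSeries] using (Complex.le_def.1 this).1
  have hΦβ : 0 ≤ (Φ β).re := by
    rcases hβ with h | h
    · rw [h]; simp
    by_contra hneg
    push Not at hneg
    have hc : Continuous fun σ : ℝ => (Φ σ).re := by
      have := hΦ.continuous; fun_prop
    have h1 : 0 ≤ (Φ (1 : ℝ)).re := by
      refine ge_of_tendsto (x := 𝓝[>] (1 : ℝ)) (hc.continuousWithinAt (x := 1)) ?_
      filter_upwards [self_mem_nhdsWithin] with σ hσ
      have hσ' : (1 : ℝ) < σ := hσ
      have h2 := LSeries.positive ha (by rw [ha1]; exact zero_lt_one) (hab σ hσ')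
      rw [hΦF σ (by simpa using hσ')]
      have h3 : (0 : ℂ) ≤ (σ : ℂ) - 1 := by exact_mod_cast (sub_pos.2 hσ').le
      exact (Complex.nonneg_iff.1 (mul_nonneg h3 h2.le)).1
    obtain ⟨σ, hσ, e⟩ := intermediate_value_Icc hβ1.le hc.continuousOn ⟨hneg.le, h1⟩
    exact h σ hσ (Complex.ext e (him σ))
  set t : ℝ := 2 - β with ht
  have ht1 : 1 ≤ t := by linarith
  have ht2 : t ≤ 9 / 8 := by linarith
  have hδ : 0 < 1 - β := by linarith
  obtain ⟨Y, hY1, hY2⟩ := exists_nat_pow_near (x := 16 * M / (1 - β)) (y := 4 / 3)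
    (by rw [le_div_iff₀ hδ]; linarith) (by norm_num)
  have A1 := abel_upper (fun m => (B m).re) (fun m => (P m).re)
    (fun m => (Complex.nonneg_iff.1 (hB0 m)).1) (by simp only [hP0])
    (fun m => by simp only [hP1, sub_re]) ht1 Y
  have A2 := tail_geom (r := 3 / 4) (by norm_num) (by norm_num) (hre β) (M := M) (fun m => by
    rw [abs_mul, abs_of_nonneg (pow_nonneg (show 0 ≤ t by linarith) m)]
    calc _ ≤ M * (2 / 3) ^ m * (9 / 8) ^ m := by
          gcongr
          exact hPle m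
      _ = _ := by rw [mul_assoc, ← mul_pow]; norm_num) (Y + 2)
  have A3 := tail_geom (r := 2 / 3) (by norm_num) (by norm_num) (hre 1) (M := M) (fun m => by
    norm_num; exact hPle m) (Y + 2)
  have A4 : ∑ m ∈ range (Y + 2), (P m).re * (2 - 1) ^ m = (B (Y + 1)).re := by
    have : ∀ Z, ∑ m ∈ range (Z + 1), (P m).re = (B Z).re := fun Z => by
      induction Z with
      | zero => simp only [zero_add, range_one, sum_singleton, hP0]
      | succ Z ih => rw [sum_range_succ, ih, hP1, sub_re]; ring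
    rw [← this]
    norm_num
  rw [A4] at A3
  have A5 : (B (Y + 1)).re ≤ ‖Φ 1‖ + 2 * M * (2 / 3) ^ (Y + 1) := by
    have h1 := re_le_norm (Φ ((1 : ℝ) : ℂ))
    have h2 := (abs_le.1 A3).1
    rw [ofReal_one] at h1 h2
    rw [pow_succ] at h2
    linarith
  have A6 : (2 / 3 : ℝ) ^ (Y + 1) * t ^ (Y + 1) ≤ (3 / 4) ^ (Y + 1) := by
    rw [← mul_pow]; gcongr; linarith
  have A7 : 16 * M * (3 / 4) ^ (Y + 1) ≤ 1 - β := by
    rw [div_lt_iff₀ hδ] at hY2
    have e : (4 / 3 : ℝ) ^ (Y + 1) * (3 / 4) ^ (Y + 1) = 1 := by rw [← mul_pow]; norm_num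
    calc _ ≤ (4 / 3) ^ (Y + 1) * (1 - β) * (3 / 4) ^ (Y + 1) := by gcongr
      _ = _ := by rw [mul_right_comm, e, one_mul]
  have A8 : t ^ (Y + 1) ≤ (30 * M / (1 - β)) ^ (4 * (1 - β)) := by
    have h1 : t ≤ (4 / 3 : ℝ) ^ (4 * (1 - β)) := by
      rw [Real.rpow_mul (by norm_num)]
      calc t ≤ Real.exp (1 - β) := by linarith [Real.add_one_le_exp (1 - β)]
        _ = Real.exp 1 ^ (1 - β) := by rw [← Real.exp_mul, one_mul]
        _ ≤ _ := by
          gcongr
          have := Real.exp_one_lt_d9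
          norm_num
          linarith
    calc t ^ (Y + 1) ≤ ((4 / 3 : ℝ) ^ (4 * (1 - β))) ^ (Y + 1) := by gcongr
      _ = ((4 / 3 : ℝ) ^ (Y + 1)) ^ (4 * (1 - β)) := by
          rw [← Real.rpow_natCast, ← Real.rpow_mul (by norm_num), mul_comm,
            Real.rpow_mul (by norm_num), Real.rpow_natCast]
      _ ≤ _ := by
          gcongr
          rw [pow_succ]
          calc _ ≤ 16 * M / (1 - β) * (4 / 3) := by gcongr
            _ = 64 / 3 * M / (1 - β) := by ring
            _ ≤ _ := by gcongr; norm_num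
  have A9 : (B (Y + 1)).re * t ^ (Y + 1) ≤ ‖Φ 1‖ * (30 * M / (1 - β)) ^ (4 * (1 - β))
      + 2 * M * (3 / 4) ^ (Y + 1) := by
    calc _ ≤ (‖Φ 1‖ + 2 * M * (2 / 3) ^ (Y + 1)) * t ^ (Y + 1) := by gcongr
      _ = ‖Φ 1‖ * t ^ (Y + 1) + 2 * M * ((2 / 3) ^ (Y + 1) * t ^ (Y + 1)) := by ring
      _ ≤ _ := by gcongr
  have A10 := (abs_le.1 A2).2
  have A11 : (t - 1) * 1 ≤ (t - 1) * (B 0).re := by gcongr
  rw [pow_succ _ (Y + 1)] at A10
  have A12 : 0 ≤ M * (3 / 4) ^ (Y + 1) := by positivity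
  linarith

end Pool.Agent.Lib.ANT
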