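import Pool.Agent.Lib.ANT.Moebius

/-!
# The orthogonality criterion of Katai and Bourgain-Sarnak-Ziegler
-/

open Filter Topology Finset ArithmeticFunction
open scoped ArithmeticFunction.Moebius ComplexConjugate

namespace Pool.Agent.Lib.ANT

lemma card_Icc_dvd (N d : ℕ) : ∑ n ∈ Icc 1 N, (if d ∣ n then (1 : ℝ) else 0) = (N / d : ℕ) := by
  rw [← Nat.Ioc_filter_dvd_card_eq_div, Finset.sum_boole]
  rfl

/-- The inequality of Turan and Kubilius for a finite set of primes. -/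
lemma turan_kubilius (P : Finset ℕ) (hP : ∀ p ∈ P, p.Prime) (N : ℕ) :
    ∑ n ∈ Icc 1 N, ((∑ p ∈ P, if p ∣ n then (1 : ℝ) else 0) - ∑ p ∈ P, (p : ℝ)⁻¹) ^ 2 ≤
      N * (∑ p ∈ P, (p : ℝ)⁻¹) + 2 * (∑ p ∈ P, (p : ℝ)⁻¹) * P.card := by
  set L : ℝ := ∑ p ∈ P, (p : ℝ)⁻¹ with hL
  have hL0 : 0 ≤ L := Finset.sum_nonneg fun p _ => by positivity
  have h1 : N * L - P.card ≤ ∑ n ∈ Icc 1 N, ∑ p ∈ P, if p ∣ n then (1 : ℝ) else 0 := by
    rw [Finset.sum_comm, hL, Finset.mul_sum, Finset.card_eq_sum_ones, Nat.cast_sum,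
      ← Finset.sum_sub_distrib]
    refine Finset.sum_le_sum fun p hp => ?_
    rw [card_Icc_dvd]
    have hp0 : (0 : ℝ) < p := by exact_mod_cast (hP p hp).pos
    have h := Nat.lt_floor_add_one ((N : ℝ) / p)
    rw [Nat.floor_div_natCast, Nat.floor_natCast] at h
    rw [← div_eq_mul_inv]
    push_cast
    linarith
  have h2 : ∑ n ∈ Icc 1 N, (∑ p ∈ P, if p ∣ n then (1 : ℝ) else 0) ^ 2 ≤ N * L + N * L ^ 2 := by
    simp_rw [sq, Finset.sum_mul_sum]
    rw [Finset.sum_comm, hL, Finset.sum_mul_sum, Finset.mul_sum, Finset.mul_sum,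
      ← Finset.sum_add_distrib]
    refine Finset.sum_le_sum fun p hp => ?_
    rw [Finset.sum_comm]
    have hp0 : (0 : ℝ) < p := by exact_mod_cast (hP p hp).pos
    have h3 : ∀ q ∈ P, ∑ n ∈ Icc 1 N, (if p ∣ n then (1 : ℝ) else 0) * (if q ∣ n then 1 else 0) ≤
        (if q = p then (N : ℝ) * (p : ℝ)⁻¹ else 0) + N * ((p : ℝ)⁻¹ * (q : ℝ)⁻¹) := by
      intro q hq
      have hq0 : (0 : ℝ) < q := by exact_mod_cast (hP q hq).pos
      by_cases hqp : q = p
      · subst hqp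
        rw [if_pos rfl]
        have : ∑ n ∈ Icc 1 N, (if q ∣ n then (1 : ℝ) else 0) * (if q ∣ n then 1 else 0) =
            (N / q : ℕ) := by
          rw [← card_Icc_dvd]
          exact Finset.sum_congr rfl fun n _ => by split_ifs <;> simp
        rw [this]
        have h4 : ((N / q : ℕ) : ℝ) ≤ N / q := Nat.cast_div_le
        rw [div_eq_mul_inv] at h4
        have : (0 : ℝ) ≤ N * ((q : ℝ)⁻¹ * (q : ℝ)⁻¹) := by positivity
        linarith
      · rw [if_neg hqp, zero_add]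
        have hc : p.Coprime q := (Nat.coprime_primes (hP p hp) (hP q hq)).2 (Ne.symm hqp)
        have : ∑ n ∈ Icc 1 N, (if p ∣ n then (1 : ℝ) else 0) * (if q ∣ n then 1 else 0) =
            (N / (p * q) : ℕ) := by
          rw [← card_Icc_dvd]
          refine Finset.sum_congr rfl fun n _ => ?_
          by_cases h5 : p ∣ n
          · by_cases h6 : q ∣ n
            · simp [h5, h6, hc.mul_dvd_of_dvd_of_dvd h5 h6]
            · have : ¬ p * q ∣ n := fun h => h6 (dvd_of_mul_left_dvd h)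
              simp [h6, this]
          · have : ¬ p * q ∣ n := fun h => h5 (dvd_of_mul_right_dvd h)
            simp [h5, this]
        rw [this]
        have h4 : ((N / (p * q) : ℕ) : ℝ) ≤ N / (p * q : ℕ) := Nat.cast_div_le
        rw [div_eq_mul_inv] at h4
        push_cast at h4
        rwa [mul_inv] at h4
    refine (Finset.sum_le_sum h3).trans (le_of_eq ?_)
    rw [Finset.sum_add_distrib, Finset.sum_ite_eq' P p, if_pos hp, Finset.mul_sum]
  have h3 : ∑ n ∈ Icc 1 N, ((∑ p ∈ P, if p ∣ n then (1 : ℝ) else 0) - L) ^ 2 =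
      ∑ n ∈ Icc 1 N, (∑ p ∈ P, if p ∣ n then (1 : ℝ) else 0) ^ 2 -
        2 * L * (∑ n ∈ Icc 1 N, ∑ p ∈ P, if p ∣ n then (1 : ℝ) else 0) + N * L ^ 2 := by
    simp_rw [sub_sq]
    rw [Finset.sum_add_distrib, Finset.sum_sub_distrib, Finset.mul_sum]
    congr 1
    · congr 1
      exact Finset.sum_congr rfl fun n _ => by ring
    · simp
  rw [h3]
  nlinarith [mul_le_mul_of_nonneg_left h1 hL0]

lemma sum_inv_sq_le_one (P : Finset ℕ) (hP : ∀ p ∈ P, 2 ≤ p) :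
    ∑ p ∈ P, ((p : ℝ)⁻¹) ^ 2 ≤ 1 := by
  have h1 : ∀ M : ℕ, ∑ p ∈ Icc 2 (M + 1), ((p : ℝ)⁻¹) ^ 2 ≤ 1 - ((M + 1 : ℕ) : ℝ)⁻¹ := by
    intro M
    induction M with
    | zero => simp
    | succ M ih =>
      rw [Finset.sum_Icc_succ_top (by omega)]
      have h0 : (0 : ℝ) < (M + 1 : ℕ) := by positivity
      have h2 : (((M + 1 + 1 : ℕ) : ℝ)⁻¹) ^ 2 ≤ ((M + 1 : ℕ) : ℝ)⁻¹ - ((M + 1 + 1 : ℕ) : ℝ)⁻¹ := by
        have : ((M + 1 + 1 : ℕ) : ℝ) = (M + 1 : ℕ) + 1 := by push_cast; ring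
        rw [this]
        generalize ((M + 1 : ℕ) : ℝ) = x at h0
        rw [inv_sub_inv h0.ne' (by positivity), inv_pow, ← one_div]
        rw [div_le_div_iff₀ (by positivity) (by positivity)]
        nlinarith
      linarith
  have h2 : P ⊆ Icc 2 (P.sup id + 1) := fun p hp =>
    Finset.mem_Icc.2 ⟨hP p hp, (Finset.le_sup (f := id) hp).trans (Nat.le_succ _)⟩
  refine (Finset.sum_le_sum_of_subset_of_nonneg h2 fun _ _ _ => by positivity).trans
    ((h1 _).trans ?_)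
  have : (0 : ℝ) ≤ ((P.sup id + 1 : ℕ) : ℝ)⁻¹ := by positivity
  linarith

lemma le_of_sq_le_sq₀ {x y : ℝ} (hy : 0 ≤ y) (h : x ^ 2 ≤ y ^ 2) : x ≤ y :=
  (abs_le_of_sq_le_sq' h hy).2

/-- One block of primes of comparable size. -/
lemma katai_block (g a : ℕ → ℂ) (hg : ∀ n, ‖g n‖ ≤ 1) (ha : ∀ n, ‖a n‖ ≤ 1) (Q : Finset ℕ)
    {D : ℕ} (hD : 0 < D) (hQ : ∀ p ∈ Q, D ≤ p) {ε : ℝ} (hε : 0 ≤ ε)
    (N : ℕ) (hN : ∀ p ∈ Q, ∀ q ∈ Q, p ≠ q →
      ‖∑ m ∈ Icc 1 (N / max p q), a (p * m) * conj (a (q * m))‖ ≤ ε * (N / (max p q : ℕ))) :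
    ‖∑ p ∈ Q, ∑ m ∈ Icc 1 (N / p), g p * g m * a (p * m)‖ ≤
      N / D * (√Q.card + √ε * Q.card) := by
  set b : ℕ → ℕ → ℂ := fun p m => if m ≤ N / p then g p * a (p * m) else 0 with hb
  have hsub : ∀ p, D ≤ p → Icc 1 (N / p) = (Icc 1 (N / D)).filter (· ≤ N / p) := by
    intro p hp
    ext m
    have : N / p ≤ N / D := Nat.div_le_div_left hp hD
    simp only [Finset.mem_Icc, Finset.mem_filter]
    omega
  have h2 : ∑ p ∈ Q, ∑ m ∈ Icc 1 (N / p), g p * g m * a (p * m) =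
      ∑ m ∈ Icc 1 (N / D), g m * ∑ p ∈ Q, b p m := by
    simp_rw [Finset.mul_sum]
    rw [Finset.sum_comm]
    refine Finset.sum_congr rfl fun p hp => ?_
    rw [hsub p (hQ p hp), Finset.sum_filter]
    refine Finset.sum_congr rfl fun m _ => ?_
    simp only [hb]
    split_ifs <;> ring
  have hND : ((N / D : ℕ) : ℝ) ≤ N / D := Nat.cast_div_le
  have h3 : ∀ p ∈ Q, ∀ q ∈ Q, ‖∑ m ∈ Icc 1 (N / D), b p m * conj (b q m)‖ ≤
      (if q = p then (N : ℝ) / D else 0) + ε * (N / D) := by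
    intro p hp q hq
    have hε' : 0 ≤ ε * ((N : ℝ) / D) := by positivity
    by_cases hqp : q = p
    · rw [if_pos hqp]
      refine (norm_sum_le _ _).trans ?_
      have : ∀ m ∈ Icc 1 (N / D), ‖b p m * conj (b q m)‖ ≤ 1 := by
        have hb1 : ∀ p m, ‖b p m‖ ≤ 1 := by
          intro p m
          simp only [hb]
          split_ifs
          · rw [norm_mul]
            exact mul_le_one₀ (hg _) (norm_nonneg _) (ha _)
          · simp
        intro m _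
        rw [norm_mul, Complex.norm_conj]
        exact mul_le_one₀ (hb1 _ _) (norm_nonneg _) (hb1 _ _)
      have := Finset.sum_le_card_nsmul _ _ _ this
      simp only [Nat.card_Icc, Nat.add_sub_cancel, nsmul_eq_mul, mul_one] at this
      linarith
    · rw [if_neg hqp, zero_add]
      have h4 : ∑ m ∈ Icc 1 (N / D), b p m * conj (b q m) =
          g p * conj (g q) * ∑ m ∈ Icc 1 (N / max p q), a (p * m) * conj (a (q * m)) := by
        rw [hsub (max p q) (le_max_of_le_left (hQ p hp)), Finset.sum_filter, Finset.mul_sum]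
        refine Finset.sum_congr rfl fun m _ => ?_
        have hp0 : 0 < p := hD.trans_le (hQ p hp)
        have hq0 : 0 < q := hD.trans_le (hQ q hq)
        have h5 : m ≤ N / max p q ↔ m ≤ N / p ∧ m ≤ N / q := by
          rw [Nat.le_div_iff_mul_le hp0, Nat.le_div_iff_mul_le hq0,
            Nat.le_div_iff_mul_le (lt_max_of_lt_left hp0), ← Nat.mul_max_mul_left, max_le_iff]
        simp only [hb]
        by_cases h6 : m ≤ N / p
        · by_cases h7 : m ≤ N / q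
          · rw [if_pos h6, if_pos h7, if_pos (h5.2 ⟨h6, h7⟩), map_mul]
            ring
          · rw [if_neg h7, if_neg fun h => h7 (h5.1 h).2]
            simp
        · rw [if_neg h6, if_neg fun h => h6 (h5.1 h).1]
          simp
      rw [h4, norm_mul, norm_mul, Complex.norm_conj]
      have h5 : (N : ℝ) / (max p q : ℕ) ≤ N / D :=
        div_le_div_of_nonneg_left (by positivity) (by exact_mod_cast hD)
          (by exact_mod_cast le_max_of_le_left (hQ p hp))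
      calc _ ≤ 1 * (ε * (N / (max p q : ℕ))) :=
            mul_le_mul (mul_le_one₀ (hg _) (norm_nonneg _) (hg _)) (hN p hp q hq (Ne.symm hqp))
              (norm_nonneg _) zero_le_one
        _ ≤ _ := by rw [one_mul]; exact mul_le_mul_of_nonneg_left h5 hε
  have h4 : ∑ m ∈ Icc 1 (N / D), ‖∑ p ∈ Q, b p m‖ ^ 2 ≤ N / D * (Q.card + ε * Q.card ^ 2) := by
    have h5 : ((∑ m ∈ Icc 1 (N / D), ‖∑ p ∈ Q, b p m‖ ^ 2 : ℝ) : ℂ) =
        ∑ p ∈ Q, ∑ q ∈ Q, ∑ m ∈ Icc 1 (N / D), b p m * conj (b q m) := by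
      push_cast
      simp_rw [← Complex.mul_conj', map_sum, Finset.sum_mul_sum]
      rw [Finset.sum_comm]
      exact Finset.sum_congr rfl fun p _ => Finset.sum_comm
    have h6 : ∑ m ∈ Icc 1 (N / D), ‖∑ p ∈ Q, b p m‖ ^ 2 ≤
        ‖∑ p ∈ Q, ∑ q ∈ Q, ∑ m ∈ Icc 1 (N / D), b p m * conj (b q m)‖ := by
      rw [← h5, Complex.norm_real]
      exact le_abs_self _
    refine h6.trans ((norm_sum_le _ _).trans ?_)
    have h7 : ∀ p ∈ Q, ‖∑ q ∈ Q, ∑ m ∈ Icc 1 (N / D), b p m * conj (b q m)‖ ≤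
        N / D + Q.card * (ε * (N / D)) := by
      intro p hp
      refine (norm_sum_le _ _).trans ((Finset.sum_le_sum (h3 p hp)).trans (le_of_eq ?_))
      rw [Finset.sum_add_distrib, Finset.sum_ite_eq' Q p, if_pos hp, Finset.sum_const,
        nsmul_eq_mul]
    refine (Finset.sum_le_card_nsmul _ _ _ h7).trans (le_of_eq ?_)
    rw [nsmul_eq_mul]
    ring
  rw [h2]
  have h5 : ‖∑ m ∈ Icc 1 (N / D), g m * ∑ p ∈ Q, b p m‖ ≤
      ∑ m ∈ Icc 1 (N / D), 1 * ‖∑ p ∈ Q, b p m‖ := by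
    refine (norm_sum_le _ _).trans (Finset.sum_le_sum fun m _ => ?_)
    rw [norm_mul]
    exact mul_le_mul_of_nonneg_right (hg _) (norm_nonneg _)
  have h6 := Finset.sum_mul_sq_le_sq_mul_sq (Icc 1 (N / D)) (fun _ => (1 : ℝ))
    fun m => ‖∑ p ∈ Q, b p m‖
  simp only [one_pow, Finset.sum_const, Nat.card_Icc, Nat.add_sub_cancel, nsmul_eq_mul,
    mul_one] at h6
  refine h5.trans (le_of_sq_le_sq₀ (by positivity) (h6.trans ?_))
  have h7 : (Q.card : ℝ) + ε * Q.card ^ 2 ≤ (√Q.card + √ε * Q.card) ^ 2 := by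
    have e1 : √(Q.card : ℝ) ^ 2 = Q.card := Real.sq_sqrt (by positivity)
    have e2 : √ε ^ 2 = ε := Real.sq_sqrt hε
    have e3 : 0 ≤ 2 * √(Q.card : ℝ) * (√ε * Q.card) := by positivity
    rw [add_sq, mul_pow, e1, e2]
    linarith
  calc _ ≤ (N : ℝ) / D * (N / D * (Q.card + ε * Q.card ^ 2)) :=
        mul_le_mul hND h4 (Finset.sum_nonneg fun _ _ => by positivity) (by positivity)
    _ ≤ N / D * (N / D * (√Q.card + √ε * Q.card) ^ 2) := by gcongr
    _ = _ := by ring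

/-- The criterion with explicit constants, for a finite set `P` of primes and one value of `N`. -/
theorem katai_at (g a : ℕ → ℂ) (hg : ∀ n, ‖g n‖ ≤ 1) (ha : ∀ n, ‖a n‖ ≤ 1) (P : Finset ℕ)
    (hP : ∀ p ∈ P, p.Prime) (hm : ∀ p ∈ P, ∀ m, ¬ p ∣ m → g (p * m) = g p * g m) {ε : ℝ}
    (hε : 0 ≤ ε) (N : ℕ) (hNP : P.card ≤ N) (hc : ∀ p ∈ P, ∀ q ∈ P, p ≠ q →
      ‖∑ m ∈ Icc 1 (N / max p q), a (p * m) * conj (a (q * m))‖ ≤ ε * (N / (max p q : ℕ))) :
    (∑ p ∈ P, (p : ℝ)⁻¹) * ‖∑ n ∈ Icc 1 N, g n * a n‖ ≤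
      (4 * √(∑ p ∈ P, (p : ℝ)⁻¹) + 2 + 2 * √ε * ∑ p ∈ P, (p : ℝ)⁻¹) * N := by
  classical
  set L : ℝ := ∑ p ∈ P, (p : ℝ)⁻¹ with hL
  have hL0 : 0 ≤ L := Finset.sum_nonneg fun p _ => by positivity
  set J := P.sup (Nat.log 2) + 1 with hJ
  have hmaps : ∀ p ∈ P, Nat.log 2 p ∈ range J := fun p hp =>
    Finset.mem_range.2 (Nat.lt_succ_of_le (Finset.le_sup (f := Nat.log 2) hp))
  set Q : ℕ → Finset ℕ := fun j => P.filter fun p => Nat.log 2 p = j with hQ
  have hN : ∀ j ∈ range J,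
      ‖∑ p ∈ Q j, ∑ m ∈ Icc 1 (N / p), g p * g m * a (p * m)‖ ≤
        N / (2 ^ j : ℕ) * (√(Q j).card + √ε * (Q j).card) := by
    intro j _
    refine katai_block g a hg ha (Q j) (by positivity) (fun p hp => ?_) hε N
      fun p hp q hq => hc p (Finset.mem_filter.1 hp).1 q (Finset.mem_filter.1 hq).1
    obtain ⟨h1, h2⟩ := Finset.mem_filter.1 hp
    rw [← h2]
    exact Nat.pow_log_le_self 2 (hP p h1).ne_zero
  have hA : ∑ j ∈ range J, ((Q j).card : ℝ) / 2 ^ j ≤ 2 * L := by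
    rw [hL, ← Finset.sum_fiberwise_of_maps_to hmaps, Finset.mul_sum]
    refine Finset.sum_le_sum fun j _ => ?_
    rw [Finset.mul_sum, div_eq_mul_inv, ← nsmul_eq_mul, ← Finset.sum_const]
    refine Finset.sum_le_sum fun p hp => ?_
    obtain ⟨h1, h2⟩ := Finset.mem_filter.1 hp
    have h3 : p < 2 ^ (j + 1) := h2 ▸ Nat.lt_pow_succ_log_self one_lt_two p
    have h4 : (p : ℝ) ≤ 2 ^ (j + 1) := by exact_mod_cast h3.le
    have hp0 : (0 : ℝ) < p := by exact_mod_cast (hP p h1).pos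
    rw [← div_eq_mul_inv, ← one_div, div_le_div_iff₀ (by positivity) hp0]
    rw [pow_succ] at h4
    linarith
  have hB : ∑ j ∈ range J, √((Q j).card : ℝ) / 2 ^ j ≤ 2 * √L := by
    have h2 := Finset.sum_mul_sq_le_sq_mul_sq (range J) (fun j => √(((Q j).card : ℝ) / 2 ^ j))
      fun j => √((1 / 2 : ℝ) ^ j)
    have h3 : ∀ j, √(((Q j).card : ℝ) / 2 ^ j) * √((1 / 2 : ℝ) ^ j) = √(Q j).card / 2 ^ j := by
      intro j
      rw [Real.sqrt_div (by positivity), one_div, inv_pow, Real.sqrt_inv, div_eq_mul_inv,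
        mul_assoc, ← mul_inv, Real.mul_self_sqrt (by positivity), div_eq_mul_inv]
    have h4 : ∀ j, √(((Q j).card : ℝ) / 2 ^ j) ^ 2 = (Q j).card / 2 ^ j := fun j =>
      Real.sq_sqrt (by positivity)
    have h5 : ∀ j, √((1 / 2 : ℝ) ^ j) ^ 2 = (1 / 2) ^ j := fun j => Real.sq_sqrt (by positivity)
    simp only [h3, h4, h5] at h2
    refine le_of_sq_le_sq₀ (by positivity) (h2.trans ?_)
    rw [mul_pow, Real.sq_sqrt hL0]
    have h6 := sum_geometric_two_le J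
    have h7 : 0 ≤ ∑ j ∈ range J, (1 / 2 : ℝ) ^ j := Finset.sum_nonneg fun _ _ => by positivity
    nlinarith
  have hNP' : (P.card : ℝ) ≤ N := by exact_mod_cast hNP
  have hN0 : (0 : ℝ) ≤ N := by positivity
  have h2 : ‖∑ p ∈ P, ∑ m ∈ Icc 1 (N / p), g p * g m * a (p * m)‖ ≤
      (2 * √L + 2 * √ε * L) * N := by
    rw [← Finset.sum_fiberwise_of_maps_to hmaps]
    refine (norm_sum_le _ _).trans ((Finset.sum_le_sum hN).trans ?_)
    have : ∑ j ∈ range J, (N : ℝ) / (2 ^ j : ℕ) * (√(Q j).card + √ε * (Q j).card) =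
        N * (∑ j ∈ range J, √((Q j).card : ℝ) / 2 ^ j +
          √ε * ∑ j ∈ range J, ((Q j).card : ℝ) / 2 ^ j) := by
      rw [Finset.mul_sum, ← Finset.sum_add_distrib, Finset.mul_sum]
      refine Finset.sum_congr rfl fun j _ => ?_
      push_cast
      ring
    rw [this, mul_comm]
    have := mul_le_mul_of_nonneg_left hA (Real.sqrt_nonneg ε)
    exact mul_le_mul_of_nonneg_right (by linarith) hN0
  have h3 : ‖∑ p ∈ P, ∑ m ∈ Icc 1 (N / p), (g (p * m) - g p * g m) * a (p * m)‖ ≤ 2 * N := by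
    refine (norm_sum_le _ _).trans ?_
    have h4 : ∀ p ∈ P, ‖∑ m ∈ Icc 1 (N / p), (g (p * m) - g p * g m) * a (p * m)‖ ≤
        2 * N * ((p : ℝ)⁻¹) ^ 2 := by
      intro p hp
      have h5 : ∀ m ∈ Icc 1 (N / p), ‖(g (p * m) - g p * g m) * a (p * m)‖ ≤
          2 * if p ∣ m then (1 : ℝ) else 0 := by
        intro m _
        split_ifs with h
        · rw [norm_mul]
          refine mul_le_mul ((norm_sub_le _ _).trans ?_) (ha _) (norm_nonneg _) zero_le_two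
          rw [norm_mul]
          linarith [hg (p * m), mul_le_one₀ (hg p) (norm_nonneg _) (hg m)]
        · simp [hm p hp m h]
      refine (norm_sum_le _ _).trans ((Finset.sum_le_sum h5).trans ?_)
      rw [← Finset.mul_sum, card_Icc_dvd, Nat.div_div_eq_div_mul, mul_assoc]
      have h6 : ((N / (p * p) : ℕ) : ℝ) ≤ N / (p * p : ℕ) := Nat.cast_div_le
      push_cast at h6
      rw [div_eq_mul_inv, mul_inv] at h6
      rw [sq]
      linarith
    refine (Finset.sum_le_sum h4).trans ?_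
    rw [← Finset.mul_sum]
    have := sum_inv_sq_le_one P fun p hp => (hP p hp).two_le
    nlinarith
  have h4 : ‖∑ n ∈ Icc 1 N, (((∑ p ∈ P, if p ∣ n then (1 : ℝ) else 0) - L : ℝ) : ℂ) *
      (g n * a n)‖ ≤ 2 * √L * N := by
    have h5 : ∀ n ∈ Icc 1 N, ‖(((∑ p ∈ P, if p ∣ n then (1 : ℝ) else 0) - L : ℝ) : ℂ) *
        (g n * a n)‖ ≤ 1 * |(∑ p ∈ P, if p ∣ n then (1 : ℝ) else 0) - L| := by
      intro n _
      rw [norm_mul, Complex.norm_real, mul_comm, norm_mul]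
      exact mul_le_mul_of_nonneg_right (mul_le_one₀ (hg _) (norm_nonneg _) (ha _)) (norm_nonneg _)
    refine (norm_sum_le _ _).trans ((Finset.sum_le_sum h5).trans ?_)
    have h6 := Finset.sum_mul_sq_le_sq_mul_sq (Icc 1 N) (fun _ => (1 : ℝ))
      fun n => |(∑ p ∈ P, if p ∣ n then (1 : ℝ) else 0) - L|
    simp only [one_pow, Finset.sum_const, Nat.card_Icc, Nat.add_sub_cancel, nsmul_eq_mul,
      mul_one, sq_abs] at h6
    refine le_of_sq_le_sq₀ (by positivity) (h6.trans ?_)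
    refine (mul_le_mul_of_nonneg_left (turan_kubilius P hP N) hN0).trans ?_
    rw [mul_pow, mul_pow, Real.sq_sqrt hL0, ← hL]
    nlinarith [mul_le_mul_of_nonneg_left hNP' (mul_nonneg hN0 hL0), mul_nonneg hN0 (mul_nonneg hN0 hL0)]
  have h5 : (L : ℂ) * ∑ n ∈ Icc 1 N, g n * a n =
      ∑ p ∈ P, ∑ m ∈ Icc 1 (N / p), g p * g m * a (p * m) +
      ∑ p ∈ P, ∑ m ∈ Icc 1 (N / p), (g (p * m) - g p * g m) * a (p * m) -
      ∑ n ∈ Icc 1 N, (((∑ p ∈ P, if p ∣ n then (1 : ℝ) else 0) - L : ℝ) : ℂ) * (g n * a n) := by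
    have h6 : ∑ p ∈ P, ∑ m ∈ Icc 1 (N / p), g p * g m * a (p * m) +
        ∑ p ∈ P, ∑ m ∈ Icc 1 (N / p), (g (p * m) - g p * g m) * a (p * m) =
        ∑ n ∈ Icc 1 N, ((∑ p ∈ P, if p ∣ n then (1 : ℝ) else 0 : ℝ) : ℂ) * (g n * a n) := by
      rw [← Finset.sum_add_distrib]
      push_cast
      simp_rw [Finset.sum_mul]
      rw [Finset.sum_comm]
      refine Finset.sum_congr rfl fun p hp => ?_
      rw [← Finset.sum_add_distrib]
      have h7 := sum_Icc_ite_dvd (hP p hp).pos N fun n => g n * a n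
      calc _ = _ := Finset.sum_congr rfl fun m _ => by ring
        _ = _ := h7.symm
        _ = _ := Finset.sum_congr rfl fun n _ => by split_ifs <;> simp
    rw [h6, ← Finset.sum_sub_distrib, Finset.mul_sum]
    refine Finset.sum_congr rfl fun n _ => ?_
    push_cast
    ring
  have h6 : L * ‖∑ n ∈ Icc 1 N, g n * a n‖ = ‖(L : ℂ) * ∑ n ∈ Icc 1 N, g n * a n‖ := by
    rw [norm_mul, Complex.norm_real, Real.norm_of_nonneg hL0]
  rw [h6, h5]
  refine (norm_sub_le _ _).trans ((add_le_add ((norm_add_le _ _).trans (add_le_add h2 h3))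
    h4).trans (le_of_eq ?_))
  ring

/-- The criterion with explicit constants, for a finite set `P` of primes. -/
theorem katai_finite (g a : ℕ → ℂ) (hg : ∀ n, ‖g n‖ ≤ 1) (ha : ∀ n, ‖a n‖ ≤ 1) (P : Finset ℕ)
    (hP : ∀ p ∈ P, p.Prime) (hm : ∀ p ∈ P, ∀ m, ¬ p ∣ m → g (p * m) = g p * g m) {ε : ℝ}
    (hε : 0 ≤ ε) (hc : ∀ p ∈ P, ∀ q ∈ P, p ≠ q → ∀ᶠ M : ℕ in atTop,
      ‖∑ m ∈ Icc 1 M, a (p * m) * conj (a (q * m))‖ ≤ ε * M) :
    ∀ᶠ N : ℕ in atTop, (∑ p ∈ P, (p : ℝ)⁻¹) * ‖∑ n ∈ Icc 1 N, g n * a n‖ ≤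
      (4 * √(∑ p ∈ P, (p : ℝ)⁻¹) + 2 + 2 * √ε * ∑ p ∈ P, (p : ℝ)⁻¹) * N := by
  have h1 : ∀ᶠ N : ℕ in atTop, ∀ p ∈ P, ∀ q ∈ P, p ≠ q →
      ‖∑ m ∈ Icc 1 (N / max p q), a (p * m) * conj (a (q * m))‖ ≤ ε * (N / (max p q : ℕ)) := by
    simp only [Filter.eventually_all_finset]
    intro p hp q hq
    by_cases hpq : p = q
    · exact Eventually.of_forall fun _ h => absurd hpq h
    · have h0 : 0 < max p q := lt_max_of_lt_left (hP p hp).pos
      filter_upwards [(Nat.tendsto_div_const_atTop h0.ne').eventually (hc p hp q hq hpq)]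
        with N hN _ using hN.trans (mul_le_mul_of_nonneg_left Nat.cast_div_le hε)
  filter_upwards [h1, eventually_ge_atTop P.card] with N hN hNP
  exact katai_at g a hg ha P hP hm hε N hNP hN

/-- A set of natural numbers whose reciprocals are not summable has finite subsets with large
reciprocal sums. -/
lemma exists_finset_sum_inv_ge {P : Set ℕ} (hs : ¬ Summable fun p : P => ((p : ℕ) : ℝ)⁻¹) (C : ℝ) :
    ∃ F : Finset ℕ, (F : Set ℕ) ⊆ P ∧ C ≤ ∑ p ∈ F, (p : ℝ)⁻¹ := by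
  by_contra h
  push Not at h
  refine hs (summable_of_sum_le (c := C) (fun _ => by positivity) fun u => ?_)
  have := h (u.map (Function.Embedding.subtype _)) (by
    intro x hx
    simp only [Finset.coe_map, Set.mem_image] at hx
    obtain ⟨y, _, rfl⟩ := hx
    exact y.2)
  rw [Finset.sum_map] at this
  exact this.le

/-- The criterion with error terms: if the correlations along a set of primes with divergent
reciprocal sum are at most `ε`, then the averages are at most `2 √ε + δ`. -/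
theorem katai_eps (g a : ℕ → ℂ) (hg : ∀ n, ‖g n‖ ≤ 1) (ha : ∀ n, ‖a n‖ ≤ 1) (P : Set ℕ)
    (hP : ∀ p ∈ P, p.Prime) (hs : ¬ Summable fun p : P => ((p : ℕ) : ℝ)⁻¹)
    (hm : ∀ p ∈ P, ∀ m, ¬ p ∣ m → g (p * m) = g p * g m) {ε : ℝ}
    (hε : 0 ≤ ε) (hc : ∀ p ∈ P, ∀ q ∈ P, p ≠ q → ∀ᶠ M : ℕ in atTop,
      ‖∑ m ∈ Icc 1 M, a (p * m) * conj (a (q * m))‖ ≤ ε * M) {δ : ℝ} (hδ : 0 < δ) :
    ∀ᶠ N : ℕ in atTop, ‖∑ n ∈ Icc 1 N, g n * a n‖ ≤ (2 * √ε + δ) * N := by
  obtain ⟨F, hF, hC⟩ := exists_finset_sum_inv_ge hs (max 1 ((6 / δ) ^ 2))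
  filter_upwards [katai_finite g a hg ha F (fun p hp => hP p (hF hp)) (fun p hp => hm p (hF hp))
    hε fun p hp q hq => hc p (hF hp) q (hF hq)] with N hN
  set L : ℝ := ∑ p ∈ F, (p : ℝ)⁻¹
  have h1 : 1 ≤ L := (le_max_left _ _).trans hC
  have h2 : 6 / δ ≤ √L := Real.le_sqrt_of_sq_le ((le_max_right _ _).trans hC)
  have h3 : 1 ≤ √L := Real.one_le_sqrt.2 h1
  have h4 : √L * √L = L := Real.mul_self_sqrt (by linarith)
  rw [div_le_iff₀ hδ] at h2
  have h5 : 4 * √L + 2 ≤ δ * L := by nlinarith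
  refine le_of_mul_le_mul_left (hN.trans ?_) (by linarith : 0 < L)
  rw [← mul_assoc]
  exact mul_le_mul_of_nonneg_right (by nlinarith) (by positivity)

lemma tendsto_div_iff_eventually (S : ℕ → ℂ) :
    Tendsto (fun N : ℕ => S N / N) atTop (𝓝 0) ↔
      ∀ δ : ℝ, 0 < δ → ∀ᶠ N : ℕ in atTop, ‖S N‖ ≤ δ * N := by
  rw [tendsto_zero_iff_norm_tendsto_zero, Metric.tendsto_nhds]
  constructor
  · intro h δ hδ
    filter_upwards [h δ hδ, eventually_gt_atTop 0] with N hN h0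
    have h1 : (0 : ℝ) < N := by exact_mod_cast h0
    rw [Real.dist_0_eq_abs, abs_norm, norm_div, Complex.norm_natCast, div_lt_iff₀ h1] at hN
    exact hN.le
  · intro h δ hδ
    filter_upwards [h (δ / 2) (by positivity), eventually_gt_atTop 0] with N hN h0
    have h1 : (0 : ℝ) < N := by exact_mod_cast h0
    rw [Real.dist_0_eq_abs, abs_norm, norm_div, Complex.norm_natCast, div_lt_iff₀ h1]
    nlinarith

/-- The orthogonality criterion for a bounded function `g` that is multiplicative at the primes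
of `P`. -/
theorem katai_mult (g a : ℕ → ℂ) (hg : ∀ n, ‖g n‖ ≤ 1) (ha : ∀ n, ‖a n‖ ≤ 1) (P : Set ℕ)
    (hP : ∀ p ∈ P, p.Prime) (hs : ¬ Summable fun p : P => ((p : ℕ) : ℝ)⁻¹)
    (hm : ∀ p ∈ P, ∀ m, ¬ p ∣ m → g (p * m) = g p * g m)
    (hc : ∀ p ∈ P, ∀ q ∈ P, p ≠ q → Tendsto (fun M : ℕ =>
      (∑ m ∈ Icc 1 M, a (p * m) * conj (a (q * m))) / M) atTop (𝓝 0)) :
    Tendsto (fun N : ℕ => (∑ n ∈ Icc 1 N, g n * a n) / N) atTop (𝓝 0) := by
  rw [tendsto_div_iff_eventually]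
  intro δ hδ
  have h := katai_eps g a hg ha P hP hs hm (ε := (δ / 4) ^ 2) (by positivity)
    (fun p hp q hq hpq => (tendsto_div_iff_eventually _).1 (hc p hp q hq hpq) _ (by positivity))
    (half_pos hδ)
  rw [Real.sqrt_sq (by positivity)] at h
  filter_upwards [h] with N hN
  exact hN.trans (le_of_eq (by ring))

lemma norm_moebius_le_one (n : ℕ) : ‖(μ n : ℂ)‖ ≤ 1 := by
  rw [Complex.norm_intCast]
  exact_mod_cast abs_moebius_le_one

lemma moebius_prime_mul {p m : ℕ} (hp : p.Prime) (h : ¬ p ∣ m) :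
    (μ (p * m) : ℂ) = (μ p : ℂ) * (μ m : ℂ) := by
  rw [isMultiplicative_moebius.map_mul_of_coprime (hp.coprime_iff_not_dvd.2 h)]
  push_cast
  rfl

/-- The criterion for the Moebius function, with error terms. -/
theorem katai_moebius_eps (a : ℕ → ℂ) (ha : ∀ n, ‖a n‖ ≤ 1) (P : Set ℕ)
    (hP : ∀ p ∈ P, p.Prime) (hs : ¬ Summable fun p : P => ((p : ℕ) : ℝ)⁻¹) {ε : ℝ}
    (hε : 0 ≤ ε) (hc : ∀ p ∈ P, ∀ q ∈ P, p ≠ q → ∀ᶠ M : ℕ in atTop,
      ‖∑ m ∈ Icc 1 M, a (p * m) * conj (a (q * m))‖ ≤ ε * M) {δ : ℝ} (hδ : 0 < δ) :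
    ∀ᶠ N : ℕ in atTop, ‖∑ n ∈ Icc 1 N, a n * (μ n : ℂ)‖ ≤ (2 * √ε + δ) * N := by
  simpa only [mul_comm] using katai_eps (fun n => (μ n : ℂ)) a norm_moebius_le_one ha P hP hs
    (fun p hp m h => moebius_prime_mul (hP p hp) h) hε hc hδ

/-- The criterion for the Moebius function. -/
theorem katai_moebius (a : ℕ → ℂ) (ha : ∀ n, ‖a n‖ ≤ 1) (P : Set ℕ)
    (hP : ∀ p ∈ P, p.Prime) (hs : ¬ Summable fun p : P => ((p : ℕ) : ℝ)⁻¹)
    (hc : ∀ p ∈ P, ∀ q ∈ P, p ≠ q → Tendsto (fun M : ℕ =>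
      (∑ m ∈ Icc 1 M, a (p * m) * conj (a (q * m))) / M) atTop (𝓝 0)) :
    Tendsto (fun N : ℕ => (∑ n ∈ Icc 1 N, a n * (μ n : ℂ)) / N) atTop (𝓝 0) := by
  simpa only [mul_comm] using katai_mult (fun n => (μ n : ℂ)) a norm_moebius_le_one ha P hP hs
    (fun p hp m h => moebius_prime_mul (hP p hp) h) hc

/-- The criterion for the Moebius function, uniformly in the sequence. -/
theorem katai_fin (P : Set ℕ) (hP : ∀ p ∈ P, p.Prime)
    (hdiv : ¬ Summable (fun p : P => (1 : ℝ) / (p : ℕ))) (ε : ℝ) (hε : 0 < ε) :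
    ∃ P0 : Finset ℕ, (∀ p ∈ P0, p ∈ P) ∧ ∃ δ > (0 : ℝ), ∃ N0 : ℕ, ∀ N ≥ N0, ∀ a : ℕ → ℂ,
      (∀ n, ‖a n‖ ≤ 1) → (∀ p ∈ P0, ∀ q ∈ P0, p ≠ q → ∀ M ≤ N,
        ‖∑ m ∈ Icc 1 M, a (p * m) * (starRingEnd ℂ) (a (q * m))‖ ≤ δ * N) →
      ‖∑ n ∈ Icc 1 N, (moebius n : ℂ) * a n‖ ≤ ε * N := by
  simp only [one_div] at hdiv
  obtain ⟨F, hF, hC⟩ := exists_finset_sum_inv_ge hdiv (max 1 ((12 / ε) ^ 2))
  refine ⟨F, fun p hp => hF hp, (ε / 4) ^ 2 / (F.sup id + 1 : ℕ), by positivity, F.card,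
    fun N hN a ha hc => ?_⟩
  have h := katai_at (fun n => (μ n : ℂ)) a norm_moebius_le_one ha F (fun p hp => hP p (hF hp))
    (fun p hp m h => moebius_prime_mul (hP p (hF hp)) h) (ε := (ε / 4) ^ 2) (by positivity) N hN
    (fun p hp q hq hpq => (hc p hp q hq hpq _ (Nat.div_le_self _ _)).trans (by
      have h0 : 0 < max p q := lt_max_of_lt_left (hP p (hF hp)).pos
      have h1 : max p q ≤ F.sup id + 1 :=
        (max_le (Finset.le_sup (f := id) hp) (Finset.le_sup (f := id) hq)).trans (Nat.le_succ _)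
      rw [div_mul_eq_mul_div, mul_div_assoc]
      exact mul_le_mul_of_nonneg_left (div_le_div_of_nonneg_left (by positivity)
        (by exact_mod_cast h0) (by exact_mod_cast h1)) (by positivity)))
  rw [Real.sqrt_sq (by positivity)] at h
  set L : ℝ := ∑ p ∈ F, (p : ℝ)⁻¹
  have h1 : 1 ≤ L := (le_max_left _ _).trans hC
  have h2 : 12 / ε ≤ √L := Real.le_sqrt_of_sq_le ((le_max_right _ _).trans hC)
  have h3 : 1 ≤ √L := Real.one_le_sqrt.2 h1
  have h4 : √L * √L = L := Real.mul_self_sqrt (by linarith)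
  rw [div_le_iff₀ hε] at h2
  have h5 : 4 * √L + 2 ≤ ε / 2 * L := by nlinarith
  refine le_of_mul_le_mul_left (h.trans ?_) (by linarith : 0 < L)
  rw [← mul_assoc]
  exact mul_le_mul_of_nonneg_right (by nlinarith) (by positivity)

lemma not_summable_inv_primes : ¬ Summable fun p : {p : ℕ | p.Prime} => ((p : ℕ) : ℝ)⁻¹ := by
  have h := Nat.Primes.not_summable_one_div
  simp only [one_div] at h
  exact h

/-- Pigeonhole: for every finite colouring, the primes of some colour have divergent reciprocal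
sum. -/
lemma exists_colour_not_summable {κ : Type*} [Finite κ] (c : ℕ → κ) :
    ∃ k, ¬ Summable fun p : {p : ℕ | p.Prime ∧ c p = k} => ((p : ℕ) : ℝ)⁻¹ := by
  classical
  by_contra h
  push Not at h
  have := Fintype.ofFinite κ
  refine not_summable_inv_primes ?_
  have h1 : ∀ k, Summable (Set.indicator {p : ℕ | p.Prime ∧ c p = k} fun p : ℕ => (p : ℝ)⁻¹) :=
    fun k => summable_subtype_iff_indicator.1 (h k)
  refine (summable_subtype_iff_indicator (f := fun p : ℕ => (p : ℝ)⁻¹)).2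
    ((summable_sum (s := Finset.univ) fun k _ => h1 k).congr fun n => ?_)
  by_cases hn : n.Prime <;> simp [Set.indicator, hn]

end Pool.Agent.Lib.ANT
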