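import Pool.Agent.Lib.ANT.Katai

/-!
# The orthogonality criterion with separate coefficients at the primes
-/

open Filter Topology Finset ArithmeticFunction
open scoped ArithmeticFunction.Moebius ComplexConjugate
namespace Pool.Agent.Lib.ANT

/-- One block of primes of comparable size. -/
lemma katai_block2 (c g a : ℕ → ℂ) (hc1 : ∀ n, ‖c n‖ ≤ 1) (hg : ∀ n, ‖g n‖ ≤ 1) (ha : ∀ n, ‖a n‖ ≤ 1) (Q : Finset ℕ)
    {D : ℕ} (hD : 0 < D) (hQ : ∀ p ∈ Q, D ≤ p) {ε : ℝ} (hε : 0 ≤ ε)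
    (N : ℕ) (hN : ∀ p ∈ Q, ∀ q ∈ Q, p ≠ q →
      ‖∑ m ∈ Icc 1 (N / max p q), a (p * m) * conj (a (q * m))‖ ≤ ε * (N / (max p q : ℕ))) :
    ‖∑ p ∈ Q, ∑ m ∈ Icc 1 (N / p), c p * g m * a (p * m)‖ ≤
      N / D * (√Q.card + √ε * Q.card) := by
  set b : ℕ → ℕ → ℂ := fun p m => if m ≤ N / p then c p * a (p * m) else 0 with hb
  have hsub : ∀ p, D ≤ p → Icc 1 (N / p) = (Icc 1 (N / D)).filter (· ≤ N / p) := by
    intro p hp
    ext m
    have : N / p ≤ N / D := Nat.div_le_div_left hp hD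
    simp only [Finset.mem_Icc, Finset.mem_filter]
    omega
  have h2 : ∑ p ∈ Q, ∑ m ∈ Icc 1 (N / p), c p * g m * a (p * m) =
      ∑ m ∈ Icc 1 (N / D), g m * ∑ p ∈ Q, b p m := by
    simp_rw [Finset.mul_sum]
    rw [Finset.sum_comm]
    refine Finset.sum_congr rfl fun p hp => ?_
    rw [hsub p (hQ p hp), Finset.sum_filter]
    refine Finset.sum_congr rfl fun m _ => ?_
    simp only [hb]
    split_ifs <;> ring
  have hND : ((N / D : ℕ) : ℝ) ≤ N / D := Nat.cast_div_le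
  have h3 : ∀ p ∈ Q, ∀ q ∈ Q, ‖∑ m ∈ Icc 1 (N / D), b p m * conj (b q m)‖ ≤
      (if q = p then (N : ℝ) / D else 0) + ε * (N / D) := by
    intro p hp q hq
    have hε' : 0 ≤ ε * ((N : ℝ) / D) := by positivity
    by_cases hqp : q = p
    · rw [if_pos hqp]
      refine (norm_sum_le _ _).trans ?_
      have : ∀ m ∈ Icc 1 (N / D), ‖b p m * conj (b q m)‖ ≤ 1 := by
        have hb1 : ∀ p m, ‖b p m‖ ≤ 1 := by
          intro p m
          simp only [hb]
          split_ifs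
          · rw [norm_mul]
            exact mul_le_one₀ (hc1 _) (norm_nonneg _) (ha _)
          · simp
        intro m _
        rw [norm_mul, Complex.norm_conj]
        exact mul_le_one₀ (hb1 _ _) (norm_nonneg _) (hb1 _ _)
      have := Finset.sum_le_card_nsmul _ _ _ this
      simp only [Nat.card_Icc, Nat.add_sub_cancel, nsmul_eq_mul, mul_one] at this
      linarith
    · rw [if_neg hqp, zero_add]
      have h4 : ∑ m ∈ Icc 1 (N / D), b p m * conj (b q m) =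
          c p * conj (c q) * ∑ m ∈ Icc 1 (N / max p q), a (p * m) * conj (a (q * m)) := by
        rw [hsub (max p q) (le_max_of_le_left (hQ p hp)), Finset.sum_filter, Finset.mul_sum]
        refine Finset.sum_congr rfl fun m _ => ?_
        have hp0 : 0 < p := hD.trans_le (hQ p hp)
        have hq0 : 0 < q := hD.trans_le (hQ q hq)
        have h5 : m ≤ N / max p q ↔ m ≤ N / p ∧ m ≤ N / q := by
          rw [Nat.le_div_iff_mul_le hp0, Nat.le_div_iff_mul_le hq0,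
            Nat.le_div_iff_mul_le (lt_max_of_lt_left hp0), ← Nat.mul_max_mul_left, max_le_iff]
        simp only [hb]
        by_cases h6 : m ≤ N / p
        · by_cases h7 : m ≤ N / q
          · rw [if_pos h6, if_pos h7, if_pos (h5.2 ⟨h6, h7⟩), map_mul]
            ring
          · rw [if_neg h7, if_neg fun h => h7 (h5.1 h).2]
            simp
        · rw [if_neg h6, if_neg fun h => h6 (h5.1 h).1]
          simp
      rw [h4, norm_mul, norm_mul, Complex.norm_conj]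
      have h5 : (N : ℝ) / (max p q : ℕ) ≤ N / D :=
        div_le_div_of_nonneg_left (by positivity) (by exact_mod_cast hD)
          (by exact_mod_cast le_max_of_le_left (hQ p hp))
      calc _ ≤ 1 * (ε * (N / (max p q : ℕ))) :=
            mul_le_mul (mul_le_one₀ (hc1 _) (norm_nonneg _) (hc1 _)) (hN p hp q hq (Ne.symm hqp))
              (norm_nonneg _) zero_le_one
        _ ≤ _ := by rw [one_mul]; exact mul_le_mul_of_nonneg_left h5 hε
  have h4 : ∑ m ∈ Icc 1 (N / D), ‖∑ p ∈ Q, b p m‖ ^ 2 ≤ N / D * (Q.card + ε * Q.card ^ 2) := by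
    have h5 : ((∑ m ∈ Icc 1 (N / D), ‖∑ p ∈ Q, b p m‖ ^ 2 : ℝ) : ℂ) =
        ∑ p ∈ Q, ∑ q ∈ Q, ∑ m ∈ Icc 1 (N / D), b p m * conj (b q m) := by
      push_cast
      simp_rw [← Complex.mul_conj', map_sum, Finset.sum_mul_sum]
      rw [Finset.sum_comm]
      exact Finset.sum_congr rfl fun p _ => Finset.sum_comm
    have h6 : ∑ m ∈ Icc 1 (N / D), ‖∑ p ∈ Q, b p m‖ ^ 2 ≤
        ‖∑ p ∈ Q, ∑ q ∈ Q, ∑ m ∈ Icc 1 (N / D), b p m * conj (b q m)‖ := by
      rw [← h5, Complex.norm_real]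
      exact le_abs_self _
    refine h6.trans ((norm_sum_le _ _).trans ?_)
    have h7 : ∀ p ∈ Q, ‖∑ q ∈ Q, ∑ m ∈ Icc 1 (N / D), b p m * conj (b q m)‖ ≤
        N / D + Q.card * (ε * (N / D)) := by
      intro p hp
      refine (norm_sum_le _ _).trans ((Finset.sum_le_sum (h3 p hp)).trans (le_of_eq ?_))
      rw [Finset.sum_add_distrib, Finset.sum_ite_eq' Q p, if_pos hp, Finset.sum_const,
        nsmul_eq_mul]
    refine (Finset.sum_le_card_nsmul _ _ _ h7).trans (le_of_eq ?_)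
    rw [nsmul_eq_mul]
    ring
  rw [h2]
  have h5 : ‖∑ m ∈ Icc 1 (N / D), g m * ∑ p ∈ Q, b p m‖ ≤
      ∑ m ∈ Icc 1 (N / D), 1 * ‖∑ p ∈ Q, b p m‖ := by
    refine (norm_sum_le _ _).trans (Finset.sum_le_sum fun m _ => ?_)
    rw [norm_mul]
    exact mul_le_mul_of_nonneg_right (hg _) (norm_nonneg _)
  have h6 := Finset.sum_mul_sq_le_sq_mul_sq (Icc 1 (N / D)) (fun _ => (1 : ℝ))
    fun m => ‖∑ p ∈ Q, b p m‖
  simp only [one_pow, Finset.sum_const, Nat.card_Icc, Nat.add_sub_cancel, nsmul_eq_mul,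
    mul_one] at h6
  refine h5.trans (le_of_sq_le_sq₀ (by positivity) (h6.trans ?_))
  have h7 : (Q.card : ℝ) + ε * Q.card ^ 2 ≤ (√Q.card + √ε * Q.card) ^ 2 := by
    have e1 : √(Q.card : ℝ) ^ 2 = Q.card := Real.sq_sqrt (by positivity)
    have e2 : √ε ^ 2 = ε := Real.sq_sqrt hε
    have e3 : 0 ≤ 2 * √(Q.card : ℝ) * (√ε * Q.card) := by positivity
    rw [add_sq, mul_pow, e1, e2]
    linarith
  calc _ ≤ (N : ℝ) / D * (N / D * (Q.card + ε * Q.card ^ 2)) :=
        mul_le_mul hND h4 (Finset.sum_nonneg fun _ _ => by positivity) (by positivity)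
    _ ≤ N / D * (N / D * (√Q.card + √ε * Q.card) ^ 2) := by gcongr
    _ = _ := by ring

/-- The criterion with explicit constants, for a finite set `P` of primes and one value of `N`. -/
theorem katai_at2 (c g a : ℕ → ℂ) (hc1 : ∀ n, ‖c n‖ ≤ 1) (hg : ∀ n, ‖g n‖ ≤ 1) (ha : ∀ n, ‖a n‖ ≤ 1) (P : Finset ℕ)
    (hP : ∀ p ∈ P, p.Prime) (hm : ∀ p ∈ P, ∀ m, ¬ p ∣ m → g (p * m) = c p * g m) {ε : ℝ}
    (hε : 0 ≤ ε) (N : ℕ) (hNP : P.card ≤ N) (hc : ∀ p ∈ P, ∀ q ∈ P, p ≠ q →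
      ‖∑ m ∈ Icc 1 (N / max p q), a (p * m) * conj (a (q * m))‖ ≤ ε * (N / (max p q : ℕ))) :
    (∑ p ∈ P, (p : ℝ)⁻¹) * ‖∑ n ∈ Icc 1 N, g n * a n‖ ≤
      (4 * √(∑ p ∈ P, (p : ℝ)⁻¹) + 2 + 2 * √ε * ∑ p ∈ P, (p : ℝ)⁻¹) * N := by
  classical
  set L : ℝ := ∑ p ∈ P, (p : ℝ)⁻¹ with hL
  have hL0 : 0 ≤ L := Finset.sum_nonneg fun p _ => by positivity
  set J := P.sup (Nat.log 2) + 1 with hJ
  have hmaps : ∀ p ∈ P, Nat.log 2 p ∈ range J := fun p hp =>
    Finset.mem_range.2 (Nat.lt_succ_of_le (Finset.le_sup (f := Nat.log 2) hp))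
  set Q : ℕ → Finset ℕ := fun j => P.filter fun p => Nat.log 2 p = j with hQ
  have hN : ∀ j ∈ range J,
      ‖∑ p ∈ Q j, ∑ m ∈ Icc 1 (N / p), c p * g m * a (p * m)‖ ≤
        N / (2 ^ j : ℕ) * (√(Q j).card + √ε * (Q j).card) := by
    intro j _
    refine katai_block2 c g a hc1 hg ha (Q j) (by positivity) (fun p hp => ?_) hε N
      fun p hp q hq => hc p (Finset.mem_filter.1 hp).1 q (Finset.mem_filter.1 hq).1
    obtain ⟨h1, h2⟩ := Finset.mem_filter.1 hp
    rw [← h2]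
    exact Nat.pow_log_le_self 2 (hP p h1).ne_zero
  have hA : ∑ j ∈ range J, ((Q j).card : ℝ) / 2 ^ j ≤ 2 * L := by
    rw [hL, ← Finset.sum_fiberwise_of_maps_to hmaps, Finset.mul_sum]
    refine Finset.sum_le_sum fun j _ => ?_
    rw [Finset.mul_sum, div_eq_mul_inv, ← nsmul_eq_mul, ← Finset.sum_const]
    refine Finset.sum_le_sum fun p hp => ?_
    obtain ⟨h1, h2⟩ := Finset.mem_filter.1 hp
    have h3 : p < 2 ^ (j + 1) := h2 ▸ Nat.lt_pow_succ_log_self one_lt_two p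
    have h4 : (p : ℝ) ≤ 2 ^ (j + 1) := by exact_mod_cast h3.le
    have hp0 : (0 : ℝ) < p := by exact_mod_cast (hP p h1).pos
    rw [← div_eq_mul_inv, ← one_div, div_le_div_iff₀ (by positivity) hp0]
    rw [pow_succ] at h4
    linarith
  have hB : ∑ j ∈ range J, √((Q j).card : ℝ) / 2 ^ j ≤ 2 * √L := by
    have h2 := Finset.sum_mul_sq_le_sq_mul_sq (range J) (fun j => √(((Q j).card : ℝ) / 2 ^ j))
      fun j => √((1 / 2 : ℝ) ^ j)
    have h3 : ∀ j, √(((Q j).card : ℝ) / 2 ^ j) * √((1 / 2 : ℝ) ^ j) = √(Q j).card / 2 ^ j := by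
      intro j
      rw [Real.sqrt_div (by positivity), one_div, inv_pow, Real.sqrt_inv, div_eq_mul_inv,
        mul_assoc, ← mul_inv, Real.mul_self_sqrt (by positivity), div_eq_mul_inv]
    have h4 : ∀ j, √(((Q j).card : ℝ) / 2 ^ j) ^ 2 = (Q j).card / 2 ^ j := fun j =>
      Real.sq_sqrt (by positivity)
    have h5 : ∀ j, √((1 / 2 : ℝ) ^ j) ^ 2 = (1 / 2) ^ j := fun j => Real.sq_sqrt (by positivity)
    simp only [h3, h4, h5] at h2
    refine le_of_sq_le_sq₀ (by positivity) (h2.trans ?_)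
    rw [mul_pow, Real.sq_sqrt hL0]
    have h6 := sum_geometric_two_le J
    have h7 : 0 ≤ ∑ j ∈ range J, (1 / 2 : ℝ) ^ j := Finset.sum_nonneg fun _ _ => by positivity
    nlinarith
  have hNP' : (P.card : ℝ) ≤ N := by exact_mod_cast hNP
  have hN0 : (0 : ℝ) ≤ N := by positivity
  have h2 : ‖∑ p ∈ P, ∑ m ∈ Icc 1 (N / p), c p * g m * a (p * m)‖ ≤
      (2 * √L + 2 * √ε * L) * N := by
    rw [← Finset.sum_fiberwise_of_maps_to hmaps]
    refine (norm_sum_le _ _).trans ((Finset.sum_le_sum hN).trans ?_)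
    have : ∑ j ∈ range J, (N : ℝ) / (2 ^ j : ℕ) * (√(Q j).card + √ε * (Q j).card) =
        N * (∑ j ∈ range J, √((Q j).card : ℝ) / 2 ^ j +
          √ε * ∑ j ∈ range J, ((Q j).card : ℝ) / 2 ^ j) := by
      rw [Finset.mul_sum, ← Finset.sum_add_distrib, Finset.mul_sum]
      refine Finset.sum_congr rfl fun j _ => ?_
      push_cast
      ring
    rw [this, mul_comm]
    have := mul_le_mul_of_nonneg_left hA (Real.sqrt_nonneg ε)
    exact mul_le_mul_of_nonneg_right (by linarith) hN0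
  have h3 : ‖∑ p ∈ P, ∑ m ∈ Icc 1 (N / p), (g (p * m) - c p * g m) * a (p * m)‖ ≤ 2 * N := by
    refine (norm_sum_le _ _).trans ?_
    have h4 : ∀ p ∈ P, ‖∑ m ∈ Icc 1 (N / p), (g (p * m) - c p * g m) * a (p * m)‖ ≤
        2 * N * ((p : ℝ)⁻¹) ^ 2 := by
      intro p hp
      have h5 : ∀ m ∈ Icc 1 (N / p), ‖(g (p * m) - c p * g m) * a (p * m)‖ ≤
          2 * if p ∣ m then (1 : ℝ) else 0 := by
        intro m _
        split_ifs with h
        · rw [norm_mul]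
          refine mul_le_mul ((norm_sub_le _ _).trans ?_) (ha _) (norm_nonneg _) zero_le_two
          rw [norm_mul]
          linarith [hg (p * m), mul_le_one₀ (hc1 p) (norm_nonneg _) (hg m)]
        · simp [hm p hp m h]
      refine (norm_sum_le _ _).trans ((Finset.sum_le_sum h5).trans ?_)
      rw [← Finset.mul_sum, card_Icc_dvd, Nat.div_div_eq_div_mul, mul_assoc]
      have h6 : ((N / (p * p) : ℕ) : ℝ) ≤ N / (p * p : ℕ) := Nat.cast_div_le
      push_cast at h6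
      rw [div_eq_mul_inv, mul_inv] at h6
      rw [sq]
      linarith
    refine (Finset.sum_le_sum h4).trans ?_
    rw [← Finset.mul_sum]
    have := sum_inv_sq_le_one P fun p hp => (hP p hp).two_le
    nlinarith
  have h4 : ‖∑ n ∈ Icc 1 N, (((∑ p ∈ P, if p ∣ n then (1 : ℝ) else 0) - L : ℝ) : ℂ) *
      (g n * a n)‖ ≤ 2 * √L * N := by
    have h5 : ∀ n ∈ Icc 1 N, ‖(((∑ p ∈ P, if p ∣ n then (1 : ℝ) else 0) - L : ℝ) : ℂ) *
        (g n * a n)‖ ≤ 1 * |(∑ p ∈ P, if p ∣ n then (1 : ℝ) else 0) - L| := by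
      intro n _
      rw [norm_mul, Complex.norm_real, mul_comm, norm_mul]
      exact mul_le_mul_of_nonneg_right (mul_le_one₀ (hg _) (norm_nonneg _) (ha _)) (norm_nonneg _)
    refine (norm_sum_le _ _).trans ((Finset.sum_le_sum h5).trans ?_)
    have h6 := Finset.sum_mul_sq_le_sq_mul_sq (Icc 1 N) (fun _ => (1 : ℝ))
      fun n => |(∑ p ∈ P, if p ∣ n then (1 : ℝ) else 0) - L|
    simp only [one_pow, Finset.sum_const, Nat.card_Icc, Nat.add_sub_cancel, nsmul_eq_mul,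
      mul_one, sq_abs] at h6
    refine le_of_sq_le_sq₀ (by positivity) (h6.trans ?_)
    refine (mul_le_mul_of_nonneg_left (turan_kubilius P hP N) hN0).trans ?_
    rw [mul_pow, mul_pow, Real.sq_sqrt hL0, ← hL]
    nlinarith [mul_le_mul_of_nonneg_left hNP' (mul_nonneg hN0 hL0), mul_nonneg hN0 (mul_nonneg hN0 hL0)]
  have h5 : (L : ℂ) * ∑ n ∈ Icc 1 N, g n * a n =
      ∑ p ∈ P, ∑ m ∈ Icc 1 (N / p), c p * g m * a (p * m) +
      ∑ p ∈ P, ∑ m ∈ Icc 1 (N / p), (g (p * m) - c p * g m) * a (p * m) -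
      ∑ n ∈ Icc 1 N, (((∑ p ∈ P, if p ∣ n then (1 : ℝ) else 0) - L : ℝ) : ℂ) * (g n * a n) := by
    have h6 : ∑ p ∈ P, ∑ m ∈ Icc 1 (N / p), c p * g m * a (p * m) +
        ∑ p ∈ P, ∑ m ∈ Icc 1 (N / p), (g (p * m) - c p * g m) * a (p * m) =
        ∑ n ∈ Icc 1 N, ((∑ p ∈ P, if p ∣ n then (1 : ℝ) else 0 : ℝ) : ℂ) * (g n * a n) := by
      rw [← Finset.sum_add_distrib]
      push_cast
      simp_rw [Finset.sum_mul]
      rw [Finset.sum_comm]
      refine Finset.sum_congr rfl fun p hp => ?_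
      rw [← Finset.sum_add_distrib]
      have h7 := sum_Icc_ite_dvd (hP p hp).pos N fun n => g n * a n
      calc _ = _ := Finset.sum_congr rfl fun m _ => by ring
        _ = _ := h7.symm
        _ = _ := Finset.sum_congr rfl fun n _ => by split_ifs <;> simp
    rw [h6, ← Finset.sum_sub_distrib, Finset.mul_sum]
    refine Finset.sum_congr rfl fun n _ => ?_
    push_cast
    ring
  have h6 : L * ‖∑ n ∈ Icc 1 N, g n * a n‖ = ‖(L : ℂ) * ∑ n ∈ Icc 1 N, g n * a n‖ := by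
    rw [norm_mul, Complex.norm_real, Real.norm_of_nonneg hL0]
  rw [h6, h5]
  refine (norm_sub_le _ _).trans ((add_le_add ((norm_add_le _ _).trans (add_le_add h2 h3))
    h4).trans (le_of_eq ?_))
  ring


end Pool.Agent.Lib.ANT
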