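import Pool.Agent.Lib.ANT.Mertens
import Pool.Agent.Lib.LargeSieve.Mult

/-!
# Elementary upper bounds for Dirichlet `L`-functions near the line `re s = 1`
-/

noncomputable section

open Finset Complex Filter Topology

namespace Pool.Agent.Lib.ANT

lemma norm_cpow_sub_le {s : ℂ} (hs : 0 ≤ s.re) {a u : ℝ} (ha : 0 < a) (hau : a ≤ u) :
    ‖(u : ℂ) ^ (-s) - (a : ℂ) ^ (-s)‖ ≤ ‖s‖ * a ^ (-s.re - 1) * (u - a) := by
  refine norm_image_sub_le_of_norm_deriv_le_segment' (f := fun x : ℝ => (x : ℂ) ^ (-s))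
    (f' := fun x : ℝ => -s * (x : ℂ) ^ (-s - 1)) (fun x hx => ?_) (fun x hx => ?_) u ⟨hau, le_rfl⟩
  · have hx0 : 0 < x := ha.trans_le hx.1
    have h : HasDerivAt (fun z : ℂ => z ^ (-s)) (-s * (x : ℂ) ^ (-s - 1) * 1) (x : ℂ) :=
      (hasDerivAt_id (x : ℂ)).cpow_const (ofReal_mem_slitPlane.2 hx0)
    rw [mul_one] at h
    exact h.comp_ofReal.hasDerivWithinAt
  · have hx0 : 0 < x := ha.trans_le hx.1
    rw [norm_mul, norm_neg, norm_cpow_eq_rpow_re_of_pos hx0]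
    refine mul_le_mul_of_nonneg_left ?_ (norm_nonneg _)
    simp only [sub_re, neg_re, one_re]
    exact Real.rpow_le_rpow_of_nonpos ha hx.1 (by linarith)

lemma rpow_step {σ n : ℝ} (hσ : 0 < σ) (hn : 0 < n) :
    σ * (n + 1) ^ (-σ - 1) ≤ n ^ (-σ) - (n + 1) ^ (-σ) := by
  have h1 : 0 < n + 1 := by linarith
  have hx : n / (n + 1) - 1 = -(1 / (n + 1)) := by field_simp; ring
  have h2 : Real.log (n / (n + 1)) ≤ -(1 / (n + 1)) := hx ▸ Real.log_le_sub_one_of_pos (by positivity)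
  have h3 : n ^ (-σ) = (n + 1) ^ (-σ) * (n / (n + 1)) ^ (-σ) := by
    rw [← Real.mul_rpow h1.le (by positivity)]; congr 1; field_simp
  have h4 : 1 + σ * (1 / (n + 1)) ≤ (n / (n + 1)) ^ (-σ) := by
    rw [Real.rpow_def_of_pos (by positivity)]
    refine le_trans ?_ (Real.add_one_le_exp _)
    nlinarith
  have h5 : (n + 1) ^ (-σ - 1) = (n + 1) ^ (-σ) * (1 / (n + 1)) := by
    rw [Real.rpow_sub_one h1.ne']; ring
  rw [h3, h5]
  have h6 : 0 < (n + 1) ^ (-σ) := Real.rpow_pos_of_pos h1 _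
  nlinarith

lemma sum_rpow_tail_le {σ : ℝ} (hσ : 0 < σ) {N : ℕ} (hN : 0 < N) (M : ℕ) :
    ∑ n ∈ range M, ((n + N + 1 : ℕ) : ℝ) ^ (-σ - 1) ≤ (N : ℝ) ^ (-σ) / σ := by
  have key : ∀ M : ℕ, σ * ∑ n ∈ range M, ((n + N + 1 : ℕ) : ℝ) ^ (-σ - 1)
      ≤ (N : ℝ) ^ (-σ) - ((M + N : ℕ) : ℝ) ^ (-σ) := by
    intro M
    induction M with
    | zero => simp
    | succ M ih =>
      rw [sum_range_succ, mul_add]
      have := rpow_step hσ (n := ((M + N : ℕ) : ℝ)) (by positivity)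
      have e : ((M + 1 + N : ℕ) : ℝ) = ((M + N : ℕ) : ℝ) + 1 := by push_cast; ring
      have e' : ((M + N + 1 : ℕ) : ℝ) = ((M + N : ℕ) : ℝ) + 1 := by push_cast; ring
      rw [e, e']; linarith
  rw [le_div_iff₀ hσ, mul_comm]
  have : 0 ≤ ((M + N : ℕ) : ℝ) ^ (-σ) := by positivity
  linarith [key M]

/-- partial sums `a 1 + ... + a n` -/
def psum (a : ℕ → ℂ) (n : ℕ) : ℂ := ∑ k ∈ range n, a (k + 1)

/-- the terms of the Abel-summed Dirichlet series -/
def abelTerm (a : ℕ → ℂ) (n : ℕ) (s : ℂ) : ℂ :=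
  psum a (n + 1) * (((n + 1 : ℕ) : ℂ) ^ (-s) - ((n + 2 : ℕ) : ℂ) ^ (-s))

lemma sum_abelTerm (a : ℕ → ℂ) (s : ℂ) (N : ℕ) :
    ∑ n ∈ range N, abelTerm a n s
      = ∑ n ∈ range N, a (n + 1) * ((n + 1 : ℕ) : ℂ) ^ (-s) - psum a N * ((N + 1 : ℕ) : ℂ) ^ (-s) := by
  induction N with
  | zero => simp [psum]
  | succ N ih =>
    rw [sum_range_succ, sum_range_succ, ih, abelTerm]
    simp only [psum, sum_range_succ]
    ring

lemma norm_abelTerm_le {a : ℕ → ℂ} {K : ℝ} (hK : ∀ n, ‖psum a n‖ ≤ K) {s : ℂ} (hs : 0 ≤ s.re)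
    (n : ℕ) : ‖abelTerm a n s‖ ≤ K * ‖s‖ * ((n + 1 : ℕ) : ℝ) ^ (-s.re - 1) := by
  have h := norm_cpow_sub_le hs (a := ((n + 1 : ℕ) : ℝ)) (u := ((n + 2 : ℕ) : ℝ)) (by positivity)
    (by exact_mod_cast Nat.le_succ _)
  have e : ((n + 2 : ℕ) : ℝ) - ((n + 1 : ℕ) : ℝ) = 1 := by push_cast; ring
  rw [e, mul_one, ofReal_natCast, ofReal_natCast, norm_sub_rev] at h
  rw [abelTerm, norm_mul, mul_assoc]
  exact mul_le_mul (hK _) h (norm_nonneg _) ((norm_nonneg _).trans (hK 0))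

lemma summable_succ_rpow {σ : ℝ} (hσ : 0 < σ) :
    Summable fun n : ℕ => ((n + 1 : ℕ) : ℝ) ^ (-σ - 1) :=
  (summable_nat_add_iff (f := fun n : ℕ => (n : ℝ) ^ (-σ - 1)) 1).2
    (Real.summable_nat_rpow.2 (by linarith))

lemma summable_abelTerm {a : ℕ → ℂ} {K : ℝ} (hK : ∀ n, ‖psum a n‖ ≤ K) {s : ℂ} (hs : 0 < s.re) :
    Summable fun n => abelTerm a n s :=
  Summable.of_norm_bounded ((summable_succ_rpow hs).mul_left (K * ‖s‖)) (norm_abelTerm_le hK hs.le)

lemma abel_approx {a : ℕ → ℂ} {K : ℝ} (hK : ∀ n, ‖psum a n‖ ≤ K) {s : ℂ} (hs : 0 < s.re)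
    {N : ℕ} (hN : 0 < N) :
    ‖∑' n, abelTerm a n s - ∑ n ∈ range N, a (n + 1) * ((n + 1 : ℕ) : ℂ) ^ (-s)‖
      ≤ K * (1 + ‖s‖ / s.re) * (N : ℝ) ^ (-s.re) := by
  have hK0 : 0 ≤ K := (norm_nonneg _).trans (hK 0)
  have hsum := summable_abelTerm hK hs
  rw [← hsum.sum_add_tsum_nat_add N, sum_abelTerm]
  have h1 : ‖∑' n, abelTerm a (n + N) s‖ ≤ K * ‖s‖ * ((N : ℝ) ^ (-s.re) / s.re) := by
    have hs' := (summable_nat_add_iff (f := fun n => abelTerm a n s) N).2 hsum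
    refine le_of_tendsto' hs'.hasSum.tendsto_sum_nat.norm fun M => ?_
    refine (norm_sum_le _ _).trans ((sum_le_sum fun n _ => norm_abelTerm_le hK hs.le _).trans ?_)
    rw [← mul_sum]
    exact mul_le_mul_of_nonneg_left (sum_rpow_tail_le hs hN M) (by positivity)
  have h2 : ‖psum a N * ((N + 1 : ℕ) : ℂ) ^ (-s)‖ ≤ K * (N : ℝ) ^ (-s.re) := by
    rw [norm_mul, norm_natCast_cpow_of_pos (Nat.succ_pos _), neg_re]
    refine mul_le_mul (hK _) ?_ (by positivity) hK0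
    exact Real.rpow_le_rpow_of_nonpos (by exact_mod_cast hN) (by exact_mod_cast Nat.le_succ _)
      (by linarith)
  calc _ = ‖∑' n, abelTerm a (n + N) s - psum a N * ((N + 1 : ℕ) : ℂ) ^ (-s)‖ := by
        congr 1; ring
    _ ≤ _ := (norm_sub_le _ _).trans (add_le_add h1 h2)
    _ = _ := by ring

lemma differentiableOn_abel {a : ℕ → ℂ} {K : ℝ} (hK : ∀ n, ‖psum a n‖ ≤ K) :
    DifferentiableOn ℂ (fun s => ∑' n, abelTerm a n s) {s | 0 < s.re} := by
  have hK0 : 0 ≤ K := (norm_nonneg _).trans (hK 0)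
  intro s₀ hs₀
  have hs₀' : 0 < s₀.re := hs₀
  have hU : IsOpen {s : ℂ | s₀.re / 2 < s.re ∧ ‖s‖ < ‖s₀‖ + 1} :=
    (isOpen_lt continuous_const continuous_re).inter (isOpen_lt continuous_norm continuous_const)
  have h := differentiableOn_tsum_of_summable_norm (F := fun n s => abelTerm a n s)
    ((summable_succ_rpow (half_pos hs₀')).mul_left (K * (‖s₀‖ + 1))) (fun n => ?_) hU
    (fun n s hs => ?_)
  · exact (h.differentiableAt (hU.mem_nhds ⟨by linarith, by linarith⟩)).differentiableWithinAt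
  · refine Differentiable.differentiableOn (fun s => ?_)
    unfold abelTerm
    refine DifferentiableAt.const_mul (DifferentiableAt.sub ?_ ?_) _ <;>
    exact differentiableAt_id.neg.const_cpow (Or.inl (Nat.cast_ne_zero.2 (Nat.succ_ne_zero _)))
  · refine (norm_abelTerm_le hK (by linarith [hs.1]) n).trans ?_
    refine mul_le_mul (mul_le_mul_of_nonneg_left hs.2.le hK0) ?_ (by positivity) (by positivity)
    exact Real.rpow_le_rpow_of_exponent_le (by exact_mod_cast Nat.succ_pos _) (by linarith [hs.1])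

lemma abel_eq_LSeries {a : ℕ → ℂ} {K : ℝ} (hK : ∀ n, ‖psum a n‖ ≤ K) {s : ℂ} (hs : 0 < s.re)
    (hsum : LSeriesSummable a s) : ∑' n, abelTerm a n s = LSeries a s := by
  have h1 : Tendsto (fun N => ∑ n ∈ range N, a (n + 1) * ((n + 1 : ℕ) : ℂ) ^ (-s)) atTop
      (𝓝 (LSeries a s)) := by
    have h := (hasSum_nat_add_iff' 1).2 hsum.hasSum
    simp only [range_one, sum_singleton, LSeries.term_zero, sub_zero] at h
    refine h.tendsto_sum_nat.congr fun N => sum_congr rfl fun n _ => ?_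
    rw [LSeries.term_of_ne_zero (Nat.succ_ne_zero _), cpow_neg, div_eq_mul_inv]
  have h2 : Tendsto (fun N => ∑ n ∈ range N, a (n + 1) * ((n + 1 : ℕ) : ℂ) ^ (-s)) atTop
      (𝓝 (∑' n, abelTerm a n s)) := by
    rw [tendsto_iff_norm_sub_tendsto_zero]
    have h3 : Tendsto (fun N : ℕ => K * (1 + ‖s‖ / s.re) * (N : ℝ) ^ (-s.re)) atTop (𝓝 0) := by
      simpa using ((tendsto_rpow_neg_atTop hs).comp tendsto_natCast_atTop_atTop).const_mul
        (K * (1 + ‖s‖ / s.re))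
    refine squeeze_zero' (Eventually.of_forall fun _ => norm_nonneg _) ?_ h3
    filter_upwards [eventually_gt_atTop 0] with N hN
    rw [norm_sub_rev]; exact abel_approx hK hs hN
  exact tendsto_nhds_unique h2 h1

lemma norm_psum_char_le {q : ℕ} [NeZero q] {χ : DirichletCharacter ℂ q} (hχ : χ ≠ 1) (c n : ℕ) :
    ‖∑ k ∈ range n, χ ((c + k : ℕ) : ZMod q)‖ ≤ q := by
  have hq : 0 < q := NeZero.pos q
  have h0 : ∀ c : ℕ, ∑ k ∈ range q, χ ((c + k : ℕ) : ZMod q) = 0 := fun c => by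
    have h := LargeSieve.sum_zmod_eq_sum_range q (fun x => χ ((c : ZMod q) + x))
    simp_rw [Nat.cast_add]
    rw [← h]
    exact (Equiv.sum_comp (Equiv.addLeft (c : ZMod q)) (fun x => χ x)).trans
      (MulChar.sum_eq_zero_of_ne_one hχ)
  induction n using Nat.strong_induction_on with
  | _ n ih =>
    rcases le_or_gt n q with h | h
    · refine (norm_sum_le _ _).trans ((sum_le_card_nsmul _ _ 1 fun k _ => χ.norm_le_one _).trans ?_)
      simpa using h
    · obtain ⟨m, rfl⟩ := Nat.exists_eq_add_of_le' h.le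
      rw [sum_range_add]
      have := h0 (c + m)
      simp_rw [← add_assoc]
      rw [this, add_zero]
      exact ih m (by omega)

lemma LFunction_eq_abel {q : ℕ} [NeZero q] {χ : DirichletCharacter ℂ q} (hχ : χ ≠ 1) {s : ℂ}
    (hs : 0 < s.re) : χ.LFunction s = ∑' n, abelTerm (fun n => χ n) n s := by
  have hK : ∀ n, ‖psum (fun n => χ n) n‖ ≤ q := fun n => by
    have := norm_psum_char_le hχ 1 n
    simpa [psum, add_comm] using this
  have hU : IsOpen {s : ℂ | 0 < s.re} := isOpen_lt continuous_const continuous_re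
  have h1 : AnalyticOnNhd ℂ χ.LFunction {s : ℂ | 0 < s.re} :=
    (DirichletCharacter.differentiable_LFunction hχ).differentiableOn.analyticOnNhd hU
  have h2 := (differentiableOn_abel hK).analyticOnNhd hU
  refine h1.eqOn_of_preconnected_of_eventuallyEq h2 (convex_halfSpace_re_gt 0).isPreconnected
    (z₀ := 2) (by simp) ?_ hs
  have : {s : ℂ | 1 < s.re} ∈ 𝓝 (2 : ℂ) :=
    (isOpen_lt continuous_const continuous_re).mem_nhds (by simp)
  filter_upwards [this] with s hs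
  rw [χ.LFunction_eq_LSeries hs, abel_eq_LSeries hK (by linarith [show 1 < s.re from hs])
    (DirichletCharacter.LSeriesSummable_of_one_lt_re χ hs)]

lemma sum_range_inv_le (N : ℕ) : ∑ n ∈ range N, (((n + 1 : ℕ) : ℝ))⁻¹ ≤ 1 + Real.log N := by
  have := harmonic_le_one_add_log N
  simpa [harmonic] using this

/-- `|L(s, χ)| ≤ 6 log N` for `re s ≥ 1 - 1 / log N` and `q (1 + 2 |s|) ≤ N`. -/
theorem norm_LFunction_le {q : ℕ} [NeZero q] {χ : DirichletCharacter ℂ q} (hχ : χ ≠ 1) {N : ℕ}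
    (hN : 2 ≤ Real.log N) {s : ℂ} (hs : 1 - 1 / Real.log N ≤ s.re) (hq : q * (1 + 2 * ‖s‖) ≤ N) :
    ‖χ.LFunction s‖ ≤ 6 * Real.log N := by
  have hK : ∀ n, ‖psum (fun n => χ n) n‖ ≤ q := fun n => by
    have := norm_psum_char_le hχ 1 n
    simpa [psum, add_comm] using this
  have hN0 : 0 < N := by
    rcases Nat.eq_zero_or_pos N with rfl | h
    · simp at hN; linarith
    · exact h
  have hN0' : (0 : ℝ) < N := by exact_mod_cast hN0
  have hL : 1 / Real.log N ≤ 1 / 2 := one_div_le_one_div_of_le (by norm_num) hN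
  have hσ : 1 / 2 ≤ s.re := by linarith
  have hpow : ∀ n : ℝ, 1 ≤ n → n ≤ N → n ^ (-s.re) ≤ 3 * n⁻¹ := fun n h1 h2 => by
    have hn0 : 0 < n := by linarith
    calc n ^ (-s.re) ≤ n ^ (1 / Real.log N + -1) :=
          Real.rpow_le_rpow_of_exponent_le h1 (by linarith)
      _ = n ^ (1 / Real.log N) * n⁻¹ := by rw [Real.rpow_add hn0, Real.rpow_neg_one]
      _ ≤ 3 * n⁻¹ := by
          refine mul_le_mul_of_nonneg_right ?_ (by positivity)
          calc n ^ (1 / Real.log N) ≤ (N : ℝ) ^ (1 / Real.log N) :=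
                Real.rpow_le_rpow hn0.le h2 (by positivity)
            _ = Real.exp 1 := by
                rw [Real.rpow_def_of_pos hN0']; congr 1; field_simp
            _ ≤ 3 := by have := Real.exp_one_lt_d9; linarith
  have h1 := abel_approx hK (s := s) (by linarith) hN0
  rw [← LFunction_eq_abel hχ (by linarith)] at h1
  have h2 : ‖∑ n ∈ range N, χ ((n + 1 : ℕ) : ZMod q) * ((n + 1 : ℕ) : ℂ) ^ (-s)‖
      ≤ 3 * (1 + Real.log N) := by
    refine (norm_sum_le _ _).trans ?_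
    refine le_trans (sum_le_sum (g := fun n => 3 * (((n + 1 : ℕ) : ℝ))⁻¹) fun n hn => ?_) ?_
    · rw [norm_mul, norm_natCast_cpow_of_pos (Nat.succ_pos _), neg_re]
      refine (mul_le_of_le_one_left (by positivity) (χ.norm_le_one _)).trans ?_
      exact hpow _ (by exact_mod_cast Nat.succ_pos _) (by exact_mod_cast mem_range.1 hn)
    · rw [← mul_sum]; linarith [sum_range_inv_le N]
  have h3 : (q : ℝ) * (1 + ‖s‖ / s.re) * (N : ℝ) ^ (-s.re) ≤ 3 := by
    have a1 : ‖s‖ / s.re ≤ 2 * ‖s‖ := by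
      rw [div_le_iff₀ (by linarith)]; nlinarith [norm_nonneg s]
    calc _ ≤ (q : ℝ) * (1 + 2 * ‖s‖) * (3 * (N : ℝ)⁻¹) := by
          gcongr; exact hpow _ (by exact_mod_cast hN0) le_rfl
      _ ≤ N * (3 * (N : ℝ)⁻¹) := by gcongr
      _ = 3 := by field_simp
  have h4 := norm_le_insert' (χ.LFunction s)
    (∑ n ∈ range N, χ ((n + 1 : ℕ) : ZMod q) * ((n + 1 : ℕ) : ℂ) ^ (-s))
  linarith

/-- `|L'(s, χ)| ≤ 12 (log N)²` for `re s ≥ 1 - 1 / (2 log N)` and `q (2 + 2 |s|) ≤ N`. -/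
theorem norm_deriv_LFunction_le {q : ℕ} [NeZero q] {χ : DirichletCharacter ℂ q} (hχ : χ ≠ 1)
    {N : ℕ} (hN : 2 ≤ Real.log N) {s : ℂ} (hs : 1 - 1 / (2 * Real.log N) ≤ s.re)
    (hq : q * (2 + 2 * ‖s‖) ≤ N) : ‖deriv χ.LFunction s‖ ≤ 12 * Real.log N ^ 2 := by
  have hL : 0 < Real.log N := by linarith
  have hr : 1 / (2 * Real.log N) ≤ 1 / 4 := one_div_le_one_div_of_le (by norm_num) (by linarith)
  have h := norm_deriv_le_of_forall_mem_sphere_norm_le (c := s) (R := 1 / (2 * Real.log N))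
    (C := 6 * Real.log N) (f := χ.LFunction) (by positivity)
    (DirichletCharacter.differentiable_LFunction hχ).diffContOnCl fun z hz => ?_
  · refine h.trans_eq ?_; field_simp; ring
  · rw [mem_sphere_iff_norm] at hz
    have h1 : |(z - s).re| ≤ ‖z - s‖ := abs_re_le_norm _
    have h2 : ‖z‖ ≤ ‖s‖ + ‖z - s‖ := norm_le_norm_add_norm_sub' _ _
    rw [sub_re, hz, abs_le] at h1
    refine norm_LFunction_le hχ hN ?_ (le_trans ?_ hq)
    · have : 1 / Real.log N = 2 * (1 / (2 * Real.log N)) := by field_simp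
      linarith [h1.1]
    · exact mul_le_mul_of_nonneg_left (by linarith) (Nat.cast_nonneg _)

/-- Upper bound for `ζ` to the right of the line `re s = 1`. -/
theorem norm_zeta_le {s : ℂ} (hs : 1 < s.re) {N : ℕ} (hN : 0 < N) :
    ‖riemannZeta s‖ ≤ 1 + Real.log N + ‖s‖ / N + 2 / ‖s - 1‖ := by
  have hs1 : s - 1 ≠ 0 := fun h => by
    have := congrArg re h; simp at this; linarith
  have hstep : ∀ n : ℕ, 0 < n → ‖(n : ℂ) ^ (-s) -
      ((n : ℂ) ^ (1 - s) - ((n + 1 : ℕ) : ℂ) ^ (1 - s)) / (s - 1)‖ ≤ ‖s‖ * (n : ℝ) ^ (-1 - 1 : ℝ) := by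
    intro n hn
    have hn' : (1 : ℝ) ≤ n := by exact_mod_cast hn
    have h := norm_image_sub_le_of_norm_deriv_le_segment'
      (f := fun x : ℝ => (x : ℂ) ^ (1 - s) / (s - 1) + (n : ℂ) ^ (-s) * x)
      (f' := fun x : ℝ => (n : ℂ) ^ (-s) - (x : ℂ) ^ (-s)) (a := n) (b := n + 1)
      (C := ‖s‖ * (n : ℝ) ^ (-1 - 1 : ℝ)) (fun x hx => ?_) (fun x hx => ?_) (n + 1) ⟨by linarith, le_rfl⟩
    · rw [add_sub_cancel_left, mul_one] at h
      refine le_of_eq_of_le ?_ h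
      congr 1; push_cast; ring
    · have hx0 : 0 < x := by linarith [hx.1]
      have h1 : HasDerivAt (fun z : ℂ => z ^ (1 - s) / (s - 1) + (n : ℂ) ^ (-s) * z)
          ((1 - s) * (x : ℂ) ^ (1 - s - 1) * 1 / (s - 1) + (n : ℂ) ^ (-s) * 1) (x : ℂ) :=
        (((hasDerivAt_id (x : ℂ)).cpow_const (ofReal_mem_slitPlane.2 hx0)).div_const _).add
          ((hasDerivAt_id (x : ℂ)).const_mul _)
      refine (h1.comp_ofReal.congr_deriv ?_).hasDerivWithinAt
      rw [show 1 - s - 1 = -s by ring]; field_simp; ring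
    · have h1 := norm_cpow_sub_le (s := s) (by linarith) (a := n) (u := x) (by linarith) hx.1
      rw [norm_sub_rev, ofReal_natCast] at h1
      refine h1.trans ?_
      have h2 : (n : ℝ) ^ (-s.re - 1) ≤ (n : ℝ) ^ (-1 - 1 : ℝ) :=
        Real.rpow_le_rpow_of_exponent_le hn' (by linarith)
      calc _ ≤ ‖s‖ * (n : ℝ) ^ (-1 - 1 : ℝ) * 1 := by gcongr; linarith [hx.1]; linarith [hx.2]
        _ = _ := mul_one _
  have hsum : HasSum (fun n : ℕ => ((n + 1 : ℕ) : ℂ) ^ (-s)) (riemannZeta s) := by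
    have h1 := (summable_nat_add_iff 1).2 (Complex.summable_one_div_nat_cpow.2 hs)
    have := h1.hasSum
    rw [zeta_eq_tsum_one_div_nat_add_one_cpow hs]
    simpa [cpow_neg] using this
  have hle1 : ∀ n : ℕ, ‖((n + 1 : ℕ) : ℂ) ^ (1 - s)‖ ≤ 1 := fun n => by
    rw [norm_natCast_cpow_of_pos (Nat.succ_pos _)]
    exact Real.rpow_le_one_of_one_le_of_nonpos (by exact_mod_cast Nat.succ_pos _)
      (by simp; linarith)
  refine le_of_tendsto' ((tendsto_add_atTop_iff_nat N).2 hsum.tendsto_sum_nat).norm fun M => ?_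
  rw [add_comm M N, sum_range_add]
  have h1 : ‖∑ n ∈ range N, ((n + 1 : ℕ) : ℂ) ^ (-s)‖ ≤ 1 + Real.log N := by
    refine (norm_sum_le _ _).trans (le_trans (sum_le_sum fun n _ => ?_) (sum_range_inv_le N))
    rw [norm_natCast_cpow_of_pos (Nat.succ_pos _), ← Real.rpow_neg_one]
    exact Real.rpow_le_rpow_of_exponent_le (by exact_mod_cast Nat.succ_pos _) (by simp; linarith)
  have h2 : ∑ n ∈ range M, ((N + n + 1 : ℕ) : ℂ) ^ (-s)
      = ∑ n ∈ range M, (((N + n + 1 : ℕ) : ℂ) ^ (-s) - (((N + n + 1 : ℕ) : ℂ) ^ (1 - s) -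
          ((N + n + 1 + 1 : ℕ) : ℂ) ^ (1 - s)) / (s - 1)) +
        (((N + 0 + 1 : ℕ) : ℂ) ^ (1 - s) - ((N + M + 1 : ℕ) : ℂ) ^ (1 - s)) / (s - 1) := by
    rw [sum_sub_distrib, ← sum_div,
      ← sum_range_sub' (fun n => ((N + n + 1 : ℕ) : ℂ) ^ (1 - s)) M]
    exact (sub_add_cancel _ _).symm
  have h3 : ‖∑ n ∈ range M, ((N + n + 1 : ℕ) : ℂ) ^ (-s)‖ ≤ ‖s‖ / N + 2 / ‖s - 1‖ := by
    rw [h2]
    refine (norm_add_le _ _).trans (add_le_add ?_ ?_)
    · refine (norm_sum_le _ _).trans ((sum_le_sum fun n _ => hstep _ (Nat.succ_pos _)).trans ?_)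
      rw [← mul_sum, div_eq_mul_inv]
      refine mul_le_mul_of_nonneg_left ?_ (norm_nonneg _)
      have := sum_rpow_tail_le one_pos hN M
      simp_rw [add_comm N]
      simpa [Real.rpow_neg_one] using this
    · rw [norm_div]
      gcongr
      linarith [norm_sub_le (((N + 0 + 1 : ℕ) : ℂ) ^ (1 - s)) (((N + M + 1 : ℕ) : ℂ) ^ (1 - s)),
        hle1 (N + 0), hle1 (N + M)]
  linarith [norm_add_le (∑ n ∈ range N, ((n + 1 : ℕ) : ℂ) ^ (-s))
    (∑ n ∈ range M, ((N + n + 1 : ℕ) : ℂ) ^ (-s))]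

/-- Upper bound for the `L`-function of the trivial character. -/
theorem norm_LFunction_one_le {q : ℕ} [NeZero q] {s : ℂ} (hs : 1 < s.re) {N : ℕ} (hN : 2 ≤ N)
    (hq : q ≤ N) : ‖(1 : DirichletCharacter ℂ q).LFunction s‖
      ≤ Real.exp 73 * Real.log N * ‖riemannZeta s‖ := by
  have hs1 : s ≠ 1 := fun h => by rw [h] at hs; simp at hs
  have h := DirichletCharacter.LFunctionTrivChar_eq_mul_riemannZeta (N := q) hs1
  rw [DirichletCharacter.LFunctionTrivChar] at h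
  rw [h, norm_mul]
  refine mul_le_mul_of_nonneg_right (le_trans ?_ (prod_one_sub_inv_prime_inv_le N hN))
    (norm_nonneg _)
  have hp : ∀ p : ℕ, p.Prime → 1 + (p : ℝ)⁻¹ ≤ (1 - (p : ℝ)⁻¹)⁻¹ := fun p hp => by
    have h2 : (2 : ℝ) ≤ p := by exact_mod_cast hp.two_le
    have h3 : (p : ℝ)⁻¹ ≤ 1 / 2 := by rw [one_div]; exact inv_anti₀ (by norm_num) h2
    rw [← one_div (1 - _), le_div_iff₀ (by linarith)]
    nlinarith [sq_nonneg (p : ℝ)⁻¹]
  rw [norm_prod]
  calc _ ≤ ∏ p ∈ q.primeFactors, (1 - (p : ℝ)⁻¹)⁻¹ := by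
        refine prod_le_prod (fun _ _ => norm_nonneg _) fun p hp' => ?_
        have hpp := Nat.prime_of_mem_primeFactors hp'
        refine le_trans ((norm_sub_le _ _).trans ?_) (hp p hpp)
        rw [norm_one, norm_natCast_cpow_of_pos hpp.pos, ← Real.rpow_neg_one]
        gcongr
        · exact_mod_cast hpp.pos
        · simp; linarith
    _ ≤ _ := by
        refine prod_le_prod_of_subset_of_one_le (fun p hp' => ?_) (fun p hp' => ?_) fun p hp' _ => ?_
        · have hpp := Nat.prime_of_mem_primeFactors hp'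
          exact mem_filter.2 ⟨mem_Ioc.2 ⟨hpp.pos, (Nat.le_of_mem_primeFactors hp').trans hq⟩, hpp⟩
        · have := hp p (Nat.prime_of_mem_primeFactors hp')
          have : (0 : ℝ) ≤ (p : ℝ)⁻¹ := by positivity
          linarith
        · have := hp p (mem_filter.1 hp').2
          have : (0 : ℝ) ≤ (p : ℝ)⁻¹ := by positivity
          linarith

end Pool.Agent.Lib.ANT
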