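import Pool.Agent.Lib.ANT.Mertens
import Mathlib.NumberTheory.EulerProduct.Basic
import Mathlib.Analysis.Calculus.ParametricIntegral
import Mathlib.MeasureTheory.Integral.IntegralEqImproper
import Mathlib.MeasureTheory.Integral.DominatedConvergence
import Mathlib.Analysis.SpecialFunctions.ImproperIntegrals

/-!
The sharp constant of the linear sieve.

For the solutions `a = s (F - 1)`, `b = s (1 - f)` of the delay equations of the linear sieve, the
constant `A = a 3 + 3` satisfies `A log N ∏_{p ≤ N} (1 - 1/p) ≤ 2 + o(1)`.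
-/

noncomputable section

open MeasureTheory Set Filter Topology

namespace Pool.Agent.Lib.ANT

namespace LinC

/-- `gg t = (1 - exp (-t)) / t`. -/
def gg (t : ℝ) : ℝ := ∫ u in (0 : ℝ)..1, Real.exp (-(t * u))

theorem gg_cont : Continuous gg :=
  intervalIntegral.continuous_parametric_intervalIntegral_of_continuous'
    (f := fun t u : ℝ => Real.exp (-(t * u))) (by fun_prop) 0 1

theorem gg_nonneg (t : ℝ) : 0 ≤ gg t :=
  intervalIntegral.integral_nonneg zero_le_one fun _ _ => (Real.exp_pos _).le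

theorem gg_anti : Antitone gg := by
  intro s t hst
  refine intervalIntegral.integral_mono_on zero_le_one
    (Continuous.intervalIntegrable (by fun_prop) _ _)
    (Continuous.intervalIntegrable (by fun_prop) _ _) fun u hu => ?_
  exact Real.exp_le_exp.mpr (by nlinarith [hu.1])

theorem gg_zero : gg 0 = 1 := by simp [gg]

theorem mul_gg (t : ℝ) : t * gg t = 1 - Real.exp (-t) := by
  have h : ∫ u in (0 : ℝ)..1, t * Real.exp (-(t * u)) =
      (-Real.exp (-(t * 1))) - (-Real.exp (-(t * 0))) := by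
    refine intervalIntegral.integral_eq_sub_of_hasDerivAt
      (f := fun u => -Real.exp (-(t * u))) (fun u _ => ?_)
      (Continuous.intervalIntegrable (by fun_prop) _ _)
    have h1 : HasDerivAt (fun u : ℝ => -(t * u)) (-t) u :=
      ((hasDerivAt_id u).const_mul t).neg.congr_deriv (by ring)
    exact (h1.exp.neg).congr_deriv (by ring)
  rw [gg, ← intervalIntegral.integral_const_mul, h]
  simp
  ring

/-- `EE x = ∫ t in 0..x, (1 - exp (-t)) / t`. -/
def EE (x : ℝ) : ℝ := ∫ t in (0 : ℝ)..x, gg t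

theorem EE_deriv (x : ℝ) : HasDerivAt EE (gg x) x :=
  intervalIntegral.integral_hasDerivAt_right (gg_cont.intervalIntegrable _ _)
    (gg_cont.stronglyMeasurableAtFilter _ _) gg_cont.continuousAt

theorem EE_cont : Continuous EE :=
  continuous_iff_continuousAt.mpr fun x => (EE_deriv x).continuousAt

theorem EE_nonneg {x : ℝ} (hx : 0 ≤ x) : 0 ≤ EE x :=
  intervalIntegral.integral_nonneg hx fun t _ => gg_nonneg t

theorem EE_zero : EE 0 = 0 := by simp [EE]

theorem EE_sub_le {x y : ℝ} (hxy : x ≤ y) : EE y - EE x ≤ (y - x) * gg x := by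
  have h : EE y - EE x = ∫ t in x..y, gg t :=
    intervalIntegral.integral_interval_sub_left (gg_cont.intervalIntegrable _ _)
      (gg_cont.intervalIntegrable _ _)
  rw [h]
  have h2 : ∫ t in x..y, gg t ≤ ∫ _ in x..y, gg x :=
    intervalIntegral.integral_mono_on hxy (gg_cont.intervalIntegrable _ _)
      (continuous_const.intervalIntegrable _ _) fun t ht => gg_anti ht.1
  simpa using h2

/-- `kap x = x exp (-E x)`. -/
def kap (x : ℝ) : ℝ := x * Real.exp (-EE x)

theorem kap_deriv (x : ℝ) : HasDerivAt kap (Real.exp (-(1 * x) - EE x)) x := by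
  have h := (hasDerivAt_id x).mul (EE_deriv x).neg.exp
  refine h.congr_deriv ?_
  have h2 := mul_gg x
  rw [show -(1 * x) - EE x = -x + -EE x by ring, Real.exp_add]
  simp only [id, Pi.neg_apply]
  linear_combination (-Real.exp (-EE x)) * h2

theorem kap_cont : Continuous kap :=
  continuous_iff_continuousAt.mpr fun x => (kap_deriv x).continuousAt

theorem kap_nonneg {x : ℝ} (hx : 0 ≤ x) : 0 ≤ kap x := mul_nonneg hx (Real.exp_pos _).le

theorem kap_le {x : ℝ} (hx : 0 ≤ x) : kap x ≤ x := by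
  have h : Real.exp (-EE x) ≤ 1 := Real.exp_le_one_iff.mpr (by linarith [EE_nonneg hx])
  exact mul_le_of_le_one_right hx h

/-- The adjoint function `p s = ∫ exp (-s x - E x) dx`. -/
def pp (s : ℝ) : ℝ := ∫ x in Ioi (0 : ℝ), Real.exp (-(s * x) - EE x)

theorem pp_int {s : ℝ} (hs : 0 < s) :
    IntegrableOn (fun x => Real.exp (-(s * x) - EE x)) (Ioi (0 : ℝ)) := by
  refine Integrable.mono' (integrableOn_exp_mul_Ioi (a := -s) (by linarith) 0)
    (Continuous.aestronglyMeasurable (by have := EE_cont; fun_prop)) ?_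
  refine (ae_restrict_iff' measurableSet_Ioi).mpr (Eventually.of_forall fun x hx => ?_)
  rw [Real.norm_of_nonneg (Real.exp_pos _).le]
  exact Real.exp_le_exp.mpr (by linarith [EE_nonneg (le_of_lt hx)])

theorem pp_nonneg (s : ℝ) : 0 ≤ pp s := integral_nonneg fun _ => (Real.exp_pos _).le

theorem pp_le {s : ℝ} (hs : 0 < s) : pp s ≤ 1 / s := by
  have h1 := integral_exp_mul_Ioi (a := -s) (by linarith) 0
  have h2 : pp s ≤ ∫ x : ℝ in Ioi 0, Real.exp (-s * x) := by
    refine setIntegral_mono_on (pp_int hs) (integrableOn_exp_mul_Ioi (a := -s) (by linarith) 0)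
      measurableSet_Ioi fun x hx => ?_
    exact Real.exp_le_exp.mpr (by linarith [EE_nonneg (le_of_lt hx)])
  rw [h1] at h2
  simpa [neg_div_neg_eq] using h2

theorem kap_le_pp {x : ℝ} (hx : 0 ≤ x) : kap x ≤ pp 1 := by
  have h1 : ∫ t in (0 : ℝ)..x, Real.exp (-(1 * t) - EE t) = kap x - kap 0 :=
    intervalIntegral.integral_eq_sub_of_hasDerivAt (fun t _ => kap_deriv t)
      (Continuous.intervalIntegrable (by have := EE_cont; fun_prop) _ _)
  have h0 : kap 0 = 0 := by simp [kap]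
  rw [h0, sub_zero, intervalIntegral.integral_of_le hx] at h1
  rw [← h1]
  exact setIntegral_mono_set (pp_int one_pos)
    (Eventually.of_forall fun _ => (Real.exp_pos _).le) Ioc_subset_Ioi_self.eventuallyLE

theorem mul_exp_le {s : ℝ} (hs : 0 < s) (x : ℝ) :
    x * Real.exp (-(s * x)) ≤ 2 / s * Real.exp (-(s / 2) * x) := by
  have h1 : s / 2 * x ≤ Real.exp (s / 2 * x) := by linarith [Real.add_one_le_exp (s / 2 * x)]
  have h2 : Real.exp (-(s / 2) * x) = Real.exp (s / 2 * x) * Real.exp (-(s * x)) := by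
    rw [← Real.exp_add]; congr 1; ring
  rw [h2, ← mul_assoc]
  refine mul_le_mul_of_nonneg_right ?_ (Real.exp_pos _).le
  rw [div_mul_eq_mul_div, le_div_iff₀ hs]
  linarith

theorem kap_int {s : ℝ} (hs : 0 < s) :
    IntegrableOn (fun x => kap x * Real.exp (-(s * x))) (Ioi (0 : ℝ)) := by
  refine Integrable.mono'
    ((integrableOn_exp_mul_Ioi (a := -(s / 2)) (by linarith) 0).const_mul (2 / s))
    (Continuous.aestronglyMeasurable (by have := kap_cont; fun_prop)) ?_
  refine (ae_restrict_iff' measurableSet_Ioi).mpr (Eventually.of_forall fun x hx => ?_)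
  have hx' : 0 ≤ x := le_of_lt hx
  rw [Real.norm_of_nonneg (mul_nonneg (kap_nonneg hx') (Real.exp_pos _).le)]
  exact (mul_le_mul_of_nonneg_right (kap_le hx') (Real.exp_pos _).le).trans (mul_exp_le hs x)

theorem pp_deriv0 {s : ℝ} (hs : 0 < s) :
    HasDerivAt pp (∫ x in Ioi (0 : ℝ), -(kap x * Real.exp (-(s * x)))) s := by
  have hE := EE_cont
  have hk := kap_cont
  refine (hasDerivAt_integral_of_dominated_loc_of_deriv_le (μ := volume.restrict (Ioi (0 : ℝ)))
    (F := fun s x => Real.exp (-(s * x) - EE x))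
    (F' := fun s x => -(kap x * Real.exp (-(s * x)))) (s := Ioi (s / 2))
    (bound := fun x => kap x * Real.exp (-(s / 2 * x)))
    (Ioi_mem_nhds (by linarith))
    (Eventually.of_forall fun t => Continuous.aestronglyMeasurable (by fun_prop))
    (pp_int hs) (Continuous.aestronglyMeasurable (by fun_prop)) ?_ (kap_int (by linarith)) ?_).2
  · refine (ae_restrict_iff' measurableSet_Ioi).mpr (Eventually.of_forall fun x hx t ht => ?_)
    have hx' : 0 ≤ x := le_of_lt hx
    have ht' : s / 2 < t := ht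
    rw [norm_neg, Real.norm_of_nonneg (mul_nonneg (kap_nonneg hx') (Real.exp_pos _).le)]
    exact mul_le_mul_of_nonneg_left (Real.exp_le_exp.mpr (by nlinarith)) (kap_nonneg hx')
  · refine Eventually.of_forall fun x t _ => ?_
    have h1 : HasDerivAt (fun t : ℝ => -(t * x) - EE x) (-x) t := by
      simpa using (((hasDerivAt_id t).mul_const x).neg).sub_const (EE x)
    refine h1.exp.congr_deriv ?_
    rw [kap, show -(t * x) - EE x = -(t * x) + -EE x by ring, Real.exp_add]
    ring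

theorem pp_deriv {s : ℝ} (hs : 0 < s) : HasDerivAt pp (-1 * pp (s + 1) / s) s := by
  refine (pp_deriv0 hs).congr_deriv ?_
  have hd : ∀ x ∈ Ioi (0 : ℝ), HasDerivAt (fun x => Real.exp (-(s * x)))
      (-s * Real.exp (-(s * x))) x := by
    intro x _
    have h1 : HasDerivAt (fun x : ℝ => -(s * x)) (-s) x :=
      ((hasDerivAt_id x).const_mul s).neg.congr_deriv (by ring)
    exact h1.exp.congr_deriv (by ring)
  have he : ∀ x : ℝ, Real.exp (-(1 * x) - EE x) * Real.exp (-(s * x)) =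
      Real.exp (-((s + 1) * x) - EE x) := by
    intro x; rw [← Real.exp_add]; congr 1; ring
  have h := integral_Ioi_mul_deriv_eq_deriv_mul (a := 0) (a' := 0) (b' := 0)
    (u := kap) (u' := fun x => Real.exp (-(1 * x) - EE x))
    (v := fun x => Real.exp (-(s * x))) (v' := fun x => -s * Real.exp (-(s * x)))
    (fun x _ => kap_deriv x) hd ?_ ?_ ?_ ?_
  · simp only [he] at h
    have h2 : ∫ x in Ioi (0 : ℝ), kap x * (-s * Real.exp (-(s * x))) =
        s * ∫ x in Ioi (0 : ℝ), -(kap x * Real.exp (-(s * x))) := by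
      rw [← integral_const_mul]
      congr 1; ext x; ring
    rw [h2] at h
    rw [eq_div_iff hs.ne', mul_comm, h, pp]
    ring
  · refine ((kap_int hs).const_mul (-s)).congr (Eventually.of_forall fun x => ?_)
    simp only [Pi.mul_apply]; ring
  · refine (pp_int (s := s + 1) (by linarith)).congr (Eventually.of_forall fun x => ?_)
    simp only [Pi.mul_apply, he]
  · have hc : Continuous (kap * fun x => Real.exp (-(s * x))) := by
      have := kap_cont; fun_prop
    have := (hc.tendsto 0).mono_left (nhdsWithin_le_nhds (s := Ioi (0 : ℝ)))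
    simpa [kap] using this
  · have h0 : Tendsto (fun x : ℝ => 2 / s * Real.exp (-(s / 2) * x)) atTop (𝓝 (2 / s * 0)) :=
      (Real.tendsto_exp_atBot.comp
        (tendsto_id.const_mul_atTop_of_neg (by linarith))).const_mul _
    rw [mul_zero] at h0
    refine squeeze_zero' ?_ ?_ h0
    · filter_upwards [eventually_ge_atTop 0] with x hx
      exact mul_nonneg (kap_nonneg hx) (Real.exp_pos _).le
    · filter_upwards [eventually_ge_atTop 0] with x hx
      exact (mul_le_mul_of_nonneg_right (kap_le hx) (Real.exp_pos _).le).trans (mul_exp_le hs x)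

theorem pp_contOn : ContinuousOn pp (Ioi 0) := fun _ hs =>
  (pp_deriv hs).continuousAt.continuousWithinAt

theorem pp_ii {s t : ℝ} (hs : 0 < s) (ht : 0 < t) : IntervalIntegrable pp volume s t :=
  (pp_contOn.mono fun _ hx => lt_of_lt_of_le (lt_min hs ht) hx.1).intervalIntegrable

/-- The first integral of the adjoint equation. -/
def II (s : ℝ) : ℝ := s * pp s + ((∫ t in (1 : ℝ)..(s + 1), pp t) - ∫ t in (1 : ℝ)..s, pp t)

theorem II_eq {s : ℝ} (hs : 0 < s) : II s = s * pp s + ∫ t in s..(s + 1), pp t := by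
  rw [II, intervalIntegral.integral_interval_sub_left (pp_ii one_pos (by linarith))
    (pp_ii one_pos hs)]

theorem prim_deriv {s : ℝ} (hs : 0 < s) :
    HasDerivAt (fun s => ∫ t in (1 : ℝ)..s, pp t) (pp s) s :=
  intervalIntegral.integral_hasDerivAt_right (pp_ii one_pos hs)
    (pp_contOn.stronglyMeasurableAtFilter isOpen_Ioi s hs) (pp_deriv hs).continuousAt

theorem II_deriv {s : ℝ} (hs : 0 < s) : HasDerivAt II 0 s := by
  have h1 := (hasDerivAt_id s).mul (pp_deriv hs)
  have h2 := (prim_deriv (s := s + 1) (by linarith)).comp_add_const s 1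
  refine (h1.add (h2.sub (prim_deriv hs))).congr_deriv ?_
  simp only [id]
  field_simp
  ring

theorem II_le_aux {s : ℝ} (hs : 0 < s) : II s ≤ 1 + 1 / s := by
  rw [II_eq hs]
  have h1 : s * pp s ≤ 1 := by
    have := pp_le hs
    rwa [le_div_iff₀' hs] at this
  have h2 : ∫ t in s..(s + 1), pp t ≤ ∫ _ in s..(s + 1), 1 / s := by
    refine intervalIntegral.integral_mono_on (by linarith) (pp_ii hs (by linarith))
      (continuous_const.intervalIntegrable _ _) fun t ht => ?_
    exact (pp_le (lt_of_lt_of_le hs ht.1)).trans (one_div_le_one_div_of_le hs ht.1)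
  simp only [intervalIntegral.integral_const, add_sub_cancel_left, smul_eq_mul, one_mul] at h2
  linarith

theorem II_le {s : ℝ} (hs : 0 < s) : II s ≤ 1 := by
  have h : ∀ t, s ≤ t → II t = II s := fun t ht =>
    constant_of_has_deriv_right_zero (a := s) (b := t)
      (fun x hx => (II_deriv (lt_of_lt_of_le hs hx.1)).continuousAt.continuousWithinAt)
      (fun x hx => (II_deriv (lt_of_lt_of_le hs hx.1)).hasDerivWithinAt) t ⟨ht, le_rfl⟩
  have h0 : Tendsto (fun t : ℝ => 1 + 1 / t) atTop (𝓝 (1 + 0)) :=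
    tendsto_const_nhds.add (tendsto_const_nhds.div_atTop tendsto_id)
  rw [add_zero] at h0
  refine ge_of_tendsto h0 ?_
  filter_upwards [eventually_ge_atTop s] with t ht
  rw [← h t ht]
  exact II_le_aux (lt_of_lt_of_le hs ht)

theorem shift_int (f : ℝ → ℝ) (c : ℝ) :
    ∫ s in Ioi (c + 1), f (s - 1) = ∫ t in Ioi c, f t := by
  have h := (measurePreserving_add_right volume (-1 : ℝ)).setIntegral_preimage_emb
    (measurableEmbedding_addRight (-1)) f (Ioi c)
  simpa [sub_eq_add_neg] using h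

theorem shift_intg {f : ℝ → ℝ} {c : ℝ} (hf : IntegrableOn f (Ioi c)) :
    IntegrableOn (fun s => f (s - 1)) (Ioi (c + 1)) := by
  have h := ((measurePreserving_add_right volume (-1 : ℝ)).integrableOn_comp_preimage
    (measurableEmbedding_addRight (-1)) (f := f) (s := Ioi c)).mpr hf
  simpa [sub_eq_add_neg, Function.comp_def] using h

theorem int_of_bound {f : ℝ → ℝ} {c D : ℝ} (hc : 1 ≤ c) (hm : ContinuousOn f (Ioi c))
    (hD : ∀ t, c < t → |f t| ≤ D / t ^ 3) : IntegrableOn f (Ioi c) := by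
  refine Integrable.mono' ((integrableOn_Ioi_rpow_of_lt (a := -3) (c := c) (by norm_num)
    (by linarith)).const_mul D) (hm.aestronglyMeasurable measurableSet_Ioi) ?_
  refine (ae_restrict_iff' measurableSet_Ioi).mpr (Eventually.of_forall fun t ht => ?_)
  have ht' : c < t := ht
  rw [Real.rpow_neg (by linarith), Real.rpow_ofNat, ← div_eq_mul_inv]
  exact hD t ht'

theorem div_int {w : ℝ → ℝ} {C : ℝ} (hw0 : ∀ s, 0 ≤ w s) (hwm : Antitone w)
    (hwC : ∀ s, 1 ≤ s → w s ≤ C / s ^ 3) {c : ℝ} (hc : 1 ≤ c) :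
    IntegrableOn (fun t => w t / t) (Ioi c) := by
  refine Integrable.mono' ((integrableOn_Ioi_rpow_of_lt (a := -3) (c := c) (by norm_num)
    (by linarith)).const_mul C) (hwm.measurable.div measurable_id).aestronglyMeasurable ?_
  refine (ae_restrict_iff' measurableSet_Ioi).mpr (Eventually.of_forall fun t ht => ?_)
  have ht' : c < t := ht
  rw [Real.rpow_neg (by linarith), Real.rpow_ofNat, ← div_eq_mul_inv,
    Real.norm_of_nonneg (div_nonneg (hw0 t) (by linarith))]
  exact (div_le_self (hw0 t) (by linarith)).trans (hwC t (by linarith))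

theorem prim_cont {u w : ℝ → ℝ} {c : ℝ} (hi : IntegrableOn (fun t => w t / t) (Ioi c))
    (hu : ∀ s, c + 1 ≤ s → u s = ∫ t in Ioi (s - 1), w t / t) : ContinuousOn u (Ici (c + 1)) := by
  have h := hi.continuousOn_Ici_primitive_Ioi
  have h2 : ContinuousOn (fun s : ℝ => ∫ t in Ioi (s - 1), w t / t) (Ici (c + 1)) :=
    h.comp (f := fun s : ℝ => s - 1) (by fun_prop) fun s hs => by
      have hs' : c + 1 ≤ s := hs
      change c ≤ s - 1
      linarith
  exact h2.congr fun s hs => hu s hs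

theorem prim_hasDeriv {u w : ℝ → ℝ} {c : ℝ} (hc : 0 < c)
    (hi : IntegrableOn (fun t => w t / t) (Ioi c)) (hw : ContinuousOn w (Ioi c))
    (hu : ∀ s, c + 1 ≤ s → u s = ∫ t in Ioi (s - 1), w t / t) {s : ℝ} (hs : c + 1 < s) :
    HasDerivAt u (-(w (s - 1) / (s - 1))) s := by
  have hwc : ContinuousOn (fun t => w t / t) (Ioi c) :=
    hw.div continuousOn_id fun t ht => (lt_trans hc ht).ne'
  have hs1 : s - 1 ∈ Ioi c := by change c < s - 1; linarith
  have h1 : HasDerivAt (fun y => ∫ t in c..y, w t / t) (w (s - 1) / (s - 1)) (s - 1) :=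
    intervalIntegral.integral_hasDerivAt_right
      ((intervalIntegrable_iff_integrableOn_Ioc_of_le (le_of_lt hs1)).mpr
        (hi.mono_set Ioc_subset_Ioi_self))
      (hwc.stronglyMeasurableAtFilter isOpen_Ioi _ hs1) (hwc.continuousAt (Ioi_mem_nhds hs1))
  have h2 := (h1.comp_sub_const s 1).const_sub (∫ t in Ioi c, w t / t)
  refine h2.congr_of_eventuallyEq ?_
  filter_upwards [Ioi_mem_nhds hs] with y hy
  have hy' : c + 1 < y := hy
  rw [hu y hy'.le, ← intervalIntegral.integral_Ioi_sub_Ioi hi (by linarith : c ≤ y - 1)]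
  ring

theorem pair_int {w π : ℝ → ℝ} {C c : ℝ} (hc : 1 ≤ c) (hw0 : ∀ s, 0 ≤ w s)
    (hwC : ∀ s, 1 ≤ s → w s ≤ C / s ^ 3) (hw : ContinuousOn w (Ioi c))
    (hπ : ContinuousOn π (Ioi 0)) (hπb : ∀ s, 1 ≤ s → |π s| ≤ s) :
    IntegrableOn (fun t => w t * π (t + 1) / t) (Ioi c) := by
  refine int_of_bound (D := 2 * C) hc ?_ fun t ht => ?_
  · refine (hw.mul (hπ.comp (f := fun t : ℝ => t + 1) (by fun_prop) fun t ht => ?_)).div
      continuousOn_id fun t ht => ?_
    · have ht' : c < t := ht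
      change 0 < t + 1
      linarith
    · have ht' : c < t := ht
      exact (by linarith : 0 < t).ne'
  · have ht0 : 0 < t := by linarith
    have h1 := hπb (t + 1) (by linarith)
    have h2 := hwC t (by linarith)
    rw [abs_div, abs_mul, abs_of_nonneg (hw0 t), abs_of_pos ht0, div_le_iff₀ ht0]
    calc w t * |π (t + 1)| ≤ C / t ^ 3 * (2 * t) :=
          mul_le_mul h2 (by linarith) (abs_nonneg _) ((hw0 t).trans h2)
      _ = 2 * C / t ^ 3 * t := by ring

/-- Integration by parts against a solution of the adjoint equation. -/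
theorem parts {u w π : ℝ → ℝ} {C c σ : ℝ} (hc : 1 ≤ c) (hu0 : ∀ s, 0 ≤ u s) (hw0 : ∀ s, 0 ≤ w s)
    (hwm : Antitone w) (huC : ∀ s, 1 ≤ s → u s ≤ C / s ^ 3) (hwC : ∀ s, 1 ≤ s → w s ≤ C / s ^ 3)
    (hw : ContinuousOn w (Ioi c))
    (hu : ∀ s, c + 1 ≤ s → u s = ∫ t in Ioi (s - 1), w t / t)
    (hπ : ∀ s, 0 < s → HasDerivAt π (σ * π (s + 1) / s) s) (hπb : ∀ s, 1 ≤ s → |π s| ≤ s) :
    σ * ∫ t in Ioi (c + 1), u t * π (t + 1) / t =
      -(u (c + 1) * π (c + 1)) + ∫ t in Ioi c, w t * π (t + 1) / t := by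
  have hπc : ContinuousOn π (Ioi 0) := fun s hs => (hπ s hs).continuousAt.continuousWithinAt
  have hi := div_int hw0 hwm hwC hc
  have huc := prim_cont hi hu
  have hiu := pair_int (c := c + 1) (by linarith) hu0 huC (huc.mono Ioi_subset_Ici_self) hπc hπb
  have hiw := pair_int hc hw0 hwC hw hπc hπb
  have h := integral_Ioi_mul_deriv_eq_deriv_mul (a := c + 1) (a' := u (c + 1) * π (c + 1))
    (b' := 0) (u := u) (u' := fun s => -(w (s - 1) / (s - 1))) (v := π)
    (v' := fun s => σ * π (s + 1) / s)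
    (fun s hs => prim_hasDeriv (by linarith) hi hw hu hs)
    (fun s hs => hπ s (by have hs' : c + 1 < s := hs; linarith)) ?_ ?_ ?_ ?_
  · have h1 : ∫ x in Ioi (c + 1), u x * (σ * π (x + 1) / x) =
        σ * ∫ t in Ioi (c + 1), u t * π (t + 1) / t := by
      rw [← integral_const_mul]; congr 1; ext x; ring
    have h2 : ∫ x in Ioi (c + 1), -(w (x - 1) / (x - 1)) * π x =
        -∫ t in Ioi c, w t * π (t + 1) / t := by
      rw [← shift_int (fun t => w t * π (t + 1) / t) c, ← integral_neg]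
      congr 1; ext x; rw [sub_add_cancel]; ring
    rw [h1, h2] at h
    rw [h]; ring
  · refine (hiu.const_mul σ).congr (Eventually.of_forall fun x => ?_)
    simp only [Pi.mul_apply]; ring
  · refine (shift_intg hiw).neg.congr (Eventually.of_forall fun x => ?_)
    simp only [Pi.mul_apply, Pi.neg_apply, sub_add_cancel]; ring
  · have h1 : ContinuousWithinAt (u * π) (Ioi (c + 1)) (c + 1) :=
      ((huc (c + 1) self_mem_Ici).mono Ioi_subset_Ici_self).mul
        (hπ (c + 1) (by linarith)).continuousAt.continuousWithinAt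
    exact h1
  · have h0 : Tendsto (fun t : ℝ => C / t ^ 2) atTop (𝓝 0) :=
      tendsto_const_nhds.div_atTop (tendsto_pow_atTop two_ne_zero)
    refine squeeze_zero_norm' ?_ h0
    filter_upwards [eventually_ge_atTop 1] with t ht
    have h1 := hπb t ht
    have h2 := huC t ht
    rw [Pi.mul_apply, Real.norm_eq_abs, abs_mul, abs_of_nonneg (hu0 t)]
    calc u t * |π t| ≤ C / t ^ 3 * t := mul_le_mul h2 h1 (abs_nonneg _) ((hu0 t).trans h2)
      _ = C / t ^ 2 := by field_simp

section Main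

variable {a b : ℝ → ℝ} {C : ℝ} (ha0 : ∀ s, 0 ≤ a s) (hb0 : ∀ s, 0 ≤ b s) (ham : Antitone a)
  (hbm : Antitone b) (haC : ∀ s, 1 ≤ s → a s ≤ C / s ^ 3) (hbC : ∀ s, 1 ≤ s → b s ≤ C / s ^ 3)
  (hb : ∀ s, 2 ≤ s → b s = ∫ t in Set.Ioi (s - 1), a t / t)
  (ha : ∀ s, 3 ≤ s → a s = ∫ t in Set.Ioi (s - 1), b t / t)
  (ha1 : ∀ s, 1 ≤ s → s ≤ 3 → a s = a 3 + (3 - s))

include ha0 hb0 ham hbm haC hbC hb ha ha1

theorem pairing {π : ℝ → ℝ} {σ : ℝ} (hσ : σ * σ = 1)
    (hπ : ∀ s, 0 < s → HasDerivAt π (σ * π (s + 1) / s) s) (hπb : ∀ s, 1 ≤ s → |π s| ≤ s) :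
    (a 3 + 2) * π 1 - ∫ t in (1 : ℝ)..3, π t = -σ * (b 2 * π 2) := by
  have hπc : ContinuousOn π (Ioi 0) := fun s hs => (hπ s hs).continuousAt.continuousWithinAt
  have e2 : (1 : ℝ) + 1 = 2 := by norm_num
  have e3 : (2 : ℝ) + 1 = 3 := by norm_num
  have hbc : ContinuousOn b (Ici 2) := by
    have := prim_cont (u := b) (div_int ha0 ham haC le_rfl) (fun s hs => hb s (by linarith))
    rwa [e2] at this
  have hac3 : ContinuousOn a (Ici 3) := by
    have := prim_cont (u := a) (div_int hb0 hbm hbC one_le_two) (fun s hs => ha s (by linarith))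
    rwa [e3] at this
  have hac1 : ContinuousOn a (Icc 1 3) :=
    (by fun_prop : ContinuousOn (fun s : ℝ => a 3 + (3 - s)) (Icc 1 3)).congr
      fun s hs => ha1 s hs.1 hs.2
  have hac : ContinuousOn a (Ici 1) := by
    rw [← Icc_union_Ici_eq_Ici (by norm_num : (1 : ℝ) ≤ 3)]
    exact hac1.union_of_isClosed hac3 isClosed_Icc isClosed_Ici
  have h1 := parts (c := 1) le_rfl hb0 ha0 ham hbC haC (hac.mono Ioi_subset_Ici_self)
    (fun s hs => hb s (by linarith)) hπ hπb
  have h2 := parts (c := 2) one_le_two ha0 hb0 hbm haC hbC (hbc.mono Ioi_subset_Ici_self)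
    (fun s hs => ha s (by linarith)) hπ hπb
  rw [e2] at h1
  rw [e3] at h2
  have hia := pair_int le_rfl ha0 haC (hac.mono Ioi_subset_Ici_self) hπc hπb
  have h3 := intervalIntegral.integral_Ioi_sub_Ioi hia (by norm_num : (1 : ℝ) ≤ 3)
  have hsub : uIcc (1 : ℝ) 3 ⊆ Ioi 0 := fun x hx => by
    rw [uIcc_of_le (by norm_num)] at hx
    exact lt_of_lt_of_le one_pos hx.1
  have hπi : IntervalIntegrable π volume 1 3 := (hπc.mono hsub).intervalIntegrable
  have hπ'i : IntervalIntegrable (fun s => σ * π (s + 1) / s) volume 1 3 := by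
    refine ContinuousOn.intervalIntegrable ?_
    refine ((hπc.comp (f := fun t : ℝ => t + 1) (by fun_prop) fun t ht => ?_).const_smul σ).div
      continuousOn_id fun t ht => (hsub ht).ne'
    have : 0 < t := hsub ht
    change 0 < t + 1
    linarith
  have h4 := intervalIntegral.integral_mul_deriv_eq_deriv_mul (a := 1) (b := 3)
    (u := fun s => a 3 + (3 - s)) (u' := fun _ => -1) (v := π) (v' := fun s => σ * π (s + 1) / s)
    (fun s _ => (((hasDerivAt_id s).const_sub 3).const_add (a 3)))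
    (fun s hs => hπ s (hsub hs)) (continuous_const.intervalIntegrable _ _) hπ'i
  have h5 : ∫ x in (1 : ℝ)..3, (a 3 + (3 - x)) * (σ * π (x + 1) / x) =
      σ * ∫ t in (1 : ℝ)..3, a t * π (t + 1) / t := by
    rw [← intervalIntegral.integral_const_mul]
    refine intervalIntegral.integral_congr fun x hx => ?_
    rw [uIcc_of_le (by norm_num)] at hx
    simp only [ha1 x hx.1 hx.2]
    ring
  have h6 : ∫ x in (1 : ℝ)..3, -1 * π x = -∫ x in (1 : ℝ)..3, π x := by
    rw [intervalIntegral.integral_const_mul]; ring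
  rw [h5, h6] at h4
  linear_combination h4 + h2 + σ * h1 + σ * h3 - (∫ t in Ioi 2, b t * π (t + 1) / t) * hσ

theorem b_two : b 2 = 2 := by
  have h := pairing ha0 hb0 ham hbm haC hbC hb ha ha1 (π := fun s => s - 1) (σ := 1) (by norm_num)
    (fun s hs => ((hasDerivAt_id s).sub_const 1).congr_deriv (by field_simp; ring))
    (fun s hs => by rw [abs_of_nonneg (by linarith)]; linarith)
  have h2 : ∫ t in (1 : ℝ)..3, (t - 1) = 2 := by
    rw [intervalIntegral.integral_sub (continuous_id'.intervalIntegrable _ _)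
      (continuous_const.intervalIntegrable _ _), integral_id]
    norm_num
  rw [h2] at h
  linarith

theorem A_kap_le {x : ℝ} (hx : 0 ≤ x) : (a 3 + 3) * kap x ≤ 2 := by
  have h := pairing ha0 hb0 ham hbm haC hbC hb ha ha1 (π := pp) (σ := -1) (by norm_num)
    (fun s hs => pp_deriv hs) (fun s hs => by
      rw [abs_of_nonneg (pp_nonneg s)]
      exact (pp_le (by linarith)).trans ((div_le_one (by linarith)).mpr hs |>.trans hs))
  rw [b_two ha0 hb0 ham hbm haC hbC hb ha ha1] at h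
  have h1 := II_le one_pos
  have h2 := II_le two_pos
  rw [II_eq one_pos, show (1 : ℝ) + 1 = 2 by norm_num] at h1
  rw [II_eq two_pos, show (2 : ℝ) + 1 = 3 by norm_num] at h2
  have h3 := intervalIntegral.integral_add_adjacent_intervals (pp_ii one_pos two_pos)
    (pp_ii two_pos three_pos)
  have h4 : (a 3 + 3) * kap x ≤ (a 3 + 3) * pp 1 :=
    mul_le_mul_of_nonneg_left (kap_le_pp hx) (by linarith [ha0 3])
  linarith

end Main

theorem step_ineq {σ y : ℝ} (hσ : 0 < σ) (hy : 0 < y) :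
    y ^ (-σ) - (y + 1) ^ (-σ) ≤ σ * y ^ (-1 - σ) := by
  have h1 : (y + 1) ^ (-σ) = y ^ (-σ) * (1 + 1 / y) ^ (-σ) := by
    rw [← Real.mul_rpow hy.le (by positivity)]
    congr 1
    field_simp
  have h2 : 1 - σ * (1 / y) ≤ (1 + 1 / y) ^ (-σ) := by
    have hp : 0 < 1 + 1 / y := by positivity
    rw [Real.rpow_def_of_pos hp]
    have h3 : Real.log (1 + 1 / y) ≤ 1 / y := by
      have := Real.log_le_sub_one_of_pos hp
      linarith
    have h4 := Real.add_one_le_exp (Real.log (1 + 1 / y) * -σ)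
    nlinarith
  have h5 : y ^ (-1 - σ) = y ^ (-σ) * (1 / y) := by
    rw [show -1 - σ = -σ + -1 by ring, Real.rpow_add hy, Real.rpow_neg_one, one_div]
  have h6 : 0 < y ^ (-σ) := Real.rpow_pos_of_pos hy _
  rw [h1, h5]
  nlinarith [mul_le_mul_of_nonneg_left h2 h6.le]

theorem zeta_lower {σ : ℝ} (hσ : 0 < σ) (N : ℕ) :
    1 - ((N : ℝ) + 1) ^ (-σ) ≤ σ * ∑ n ∈ Finset.Ioc 0 N, (n : ℝ) ^ (-1 - σ) := by
  induction N with
  | zero => simp
  | succ N ih =>
    rw [Finset.sum_Ioc_succ_top (Nat.zero_le N), mul_add]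
    have := step_ineq hσ (y := (N : ℝ) + 1) (by positivity)
    push_cast
    linarith

theorem filter_eq_primesBelow (N : ℕ) :
    (Finset.Ioc 0 N).filter Nat.Prime = (N + 1).primesBelow := by
  ext p
  simp only [Finset.mem_filter, Finset.mem_Ioc, Nat.mem_primesBelow, Nat.lt_succ_iff]
  exact ⟨fun h => ⟨h.1.2, h.2⟩, fun h => ⟨⟨h.2.pos, h.1⟩, h.2⟩⟩

theorem zeta_upper {τ : ℝ} (hτ : τ < 0) (N : ℕ) :
    ∑ n ∈ Finset.Ioc 0 N, (n : ℝ) ^ τ ≤
      ∏ p ∈ (Finset.Ioc 0 N).filter Nat.Prime, (1 - (p : ℝ) ^ τ)⁻¹ := by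
  let f : ℕ →* ℝ :=
    { toFun := fun n => (n : ℝ) ^ τ
      map_one' := by simp
      map_mul' := fun m n => by
        push_cast
        exact Real.mul_rpow (Nat.cast_nonneg _) (Nat.cast_nonneg _) }
  have hf : ∀ {p : ℕ}, p.Prime → ‖f p‖ < 1 := fun {p} hp => by
    have h1 : (1 : ℝ) < p := by exact_mod_cast hp.one_lt
    change ‖(p : ℝ) ^ τ‖ < 1
    rw [Real.norm_of_nonneg (Real.rpow_nonneg (by linarith) _)]
    exact Real.rpow_lt_one_of_one_lt_of_neg h1 hτ
  have h := (EulerProduct.summable_and_hasSum_smoothNumbers_prod_primesBelow_geometric hf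
    (N + 1)).2
  rw [filter_eq_primesBelow]
  have h2 := hasSum_subtype_iff_indicator.mp h
  refine le_trans (le_of_eq ?_) (sum_le_hasSum (Finset.Ioc 0 N) (fun n _ => ?_) h2)
  · refine Finset.sum_congr rfl fun n hn => ?_
    obtain ⟨hn0, hnN⟩ := Finset.mem_Ioc.mp hn
    rw [indicator_of_mem (Nat.mem_smoothNumbers_of_lt hn0 (Nat.lt_succ_of_le hnN))]
    rfl
  · exact indicator_nonneg (fun m _ => Real.rpow_nonneg (Nat.cast_nonneg m) τ) n

theorem factor_le {σ y : ℝ} (hσ : 0 < σ) (hy : 1 < y) :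
    1 - y⁻¹ ≤ Real.exp (-(Real.log y / y * (σ * gg (σ * Real.log y)))) *
      (1 - y ^ (-1 - σ)) := by
  have hy0 : 0 < y := by linarith
  have h1 : Real.log y / y * (σ * gg (σ * Real.log y)) = y⁻¹ - y ^ (-1 - σ) := by
    have h2 := mul_gg (σ * Real.log y)
    have h3 : y ^ (-1 - σ) = y⁻¹ * Real.exp (-(σ * Real.log y)) := by
      rw [show -1 - σ = -1 + -σ by ring, Real.rpow_add hy0, Real.rpow_neg_one,
        Real.rpow_def_of_pos hy0]
      congr 2; ring
    rw [h3, div_eq_mul_inv]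
    linear_combination y⁻¹ * h2
  rw [h1]
  have h4 : y ^ (-1 - σ) < 1 := Real.rpow_lt_one_of_one_lt_of_neg hy (by linarith)
  have h5 : 0 < y ^ (-1 - σ) := Real.rpow_pos_of_pos hy0 _
  have h6 : y ^ (-1 - σ) ≤ y⁻¹ := by
    rw [← Real.rpow_neg_one]
    exact Real.rpow_le_rpow_of_exponent_le hy.le (by linarith)
  have h7 := Real.add_one_le_exp (-(y⁻¹ - y ^ (-1 - σ)))
  have h8 := mul_le_mul_of_nonneg_right h7 (by linarith : 0 ≤ 1 - y ^ (-1 - σ))
  nlinarith [mul_nonneg h5.le (sub_nonneg.mpr h6)]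

theorem abel_lower {σ : ℝ} (hσ : 0 < σ) (N : ℕ) (hN : 0 < N) :
    EE (σ * Real.log N) - 15 * σ ≤
      ∑ p ∈ (Finset.Ioc 0 N).filter Nat.Prime, Real.log p / p * (σ * gg (σ * Real.log p)) := by
  set S : ℕ → ℝ := fun n => ∑ p ∈ (Finset.Ioc 0 n).filter Nat.Prime, Real.log p / p with hS
  set T : ℕ → ℝ := fun n => ∑ p ∈ (Finset.Ioc 0 n).filter Nat.Prime,
    Real.log p / p * (σ * gg (σ * Real.log p)) with hT
  have hR : ∀ n : ℕ, 0 < n → -14 ≤ S n - Real.log n := fun n hn =>
    (abs_le.mp (abs_sum_log_div_prime_sub_log_le n hn)).1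
  have key : ∀ n : ℕ, 1 ≤ n → -15 * σ ≤
      T n - (S n - Real.log n + 15) * (σ * gg (σ * Real.log n)) - EE (σ * Real.log n) := by
    intro n hn
    induction n, hn using Nat.le_induction with
    | base =>
      have e : (Finset.Ioc 0 1).filter Nat.Prime = ∅ := by decide
      have e1 : S 1 = 0 := by simp only [hS, e, Finset.sum_empty]
      have e2 : T 1 = 0 := by simp only [hT, e, Finset.sum_empty]
      simp [e1, e2, gg_zero, EE_zero]
    | succ n hn ih =>
      have hn' : (1 : ℝ) ≤ n := by exact_mod_cast hn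
      have hTS : T (n + 1) - T n =
          (S (n + 1) - S n) * (σ * gg (σ * Real.log ((n + 1 : ℕ) : ℝ))) := by
        simp only [hS, hT, Finset.sum_filter]
        rw [Finset.sum_Ioc_succ_top (Nat.zero_le n), Finset.sum_Ioc_succ_top (Nat.zero_le n)]
        split_ifs <;> ring
      have hl : Real.log n ≤ Real.log ((n + 1 : ℕ) : ℝ) :=
        Real.log_le_log (by linarith) (by push_cast; linarith)
      have hl2 : Real.log ((n + 1 : ℕ) : ℝ) - Real.log n ≤ 1 := by
        rw [← Real.log_div (by positivity) (by positivity)]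
        refine (Real.log_le_sub_one_of_pos (by positivity)).trans ?_
        rw [sub_le_iff_le_add, div_le_iff₀ (by linarith)]
        push_cast
        linarith
      have hm : σ * Real.log n ≤ σ * Real.log ((n + 1 : ℕ) : ℝ) :=
        mul_le_mul_of_nonneg_left hl hσ.le
      have hE := EE_sub_le hm
      have hg : σ * gg (σ * Real.log ((n + 1 : ℕ) : ℝ)) ≤ σ * gg (σ * Real.log n) :=
        mul_le_mul_of_nonneg_left (gg_anti hm) hσ.le
      have h1 := mul_nonneg (by linarith [hR n hn] :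
        0 ≤ S n - Real.log n + 15 - (Real.log ((n + 1 : ℕ) : ℝ) - Real.log n)) (sub_nonneg.mpr hg)
      nlinarith
  have h1 := key N hN
  have h2 : 0 ≤ (S N - Real.log N + 15) * (σ * gg (σ * Real.log N)) :=
    mul_nonneg (by linarith [hR N hN]) (mul_nonneg hσ.le (gg_nonneg _))
  change _ ≤ T N
  linarith

theorem mertens_kap {x : ℝ} (hx : 0 < x) (N : ℕ) (hN : 2 ≤ N) :
    (1 - Real.exp (-x)) *
        (Real.log N * ∏ p ∈ (Finset.Ioc 0 N).filter Nat.Prime, (1 - (p : ℝ)⁻¹)) ≤
      kap x * Real.exp (15 * x / Real.log N) := by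
  have hN' : (1 : ℝ) < N := by exact_mod_cast hN
  have hL : 0 < Real.log N := Real.log_pos hN'
  set σ := x / Real.log N with hσd
  have hσ : 0 < σ := div_pos hx hL
  have hσL : σ * Real.log N = x := div_mul_cancel₀ x hL.ne'
  set Ps := (Finset.Ioc 0 N).filter Nat.Prime with hPs
  have hP : ∀ p ∈ Ps, (1 : ℝ) < p := fun p hp => by
    exact_mod_cast (Finset.mem_filter.mp hp).2.one_lt
  have h1 := zeta_lower hσ N
  have h2 := zeta_upper (τ := -1 - σ) (by linarith) N
  have h3 := abel_lower hσ N (by omega)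
  have h4 : ((N : ℝ) + 1) ^ (-σ) ≤ Real.exp (-x) := by
    rw [← hσL, Real.rpow_def_of_pos (by linarith)]
    refine Real.exp_le_exp.mpr ?_
    have : Real.log N ≤ Real.log ((N : ℝ) + 1) := Real.log_le_log (by linarith) (by linarith)
    nlinarith
  have hQ : 0 < ∏ p ∈ Ps, (1 - (p : ℝ) ^ (-1 - σ)) := Finset.prod_pos fun p hp => by
    have := Real.rpow_lt_one_of_one_lt_of_neg (hP p hp) (by linarith : -1 - σ < 0)
    linarith
  have h5 : (1 - Real.exp (-x)) * ∏ p ∈ Ps, (1 - (p : ℝ) ^ (-1 - σ)) ≤ σ := by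
    rw [Finset.prod_inv_distrib] at h2
    rw [← le_div_iff₀ hQ, div_eq_mul_inv]
    have := mul_le_mul_of_nonneg_left h2 hσ.le
    linarith
  have h6 : ∏ p ∈ Ps, (1 - (p : ℝ)⁻¹) ≤
      Real.exp (-(EE x - 15 * σ)) * ∏ p ∈ Ps, (1 - (p : ℝ) ^ (-1 - σ)) := by
    have h7 : ∏ p ∈ Ps, (1 - (p : ℝ)⁻¹) ≤ ∏ p ∈ Ps,
        (Real.exp (-(Real.log p / p * (σ * gg (σ * Real.log p)))) * (1 - (p : ℝ) ^ (-1 - σ))) :=
      Finset.prod_le_prod (fun p hp => by
        have := inv_lt_one_of_one_lt₀ (hP p hp)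
        linarith) fun p hp => factor_le hσ (hP p hp)
    rw [Finset.prod_mul_distrib, ← Real.exp_sum, Finset.sum_neg_distrib] at h7
    refine h7.trans (mul_le_mul_of_nonneg_right (Real.exp_le_exp.mpr ?_) hQ.le)
    rw [hσL] at h3
    linarith
  have hex : 0 ≤ 1 - Real.exp (-x) := by
    have := Real.exp_le_one_iff.mpr (by linarith : -x ≤ 0)
    linarith
  have h8 : kap x * Real.exp (15 * x / Real.log N) =
      Real.log N * Real.exp (-(EE x - 15 * σ)) * σ := by
    rw [kap, mul_assoc, ← Real.exp_add, mul_div_assoc, ← hσd, mul_right_comm,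
      mul_comm (Real.log N) σ, hσL]
    congr 2; ring
  rw [h8]
  calc (1 - Real.exp (-x)) * (Real.log N * ∏ p ∈ Ps, (1 - (p : ℝ)⁻¹))
      ≤ (1 - Real.exp (-x)) * (Real.log N * (Real.exp (-(EE x - 15 * σ)) *
          ∏ p ∈ Ps, (1 - (p : ℝ) ^ (-1 - σ)))) :=
        mul_le_mul_of_nonneg_left (mul_le_mul_of_nonneg_left h6 hL.le) hex
    _ = Real.log N * Real.exp (-(EE x - 15 * σ)) *
          ((1 - Real.exp (-x)) * ∏ p ∈ Ps, (1 - (p : ℝ) ^ (-1 - σ))) := by ring
    _ ≤ _ := mul_le_mul_of_nonneg_left h5 (mul_nonneg hL.le (Real.exp_pos _).le)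

end LinC

open LinC in
/-- The constant `A = a 3 + 3` of the linear sieve satisfies
`A log N ∏_{p ≤ N} (1 - 1/p) ≤ 2 + o(1)`. -/
theorem linsieve_const (a b : ℝ → ℝ) (C : ℝ) (ha0 : ∀ s, 0 ≤ a s) (hb0 : ∀ s, 0 ≤ b s)
    (ham : Antitone a) (hbm : Antitone b) (haC : ∀ s, 1 ≤ s → a s ≤ C / s ^ 3)
    (hbC : ∀ s, 1 ≤ s → b s ≤ C / s ^ 3)
    (hb : ∀ s, 2 ≤ s → b s = ∫ t in Set.Ioi (s - 1), a t / t)
    (ha : ∀ s, 3 ≤ s → a s = ∫ t in Set.Ioi (s - 1), b t / t)
    (ha1 : ∀ s, 1 ≤ s → s ≤ 3 → a s = a 3 + (3 - s)) (δ : ℝ) (hδ : 0 < δ) :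
    ∀ᶠ N : ℕ in Filter.atTop, (a 3 + 3) *
      (Real.log N * ∏ p ∈ (Finset.Ioc 0 N).filter Nat.Prime, (1 - (p : ℝ)⁻¹)) ≤ 2 + δ := by
  have h0 : Tendsto (fun x : ℝ => (2 + δ) * (1 - Real.exp (-x))) atTop (𝓝 ((2 + δ) * (1 - 0))) :=
    (tendsto_const_nhds.sub Real.tendsto_exp_neg_atTop_nhds_zero).const_mul _
  obtain ⟨x, hx2, hx⟩ := ((h0.eventually (lt_mem_nhds (by linarith : 2 < (2 + δ) * (1 - 0)))).and
    (eventually_gt_atTop 0)).exists
  have h1 : Tendsto (fun N : ℕ => 2 * Real.exp (15 * x / Real.log N)) atTop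
      (𝓝 (2 * Real.exp 0)) :=
    ((Real.continuous_exp.tendsto 0).comp (tendsto_const_nhds.div_atTop
      (Real.tendsto_log_atTop.comp tendsto_natCast_atTop_atTop))).const_mul 2
  rw [Real.exp_zero, mul_one] at h1
  filter_upwards [h1.eventually (gt_mem_nhds hx2), eventually_ge_atTop 2] with N hN1 hN2
  have h2 := mertens_kap hx N hN2
  have h3 := A_kap_le ha0 hb0 ham hbm haC hbC hb ha ha1 hx.le
  have hA : 0 ≤ a 3 + 3 := by linarith [ha0 3]
  have hex : 0 < 1 - Real.exp (-x) := by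
    have := Real.exp_lt_one_iff.mpr (by linarith : -x < 0)
    linarith
  have h4 := mul_le_mul_of_nonneg_left h2 hA
  have h5 := mul_le_mul_of_nonneg_right h3 (Real.exp_pos (15 * x / Real.log N)).le
  refine le_of_mul_le_mul_left ?_ hex
  nlinarith

end Pool.Agent.Lib.ANT
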