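import Pool.Agent.Lib.ANT.LBound
import Pool.Agent.Lib.LargeSieve.Vaughan

/-!
# Vaughan's mean value theorem (crude form): `∑_{f ≤ F} ∑*_χ |ψ(X, χ)| ≪ X (log X)^4`
-/

noncomputable section

open Finset ArithmeticFunction

namespace Pool.Agent.Lib.ANT

open LargeSieve

lemma sum_mul_weight_complex (f g : ArithmeticFunction ℝ) (κ : ℕ → ℂ) (x : ℕ) :
    ∑ n ∈ Icc 1 x, ((f * g) n : ℂ) * κ n
      = ∑ d ∈ Icc 1 x, ∑ m ∈ Icc 1 (x / d), (f d : ℂ) * (g m * κ (d * m)) := by
  apply Complex.ext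
  · simpa using sum_mul_weight f g (fun n => (κ n).re) x
  · simpa using sum_mul_weight f g (fun n => (κ n).im) x

lemma norm_sum_mono_mul_le (a : ℕ → ℂ) {K : ℝ} (hK : ∀ n, ‖∑ k ∈ range n, a k‖ ≤ K) (F : ℕ → ℝ)
    (hF : Monotone F) (hF0 : ∀ n, 0 ≤ F n) (Y : ℕ) :
    ‖∑ k ∈ range (Y + 1), F k * a k‖ ≤ 2 * K * F Y := by
  have key : ∀ Y, ‖∑ k ∈ range (Y + 1), F k * a k - F Y * ∑ k ∈ range (Y + 1), a k‖
      ≤ K * (F Y - F 0) := by
    intro Y
    induction Y with
    | zero => simp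
    | succ Y ih =>
      have e : ∑ k ∈ range (Y + 1 + 1), F k * a k - F (Y + 1) * ∑ k ∈ range (Y + 1 + 1), a k
          = (∑ k ∈ range (Y + 1), F k * a k - F Y * ∑ k ∈ range (Y + 1), a k)
            - ((F (Y + 1) - F Y : ℝ) : ℂ) * ∑ k ∈ range (Y + 1), a k := by
        rw [sum_range_succ _ (Y + 1), sum_range_succ _ (Y + 1)]; push_cast; ring
      have h1 : 0 ≤ F (Y + 1) - F Y := sub_nonneg.2 (hF (Nat.le_succ Y))
      rw [e]
      refine (norm_sub_le _ _).trans ?_
      rw [norm_mul, Complex.norm_real, Real.norm_of_nonneg h1]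
      nlinarith [hK (Y + 1)]
  have h1 := norm_le_insert' (∑ k ∈ range (Y + 1), F k * a k) (F Y * ∑ k ∈ range (Y + 1), a k)
  rw [norm_mul, Complex.norm_real, Real.norm_of_nonneg (hF0 Y)] at h1
  have hK0 : 0 ≤ K := (norm_nonneg _).trans (hK 0)
  nlinarith [key Y, hK (Y + 1), hF0 Y, hF0 0]

lemma typeI_char {q : ℕ} [NeZero q] {χ : DirichletCharacter ℂ q} (hχ : χ ≠ 1) (F : ℕ → ℝ)
    (hF : Monotone F) (hF0 : ∀ n, 0 ≤ F n) (d Y : ℕ) :
    ‖∑ m ∈ Icc 1 Y, F m * χ ((d * m : ℕ) : ZMod q)‖ ≤ 2 * q * F Y := by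
  have h0 : χ 0 = 0 := χ.map_zero' (fun h => hχ (χ.level_one' h))
  have h := norm_sum_mono_mul_le (fun k => χ k) (K := q)
    (fun n => by simpa using norm_psum_char_le hχ 0 n) F hF hF0 Y
  have e : ∑ m ∈ Icc 1 Y, F m * χ ((d * m : ℕ) : ZMod q)
      = χ d * ∑ k ∈ range (Y + 1), F k * χ k := by
    rw [range_eq_Ico, sum_eq_sum_Ico_succ_bot (Nat.succ_pos Y), Nat.cast_zero, h0, mul_zero,
      zero_add, mul_sum]
    refine sum_congr rfl fun m _ => ?_
    rw [Nat.cast_mul, map_mul]; ring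
  rw [e, norm_mul]
  exact (mul_le_of_le_one_left (norm_nonneg _) (χ.norm_le_one _)).trans h

lemma typeI_pieces_char {q : ℕ} [NeZero q] {χ : DirichletCharacter ℂ q} (hχ : χ ≠ 1) (x U : ℕ)
    (hU : U ≤ x) (hU1 : 1 ≤ U) :
    ‖∑ n ∈ Icc 1 x, (vonMangoldt n : ℂ) * χ n‖ ≤ 5 * q * (U : ℝ) ^ 2 * Real.log x +
      ‖∑ n ∈ Icc 1 x, ((highPart muR U * (highPart vonMangoldt U * zetaR)) n : ℂ) * χ n‖ := by
  have hL : 0 ≤ Real.log x := Real.log_natCast_nonneg x
  have hU1' : (1 : ℝ) ≤ U := by exact_mod_cast hU1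
  have hq1 : (1 : ℝ) ≤ q := by exact_mod_cast NeZero.pos q
  have hΛ : ∀ X, ∑ n ∈ Icc 1 X, |lowPart vonMangoldt U n| ≤ U * Real.log x := fun X =>
    sum_abs_lowPart_le _ U X _ hL fun n hn => by
      rw [abs_of_nonneg vonMangoldt_nonneg]
      exact vonMangoldt_le_log.trans (log_nat_mono (hn.trans hU))
  have hμ : ∑ n ∈ Icc 1 x, |lowPart muR U n| ≤ U * 1 :=
    sum_abs_lowPart_le _ U x _ zero_le_one fun n _ => abs_muR_le n
  have e : ∑ n ∈ Icc 1 x, (vonMangoldt n : ℂ) * χ n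
      = ∑ n ∈ Icc 1 x, (lowPart vonMangoldt U n : ℂ) * χ n
        + ∑ n ∈ Icc 1 x, ((lowPart muR U * ArithmeticFunction.log) n : ℂ) * χ n
        - ∑ n ∈ Icc 1 x, ((lowPart muR U * (lowPart vonMangoldt U * zetaR)) n : ℂ) * χ n
        + ∑ n ∈ Icc 1 x, ((highPart muR U * (highPart vonMangoldt U * zetaR)) n : ℂ) * χ n := by
    rw [← sum_add_distrib, ← sum_sub_distrib, ← sum_add_distrib]
    refine sum_congr rfl fun n _ => ?_
    have := congrArg (fun f : ArithmeticFunction ℝ => (f n : ℂ)) (vaughan U U)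
    simp only [ArithmeticFunction.add_apply, Complex.ofReal_add] at this
    linear_combination χ n * this
  have b1 : ‖∑ n ∈ Icc 1 x, (lowPart vonMangoldt U n : ℂ) * χ n‖ ≤ U * Real.log x := by
    refine (norm_sum_le _ _).trans (le_trans (sum_le_sum fun n _ => ?_) (hΛ x))
    rw [norm_mul, Complex.norm_real]
    exact mul_le_of_le_one_right (abs_nonneg _) (χ.norm_le_one _)
  have b2 : ‖∑ n ∈ Icc 1 x, ((lowPart muR U * ArithmeticFunction.log) n : ℂ) * χ n‖
      ≤ U * (2 * q * Real.log x) := by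
    rw [sum_mul_weight_complex]
    refine (norm_sum_le _ _).trans ?_
    calc _ ≤ ∑ d ∈ Icc 1 x, |lowPart muR U d| * (2 * q * Real.log x) := by
          refine sum_le_sum fun d _ => ?_
          rw [← mul_sum, norm_mul, Complex.norm_real]
          refine mul_le_mul_of_nonneg_left ?_ (abs_nonneg _)
          refine (typeI_char hχ (fun m => Real.log m) log_nat_mono
            (fun m => Real.log_natCast_nonneg m) d (x / d)).trans ?_
          exact mul_le_mul_of_nonneg_left (log_nat_mono (Nat.div_le_self _ _)) (by positivity)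
      _ ≤ _ := by rw [← sum_mul]; exact mul_le_mul_of_nonneg_right (by linarith) (by positivity)
  have b3 : ‖∑ n ∈ Icc 1 x, ((lowPart muR U * (lowPart vonMangoldt U * zetaR)) n : ℂ) * χ n‖
      ≤ U * (U * Real.log x * (2 * q)) := by
    rw [sum_mul_weight_complex]
    refine (norm_sum_le _ _).trans ?_
    calc _ ≤ ∑ d ∈ Icc 1 x, |lowPart muR U d| * (U * Real.log x * (2 * q)) := by
          refine sum_le_sum fun d _ => ?_
          rw [← mul_sum, norm_mul, Complex.norm_real]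
          refine mul_le_mul_of_nonneg_left ?_ (abs_nonneg _)
          rw [sum_mul_weight_complex _ _ (fun m => χ ((d * m : ℕ) : ZMod q))]
          refine (norm_sum_le _ _).trans (le_trans (sum_le_sum
            (g := fun e => |lowPart vonMangoldt U e| * (2 * q)) fun e _ => ?_) ?_)
          · rw [← mul_sum, norm_mul, Complex.norm_real]
            refine mul_le_mul_of_nonneg_left ?_ (abs_nonneg _)
            have := typeI_char hχ (fun _ => 1) monotone_const (fun _ => zero_le_one) (d * e)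
              (x / d / e)
            rw [mul_one] at this
            refine le_of_eq_of_le (congrArg _ (sum_congr rfl fun m hm => ?_)) this
            rw [zetaR_apply (by have := (mem_Icc.1 hm).1; omega), mul_assoc]
          · rw [← sum_mul]; exact mul_le_mul_of_nonneg_right (hΛ _) (by positivity)
      _ ≤ _ := by rw [← sum_mul]; exact mul_le_mul_of_nonneg_right (by linarith) (by positivity)
  rw [e]
  refine (norm_add_le _ _).trans (add_le_add ?_ le_rfl)
  refine (norm_sub_le _ _).trans ((add_le_add (norm_add_le _ _) le_rfl).trans ?_)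
  have b4 : (U : ℝ) * Real.log x ≤ q * U ^ 2 * Real.log x := by
    refine mul_le_mul_of_nonneg_right ?_ hL; nlinarith
  have b5 : (U : ℝ) * (2 * q * Real.log x) ≤ 2 * (q * U ^ 2 * Real.log x) := by
    have : (U : ℝ) ≤ U ^ 2 := by nlinarith
    calc _ ≤ (U : ℝ) ^ 2 * (2 * q * Real.log x) := by gcongr
      _ = _ := by ring
  nlinarith

open Classical in
lemma typeII_char (F M N : ℕ) (hN : 0 < N) (α β : ℕ → ℝ) (g : ℕ → ℕ) (hg : ∀ m, g m < N) (B : ℝ)
    (hB : 0 ≤ B) (h : ((M + (F ^ 2 : ℕ) * HH (F ^ 2)) * ∑ m ∈ range M, α m ^ 2) *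
      ((N + (F ^ 2 : ℕ) * HH (F ^ 2)) * ∑ n ∈ range N, β n ^ 2) ≤ B ^ 2) :
    ∑ f ∈ Icc 1 F, ∑ χ : DirichletCharacter ℂ f with χ.IsPrimitive,
      ‖∑ m ∈ range M, ∑ n ∈ range N,
        if n ≤ g m then (α m : ℂ) * (β n * χ ((m * n : ℕ) : ZMod f)) else 0‖
      ≤ (1 + HH (2 * N)) * B := by
  set A : ℕ → ℕ → ℂ := fun h m => α m * ee (h * ((g m : ℝ) / (2 * N : ℕ))) with hA
  set Bt : ℕ → ℕ → ℂ := fun h n => β n * (starRingEnd ℂ) (ee (h * ((n : ℝ) / (2 * N : ℕ)))) with hBt
  have s1 : ∀ f (χ : DirichletCharacter ℂ f), ‖∑ m ∈ range M, ∑ n ∈ range N,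
        if n ≤ g m then (α m : ℂ) * (β n * χ ((m * n : ℕ) : ZMod f)) else 0‖
      ≤ ∑ h ∈ range (2 * N), ‖cutCoef N h‖ *
          (‖∑ m ∈ range M, A h m * χ m‖ * ‖∑ n ∈ range N, Bt h n * χ n‖) := by
    intro f χ
    have e : (∑ m ∈ range M, ∑ n ∈ range N,
        if n ≤ g m then (α m : ℂ) * (β n * χ ((m * n : ℕ) : ZMod f)) else 0)
        = ∑ h ∈ range (2 * N), cutCoef N h *
          ((∑ m ∈ range M, A h m * χ m) * (∑ n ∈ range N, Bt h n * χ n)) := by
      have e1 : ∀ m ∈ range M, ∀ n ∈ range N,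
          (if n ≤ g m then (α m : ℂ) * (β n * χ ((m * n : ℕ) : ZMod f)) else 0)
          = ∑ h ∈ range (2 * N), cutCoef N h * ((A h m * χ m) * (Bt h n * χ n)) := by
        intro m _ n hn
        calc _ = (if n ≤ g m then (1 : ℂ) else 0) * (α m * (β n * χ ((m * n : ℕ) : ZMod f))) := by
              split_ifs <;> simp
          _ = _ := by
              rw [cut_eq (mem_range.1 hn) (hg m), sum_mul]
              refine sum_congr rfl fun h _ => ?_
              simp only [hA, hBt]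
              rw [Nat.cast_mul m n, map_mul]; ring
      rw [sum_congr rfl fun m hm => sum_congr rfl fun n hn => e1 m hm n hn]
      simp_rw [sum_mul_sum, mul_sum]
      rw [sum_congr rfl fun m _ => sum_comm, sum_comm]
    rw [e]
    refine (norm_sum_le _ _).trans (sum_le_sum fun h _ => ?_)
    rw [norm_mul, norm_mul]
  refine (sum_le_sum fun f _ => sum_le_sum fun χ _ => s1 f χ).trans ?_
  rw [sum_congr rfl fun f _ => sum_comm, sum_comm]
  simp_rw [← mul_sum]
  calc _ ≤ ∑ h ∈ range (2 * N), ‖cutCoef N h‖ * B := by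
        refine sum_le_sum fun r _ => mul_le_mul_of_nonneg_left ?_ (norm_nonneg _)
        refine primitive_bilinear_le F M N (A r) (Bt r) B hB ?_
        simpa [hA, hBt] using h
    _ ≤ _ := by
        rw [← sum_mul]
        exact mul_le_mul_of_nonneg_right (sum_norm_cutCoef_le hN) hB

lemma dyadic_split (X : ℕ) (α β : ArithmeticFunction ℝ) (κ : ℕ → ℂ) :
    ∑ n ∈ Icc 1 X, ((α * β) n : ℂ) * κ n
      = ∑ j ∈ range (Nat.log 2 X + 1), ∑ m ∈ range (2 ^ (j + 1)), ∑ n ∈ range (X / 2 ^ j + 1),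
          if n ≤ min (X / m) (X / 2 ^ j) then
            ((if Nat.log 2 m = j then α m else 0 : ℝ) : ℂ) * (β n * κ (m * n)) else 0 := by
  rw [sum_mul_weight_complex]
  set inner : ℕ → ℂ := fun m => ∑ n ∈ Icc 1 (X / m), (α m : ℂ) * (β n * κ (m * n)) with hinner
  have h1 : ∀ j ∈ range (Nat.log 2 X + 1), ∑ m ∈ range (2 ^ (j + 1)), ∑ n ∈ range (X / 2 ^ j + 1),
        (if n ≤ min (X / m) (X / 2 ^ j) then
          ((if Nat.log 2 m = j then α m else 0 : ℝ) : ℂ) * (β n * κ (m * n)) else 0)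
      = ∑ m ∈ Icc 1 X with Nat.log 2 m = j, inner m := by
    intro j _
    have t1 : ∀ m ∈ range (2 ^ (j + 1)), ∑ n ∈ range (X / 2 ^ j + 1),
        (if n ≤ min (X / m) (X / 2 ^ j) then
          ((if Nat.log 2 m = j then α m else 0 : ℝ) : ℂ) * (β n * κ (m * n)) else 0)
        = if Nat.log 2 m = j then inner m else 0 := by
      intro m _
      split_ifs with h
      · rcases Nat.eq_zero_or_pos m with rfl | hm0
        · simp [hinner]
        have hle : X / m ≤ X / 2 ^ j :=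
          Nat.div_le_div_left (h ▸ Nat.pow_log_le_self 2 hm0.ne') (by positivity)
        rw [min_eq_left hle, ← sum_filter]
        simp only [hinner]
        symm
        refine sum_subset ?_ ?_
        · intro n hn
          simp only [mem_Icc, mem_filter, mem_range] at hn ⊢
          omega
        · intro n hn hn'
          simp only [mem_Icc, mem_filter, mem_range] at hn hn'
          have : n = 0 := by omega
          simp [this]
      · simp
    rw [sum_congr rfl t1, ← sum_filter]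
    symm
    refine sum_subset (fun m hm => ?_) fun m hm hm' => ?_
    · simp only [mem_filter, mem_range, mem_Icc] at hm ⊢
      exact ⟨hm.2 ▸ Nat.lt_pow_succ_log_self one_lt_two m, hm.2⟩
    · simp only [mem_filter, mem_range, mem_Icc, not_and] at hm hm'
      rcases Nat.eq_zero_or_pos m with rfl | hm0
      · simp [hinner]
      · have : X < m := by by_contra h; exact hm' ⟨hm0, by omega⟩ hm.2
        simp [hinner, Nat.div_eq_of_lt this]
  rw [sum_congr rfl h1, sum_fiberwise_of_maps_to]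
  intro m hm
  exact mem_range.2 (Nat.lt_succ_of_le (Nat.log_mono_right (mem_Icc.1 hm).2))

open Classical in
lemma card_primitive_le (f : ℕ) (hf : 0 < f) :
    (univ.filter fun χ : DirichletCharacter ℂ f => χ.IsPrimitive).card ≤ f := by
  have : NeZero f := ⟨hf.ne'⟩
  refine (card_le_univ _).trans ?_
  rw [← Nat.card_eq_fintype_card, DirichletCharacter.card_eq_totient_of_hasEnoughRootsOfUnity]
  exact Nat.totient_le f

lemma ne_one_of_isPrimitive {f : ℕ} (hf : 1 < f) {χ : DirichletCharacter ℂ f}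
    (hχ : χ.IsPrimitive) : χ ≠ 1 := fun h => by
  have : NeZero f := ⟨by omega⟩
  rw [DirichletCharacter.isPrimitive_def, h, DirichletCharacter.conductor_one] at hχ
  omega

open Classical in
/-- Mean value theorem for `ψ(X, χ)` over primitive characters of conductor `2 ≤ f ≤ X^{1/7}`. -/
theorem mean_value (F X : ℕ) (hF : F ^ 7 ≤ X) :
    ∑ f ∈ Icc 2 F, ∑ χ : DirichletCharacter ℂ f with χ.IsPrimitive,
      ‖∑ n ∈ range (X + 1), χ n * vonMangoldt n‖ ≤ 70 * X * (1 + Real.log X) ^ 4 := by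
  rcases lt_or_ge F 2 with hF2 | hF2
  · rw [Icc_eq_empty (by omega), sum_empty]
    positivity
  set L := 1 + Real.log X with hL
  have hl0 : 0 ≤ Real.log X := Real.log_natCast_nonneg X
  have hL1 : 1 ≤ L := by linarith
  have hU : F ^ 2 ≤ X := (Nat.pow_le_pow_right (by omega) (by norm_num)).trans hF
  have hU1 : 1 ≤ F ^ 2 := Nat.one_le_pow _ _ (by omega)
  have hX0 : 0 < X := by omega
  have hX1 : (1 : ℝ) ≤ X := by exact_mod_cast hX0
  set α := highPart muR (F ^ 2) with hα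
  set β := highPart vonMangoldt (F ^ 2) * zetaR with hβ
  have hH : HH (F ^ 2) ≤ L := (HH_le _).trans (by linarith [log_nat_mono hU])
  have hH0 := HH_nonneg (F ^ 2)
  have s2 : ∀ j ∈ range (Nat.log 2 X + 1),
      ∑ f ∈ Icc 1 F, ∑ χ : DirichletCharacter ℂ f with χ.IsPrimitive,
        ‖∑ m ∈ range (2 ^ (j + 1)), ∑ n ∈ range (X / 2 ^ j + 1),
          if n ≤ min (X / m) (X / 2 ^ j) then
            ((if Nat.log 2 m = j then α m else 0 : ℝ) : ℂ) * (β n * χ ((m * n : ℕ) : ZMod f)) else 0‖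
        ≤ 32 * X * L ^ 3 := by
    intro j hj
    have hj' : 2 ^ j ≤ X :=
      (Nat.pow_le_pow_right (by norm_num) (Nat.lt_succ_iff.1 (mem_range.1 hj))).trans
        (Nat.pow_log_le_self 2 hX0.ne')
    have gen : ∀ (M : ℕ) (γ : ℕ → ℝ) (C : ℝ), (∀ m < M, γ m ^ 2 ≤ C) → (∀ m ≤ F ^ 2, γ m = 0) →
        (M + (F ^ 2 : ℕ) * HH (F ^ 2)) * ∑ m ∈ range M, γ m ^ 2 ≤ 2 * L * M ^ 2 * C := by
      intro M γ C h1 h2
      rcases Nat.eq_zero_or_pos M with rfl | hM
      · simp
      have hC : 0 ≤ C := (sq_nonneg _).trans (h1 0 hM)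
      rcases le_or_gt (F ^ 2) M with h | h
      · have a1 : ∑ m ∈ range M, γ m ^ 2 ≤ M * C :=
          (sum_le_card_nsmul _ _ C fun m hm => h1 m (mem_range.1 hm)).trans (by simp)
        have a2 : ((F ^ 2 : ℕ) : ℝ) ≤ M := by exact_mod_cast h
        calc _ ≤ (M * L + M * L) * (M * C) := by
              gcongr
              exact le_mul_of_one_le_right (by positivity) hL1
          _ = _ := by ring
      · rw [sum_eq_zero fun m hm => by rw [h2 m (by have := mem_range.1 hm; omega)]; simp]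
        rw [mul_zero]; positivity
    have g1 := gen (2 ^ (j + 1)) (fun m => if Nat.log 2 m = j then α m else 0) 1
      (fun m _ => by
        rw [sq_le_one_iff_abs_le_one]
        split_ifs
        · rw [hα, highPart_apply]; split_ifs
          · simp
          · exact abs_muR_le m
        · simp) (fun m hm => by simp [hα, highPart_apply, hm])
    have g2 := gen (X / 2 ^ j + 1) β (L ^ 2) (fun n hn => by
        refine pow_le_pow_left₀ (high_zeta_nonneg _ _) ((high_zeta_le _ _).trans ?_) 2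
        have : Real.log n ≤ Real.log X :=
          log_nat_mono ((Nat.lt_succ_iff.1 hn).trans (Nat.div_le_self _ _))
        linarith) (fun n hn => high_zeta_eq_zero hn)
    have hMN : ((2 ^ (j + 1) : ℕ) : ℝ) * ((X / 2 ^ j + 1 : ℕ) : ℝ) ≤ 4 * X := by
      have h1 : 2 ^ j * (X / 2 ^ j) ≤ X := Nat.mul_div_le _ _
      have : 2 ^ (j + 1) * (X / 2 ^ j + 1) ≤ 4 * X := by rw [pow_succ]; nlinarith
      exact_mod_cast this
    refine (typeII_char F (2 ^ (j + 1)) (X / 2 ^ j + 1) (Nat.succ_pos _)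
      (fun m => if Nat.log 2 m = j then α m else 0) β (fun m => min (X / m) (X / 2 ^ j))
      (fun m => Nat.lt_succ_of_le (min_le_right _ _)) (8 * X * L ^ 2) (by positivity) ?_).trans ?_
    · refine (mul_le_mul g1 g2 (mul_nonneg (by positivity) (sum_nonneg fun _ _ => sq_nonneg _))
        (by positivity)).trans ?_
      calc _ = (2 * L ^ 2 * (((2 ^ (j + 1) : ℕ) : ℝ) * ((X / 2 ^ j + 1 : ℕ) : ℝ))) ^ 2 := by ring
        _ ≤ (2 * L ^ 2 * (4 * X)) ^ 2 := by gcongr
        _ = _ := by ring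
    · have h1 : 2 * (X / 2 ^ j + 1) ≤ 4 * X := by have := Nat.div_le_self X (2 ^ j); omega
      have h2 := (HH_mono h1).trans (HH_le _)
      have h3 : Real.log 4 ≤ 2 := by
        rw [show (4 : ℝ) = 2 ^ 2 by norm_num, Real.log_pow]
        push_cast; linarith [Real.log_two_lt_d9]
      rw [Nat.cast_mul, Real.log_mul (by norm_num) (by positivity)] at h2
      push_cast at h2
      calc _ ≤ (4 * L) * (8 * X * L ^ 2) := by gcongr; linarith
        _ = _ := by ring
  have s1 : ∀ f ∈ Icc 2 F, ∀ χ : DirichletCharacter ℂ f, χ.IsPrimitive →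
      ‖∑ n ∈ range (X + 1), χ n * vonMangoldt n‖ ≤ 5 * F ^ 5 * L +
        ∑ j ∈ range (Nat.log 2 X + 1), ‖∑ m ∈ range (2 ^ (j + 1)), ∑ n ∈ range (X / 2 ^ j + 1),
          if n ≤ min (X / m) (X / 2 ^ j) then
            ((if Nat.log 2 m = j then α m else 0 : ℝ) : ℂ) * (β n * χ ((m * n : ℕ) : ZMod f))
          else 0‖ := by
    intro f hf χ hχ
    rw [mem_Icc] at hf
    have : NeZero f := ⟨by omega⟩
    have e : ∑ n ∈ range (X + 1), χ n * vonMangoldt n
        = ∑ n ∈ Icc 1 X, (vonMangoldt n : ℂ) * χ n := by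
      rw [range_eq_Ico, sum_eq_sum_Ico_succ_bot (Nat.succ_pos X)]
      simp only [ArithmeticFunction.map_zero, Complex.ofReal_zero, mul_zero, zero_add]
      exact sum_congr rfl fun m _ => mul_comm _ _
    rw [e]
    refine (typeI_pieces_char (ne_one_of_isPrimitive hf.1 hχ) X (F ^ 2) hU hU1).trans
      (add_le_add ?_ ?_)
    · have : (f : ℝ) ≤ F := by exact_mod_cast hf.2
      calc _ ≤ 5 * F * ((F ^ 2 : ℕ) : ℝ) ^ 2 * L := by gcongr; linarith
        _ = _ := by push_cast; ring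
    · rw [dyadic_split X _ _ (fun n => χ n)]
      exact norm_sum_le _ _
  refine (sum_le_sum fun f hf => sum_le_sum fun χ hχ => s1 f hf χ (mem_filter.1 hχ).2).trans ?_
  simp_rw [sum_add_distrib]
  have t1 : ∑ f ∈ Icc 2 F, ∑ χ : DirichletCharacter ℂ f with χ.IsPrimitive, 5 * (F : ℝ) ^ 5 * L
      ≤ 5 * X * L ^ 4 := by
    refine (sum_le_card_nsmul _ _ (F * (5 * (F : ℝ) ^ 5 * L)) fun f hf => ?_).trans ?_
    · rw [mem_Icc] at hf
      rw [sum_const, nsmul_eq_mul]
      gcongr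
      exact (card_primitive_le f (by omega)).trans hf.2
    · rw [nsmul_eq_mul, Nat.card_Icc]
      have a1 : ((F + 1 - 2 : ℕ) : ℝ) ≤ F := by exact_mod_cast (by omega : F + 1 - 2 ≤ F)
      have a2 : (F : ℝ) ^ 7 ≤ X := by exact_mod_cast hF
      calc _ ≤ F * (F * (5 * (F : ℝ) ^ 5 * L)) := by gcongr
        _ = 5 * (F : ℝ) ^ 7 * L := by ring
        _ ≤ _ := by gcongr; exact le_self_pow₀ hL1 (by norm_num)
  have t2 : ((Nat.log 2 X + 1 : ℕ) : ℝ) ≤ 2 * L := by
    have h1 : ((2 ^ Nat.log 2 X : ℕ) : ℝ) ≤ X := by exact_mod_cast Nat.pow_log_le_self 2 hX0.ne'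
    have h2 := Real.log_le_log (by positivity) h1
    rw [Nat.cast_pow, Real.log_pow] at h2
    have h3 : (0 : ℝ) ≤ Nat.log 2 X := Nat.cast_nonneg _
    push_cast at h2 ⊢
    nlinarith [Real.log_two_gt_d9]
  rw [sum_congr rfl fun f _ => sum_comm, sum_comm]
  have t3 := sum_le_card_nsmul (range (Nat.log 2 X + 1)) _ (32 * X * L ^ 3) fun j hj =>
    (sum_le_sum_of_subset_of_nonneg (Icc_subset_Icc_left one_le_two)
      fun f _ _ => sum_nonneg fun _ _ => norm_nonneg _).trans (s2 j hj)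
  rw [card_range, nsmul_eq_mul] at t3
  have t4 : ((Nat.log 2 X + 1 : ℕ) : ℝ) * (32 * X * L ^ 3) ≤ 64 * X * L ^ 4 := by
    calc _ ≤ 2 * L * (32 * X * L ^ 3) := by gcongr
      _ = _ := by ring
  have t5 : 0 ≤ X * L ^ 4 := by positivity
  linarith

end Pool.Agent.Lib.ANT
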