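import Pool.Agent.Lib.ANT.SieveSums
import Mathlib.NumberTheory.Chebyshev
import Mathlib.Analysis.SpecialFunctions.Sqrt
import Mathlib.Analysis.Complex.ExponentialBounds

/-!
# Mertens' theorems (with `O(1)` constants)
-/

noncomputable section

open Finset ArithmeticFunction

namespace Pool.Agent.Lib.ANT

theorem sum_log_eq_sum_vonMangoldt_mul_div (N : ℕ) :
    ∑ n ∈ Ioc 0 N, Real.log n = ∑ d ∈ Ioc 0 N, vonMangoldt d * ((N / d : ℕ) : ℝ) := by
  have h := sum_Ioc_mul_zeta_eq_sum vonMangoldt N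
  rw [vonMangoldt_mul_zeta] at h
  simpa [log_apply] using h

theorem sum_log_le (N : ℕ) : ∑ n ∈ Ioc 0 N, Real.log n ≤ N * Real.log N := by
  calc _ ≤ ∑ _n ∈ Ioc 0 N, Real.log N := Finset.sum_le_sum fun n hn => by
        have := Finset.mem_Ioc.mp hn
        exact Real.log_le_log (by exact_mod_cast this.1) (by exact_mod_cast this.2)
    _ = _ := by simp

theorem le_sum_log (N : ℕ) : N * Real.log N - N ≤ ∑ n ∈ Ioc 0 N, Real.log n := by
  induction N with
  | zero => simp
  | succ N ih =>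
    rw [Finset.sum_Ioc_succ_top (Nat.zero_le N)]
    rcases Nat.eq_zero_or_pos N with rfl | hN
    · simp
    · have hN' : (0 : ℝ) < N := by exact_mod_cast hN
      have h1 : Real.log ((N + 1) / N) ≤ (N + 1) / N - 1 :=
        Real.log_le_sub_one_of_pos (by positivity)
      rw [Real.log_div (by positivity) hN'.ne'] at h1
      have h2 : ((N : ℝ) + 1) / N - 1 = 1 / N := by field_simp; ring
      rw [h2] at h1
      have h3 : N * (Real.log (N + 1) - Real.log N) ≤ 1 := by
        calc _ ≤ N * (1 / N : ℝ) := by gcongr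
          _ = 1 := by field_simp
      push_cast
      nlinarith

theorem sum_vonMangoldt_le (N : ℕ) : ∑ d ∈ Ioc 0 N, vonMangoldt d ≤ 6 * N := by
  have h := Chebyshev.psi_le_const_mul_self (x := N) (Nat.cast_nonneg N)
  rw [Chebyshev.psi, Nat.floor_natCast] at h
  refine h.trans (mul_le_mul_of_nonneg_right ?_ (Nat.cast_nonneg N))
  have : Real.log 4 = 2 * Real.log 2 := by
    rw [show (4 : ℝ) = 2 ^ 2 by norm_num, Real.log_pow]; norm_num
  have := Real.log_two_lt_d9
  linarith

/-- Mertens' first theorem for `Λ`. -/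
theorem abs_sum_vonMangoldt_div_sub_log_le (N : ℕ) (hN : 0 < N) :
    |∑ d ∈ Ioc 0 N, vonMangoldt d / d - Real.log N| ≤ 6 := by
  have hN' : (0 : ℝ) < N := by exact_mod_cast hN
  have h1 := sum_log_eq_sum_vonMangoldt_mul_div N
  have h2 := sum_log_le N
  have h3 := le_sum_log N
  have h4 := sum_vonMangoldt_le N
  have h5 : ∑ d ∈ Ioc 0 N, vonMangoldt d * ((N / d : ℕ) : ℝ) ≤
      N * ∑ d ∈ Ioc 0 N, vonMangoldt d / d := by
    rw [Finset.mul_sum]
    refine Finset.sum_le_sum fun d _ => ?_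
    calc vonMangoldt d * ((N / d : ℕ) : ℝ) ≤ vonMangoldt d * ((N : ℝ) / d) := by
          gcongr
          exact Nat.cast_div_le
      _ = _ := by ring
  have h6 : N * ∑ d ∈ Ioc 0 N, vonMangoldt d / d ≤
      ∑ d ∈ Ioc 0 N, vonMangoldt d * ((N / d : ℕ) : ℝ) + ∑ d ∈ Ioc 0 N, vonMangoldt d := by
    rw [Finset.mul_sum, ← Finset.sum_add_distrib]
    refine Finset.sum_le_sum fun d hd => ?_
    have hd0 : 0 < d := (Finset.mem_Ioc.mp hd).1
    have hd' : (0 : ℝ) < d := by exact_mod_cast hd0
    have : (N : ℝ) / d ≤ ((N / d : ℕ) : ℝ) + 1 := by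
      rw [div_le_iff₀ hd']
      have := Nat.lt_div_mul_add (a := N) hd0
      have : (N : ℝ) ≤ ((N / d * d + d : ℕ) : ℝ) := by exact_mod_cast this.le
      push_cast at this
      linarith
    calc N * (vonMangoldt d / d) = vonMangoldt d * ((N : ℝ) / d) := by ring
      _ ≤ vonMangoldt d * (((N / d : ℕ) : ℝ) + 1) := by
          gcongr
      _ = _ := by ring
  rw [abs_le]
  constructor
  · have : N * (Real.log N - 6) ≤ N * ∑ d ∈ Ioc 0 N, vonMangoldt d / d := by nlinarith
    have := le_of_mul_le_mul_left this hN'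
    linarith
  · have : N * ∑ d ∈ Ioc 0 N, vonMangoldt d / d ≤ N * (Real.log N + 6) := by nlinarith
    have := le_of_mul_le_mul_left this hN'
    linarith

theorem sum_log_div_mul_pred_le (N : ℕ) :
    ∑ n ∈ Ioc 1 N, Real.log n / (n * (n - 1)) ≤ 8 := by
  have key : ∀ N : ℕ, 1 ≤ N →
      ∑ n ∈ Ioc 1 N, Real.log n / (n * (n - 1)) ≤ 8 - 8 / Real.sqrt N := by
    intro N hN
    induction N, hN using Nat.le_induction with
    | base => simp
    | succ N hN ih =>
      rw [Finset.sum_Ioc_succ_top hN]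
      have hN' : (1 : ℝ) ≤ N := by exact_mod_cast hN
      push_cast
      set a := Real.sqrt N with ha
      set b := Real.sqrt (N + 1) with hb
      have ha2 : a ^ 2 = N := Real.sq_sqrt (by linarith)
      have hb2 : b ^ 2 = N + 1 := Real.sq_sqrt (by linarith)
      have ha1 : 1 ≤ a := Real.one_le_sqrt.mpr hN'
      have hab : a ≤ b := Real.sqrt_le_sqrt (by linarith)
      have hlog : Real.log (N + 1) ≤ 2 * b := by
        rw [← hb2, Real.log_pow]
        have := Real.log_le_sub_one_of_pos (show 0 < b by linarith)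
        push_cast
        linarith
      have h1 : Real.log (N + 1) / ((N + 1) * (N + 1 - 1)) ≤ 8 / a - 8 / b := by
        have e1 : (8 : ℝ) / a - 8 / b = 8 / (a * b * (a + b)) := by
          have h0 : (b - a) * (a + b) = 1 := by nlinarith
          have h1 : (8 : ℝ) / a - 8 / b = 8 * ((b - a) * (a + b)) / (a * b * (a + b)) := by
            have : 0 < a := by linarith
            have : 0 < b := by linarith
            field_simp
          rw [h1, h0, mul_one]
        rw [e1, show ((N : ℝ) + 1) * (N + 1 - 1) = b ^ 2 * a ^ 2 by rw [ha2, hb2]; ring]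
        rw [div_le_div_iff₀ (by positivity) (by positivity)]
        have hb2a : b ≤ 2 * a := by nlinarith
        calc Real.log (N + 1) * (a * b * (a + b)) ≤ 2 * b * (a * b * (a + 2 * a)) := by gcongr
          _ = 6 * (b ^ 2 * a ^ 2) := by ring
          _ ≤ 8 * (b ^ 2 * a ^ 2) := by gcongr; norm_num
      linarith
  rcases Nat.eq_zero_or_pos N with rfl | hN
  · simp
  · have := key N hN
    have h2 : 0 ≤ 8 / Real.sqrt N := by positivity
    linarith

/-- The proper prime powers contribute `O(1)` to `∑ Λ(n)/n`. -/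
theorem sum_vonMangoldt_div_not_prime_le (N : ℕ) :
    ∑ n ∈ (Ioc 0 N).filter (fun n => ¬ n.Prime), vonMangoldt n / n ≤ 8 := by
  classical
  have h1 : ∑ n ∈ (Ioc 0 N).filter (fun n => ¬ n.Prime), vonMangoldt n / n =
      ∑ n ∈ (Ioc 0 N).filter (fun n => ¬ n.Prime ∧ IsPrimePow n), vonMangoldt n / n := by
    rw [← Finset.filter_filter, Finset.sum_filter (p := fun n => IsPrimePow n)]
    refine Finset.sum_congr rfl fun n _ => ?_
    split_ifs with h
    · rfl
    · rw [vonMangoldt_eq_zero_iff.mpr h, zero_div]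
  have hmaps : ∀ n ∈ (Ioc 0 N).filter (fun n => ¬ n.Prime ∧ IsPrimePow n),
      n.minFac ∈ Ioc 1 N := by
    intro n hn
    obtain ⟨hn1, -, hn3⟩ := Finset.mem_filter.mp hn
    have := Finset.mem_Ioc.mp hn1
    exact Finset.mem_Ioc.mpr ⟨(Nat.minFac_prime hn3.ne_one).one_lt,
      (Nat.minFac_le this.1).trans this.2⟩
  rw [h1, ← Finset.sum_fiberwise_of_maps_to hmaps]
  refine le_trans (Finset.sum_le_sum fun p hp => ?_) (sum_log_div_mul_pred_le N)
  have hp1 : 1 < p := (Finset.mem_Ioc.mp hp).1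
  have hp1' : (1 : ℝ) < p := by exact_mod_cast hp1
  set s := ((Ioc 0 N).filter (fun n => ¬ n.Prime ∧ IsPrimePow n)).filter (fun n => n.minFac = p)
    with hs
  by_cases hpp : p.Prime
  · have hps : p ∉ s := fun h =>
      (Finset.mem_filter.mp (Finset.mem_filter.mp h).1).2.1 hpp
    have h2 := sum_inv_le_of_primeFactors_eq (insert p s) {p} (by simpa using hpp) (by
      intro n hn
      rcases Finset.mem_insert.mp hn with rfl | hn
      · exact ⟨hpp.ne_zero, hpp.primeFactors⟩
      · obtain ⟨hn1, hn2⟩ := Finset.mem_filter.mp hn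
        obtain ⟨-, -, hn3⟩ := Finset.mem_filter.mp hn1
        obtain ⟨q, k, hq, hk, rfl⟩ := (isPrimePow_nat_iff _).mp hn3
        rw [hq.pow_minFac hk.ne'] at hn2
        subst hn2
        exact ⟨pow_ne_zero _ hq.ne_zero, Nat.primeFactors_prime_pow hk.ne' hq⟩)
    rw [Finset.sum_insert hps, Finset.prod_singleton] at h2
    have h3 : ∑ n ∈ s, vonMangoldt n / n = Real.log p * ∑ n ∈ s, (n : ℝ)⁻¹ := by
      rw [Finset.mul_sum]
      refine Finset.sum_congr rfl fun n hn => ?_
      obtain ⟨hn1, hn2⟩ := Finset.mem_filter.mp hn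
      obtain ⟨-, -, hn3⟩ := Finset.mem_filter.mp hn1
      rw [vonMangoldt_apply, if_pos hn3, hn2, div_eq_mul_inv]
    rw [h3, div_eq_mul_inv]
    refine mul_le_mul_of_nonneg_left ?_ (Real.log_nonneg hp1'.le)
    have : ((p : ℝ) * (p - 1))⁻¹ = ((p : ℝ) - 1)⁻¹ - (p : ℝ)⁻¹ := by
      have : (p : ℝ) - 1 ≠ 0 := by linarith
      field_simp
      ring
    linarith
  · have : s = ∅ := by
      refine Finset.eq_empty_of_forall_notMem fun n hn => hpp ?_
      obtain ⟨hn1, hn2⟩ := Finset.mem_filter.mp hn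
      obtain ⟨-, -, hn3⟩ := Finset.mem_filter.mp hn1
      exact hn2 ▸ Nat.minFac_prime hn3.ne_one
    rw [this, Finset.sum_empty]
    exact div_nonneg (Real.log_nonneg hp1'.le) (mul_nonneg (by linarith) (by linarith))

/-- **Mertens' first theorem.** -/
theorem abs_sum_log_div_prime_sub_log_le (N : ℕ) (hN : 0 < N) :
    |∑ p ∈ (Ioc 0 N).filter Nat.Prime, Real.log p / p - Real.log N| ≤ 14 := by
  have h1 := abs_sum_vonMangoldt_div_sub_log_le N hN
  have h2 := sum_vonMangoldt_div_not_prime_le N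
  have h3 : 0 ≤ ∑ n ∈ (Ioc 0 N).filter (fun n => ¬ n.Prime), vonMangoldt n / n :=
    Finset.sum_nonneg fun n _ => div_nonneg vonMangoldt_nonneg (Nat.cast_nonneg _)
  rw [← Finset.sum_filter_add_sum_filter_not (Ioc 0 N) Nat.Prime] at h1
  have h4 : ∑ p ∈ (Ioc 0 N).filter Nat.Prime, vonMangoldt p / p =
      ∑ p ∈ (Ioc 0 N).filter Nat.Prime, Real.log p / p :=
    Finset.sum_congr rfl fun p hp => by rw [vonMangoldt_apply_prime (Finset.mem_filter.mp hp).2]
  rw [h4, abs_le] at h1
  rw [abs_le]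
  constructor <;> linarith [h1.1, h1.2]

/-- **Mertens' second theorem**, two-parameter form with error `O(1 / log y)`. -/
theorem abs_sum_inv_prime_Ioc_sub_le (y z : ℕ) (hy : 2 ≤ y) (hyz : y ≤ z) :
    |∑ p ∈ (Ioc y z).filter Nat.Prime, (p : ℝ)⁻¹ -
      (Real.log (Real.log z) - Real.log (Real.log y))| ≤ 48 / Real.log y := by
  set E : ℕ → ℝ := fun n => ∑ p ∈ (Ioc 0 n).filter Nat.Prime, Real.log p / p - Real.log n with hE
  have hEb : ∀ n, 0 < n → |E n| ≤ 14 := fun n hn => abs_sum_log_div_prime_sub_log_le n hn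
  have hl2 : (0.69 : ℝ) < Real.log 2 := by have := Real.log_two_gt_d9; linarith
  have hy' : (2 : ℝ) ≤ y := by exact_mod_cast hy
  have hly : Real.log 2 ≤ Real.log y := Real.log_le_log (by norm_num) hy'
  have key : ∀ z : ℕ, y ≤ z → |∑ p ∈ (Ioc y z).filter Nat.Prime, (p : ℝ)⁻¹ -
      (Real.log (Real.log z) - Real.log (Real.log y)) - (E z / Real.log z - E y / Real.log y)| ≤
      14 * (1 / Real.log y - 1 / Real.log z) + 3 * (1 / ((y : ℝ) - 1) - 1 / ((z : ℝ) - 1)) := by
    intro z hz
    induction z, hz using Nat.le_induction with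
    | base => simp
    | succ z hz ih =>
      have hz' : (2 : ℝ) ≤ z := hy'.trans (by exact_mod_cast hz)
      have hz0 : 0 < z := by omega
      set a := Real.log z with ha
      set b := Real.log ((z + 1 : ℕ) : ℝ) with hb
      have ha0 : Real.log 2 ≤ a := Real.log_le_log (by norm_num) hz'
      have hab : a ≤ b := Real.log_le_log (by linarith) (by push_cast; linarith)
      have hba : b - a ≤ 1 / z := by
        have h1 : Real.log ((z + 1) / z) ≤ (z + 1) / z - 1 :=
          Real.log_le_sub_one_of_pos (by positivity)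
        rw [Real.log_div (by positivity) (by positivity)] at h1
        have h2 : ((z : ℝ) + 1) / z - 1 = 1 / z := by field_simp; ring
        rw [hb]; push_cast; linarith
      have hapos : 0 < a := by linarith
      have hbpos : 0 < b := by linarith
      have hstep : ∑ p ∈ (Ioc y (z + 1)).filter Nat.Prime, (p : ℝ)⁻¹ =
          ∑ p ∈ (Ioc y z).filter Nat.Prime, (p : ℝ)⁻¹ + (E (z + 1) - E z + (b - a)) / b := by
        simp only [hE, Finset.sum_filter]
        rw [Finset.sum_Ioc_succ_top hz, Finset.sum_Ioc_succ_top (Nat.zero_le z), ← ha, ← hb]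
        congr 1
        split_ifs
        · field_simp
          ring
        · simp
      rw [hstep]
      have h1 : Real.log (a / b) ≤ a / b - 1 := Real.log_le_sub_one_of_pos (by positivity)
      have h2 : Real.log (b / a) ≤ b / a - 1 := Real.log_le_sub_one_of_pos (by positivity)
      rw [Real.log_div hapos.ne' hbpos.ne'] at h1
      rw [Real.log_div hbpos.ne' hapos.ne'] at h2
      have h3 : |(b - a) / b - (Real.log b - Real.log a)| ≤
          3 * (1 / ((z : ℝ) - 1) - 1 / (((z + 1 : ℕ) : ℝ) - 1)) := by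
        have e1 : (b - a) / b = 1 - a / b := by field_simp
        have e2 : b / a - 1 - (1 - a / b) = (b - a) ^ 2 / (a * b) := by field_simp
        have e3 : (b - a) ^ 2 / (a * b) ≤ (1 / z) ^ 2 / (0.69 * 0.69) := by
          gcongr <;> linarith
        have e4 : 1 / ((z : ℝ) - 1) - 1 / (((z + 1 : ℕ) : ℝ) - 1) = 1 / (z * (z - 1)) := by
          push_cast
          have : (z : ℝ) - 1 ≠ 0 := by linarith
          rw [add_sub_cancel_right]
          field_simp
          ring
        have e5 : (1 / (z : ℝ)) ^ 2 ≤ 1 / (z * (z - 1)) := by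
          rw [div_pow, one_pow]
          exact one_div_le_one_div_of_le (by nlinarith) (by nlinarith)
        have e6 : (0 : ℝ) ≤ 1 / (z * (z - 1)) := by
          have : (0 : ℝ) ≤ z - 1 := by linarith
          positivity
        rw [e4, e1, abs_le]
        constructor
        · have : (1 / (z : ℝ)) ^ 2 / (0.69 * 0.69) ≤ 3 * (1 / (z * (z - 1))) := by
            rw [div_le_iff₀ (by norm_num)]; nlinarith
          linarith
        · linarith
      have h4 : |E z * (1 / a - 1 / b)| ≤ 14 * (1 / a - 1 / b) := by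
        have : 0 ≤ 1 / a - 1 / b := sub_nonneg.mpr (one_div_le_one_div_of_le hapos hab)
        rw [abs_mul, abs_of_nonneg this]
        exact mul_le_mul_of_nonneg_right (hEb z hz0) this
      have h5 : ∑ p ∈ (Ioc y z).filter Nat.Prime, (p : ℝ)⁻¹ + (E (z + 1) - E z + (b - a)) / b -
          (Real.log b - Real.log (Real.log y)) - (E (z + 1) / b - E y / Real.log y) =
          (∑ p ∈ (Ioc y z).filter Nat.Prime, (p : ℝ)⁻¹ -
            (Real.log a - Real.log (Real.log y)) - (E z / a - E y / Real.log y)) +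
          ((b - a) / b - (Real.log b - Real.log a)) + E z * (1 / a - 1 / b) := by
        field_simp
        ring
      rw [h5]
      refine (abs_add_three _ _ _).trans ?_
      linarith
  have h := key z hyz
  have hz' : (y : ℝ) ≤ z := by exact_mod_cast hyz
  have hlz : Real.log y ≤ Real.log z := Real.log_le_log (by linarith) hz'
  have hlypos : 0 < Real.log y := by linarith
  have h1 : |E z / Real.log z| ≤ 14 / Real.log y := by
    rw [abs_div, abs_of_pos (by linarith : 0 < Real.log z)]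
    gcongr
    exact hEb z (by omega)
  have h2 : |E y / Real.log y| ≤ 14 / Real.log y := by
    rw [abs_div, abs_of_pos hlypos]
    gcongr
    exact hEb y (by omega)
  have h3 : 0 ≤ 1 / Real.log z := by have : 0 < Real.log z := by linarith
                                     positivity
  have h4 : 0 ≤ 1 / ((z : ℝ) - 1) := by have : 0 < (z : ℝ) - 1 := by linarith
                                        positivity
  have h5 : 1 / ((y : ℝ) - 1) ≤ 1 / Real.log y :=
    one_div_le_one_div_of_le hlypos (Real.log_le_sub_one_of_pos (by linarith))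
  rw [abs_le] at h h1 h2 ⊢
  have h6 : (48 : ℝ) / Real.log y = 48 * (1 / Real.log y) := by ring
  have h7 : (14 : ℝ) / Real.log y = 14 * (1 / Real.log y) := by ring
  have h8 : 0 ≤ 1 / Real.log y := by positivity
  constructor <;> linarith [h.1, h.2, h1.1, h1.2, h2.1, h2.2]

/-- **Mertens' second theorem** with an `O(1)` error. -/
theorem abs_sum_inv_prime_sub_loglog_le (N : ℕ) (hN : 2 ≤ N) :
    |∑ p ∈ (Ioc 0 N).filter Nat.Prime, (p : ℝ)⁻¹ - Real.log (Real.log N)| ≤ 72 := by
  have h := abs_sum_inv_prime_Ioc_sub_le 2 N le_rfl hN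
  have hl2 : (0.69 : ℝ) < Real.log 2 := by have := Real.log_two_gt_d9; linarith
  have hl2' : Real.log 2 < 1 := by have := Real.log_two_lt_d9; linarith
  have h1 : ∑ p ∈ (Ioc 0 N).filter Nat.Prime, (p : ℝ)⁻¹ =
      2⁻¹ + ∑ p ∈ (Ioc 2 N).filter Nat.Prime, (p : ℝ)⁻¹ := by
    rw [Finset.sum_filter, Finset.sum_filter, ← Finset.sum_Ioc_consecutive _ (Nat.zero_le 2) hN]
    congr 1
    rw [show Ioc 0 2 = {1, 2} by decide]
    simp [Nat.not_prime_one, Nat.prime_two]
  have h2 : Real.log (Real.log 2) ≤ 0 := Real.log_nonpos (by linarith) hl2'.le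
  have h3 : -1 ≤ Real.log (Real.log 2) := by
    have := Real.one_sub_inv_le_log_of_pos (show 0 < Real.log 2 by linarith)
    have h4 : (Real.log 2)⁻¹ ≤ 2 := by
      rw [inv_le_comm₀ (by linarith) (by norm_num)]; linarith
    linarith
  have h4 : (48 : ℝ) / Real.log 2 ≤ 70 := by
    rw [div_le_iff₀ (by linarith)]; linarith
  push_cast at h
  rw [h1]
  rw [abs_le] at h ⊢
  constructor <;> linarith [h.1, h.2]

theorem sum_inv_mul_pred_le (N : ℕ) : ∑ n ∈ Ioc 1 N, ((n : ℝ) * (n - 1))⁻¹ ≤ 1 := by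
  have key : ∀ N : ℕ, 1 ≤ N → ∑ n ∈ Ioc 1 N, ((n : ℝ) * (n - 1))⁻¹ = 1 - 1 / N := by
    intro N hN
    induction N, hN using Nat.le_induction with
    | base => simp
    | succ N hN ih =>
      rw [Finset.sum_Ioc_succ_top hN, ih]
      have : (0 : ℝ) < N := by exact_mod_cast hN
      push_cast
      rw [add_sub_cancel_right]
      field_simp
      ring
  rcases Nat.eq_zero_or_pos N with rfl | hN
  · simp
  · rw [key N hN]
    have : (0 : ℝ) ≤ 1 / N := by positivity
    linarith

/-- **Mertens' third theorem**, upper bound up to a constant. -/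
theorem prod_one_sub_inv_prime_inv_le (N : ℕ) (hN : 2 ≤ N) :
    ∏ p ∈ (Ioc 0 N).filter Nat.Prime, (1 - (p : ℝ)⁻¹)⁻¹ ≤ Real.exp 73 * Real.log N := by
  have hN' : (1 : ℝ) < N := by exact_mod_cast hN
  have hlog : 0 < Real.log N := Real.log_pos hN'
  have h1 : ∏ p ∈ (Ioc 0 N).filter Nat.Prime, (1 - (p : ℝ)⁻¹)⁻¹ ≤
      ∏ p ∈ (Ioc 0 N).filter Nat.Prime, Real.exp ((p : ℝ)⁻¹ + ((p : ℝ) * (p - 1))⁻¹) := by
    refine Finset.prod_le_prod (fun p hp => ?_) fun p hp => ?_
    · have : (1 : ℝ) < p := by exact_mod_cast (Finset.mem_filter.mp hp).2.one_lt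
      have : (p : ℝ)⁻¹ < 1 := inv_lt_one_of_one_lt₀ this
      exact inv_nonneg.mpr (by linarith)
    · have : (1 : ℝ) < p := by exact_mod_cast (Finset.mem_filter.mp hp).2.one_lt
      refine le_trans (le_of_eq ?_) (Real.add_one_le_exp _)
      have a1 : (p : ℝ) - 1 ≠ 0 := by linarith
      field_simp
      ring
  rw [← Real.exp_sum, Finset.sum_add_distrib] at h1
  have h2 := (abs_le.mp (abs_sum_inv_prime_sub_loglog_le N hN)).2
  have h3 : ∑ p ∈ (Ioc 0 N).filter Nat.Prime, ((p : ℝ) * (p - 1))⁻¹ ≤ 1 := by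
    refine le_trans (Finset.sum_le_sum_of_subset_of_nonneg ?_ ?_) (sum_inv_mul_pred_le N)
    · intro p hp
      obtain ⟨h1, h2⟩ := Finset.mem_filter.mp hp
      exact Finset.mem_Ioc.mpr ⟨h2.one_lt, (Finset.mem_Ioc.mp h1).2⟩
    · intro n hn _
      have : (1 : ℝ) < n := by exact_mod_cast (Finset.mem_Ioc.mp hn).1
      exact inv_nonneg.mpr (mul_nonneg (by linarith) (by linarith))
  refine h1.trans ?_
  rw [← Real.exp_log hlog, ← Real.exp_add]
  exact Real.exp_le_exp.mpr (by linarith)

/-- **Mertens' third theorem**, lower bound. -/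
theorem log_le_prod_one_sub_inv_prime_inv (N : ℕ) :
    Real.log N ≤ ∏ p ∈ (Ioc 0 N).filter Nat.Prime, (1 - (p : ℝ)⁻¹)⁻¹ := by
  set Ps := (Ioc 0 N).filter Nat.Prime with hPs
  have hP : ∀ p ∈ Ps, p.Prime := fun p hp => (Finset.mem_filter.mp hp).2
  have hg : ∀ p ∈ Ps, (0 : ℝ) ≤ ((p : ℝ) - 1)⁻¹ := fun p hp => by
    have : (1 : ℝ) < p := by exact_mod_cast (hP p hp).one_lt
    exact inv_nonneg.mpr (by linarith)
  have h1 := log_le_sqfSum Ps hP N (Nat.cast_nonneg N) (fun p hp hpN =>
    Finset.mem_filter.mpr ⟨Finset.mem_Ioc.mpr ⟨hp.pos, by exact_mod_cast hpN⟩, hp⟩)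
  refine h1.trans ?_
  have h2 : ∏ p ∈ Ps, (1 - (p : ℝ)⁻¹)⁻¹ = ∏ p ∈ Ps, (1 + ((p : ℝ) - 1)⁻¹) := by
    refine Finset.prod_congr rfl fun p hp => ?_
    have : (1 : ℝ) < p := by exact_mod_cast (hP p hp).one_lt
    have a1 : (p : ℝ) - 1 ≠ 0 := by linarith
    field_simp
    ring
  rw [h2, Finset.prod_one_add]
  refine Finset.sum_le_sum fun T hT => ?_
  split_ifs
  · exact le_rfl
  · exact Finset.prod_nonneg fun p hp => hg p (Finset.mem_powerset.mp hT hp)

end Pool.Agent.Lib.ANT
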