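import Pool.Agent.Lib.ANT.WienerIkehara

/-!
# The prime number theorem for the Moebius function, in arithmetic progressions
-/

open MeasureTheory Filter Topology Complex Set ArithmeticFunction Asymptotics
open scoped Real ArithmeticFunction.Moebius

namespace Pool.Agent.Lib.ANT

/-- `∑ n ≤ x, χ(n) μ(n) = o(x)` for every Dirichlet character. -/
theorem tendsto_sum_char_mul_moebius {q : ℕ} [NeZero q] (χ : DirichletCharacter ℂ q) :
    Tendsto (fun x : ℝ => (∑ k ∈ Finset.Icc 1 ⌊x⌋₊, χ k * (μ k : ℂ)) / x) atTop (𝓝 0) := by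
  have hb : ∀ n : ℕ, ‖χ n * (μ n : ℂ)‖ ≤ 1 := by
    intro n
    rw [norm_mul, Complex.norm_intCast]
    have h1 : |(μ n : ℝ)| ≤ 1 := by exact_mod_cast abs_moebius_le_one
    exact mul_le_one₀ (χ.norm_le_one _) (abs_nonneg _) h1
  have hL : ∀ s : ℂ, 1 < s.re →
      LSeries (fun n : ℕ => χ n * (μ n : ℂ)) s = (χ.LFunction s)⁻¹ := by
    intro s hs
    rw [χ.LFunction_eq_LSeries hs]
    exact eq_inv_of_mul_eq_one_right (DirichletCharacter.LSeries.mul_mu_eq_one χ hs)
  by_cases hχ : χ = 1
  · refine wienerIkehara_bounded hb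
      (G := fun s => (s - 1) / DirichletCharacter.LFunctionTrivChar₁ q s) ?_ fun s hs => ?_
    · refine ContinuousOn.div (by fun_prop)
        (DirichletCharacter.differentiable_LFunctionTrivChar₁ q).continuous.continuousOn
        fun s hs => ?_
      rcases eq_or_ne s 1 with rfl | hs1
      · exact DirichletCharacter.LFunctionTrivChar₁_apply_one_ne_zero q
      · rw [DirichletCharacter.LFunctionTrivChar₁, Function.update_of_ne hs1]
        exact mul_ne_zero (sub_ne_zero.2 hs1)
          (DirichletCharacter.LFunction_ne_zero_of_one_le_re 1 (.inr hs1) hs)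
    · have hs1 : s ≠ 1 := by
        rintro rfl
        simp at hs
      rw [hL s hs, DirichletCharacter.LFunctionTrivChar₁, Function.update_of_ne hs1, hχ,
        DirichletCharacter.LFunctionTrivChar]
      have := sub_ne_zero.2 hs1
      field_simp
      simp
  · refine wienerIkehara_bounded hb (G := fun s => (χ.LFunction s)⁻¹) ?_ fun s hs => ?_
    · exact (DirichletCharacter.differentiable_LFunction hχ).continuous.continuousOn.inv₀
        fun s hs => DirichletCharacter.LFunction_ne_zero_of_one_le_re χ (.inl hχ) hs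
    · rw [hL s hs]
      simp

/-- Periodic weights supported on reduced residues. -/
lemma tendsto_sum_unit_periodic_mul_moebius {q : ℕ} [NeZero q] (h : ZMod q → ℂ)
    (hu : ∀ a, ¬ IsUnit a → h a = 0) :
    Tendsto (fun x : ℝ => (∑ k ∈ Finset.Icc 1 ⌊x⌋₊, h k * (μ k : ℂ)) / x) atTop (𝓝 0) := by
  classical
  have hq : (q.totient : ℂ) ≠ 0 := by exact_mod_cast (Nat.totient_pos.2 (NeZero.pos q)).ne'
  have key : ∀ b : ZMod q, h b = ∑ a : ZMod q, ∑ χ : DirichletCharacter ℂ q,
      (h a * χ a⁻¹ / q.totient) * χ b := by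
    intro b
    have : ∀ a : ZMod q, ∑ χ : DirichletCharacter ℂ q, (h a * χ a⁻¹ / q.totient) * χ b =
        if a = b then h a else 0 := by
      intro a
      by_cases ha : IsUnit a
      · have := DirichletCharacter.sum_char_inv_mul_char_eq ℂ ha b
        calc _ = h a / q.totient * ∑ χ : DirichletCharacter ℂ q, χ a⁻¹ * χ b := by
              rw [Finset.mul_sum]
              exact Finset.sum_congr rfl fun _ _ => by ring
          _ = _ := by
              rw [this]
              split_ifs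
              · field_simp
              · simp
      · simp [hu a ha]
    simp [this]
  have h1 := tendsto_finsetSum (Finset.univ : Finset (ZMod q)) fun a _ =>
    tendsto_finsetSum (Finset.univ : Finset (DirichletCharacter ℂ q)) fun χ _ =>
      (tendsto_sum_char_mul_moebius χ).const_mul (h a * χ a⁻¹ / q.totient)
  simp only [mul_zero, Finset.sum_const_zero] at h1
  refine h1.congr fun x => ?_
  simp only [← mul_div_assoc, ← Finset.sum_div, Finset.mul_sum]
  congr 1
  conv_rhs => enter [2, k]; rw [key k]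
  simp only [Finset.sum_mul]
  rw [Finset.sum_comm (s := Finset.Icc 1 ⌊x⌋₊)]
  refine Finset.sum_congr rfl fun a _ => ?_
  rw [Finset.sum_comm (s := Finset.Icc 1 ⌊x⌋₊)]
  exact Finset.sum_congr rfl fun χ _ => Finset.sum_congr rfl fun k _ => by ring

lemma moebius_eq_sum_divisors {q n : ℕ} (hq : q ≠ 0) :
    μ n = ∑ d ∈ q.divisors, if d ∣ n ∧ (n / d).Coprime q then μ d * μ (n / d) else 0 := by
  rw [Finset.sum_eq_single (n.gcd q)]
  · have hd : n.gcd q ∣ n := Nat.gcd_dvd_left n q
    split_ifs with h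
    · rw [← isMultiplicative_moebius.map_mul_of_coprime
        (Nat.Coprime.coprime_dvd_right (Nat.gcd_dvd_right n q) h.2).symm, Nat.mul_div_cancel' hd]
    · have h2 : ¬ (n / n.gcd q).Coprime q := fun h' => h ⟨hd, h'⟩
      obtain ⟨p, hp, hp1, hp2⟩ := Nat.Prime.not_coprime_iff_dvd.1 h2
      refine moebius_eq_zero_of_not_squarefree fun hsq => ?_
      have hpn : p ∣ n := hp1.trans (Nat.div_dvd_of_dvd hd)
      have hpg : p ∣ n.gcd q := Nat.dvd_gcd hpn hp2
      have : p * p ∣ n := by
        rw [← Nat.mul_div_cancel' hd]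
        exact Nat.mul_dvd_mul hpg hp1
      exact hp.not_isUnit (hsq p this)
  · intro d hd hne
    rw [if_neg]
    rintro ⟨h1, h2⟩
    apply hne
    obtain ⟨m, rfl⟩ := h1
    have hdq := Nat.dvd_of_mem_divisors hd
    have hd0 : 0 < d := Nat.pos_of_mem_divisors hd
    rw [Nat.mul_div_cancel_left _ hd0] at h2
    rw [Nat.Coprime.gcd_mul_right_cancel d h2, Nat.gcd_eq_left hdq]
  · intro h
    exact absurd (Nat.mem_divisors.2 ⟨Nat.gcd_dvd_right n q, hq⟩) h

lemma sum_Icc_ite_dvd {d : ℕ} (hd : 0 < d) (N : ℕ) (F : ℕ → ℂ) :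
    ∑ k ∈ Finset.Icc 1 N, (if d ∣ k then F k else 0) = ∑ m ∈ Finset.Icc 1 (N / d), F (d * m) := by
  rw [← Finset.sum_filter]
  symm
  refine Finset.sum_bij (fun m _ => d * m) (fun m hm => ?_) (fun a _ b _ h => ?_)
    (fun k hk => ?_) fun _ _ => rfl
  · rw [Finset.mem_Icc] at hm
    rw [Finset.mem_filter, Finset.mem_Icc]
    refine ⟨⟨Nat.mul_pos hd hm.1, ?_⟩, dvd_mul_right _ _⟩
    rw [mul_comm]
    exact (Nat.le_div_iff_mul_le hd).1 hm.2
  · exact Nat.eq_of_mul_eq_mul_left hd h
  · rw [Finset.mem_filter, Finset.mem_Icc] at hk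
    obtain ⟨⟨h1, h2⟩, m, rfl⟩ := hk
    refine ⟨m, Finset.mem_Icc.2 ⟨Nat.pos_of_mul_pos_left h1, ?_⟩, rfl⟩
    rw [Nat.le_div_iff_mul_le hd, mul_comm]
    exact h2

/-- `∑ n ≤ x, h(n) μ(n) = o(x)` for every periodic function `h`. -/
theorem tendsto_sum_periodic_mul_moebius {q : ℕ} [NeZero q] (h : ZMod q → ℂ) :
    Tendsto (fun x : ℝ => (∑ k ∈ Finset.Icc 1 ⌊x⌋₊, h k * (μ k : ℂ)) / x) atTop (𝓝 0) := by
  classical
  have h1 : ∀ d ∈ q.divisors, Tendsto (fun x : ℝ => (∑ m ∈ Finset.Icc 1 (⌊x⌋₊ / d),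
      (if IsUnit (m : ZMod q) then h (d * m) * (μ d : ℂ) else 0) * (μ m : ℂ)) / x)
      atTop (𝓝 0) := by
    intro d hd
    have hd0 : (0 : ℝ) < d := by exact_mod_cast Nat.pos_of_mem_divisors hd
    have h2 := (tendsto_sum_unit_periodic_mul_moebius
      (fun a : ZMod q => if IsUnit a then h (d * a) * (μ d : ℂ) else 0)
      (fun a ha => if_neg ha)).comp (tendsto_id.atTop_div_const hd0)
    have h3 := h2.div_const (d : ℂ)
    rw [zero_div] at h3
    refine h3.congr fun x => ?_
    have : (d : ℂ) ≠ 0 := by exact_mod_cast hd0.ne'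
    simp only [Function.comp_apply, id, Nat.floor_div_natCast]
    push_cast
    rw [div_div, div_mul_cancel₀ _ this]
  have h4 := tendsto_finsetSum q.divisors h1
  simp only [Finset.sum_const_zero] at h4
  refine h4.congr fun x => ?_
  rw [← Finset.sum_div]
  congr 1
  conv_rhs => enter [2, k]; rw [moebius_eq_sum_divisors (q := q) (n := k) (NeZero.ne q)]
  push_cast
  simp only [Finset.mul_sum]
  rw [Finset.sum_comm]
  refine Finset.sum_congr rfl fun d hd => ?_
  have hd0 := Nat.pos_of_mem_divisors hd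
  have := sum_Icc_ite_dvd hd0 ⌊x⌋₊
    (fun k => h k * (if (k / d).Coprime q then (μ d : ℂ) * μ (k / d) else 0))
  simp only [Nat.mul_div_cancel_left _ hd0] at this
  calc _ = _ := Finset.sum_congr rfl fun m _ => ?_
    _ = _ := this.symm
    _ = _ := Finset.sum_congr rfl fun k _ => ?_
  · simp only [ZMod.isUnit_iff_coprime]
    push_cast
    split_ifs <;> ring
  · by_cases h1 : d ∣ k <;> by_cases h2 : (k / d).Coprime q <;> simp [h1, h2]

/-- `∑ n ≤ x, n ≡ a mod q, μ(n) = o(x)` for every residue class. -/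
theorem tendsto_sum_moebius_AP {q : ℕ} (hq : 0 < q) (a : ℕ) :
    Tendsto (fun x : ℝ => (∑ k ∈ Finset.Icc 1 ⌊x⌋₊ with k ≡ a [MOD q], (μ k : ℝ)) / x) atTop
      (𝓝 0) := by
  classical
  have : NeZero q := ⟨hq.ne'⟩
  have h1 := tendsto_sum_periodic_mul_moebius (fun b : ZMod q => if b = a then (1 : ℂ) else 0)
  have h2 := (Complex.continuous_re.tendsto _).comp h1
  simp only [zero_re] at h2
  refine h2.congr fun x => ?_
  simp only [Function.comp_apply, Complex.div_ofReal_re, Complex.re_sum, Finset.sum_filter,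
    ZMod.natCast_eq_natCast_iff]
  congr 1
  refine Finset.sum_congr rfl fun k _ => ?_
  split_ifs <;> simp

/-- `M(x) = o(x)`. -/
theorem tendsto_sum_moebius :
    Tendsto (fun x : ℝ => (∑ k ∈ Finset.Icc 1 ⌊x⌋₊, (μ k : ℝ)) / x) atTop (𝓝 0) := by
  refine (tendsto_sum_moebius_AP one_pos 0).congr fun x => ?_
  rw [Finset.filter_true_of_mem fun _ _ => Nat.modEq_one]

end Pool.Agent.Lib.ANT
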