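import Mathlib

/-!
# The multidimensional (Maynard–Tao) sieve: evaluation of the quadratic form

Sieve primes are indexed by a finite type `α` (with values `pr p`), linear forms by a finite type
`ι`.  A squarefree number composed of sieve primes is a function `α → Bool`.
-/

noncomputable section

open Finset

namespace Pool.Agent.Lib.ANT

section Local

variable {ι : Type*} [Fintype ι] [DecidableEq ι]

/-- local basis function -/
def locA (ρ : ℝ) (s : ι → Bool) (u : Option ι) : ℝ :=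
  ∏ i, if s i then (ρ - if u = some i then 1 else 0) else 1

/-- coefficients of the product of two local basis functions in the indicator basis -/
def locB (ρ : ℝ) (s t : ι → Bool) (u : Option ι) : ℝ :=
  locA ρ s u * locA ρ t u - if u.isSome then locA ρ s none * locA ρ t none else 0

lemma loc_expand (ρ : ℝ) (s t : ι → Bool) (D : ι → Bool) (hD : ∀ i j, D i → D j → i = j) :
    (∏ i, if s i then (ρ - if D i then 1 else 0) else 1) *
      (∏ i, if t i then (ρ - if D i then 1 else 0) else 1)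
      = ∑ u : Option ι, locB ρ s t u * if ∀ i, u = some i → D i then 1 else 0 := by
  rw [Fintype.sum_option]
  by_cases h : ∃ i, D i
  · obtain ⟨i₀, h₀⟩ := h
    have e : ∀ i, D i = true ↔ some i₀ = some i :=
      fun i => ⟨fun h => by rw [hD _ _ h₀ h], fun h => by rw [← Option.some.inj h]; exact h₀⟩
    rw [sum_eq_single i₀]
    · simp only [locB, locA, e]; simp
    · intro j _ hj
      rw [if_neg, mul_zero]
      exact fun h => hj (hD _ _ (h j rfl) h₀)
    · simp
  · push Not at h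
    rw [sum_eq_zero, add_zero]
    · simp [locB, locA, h]
    · intro j _
      rw [if_neg, mul_zero]
      exact fun h' => h j (h' j rfl)

lemma locA_none (ρ : ℝ) (s : ι → Bool) : locA ρ s none = ρ ^ (univ.filter fun i => s i).card := by
  simp [locA, prod_ite]

lemma locA_some (ρ : ℝ) (s : ι → Bool) (i : ι) : locA ρ s (some i)
    = ρ ^ (univ.filter fun i => s i).card -
      (if s i then 1 else 0) * ρ ^ ((univ.filter fun i => s i).card - 1) := by
  rw [locA, ← prod_filter]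
  split_ifs with h
  · have hi : i ∈ univ.filter fun i => s i := by simpa using h
    rw [← mul_prod_erase _ _ hi, prod_congr rfl (g := fun _ => ρ), prod_const, card_erase_of_mem hi]
    · obtain ⟨m, hm⟩ := Nat.exists_eq_add_of_le' (card_pos.2 ⟨i, hi⟩)
      rw [hm]; simp; ring
    · intro j hj
      rw [if_neg (fun h => ne_of_mem_erase hj (Option.some.inj h).symm), sub_zero]
  · rw [prod_congr rfl (g := fun _ => ρ), prod_const, zero_mul, sub_zero]
    intro j hj
    rw [if_neg, sub_zero]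
    intro h'
    exact h (Option.some.inj h' ▸ (mem_filter.1 hj).2)

lemma sum_locA_none (ρ : ℝ) : ∑ s : ι → Bool, locA ρ s none = (1 + ρ) ^ Fintype.card ι := by
  simp only [locA]
  rw [← Fintype.prod_sum (fun (i : ι) (c : Bool) =>
    if c then (ρ - if (none : Option ι) = some i then 1 else 0) else (1 : ℝ))]
  simp [add_comm]

lemma sum_abs_locA_some {ρ : ℝ} (h0 : 0 ≤ ρ) (h1 : ρ ≤ 1) (j : ι) :
    ∑ s : ι → Bool, |locA ρ s (some j)| ≤ 2 * (1 + ρ) ^ Fintype.card ι := by
  simp only [locA, abs_prod]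
  rw [← Fintype.prod_sum (fun (i : ι) (c : Bool) =>
    |if c then (ρ - if some j = some i then 1 else 0) else (1 : ℝ)|)]
  calc _ ≤ ∏ i, (if i = j then 2 else 1) * (1 + ρ) := by
        refine prod_le_prod (fun i _ => sum_nonneg fun _ _ => abs_nonneg _) fun i _ => ?_
        by_cases h : i = j
        · subst h
          simp only [Fintype.sum_bool, if_true, Bool.false_eq_true, if_false, abs_one]
          rw [abs_of_nonpos (by linarith)]; linarith
        · simp [h, Ne.symm h, abs_of_nonneg h0, add_comm]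
    _ = _ := by rw [prod_mul_distrib]; simp

lemma locA_none_nonneg {ρ : ℝ} (h0 : 0 ≤ ρ) (s : ι → Bool) : 0 ≤ locA ρ s none := by
  rw [locA_none]; positivity

lemma sum_abs_locB {ρ : ℝ} (h0 : 0 ≤ ρ) (h1 : ρ ≤ 1) (u : Option ι) :
    ∑ s : ι → Bool, ∑ t : ι → Bool, |locB ρ s t u|
      ≤ ((1 + ρ) ^ Fintype.card ι) ^ 2 * if u.isSome then 5 else 1 := by
  have hn : ∑ s : ι → Bool, ∑ t : ι → Bool, locA ρ s none * locA ρ t none
      = ((1 + ρ) ^ Fintype.card ι) ^ 2 := by rw [← sum_mul_sum, sum_locA_none, sq]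
  cases u with
  | none =>
    simp only [locB, Option.isSome_none, Bool.false_eq_true, if_false, sub_zero, mul_one]
    rw [← hn]
    exact sum_le_sum fun s _ => sum_le_sum fun t _ =>
      (abs_of_nonneg (mul_nonneg (locA_none_nonneg h0 _) (locA_none_nonneg h0 _))).le
  | some j =>
    simp only [locB, Option.isSome_some, if_true]
    calc _ ≤ ∑ s : ι → Bool, ∑ t : ι → Bool,
          (|locA ρ s (some j)| * |locA ρ t (some j)| + locA ρ s none * locA ρ t none) := by
          refine sum_le_sum fun s _ => sum_le_sum fun t _ => (abs_sub _ _).trans ?_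
          rw [abs_mul, abs_of_nonneg (mul_nonneg (locA_none_nonneg h0 _) (locA_none_nonneg h0 _))]
      _ ≤ _ := by
          simp_rw [sum_add_distrib]
          rw [hn, ← sum_mul_sum]
          have h2 := sum_abs_locA_some h0 h1 j
          have h3 : 0 ≤ ∑ s : ι → Bool, |locA ρ s (some j)| := sum_nonneg fun _ _ => abs_nonneg _
          linarith only [h2, h3, mul_nonneg_of_nonpos_of_nonpos (Mathlib.Tactic.Linarith.sub_nonpos_of_le h2) (Mathlib.Tactic.Linarith.sub_nonpos_of_le h2), mul_nonneg_of_nonpos_of_nonpos (Mathlib.Tactic.Linarith.sub_nonpos_of_le h2) (Mathlib.Tactic.Linarith.sub_nonpos_of_le h3)]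

lemma gram_ineq {ρ ϖ : ℝ} {m n c k : ℕ} (E : Prop) [Decidable E] (h0 : 0 ≤ ρ) (h1 : ρ ≤ 1 / 2)
    (hϖ : |ϖ - ρ| ≤ 2 * ρ ^ 2) (hm : m ≤ k) (hn : n ≤ k) (hcm : c ≤ m) (hcn : c ≤ n)
    (hE : E → m = n ∧ c = m) (hE' : c = m → c = n → E) :
    |ρ ^ m * ρ ^ n + ϖ * (c * (ρ ^ (m - 1) * ρ ^ (n - 1)) - m * (ρ ^ (m - 1) * ρ ^ n)
      - n * (ρ ^ m * ρ ^ (n - 1))) - if E then ρ ^ m else 0| ≤ (6 * k + 3) * ρ ^ 2 := by
  have hk : (0 : ℝ) ≤ k := Nat.cast_nonneg k
  rw [abs_le] at hϖ
  have hϖ0 : 0 ≤ ϖ := by linarith only [hϖ, h0, h1, mul_nonneg_of_nonpos_of_nonpos (Mathlib.Tactic.Linarith.sub_nonpos_of_le h0) (Mathlib.Tactic.Linarith.sub_nonpos_of_le h1)]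
  have hϖ1 : ϖ ≤ 2 * ρ := by linarith only [hϖ, h0, h1, mul_nonneg_of_nonpos_of_nonpos (Mathlib.Tactic.Linarith.sub_nonpos_of_le h0) (Mathlib.Tactic.Linarith.sub_nonpos_of_le h1)]
  have hρ2 : 0 ≤ ρ ^ 2 := by positivity
  by_cases hbig : 2 ≤ m + n ∧ (m ≠ 1 ∨ n ≠ 1)
  · have hp : ∀ a b : ℕ, b ≤ a → ρ ^ a ≤ ρ ^ b := fun a b h =>
      pow_le_pow_of_le_one h0 (by linarith only [h1]) h
    have hq : ∀ j a b : ℕ, j ≤ k → (j ≠ 0 → 1 ≤ a + b) →
        0 ≤ j * (ρ ^ a * ρ ^ b) ∧ j * (ρ ^ a * ρ ^ b) ≤ k * ρ := fun j a b h h' => by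
      refine ⟨by positivity, ?_⟩
      rcases Nat.eq_zero_or_pos j with rfl | hj
      · simp; positivity
      · have : (j : ℝ) ≤ k := by exact_mod_cast h
        have h2 := hp _ _ (h' hj.ne')
        rw [pow_one, pow_add] at h2
        gcongr
    have a1 := hq c (m - 1) (n - 1) (by omega) (by omega)
    have a2 := hq m (m - 1) n hm (by omega)
    have a3 := hq n m (n - 1) hn (by omega)
    have a4 : 0 ≤ ρ ^ m * ρ ^ n := by positivity
    have a5 : ρ ^ m * ρ ^ n ≤ ρ ^ 2 := by rw [← pow_add]; exact hp _ _ hbig.1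
    have a6 : 0 ≤ (if E then ρ ^ m else 0) := by split_ifs <;> positivity
    have a7 : (if E then ρ ^ m else 0) ≤ ρ ^ 2 := by
      split_ifs with h
      · exact hp _ _ (by have := hE h; omega)
      · exact hρ2
    have a8 : ϖ * (k * ρ) ≤ 2 * k * ρ ^ 2 := by linarith only [hϖ1, a1, mul_nonneg hk h0, mul_nonneg_of_nonpos_of_nonpos (Mathlib.Tactic.Linarith.sub_nonpos_of_le hϖ1) (Mathlib.Tactic.Linarith.sub_nonpos_of_le a1.left), mul_nonneg_of_nonpos_of_nonpos (Mathlib.Tactic.Linarith.sub_nonpos_of_le hϖ1) (Mathlib.Tactic.Linarith.sub_nonpos_of_le a1.right)]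
    rw [abs_le]
    constructor <;> linarith only [a4, a7, a8, a1, hϖ0, a2, a3, a5, a6, mul_le_mul_of_nonneg_left a1.2 hϖ0, mul_le_mul_of_nonneg_left a2.2 hϖ0,
      mul_le_mul_of_nonneg_left a3.2 hϖ0, mul_nonneg hϖ0 a1.1, mul_nonneg hϖ0 a2.1,
      mul_nonneg hϖ0 a3.1, sq_nonneg ρ]
  · have hc : (m = 0 ∧ n = 0 ∧ c = 0) ∨ (m = 0 ∧ n = 1 ∧ c = 0) ∨ (m = 1 ∧ n = 0 ∧ c = 0) ∨
        (m = 1 ∧ n = 1 ∧ c = 0) ∨ (m = 1 ∧ n = 1 ∧ c = 1) := by omega
    rcases hc with ⟨rfl, rfl, rfl⟩ | ⟨rfl, rfl, rfl⟩ | ⟨rfl, rfl, rfl⟩ | ⟨rfl, rfl, rfl⟩ |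
      ⟨rfl, rfl, rfl⟩
    · rw [if_pos (hE' rfl rfl)]; simp; positivity
    · rw [if_neg (fun h => by have := hE h; omega), abs_le]; constructor <;> simp <;> linarith only [hϖ, sq_nonneg ρ, mul_nonneg_of_nonpos_of_nonpos (Mathlib.Tactic.Linarith.sub_nonpos_of_le (sq_nonneg ρ)) (Mathlib.Tactic.Linarith.sub_nonpos_of_le (Mathlib.Tactic.Linarith.natCast_nonneg ℝ k))]
    · rw [if_neg (fun h => by have := hE h; omega), abs_le]; constructor <;> simp <;> linarith only [hϖ, sq_nonneg ρ, mul_nonneg_of_nonpos_of_nonpos (Mathlib.Tactic.Linarith.sub_nonpos_of_le (sq_nonneg ρ)) (Mathlib.Tactic.Linarith.sub_nonpos_of_le (Mathlib.Tactic.Linarith.natCast_nonneg ℝ k))]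
    · have : (1 : ℝ) ≤ k := by exact_mod_cast hm
      rw [if_neg (fun h => by have := hE h; omega), abs_le]; constructor <;> simp <;> linarith only [h1, h0, hϖ, mul_nonneg_of_nonpos_of_nonpos (Mathlib.Tactic.Linarith.sub_nonpos_of_le (mul_self_nonneg ρ)) (Mathlib.Tactic.Linarith.sub_nonpos_of_le (Mathlib.Tactic.Linarith.natCast_nonneg ℝ k)), mul_nonneg_of_nonpos_of_nonpos (Mathlib.Tactic.Linarith.sub_nonpos_of_le (mul_self_nonneg ρ)) (Mathlib.Tactic.Linarith.sub_nonpos_of_le h1), mul_nonneg_of_nonpos_of_nonpos (Mathlib.Tactic.Linarith.sub_nonpos_of_le h0) (Mathlib.Tactic.Linarith.sub_nonpos_of_le hϖ.right), mul_self_nonneg ρ, mul_nonneg_of_nonpos_of_nonpos (Mathlib.Tactic.Linarith.sub_nonpos_of_le h0) (Mathlib.Tactic.Linarith.sub_nonpos_of_le hϖ.left)]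
    · have : (1 : ℝ) ≤ k := by exact_mod_cast hm
      rw [if_pos (hE' rfl rfl), abs_le]; constructor <;> simp <;> linarith only [hϖ, h1, this, h0, mul_nonneg_of_nonpos_of_nonpos (Mathlib.Tactic.Linarith.sub_nonpos_of_le (mul_self_nonneg ρ)) (Mathlib.Tactic.Linarith.sub_nonpos_of_le (Mathlib.Tactic.Linarith.natCast_nonneg ℝ k)), mul_nonneg_of_nonpos_of_nonpos (Mathlib.Tactic.Linarith.sub_nonpos_of_le (mul_self_nonneg ρ)) (Mathlib.Tactic.Linarith.sub_nonpos_of_le h1), mul_nonneg_of_nonpos_of_nonpos (Mathlib.Tactic.Linarith.sub_nonpos_of_le (mul_self_nonneg ρ)) (Mathlib.Tactic.Linarith.sub_nonpos_of_le this), mul_nonneg_of_nonpos_of_nonpos (Mathlib.Tactic.Linarith.sub_nonpos_of_le h0) (Mathlib.Tactic.Linarith.sub_nonpos_of_le hϖ.right), mul_nonneg_of_nonpos_of_nonpos (Mathlib.Tactic.Linarith.sub_nonpos_of_le h0) (Mathlib.Tactic.Linarith.sub_nonpos_of_le hϖ.left)]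

lemma gram_loc {ρ ϖ : ℝ} (h0 : 0 ≤ ρ) (h1 : ρ ≤ 1 / 2) (hϖ : |ϖ - ρ| ≤ 2 * ρ ^ 2)
    (s t : ι → Bool) :
    |∑ u : Option ι, locB ρ s t u * (if u.isSome then ϖ else 1)
      - if s = t then locA ρ s none else 0| ≤ (6 * Fintype.card ι + 3) * ρ ^ 2 := by
  set m := (univ.filter fun i => s i).card with hm
  set n := (univ.filter fun i => t i).card with hn
  set c := (univ.filter fun i => s i ∧ t i).card with hc
  have hsub1 : (univ.filter fun i => s i ∧ t i) ⊆ univ.filter fun i => s i :=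
    fun i hi => by simp only [mem_filter] at hi ⊢; exact ⟨hi.1, hi.2.1⟩
  have hsub2 : (univ.filter fun i => s i ∧ t i) ⊆ univ.filter fun i => t i :=
    fun i hi => by simp only [mem_filter] at hi ⊢; exact ⟨hi.1, hi.2.2⟩
  have H := gram_ineq (m := m) (n := n) (c := c) (k := Fintype.card ι) (s = t) h0 h1 hϖ
    (card_le_univ _) (card_le_univ _) (card_le_card hsub1) (card_le_card hsub2)
    (fun h => by subst h; simp [hm, hn, hc]) (fun a b => by
      have a' := eq_of_subset_of_card_le hsub1 a.ge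
      have b' := eq_of_subset_of_card_le hsub2 b.ge
      funext i
      have := Finset.ext_iff.1 (a'.symm.trans b') i
      rw [mem_filter_univ, mem_filter_univ] at this
      exact Bool.eq_iff_iff.2 this)
  refine le_of_eq_of_le (congrArg _ ?_) H
  rw [Fintype.sum_option, locA_none]
  simp only [locB, locA_none, locA_some, Option.isSome_none, Option.isSome_some, if_true,
    Bool.false_eq_true, if_false, ← hm, ← hn]
  have e : ∀ i, ((ρ ^ m - (if s i then 1 else 0) * ρ ^ (m - 1)) *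
      (ρ ^ n - (if t i then 1 else 0) * ρ ^ (n - 1)) - ρ ^ m * ρ ^ n) * ϖ
      = ϖ * ((if s i ∧ t i then 1 else 0) * (ρ ^ (m - 1) * ρ ^ (n - 1))
        - (if s i then 1 else 0) * (ρ ^ (m - 1) * ρ ^ n)
        - (if t i then 1 else 0) * (ρ ^ m * ρ ^ (n - 1))) := fun i => by
    cases s i <;> cases t i <;> simp <;> ring
  rw [sum_congr rfl fun i _ => e i, ← mul_sum, sum_sub_distrib, sum_sub_distrib, ← sum_mul,
    ← sum_mul, ← sum_mul, sum_boole, sum_boole, sum_boole]
  ring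

end Local

lemma abs_prod_sub_prod_le {α : Type*} (S : Finset α) (x z : α → ℝ) (hx : ∀ p, 0 ≤ x p) :
    |∏ p ∈ S, z p - ∏ p ∈ S, x p| ≤ ∏ p ∈ S, (x p + |z p - x p|) - ∏ p ∈ S, x p := by
  classical
  induction S using Finset.induction_on with
  | empty => simp
  | insert a S ha ih =>
    rw [prod_insert ha, prod_insert ha, prod_insert ha]
    have h1 : 0 ≤ ∏ p ∈ S, x p := prod_nonneg fun p _ => hx p
    have h2 : |∏ p ∈ S, z p| ≤ ∏ p ∈ S, (x p + |z p - x p|) := by
      rw [abs_prod]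
      refine prod_le_prod (fun _ _ => abs_nonneg _) fun p _ => ?_
      have := abs_add_le (x p) (z p - x p)
      rwa [add_sub_cancel, abs_of_nonneg (hx p)] at this
    have e : z a * ∏ p ∈ S, z p - x a * ∏ p ∈ S, x p
        = (z a - x a) * ∏ p ∈ S, z p + x a * (∏ p ∈ S, z p - ∏ p ∈ S, x p) := by ring
    rw [e]
    refine (abs_add_le _ _).trans ?_
    rw [abs_mul, abs_mul, abs_of_nonneg (hx a)]
    linarith only [h2, ih, hx, mul_le_mul_of_nonneg_left h2 (abs_nonneg (z a - x a)),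
      mul_le_mul_of_nonneg_left ih (hx a)]

variable {α ι : Type*} [Fintype α] [DecidableEq α] [Fintype ι] [DecidableEq ι]

/-- the squarefree number with indicator `b` -/
def bar (pr : α → ℕ) (b : α → Bool) : ℕ := ∏ p, if b p then pr p else 1

/-- the modulus of a partial assignment of forms to primes -/
def barO (pr : α → ℕ) (d : α → Option ι) : ℕ := ∏ p, if (d p).isSome then pr p else 1

/-- the sieve function -/
def sieveFn (pr : α → ℕ) (Y : (ι → α → Bool) → ℝ) (D : ι → α → Bool) : ℝ :=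
  ∑ T, Y T * ∏ i, ∏ p, if T i p then ((pr p : ℝ)⁻¹ - if D i p then 1 else 0) else 1

lemma sum_sum_prod (f : α → (ι → Bool) → (ι → Bool) → ℝ) :
    ∑ T : ι → α → Bool, ∑ T' : ι → α → Bool, ∏ p, f p (fun i => T i p) (fun i => T' i p)
      = ∏ p, ∑ s, ∑ t, f p s t := by
  rw [Fintype.prod_sum, ← (Equiv.piComm fun (_ : ι) (_ : α) => Bool).sum_comp]
  refine sum_congr rfl fun T _ => ?_
  rw [Fintype.prod_sum, ← (Equiv.piComm fun (_ : ι) (_ : α) => Bool).sum_comp]
  rfl

omit [DecidableEq α] in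
lemma inv_bar (pr : α → ℕ) (b : α → Bool) :
    ((bar pr b : ℕ) : ℝ)⁻¹ = ∏ p, if b p then (pr p : ℝ)⁻¹ else 1 := by
  rw [bar, Nat.cast_prod, ← prod_inv_distrib]
  exact prod_congr rfl fun p _ => by split_ifs <;> simp

theorem multi_sieve (pr : α → ℕ) (hpr : ∀ p, 2 ≤ pr p) (S : Finset ℕ) (ω : ℕ → ℝ)
    (D : ℕ → ι → α → Bool) (hD : ∀ n ∈ S, ∀ p i j, D n i p → D n j p → i = j)
    (ϖ : α → ℝ) (hϖ : ∀ p, |ϖ p - (pr p : ℝ)⁻¹| ≤ 2 * ((pr p : ℝ)⁻¹) ^ 2)
    (Y : (ι → α → Bool) → ℝ) {Ym : ℝ} (hY : ∀ T, |Y T| ≤ Ym) (R : ℕ)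
    (hR : ∀ T, Y T ≠ 0 → ∏ i, bar pr (T i) ≤ R) (M : ℝ) (E : (α → Option ι) → ℝ)
    (hE : ∀ d, barO pr d ≤ R ^ 2 →
      |∑ n ∈ S with ∀ p i, d p = some i → D n i p, ω n
        - M * ∏ p, if (d p).isSome then ϖ p else 1| ≤ E d)
    {ε : ℝ} (hε : 4 ^ Fintype.card ι * (6 * Fintype.card ι + 3) * ∑ p, ((pr p : ℝ)⁻¹) ^ 2 ≤ ε)
    (hε1 : ε ≤ 1) :
    |∑ n ∈ S, ω n * sieveFn pr Y (D n) ^ 2 - M * ∑ T, Y T ^ 2 * ∏ i, ((bar pr (T i) : ℕ) : ℝ)⁻¹|
      ≤ Ym ^ 2 * (((∏ p, (1 + (pr p : ℝ)⁻¹)) ^ Fintype.card ι) ^ 2 *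
          ∑ d with barO pr d ≤ R ^ 2, (∏ p, if (d p).isSome then 5 else 1) * E d
        + |M| * (∏ p, (1 + (pr p : ℝ)⁻¹)) ^ Fintype.card ι * (2 * ε)) := by
  set ρ : α → ℝ := fun p => (pr p : ℝ)⁻¹ with hρ
  have hρ0 : ∀ p, 0 ≤ ρ p := fun p => by positivity
  have hρ1 : ∀ p, ρ p ≤ 1 / 2 := fun p => by
    rw [one_div]; exact inv_anti₀ (by norm_num) (by exact_mod_cast hpr p)
  have hYm : 0 ≤ Ym := (abs_nonneg _).trans (hY fun _ _ => false)
  have hYY : ∀ T T', |Y T * Y T'| ≤ Ym ^ 2 := fun T T' => by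
    rw [abs_mul, sq]; exact mul_le_mul (hY _) (hY _) (abs_nonneg _) hYm
  set c : (α → Option ι) → ℝ := fun d => ∑ T, ∑ T', Y T * Y T' *
    ∏ p, locB (ρ p) (fun i => T i p) (fun i => T' i p) (d p) with hc
  have swap : ∀ g : α → Option ι → ℝ, ∑ T, ∑ T', Y T * Y T' *
      ∏ p, ∑ u, locB (ρ p) (fun i => T i p) (fun i => T' i p) u * g p u
      = ∑ d, c d * ∏ p, g p (d p) := fun g => by
    simp only [hc, sum_mul, Fintype.prod_sum, mul_sum, prod_mul_distrib]
    rw [sum_congr rfl fun T _ => sum_comm, sum_comm]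
    simp only [mul_assoc]
  have h1 : ∀ n ∈ S, sieveFn pr Y (D n) ^ 2
      = ∑ d, c d * if ∀ p i, d p = some i → D n i p then 1 else 0 := fun n hn => by
    rw [sieveFn, sq, sum_mul_sum]
    refine Eq.trans (sum_congr rfl fun T _ => sum_congr rfl fun T' _ => ?_)
      ((swap fun p u => if ∀ i, u = some i → D n i p then 1 else 0).trans
        (sum_congr rfl fun d _ => by rw [prod_boole]; simp))
    rw [mul_mul_mul_comm, prod_comm, prod_comm (s := (univ : Finset ι)), ← prod_mul_distrib]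
    exact congrArg _ (prod_congr rfl fun p _ => loc_expand _ _ _ _ (hD n hn p))
  have h2 : ∑ n ∈ S, ω n * sieveFn pr Y (D n) ^ 2
      = ∑ d, c d * ∑ n ∈ S with ∀ p i, d p = some i → D n i p, ω n := by
    rw [sum_congr rfl fun n hn => by rw [h1 n hn, mul_sum], sum_comm]
    refine sum_congr rfl fun d _ => ?_
    rw [sum_filter, mul_sum]
    exact sum_congr rfl fun n _ => by split_ifs <;> ring
  have h3 : ∀ d, |c d| ≤ Ym ^ 2 * (((∏ p, (1 + ρ p)) ^ Fintype.card ι) ^ 2 *
      ∏ p, if (d p).isSome then 5 else 1) := fun d => by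
    calc _ ≤ ∑ T : ι → α → Bool, ∑ T' : ι → α → Bool,
          Ym ^ 2 * ∏ p, |locB (ρ p) (fun i => T i p) (fun i => T' i p) (d p)| := by
          refine (abs_sum_le_sum_abs _ _).trans (sum_le_sum fun T _ =>
            (abs_sum_le_sum_abs _ _).trans (sum_le_sum fun T' _ => ?_))
          rw [abs_mul, abs_prod]
          exact mul_le_mul_of_nonneg_right (hYY _ _) (prod_nonneg fun _ _ => abs_nonneg _)
      _ ≤ _ := by
          simp_rw [← mul_sum]
          rw [sum_sum_prod fun p s t => |locB (ρ p) s t (d p)|, ← prod_pow, ← prod_pow,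
            ← prod_mul_distrib]
          refine mul_le_mul_of_nonneg_left (prod_le_prod (fun _ _ => sum_nonneg fun _ _ =>
            sum_nonneg fun _ _ => abs_nonneg _) fun p _ => ?_) (by positivity)
          exact sum_abs_locB (hρ0 p) (by linarith only [hρ1, hρ1 p]) _
  have h4 : ∀ d, ¬ barO pr d ≤ R ^ 2 → c d = 0 := fun d hd => by
    refine sum_eq_zero fun T _ => sum_eq_zero fun T' _ => ?_
    by_contra hne
    rw [mul_eq_zero, mul_eq_zero, not_or, not_or] at hne
    refine hd (le_trans ?_ (sq R ▸ Nat.mul_le_mul (hR T hne.1.1) (hR T' hne.1.2)))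
    simp only [bar, barO]
    rw [← prod_mul_distrib]
    simp_rw [← prod_mul_distrib]
    rw [prod_comm]
    refine prod_le_prod' fun p _ => ?_
    have hge : ∀ i, 1 ≤ (if T i p then pr p else 1) * (if T' i p then pr p else 1) := fun i => by
      have := hpr p
      split_ifs <;> nlinarith only [this]
    split_ifs with h
    · have : ∃ i, T i p ∨ T' i p := by
        by_contra hcon
        push Not at hcon
        refine hne.2 (prod_eq_zero (mem_univ p) ?_)
        simp [locB, locA, h, fun i => (hcon i).1, fun i => (hcon i).2]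
      obtain ⟨i, hi⟩ := this
      refine le_trans ?_ (single_le_prod' (fun i _ => hge i) (mem_univ i))
      have := hpr p
      rcases hi with hi | hi <;> simp only [hi, if_true] <;> split_ifs <;> nlinarith only [this]
    · exact one_le_prod' fun i _ => hge i
  have h5 : |∑ d, c d * (∑ n ∈ S with ∀ p i, d p = some i → D n i p, ω n
      - M * ∏ p, if (d p).isSome then ϖ p else 1)|
      ≤ Ym ^ 2 * (((∏ p, (1 + ρ p)) ^ Fintype.card ι) ^ 2 *
          ∑ d with barO pr d ≤ R ^ 2, (∏ p, if (d p).isSome then 5 else 1) * E d) := by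
    rw [← sum_filter_of_ne (p := fun d => barO pr d ≤ R ^ 2)
      (fun d _ h => by by_contra h'; exact h (by rw [h4 d h', zero_mul])), mul_sum, mul_sum]
    refine (abs_sum_le_sum_abs _ _).trans (sum_le_sum fun d hd => ?_)
    rw [abs_mul, ← mul_assoc, ← mul_assoc, mul_assoc (Ym ^ 2)]
    exact mul_le_mul (h3 d) (hE d (mem_filter.1 hd).2) (abs_nonneg _) ((abs_nonneg _).trans (h3 d))
  set H : α → (ι → Bool) → (ι → Bool) → ℝ := fun p s t => if s = t then locA (ρ p) s none else 0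
    with hH
  set G : α → (ι → Bool) → (ι → Bool) → ℝ := fun p s t =>
    ∑ u, locB (ρ p) s t u * if u.isSome then ϖ p else 1 with hG
  have hH0 : ∀ p s t, 0 ≤ H p s t := fun p s t => by
    simp only [hH]; split_ifs
    · exact locA_none_nonneg (hρ0 p) _
    · exact le_rfl
  have hHs : ∀ p, ∑ s, ∑ t, H p s t = (1 + ρ p) ^ Fintype.card ι := fun p => by
    simp [hH, sum_locA_none]
  have h6 : ∑ T, Y T ^ 2 * ∏ i, ((bar pr (T i) : ℕ) : ℝ)⁻¹
      = ∑ T, ∑ T', Y T * Y T' * ∏ p, H p (fun i => T i p) (fun i => T' i p) := by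
    refine sum_congr rfl fun T _ => ?_
    rw [sum_eq_single T, sq]
    · simp only [hH, if_true, inv_bar, locA]
      rw [prod_comm]; simp [hρ]
    · intro T' _ hne
      obtain ⟨i, hi⟩ := Function.ne_iff.1 hne
      obtain ⟨p, hp⟩ := Function.ne_iff.1 hi
      rw [prod_eq_zero (mem_univ p), mul_zero]
      exact if_neg fun h => hp (congrFun h i).symm
    · simp
  have h7 : |∑ d, c d * ∏ p, (if (d p).isSome then ϖ p else 1)
      - ∑ T, Y T ^ 2 * ∏ i, ((bar pr (T i) : ℕ) : ℝ)⁻¹|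
      ≤ Ym ^ 2 * ((∏ p, (1 + ρ p)) ^ Fintype.card ι * (2 * ε)) := by
    rw [← swap fun p u => if u.isSome then ϖ p else 1, h6, ← sum_sub_distrib]
    set e : α → ℝ := fun p => 4 ^ Fintype.card ι * (6 * Fintype.card ι + 3) * ρ p ^ 2 with he
    have he0 : ∀ p, 0 ≤ e p := fun p => by positivity
    calc _ ≤ ∑ T : ι → α → Bool, ∑ T' : ι → α → Bool, Ym ^ 2 *
          (∏ p, (H p (fun i => T i p) (fun i => T' i p) + |G p (fun i => T i p) (fun i => T' i p)
            - H p (fun i => T i p) (fun i => T' i p)|)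
            - ∏ p, H p (fun i => T i p) (fun i => T' i p)) := by
          refine (abs_sum_le_sum_abs _ _).trans (sum_le_sum fun T _ => ?_)
          rw [← sum_sub_distrib]
          refine (abs_sum_le_sum_abs _ _).trans (sum_le_sum fun T' _ => ?_)
          rw [← mul_sub, abs_mul]
          exact mul_le_mul (hYY _ _) (abs_prod_sub_prod_le _ _ _ fun p => hH0 p _ _)
            (abs_nonneg _) (by positivity)
      _ = Ym ^ 2 * (∏ p, ∑ s, ∑ t, (H p s t + |G p s t - H p s t|) - ∏ p, ∑ s, ∑ t, H p s t) := by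
          simp_rw [← mul_sum, sum_sub_distrib]
          rw [sum_sum_prod fun p s t => H p s t + |G p s t - H p s t|, sum_sum_prod H]
      _ ≤ _ := by
          refine mul_le_mul_of_nonneg_left ?_ (by positivity)
          have a1 : ∏ p, ∑ s, ∑ t, (H p s t + |G p s t - H p s t|)
              ≤ ∏ p, (1 + ρ p) ^ Fintype.card ι * Real.exp (e p) := by
            refine prod_le_prod (fun p _ => sum_nonneg fun _ _ => sum_nonneg fun _ _ =>
              add_nonneg (hH0 _ _ _) (abs_nonneg _)) fun p _ => ?_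
            simp_rw [sum_add_distrib]
            have b1 : ∑ s, ∑ t, |G p s t - H p s t| ≤ e p := by
              refine (sum_le_sum fun s _ => sum_le_sum fun t _ =>
                gram_loc (hρ0 p) (hρ1 p) (hϖ p) s t).trans_eq ?_
              simp only [sum_const, card_univ, Fintype.card_fun, Fintype.card_bool, nsmul_eq_mul, he]
              push_cast
              rw [← mul_assoc, ← mul_pow]; norm_num [mul_assoc]
            have b2 : 1 ≤ (1 + ρ p) ^ Fintype.card ι := one_le_pow₀ (by linarith only [hρ0, hρ0 p])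
            rw [hHs]
            linarith only [b1, b2, he0, Real.add_one_le_exp (e p), he0 p, mul_nonneg_of_nonpos_of_nonpos (Mathlib.Tactic.Linarith.sub_nonpos_of_le b2) (Mathlib.Tactic.Linarith.sub_nonpos_of_le (Real.add_one_le_exp (e p))), mul_nonneg_of_nonpos_of_nonpos (Mathlib.Tactic.Linarith.sub_nonpos_of_le b2) (Mathlib.Tactic.Linarith.sub_nonpos_of_le (he0 p))]
          have a2 : ∑ p, e p ≤ ε := by rw [he, ← mul_sum]; exact hε
          have a3 : 0 ≤ ε := (sum_nonneg fun p _ => he0 p).trans a2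
          have a4 := Real.abs_exp_sub_one_le (x := ε) (by rwa [abs_of_nonneg a3])
          rw [abs_of_nonneg a3] at a4
          have a5 : Real.exp (∑ p, e p) ≤ 1 + 2 * ε := by
            linarith only [a4, a2, Real.exp_le_exp.2 a2, le_abs_self (Real.exp ε - 1)]
          rw [prod_mul_distrib, ← Real.exp_sum, prod_pow] at a1
          simp_rw [hHs]
          rw [prod_pow]
          have a6 : 0 ≤ (∏ p, (1 + ρ p)) ^ Fintype.card ι :=
            pow_nonneg (prod_nonneg fun p _ => by linarith only [hρ0, hρ0 p]) _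
          linarith only [a1, a5, a6, mul_nonneg_of_nonpos_of_nonpos (Mathlib.Tactic.Linarith.sub_nonpos_of_le a5) (Mathlib.Tactic.Linarith.sub_nonpos_of_le a6)]
  have e : ∑ n ∈ S, ω n * sieveFn pr Y (D n) ^ 2 - M * ∑ T, Y T ^ 2 * ∏ i, ((bar pr (T i) : ℕ) : ℝ)⁻¹
      = ∑ d, c d * (∑ n ∈ S with ∀ p i, d p = some i → D n i p, ω n
          - M * ∏ p, if (d p).isSome then ϖ p else 1)
        + M * (∑ d, c d * ∏ p, (if (d p).isSome then ϖ p else 1)
          - ∑ T, Y T ^ 2 * ∏ i, ((bar pr (T i) : ℕ) : ℝ)⁻¹) := by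
    simp_rw [mul_sub, sum_sub_distrib, mul_sum (a := M), mul_left_comm M]
    rw [h2]; ring
  rw [e]
  refine (abs_add_le _ _).trans ?_
  rw [abs_mul]
  have := mul_le_mul_of_nonneg_left h7 (abs_nonneg M)
  linarith only [h5, this]

end Pool.Agent.Lib.ANT
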