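import Pool.Agent.Lib.ANT.WienerIkehara

/-!
# The prime number theorem, also in arithmetic progressions
-/

open MeasureTheory Filter Topology Complex Set ArithmeticFunction Asymptotics
open scoped Chebyshev Nat.Prime

namespace Pool.Agent.Lib.ANT

lemma psi_eq_sum_Icc_one (x : ℝ) : ψ x = ∑ k ∈ Finset.Icc 1 ⌊x⌋₊, vonMangoldt k := by
  rw [Chebyshev.psi]
  congr 1

lemma exists_sum_vonMangoldt_le : ∃ C : ℝ, ∀ n : ℕ, ∑ k ∈ Finset.Icc 1 n, vonMangoldt k ≤ C * n := by
  refine ⟨Real.log 4 + 4, fun n => ?_⟩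
  have := Chebyshev.psi_le_const_mul_self (x := n) n.cast_nonneg
  rwa [psi_eq_sum_Icc_one, Nat.floor_natCast] at this

/-- Prime number theorem in arithmetic progressions, for the von Mangoldt function. -/
theorem tendsto_sum_residueClass_div {q : ℕ} [NeZero q] {a : ZMod q} (ha : IsUnit a) :
    Tendsto (fun x : ℝ => (∑ k ∈ Finset.Icc 1 ⌊x⌋₊, vonMangoldt.residueClass a k) / x) atTop
      (𝓝 (q.totient : ℝ)⁻¹) := by
  obtain ⟨C, hC⟩ := exists_sum_vonMangoldt_le
  refine wienerIkehara_nonneg (vonMangoldt.residueClass_nonneg a) (C := C)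
    (fun n => (Finset.sum_le_sum fun k _ => vonMangoldt.residueClass_le a k).trans (hC n))
    (vonMangoldt.continuousOn_LFunctionResidueClassAux a) fun s hs => ?_
  rw [vonMangoldt.eqOn_LFunctionResidueClassAux ha hs]
  simp

/-- Prime number theorem in arithmetic progressions: `ψ(x; q, a) / x → 1 / φ(q)`. -/
theorem tendsto_psi_AP_div {q a : ℕ} (hq : 0 < q) (ha : a.Coprime q) :
    Tendsto (fun x : ℝ => (∑ k ∈ Finset.Icc 1 ⌊x⌋₊ with k ≡ a [MOD q], vonMangoldt k) / x) atTop
      (𝓝 (q.totient : ℝ)⁻¹) := by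
  have : NeZero q := ⟨hq.ne'⟩
  refine (tendsto_sum_residueClass_div ((ZMod.isUnit_iff_coprime a q).2 ha)).congr fun x => ?_
  congr 1
  rw [Finset.sum_filter]
  refine Finset.sum_congr rfl fun k _ => ?_
  simp only [vonMangoldt.residueClass, Set.indicator_apply, mem_ofPred_eq,
    ZMod.natCast_eq_natCast_iff]

/-- **Prime number theorem**: `ψ(x) / x → 1`. -/
theorem tendsto_psi_div : Tendsto (fun x : ℝ => ψ x / x) atTop (𝓝 1) := by
  have := tendsto_psi_AP_div (q := 1) (a := 1) one_pos (by simp)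
  simp only [Nat.totient_one, Nat.cast_one, inv_one] at this
  refine this.congr fun x => ?_
  rw [psi_eq_sum_Icc_one, Finset.filter_true_of_mem fun _ _ => Nat.modEq_one]

lemma tendsto_psi_sub_theta_div : Tendsto (fun x : ℝ => (ψ x - θ x) / x) atTop (𝓝 0) := by
  have h1 : (ψ - θ) =o[atTop] fun x : ℝ => x := by
    refine Chebyshev.isBigO_psi_sub_theta_sqrt.trans_isLittleO ?_
    refine (isLittleO_iff_tendsto' (by
      filter_upwards [eventually_gt_atTop 0] with x hx h using absurd h hx.ne')).2 ?_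
    refine Real.tendsto_sqrt_atTop.inv_tendsto_atTop.congr' ?_
    filter_upwards [eventually_gt_atTop 0] with x hx
    rw [Real.sqrt_div_self', Pi.inv_apply, one_div]
  exact h1.tendsto_div_nhds_zero

/-- **Prime number theorem**: `θ(x) / x → 1`. -/
theorem tendsto_theta_div : Tendsto (fun x : ℝ => θ x / x) atTop (𝓝 1) := by
  have := tendsto_psi_div.sub tendsto_psi_sub_theta_div
  rw [sub_zero] at this
  refine this.congr fun x => by ring

lemma tendsto_pi_log_sub_theta_div :
    Tendsto (fun x : ℝ => ((π ⌊x⌋₊ : ℝ) * Real.log x - θ x) / x) atTop (𝓝 0) := by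
  have h1 := Chebyshev.primeCounting_sub_theta_div_log_isBigO.mul
    (isBigO_refl (fun x : ℝ => Real.log x / x) atTop)
  have h2 : Tendsto (fun x : ℝ => x / Real.log x ^ 2 * (Real.log x / x)) atTop (𝓝 0) := by
    refine Real.tendsto_log_atTop.inv_tendsto_atTop.congr' ?_
    filter_upwards [eventually_gt_atTop 1] with x hx
    have := (Real.log_pos hx).ne'
    simp only [Pi.inv_apply]
    field_simp
  refine (h1.trans_tendsto h2).congr' ?_
  filter_upwards [eventually_gt_atTop 1] with x hx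
  have := (Real.log_pos hx).ne'
  field_simp

/-- **Prime number theorem**: `π(x) log x / x → 1`. -/
theorem tendsto_primeCounting_mul_log_div :
    Tendsto (fun x : ℝ => (π ⌊x⌋₊ : ℝ) * Real.log x / x) atTop (𝓝 1) := by
  have := tendsto_pi_log_sub_theta_div.add tendsto_theta_div
  rw [zero_add] at this
  refine this.congr fun x => by ring

/-- Prime number theorem in arithmetic progressions: `θ(x; q, a) / x → 1 / φ(q)`. -/
theorem tendsto_theta_AP_div {q a : ℕ} (hq : 0 < q) (ha : a.Coprime q) :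
    Tendsto (fun x : ℝ => (∑ p ∈ Finset.Icc 1 ⌊x⌋₊ with (p.Prime ∧ p ≡ a [MOD q]),
      Real.log p) / x) atTop (𝓝 (q.totient : ℝ)⁻¹) := by
  have h1 := tendsto_psi_AP_div hq ha
  have h2 : Tendsto (fun x : ℝ => (∑ k ∈ Finset.Icc 1 ⌊x⌋₊ with k ≡ a [MOD q], vonMangoldt k) / x -
      (∑ p ∈ Finset.Icc 1 ⌊x⌋₊ with (p.Prime ∧ p ≡ a [MOD q]), Real.log p) / x) atTop (𝓝 0) := by
    refine squeeze_zero' ?_ ?_ tendsto_psi_sub_theta_div
    · filter_upwards [eventually_gt_atTop 0] with x hx
      rw [← sub_div]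
      refine div_nonneg (sub_nonneg.2 ?_) hx.le
      rw [Finset.sum_filter, Finset.sum_filter]
      refine Finset.sum_le_sum fun k _ => ?_
      by_cases h1 : k.Prime <;> by_cases h2 : k ≡ a [MOD q] <;>
        simp [h1, h2, vonMangoldt_apply_prime]
    · filter_upwards [eventually_gt_atTop 0] with x hx
      rw [← sub_div]
      refine div_le_div_of_nonneg_right ?_ hx.le
      rw [psi_eq_sum_Icc_one, Chebyshev.theta, show Finset.Ioc 0 ⌊x⌋₊ = Finset.Icc 1 ⌊x⌋₊ from rfl,
        Finset.sum_filter, Finset.sum_filter, Finset.sum_filter, ← Finset.sum_sub_distrib,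
        ← Finset.sum_sub_distrib]
      refine Finset.sum_le_sum fun k _ => ?_
      by_cases h1 : k.Prime <;> by_cases h2 : k ≡ a [MOD q] <;>
        simp [h1, h2, vonMangoldt_apply_prime]
  have := h1.sub h2
  rw [sub_zero] at this
  refine this.congr fun x => by ring

/-- Prime number theorem in arithmetic progressions: `π(x; q, a) log x / x → 1 / φ(q)`. -/
theorem tendsto_pi_AP_mul_log_div {q a : ℕ} (hq : 0 < q) (ha : a.Coprime q) :
    Tendsto (fun x : ℝ =>
      (((Finset.Icc 1 ⌊x⌋₊).filter (fun p => p.Prime ∧ p ≡ a [MOD q])).card : ℝ) *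
        Real.log x / x) atTop (𝓝 (q.totient : ℝ)⁻¹) := by
  have h1 := tendsto_theta_AP_div hq ha
  have h2 : Tendsto (fun x : ℝ =>
      (((Finset.Icc 1 ⌊x⌋₊).filter (fun p => p.Prime ∧ p ≡ a [MOD q])).card : ℝ) *
        Real.log x / x -
      (∑ p ∈ Finset.Icc 1 ⌊x⌋₊ with (p.Prime ∧ p ≡ a [MOD q]), Real.log p) / x) atTop (𝓝 0) := by
    have hle : ∀ x : ℝ, 0 < x → ∀ k ∈ Finset.Icc 1 ⌊x⌋₊, Real.log k ≤ Real.log x := by
      intro x hx k hk
      rw [Finset.mem_Icc] at hk
      exact Real.log_le_log (by exact_mod_cast hk.1)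
        ((Nat.cast_le.2 hk.2).trans (Nat.floor_le hx.le))
    refine squeeze_zero' ?_ ?_ tendsto_pi_log_sub_theta_div
    · filter_upwards [eventually_gt_atTop 0] with x hx
      rw [← sub_div]
      refine div_nonneg (sub_nonneg.2 ?_) hx.le
      rw [← nsmul_eq_mul, ← Finset.sum_const]
      exact Finset.sum_le_sum fun k hk => hle x hx k (Finset.mem_filter.1 hk).1
    · filter_upwards [eventually_gt_atTop 0] with x hx
      rw [← sub_div]
      refine div_le_div_of_nonneg_right ?_ hx.le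
      have hpi : (π ⌊x⌋₊ : ℝ) = (((Finset.Icc 1 ⌊x⌋₊).filter Nat.Prime).card : ℝ) := by
        rw [Nat.primeCounting, ← Nat.primesBelow_card_eq_primeCounting']
        congr 2
        ext p
        simp only [Nat.mem_primesBelow, Finset.mem_filter, Finset.mem_Icc]
        exact ⟨fun h => ⟨⟨h.2.one_le, by omega⟩, h.2⟩, fun h => ⟨by omega, h.2⟩⟩
      rw [hpi, Chebyshev.theta, show Finset.Ioc 0 ⌊x⌋₊ = Finset.Icc 1 ⌊x⌋₊ from rfl,
        ← nsmul_eq_mul, ← nsmul_eq_mul, ← Finset.sum_const, ← Finset.sum_const,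
        ← Finset.sum_sub_distrib, ← Finset.sum_sub_distrib]
      refine Finset.sum_le_sum_of_subset_of_nonneg (fun k hk => ?_) fun k hk _ => ?_
      · rw [Finset.mem_filter] at hk ⊢
        exact ⟨hk.1, hk.2.1⟩
      · exact sub_nonneg.2 (hle x hx k (Finset.mem_filter.1 hk).1)
  have := h1.add h2
  rw [add_zero] at this
  refine this.congr fun x => by ring

end Pool.Agent.Lib.ANT
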