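import Pool.Agent.Lib.ANT.SiegelWalfisz
import Mathlib.NumberTheory.Harmonic.ZetaAsymp

/-!
# The prime number theorem with a logarithmic power saving
-/

noncomputable section

open Finset Complex Filter Topology ArithmeticFunction

namespace Pool.Agent.Lib.ANT

namespace PNTError

open MeasureTheory

/-- The terms of a series for `(s - 1) ζ(s) - 1` which converges for `re s > 0`. -/
def tm (n : ℕ) (s : ℂ) : ℂ :=
  (s - 1) * ((n + 1 : ℕ) : ℂ) ^ (-s) - ((n + 1 : ℕ) : ℂ) ^ (1 - s) + ((n + 2 : ℕ) : ℂ) ^ (1 - s)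

lemma norm_tm_le {n : ℕ} {s : ℂ} {C : ℝ}
    (h : ∀ x : ℝ, ((n + 1 : ℕ) : ℝ) ≤ x → x ≤ ((n + 1 : ℕ) : ℝ) + 1 →
      ‖((n + 1 : ℕ) : ℂ) ^ (-s) - (x : ℂ) ^ (-s)‖ ≤ C) : ‖tm n s‖ ≤ ‖s - 1‖ * C := by
  have hn : (0 : ℝ) < ((n + 1 : ℕ) : ℝ) := by positivity
  have H := norm_image_sub_le_of_norm_deriv_le_segment'
    (f := fun x : ℝ => (x : ℂ) ^ (1 - s) + (s - 1) * ((n + 1 : ℕ) : ℂ) ^ (-s) * x)
    (f' := fun x : ℝ => (s - 1) * (((n + 1 : ℕ) : ℂ) ^ (-s) - (x : ℂ) ^ (-s)))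
    (a := ((n + 1 : ℕ) : ℝ)) (b := ((n + 1 : ℕ) : ℝ) + 1) (C := ‖s - 1‖ * C)
    (fun x hx => ?_) (fun x hx => ?_) (((n + 1 : ℕ) : ℝ) + 1) ⟨by linarith, le_rfl⟩
  · rw [add_sub_cancel_left, mul_one] at H
    refine le_of_eq_of_le ?_ H
    have e : ((n + 2 : ℕ) : ℂ) = ((((n + 1 : ℕ) : ℝ) + 1 : ℝ) : ℂ) := by push_cast; ring
    rw [tm, e, ofReal_natCast]
    congr 1
    push_cast; ring
  · have hx0 : 0 < x := by linarith [hx.1]
    have h1 : HasDerivAt (fun z : ℂ => z ^ (1 - s) + (s - 1) * ((n + 1 : ℕ) : ℂ) ^ (-s) * z)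
        ((1 - s) * (x : ℂ) ^ (1 - s - 1) * 1 + (s - 1) * ((n + 1 : ℕ) : ℂ) ^ (-s) * 1) (x : ℂ) :=
      ((hasDerivAt_id (x : ℂ)).cpow_const (ofReal_mem_slitPlane.2 hx0)).add
        ((hasDerivAt_id (x : ℂ)).const_mul _)
    refine (h1.comp_ofReal.congr_deriv ?_).hasDerivWithinAt
    rw [show 1 - s - 1 = -s by ring]; ring
  · rw [norm_mul]
    exact mul_le_mul_of_nonneg_left (h x hx.1 hx.2.le) (norm_nonneg _)

lemma tm_le_one {s : ℂ} (hs : 0 ≤ s.re) (n : ℕ) :
    ‖tm n s‖ ≤ ‖s - 1‖ * (‖s‖ * ((n + 1 : ℕ) : ℝ) ^ (-s.re - 1)) :=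
  norm_tm_le fun x h1 h2 => by
    have h := norm_cpow_sub_le hs (a := ((n + 1 : ℕ) : ℝ)) (u := x) (by positivity) h1
    rw [norm_sub_rev, ofReal_natCast] at h
    exact h.trans (mul_le_of_le_one_right (by positivity) (by linarith))

lemma tm_le_two {s : ℂ} (hs : 0 ≤ s.re) (n : ℕ) :
    ‖tm n s‖ ≤ ‖s - 1‖ * (2 * ((n + 1 : ℕ) : ℝ) ^ (-s.re)) :=
  norm_tm_le fun x h1 _ => by
    have hn : (0 : ℝ) < ((n + 1 : ℕ) : ℝ) := by positivity
    refine (norm_sub_le _ _).trans ?_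
    rw [norm_natCast_cpow_of_pos (Nat.succ_pos _), norm_cpow_eq_rpow_re_of_pos (hn.trans_le h1),
      neg_re]
    have := Real.rpow_le_rpow_of_nonpos hn h1 (show -s.re ≤ 0 by linarith)
    linarith

lemma summable_tm {s : ℂ} (hs : 0 < s.re) : Summable fun n => tm n s :=
  Summable.of_norm_bounded (((summable_succ_rpow hs).mul_left ‖s‖).mul_left ‖s - 1‖)
    (tm_le_one hs.le)

lemma differentiableOn_tm : DifferentiableOn ℂ (fun s => ∑' n, tm n s) {s | 0 < s.re} := by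
  intro s₀ hs₀
  have hs₀' : 0 < s₀.re := hs₀
  have hU : IsOpen {s : ℂ | s₀.re / 2 < s.re ∧ ‖s‖ < ‖s₀‖ + 1} :=
    (isOpen_lt continuous_const continuous_re).inter (isOpen_lt continuous_norm continuous_const)
  have h := differentiableOn_tsum_of_summable_norm (F := fun n s => tm n s)
    (((summable_succ_rpow (half_pos hs₀')).mul_left (‖s₀‖ + 1)).mul_left (‖s₀‖ + 2))
    (fun n => ?_) hU (fun n s hs => ?_)
  · exact (h.differentiableAt (hU.mem_nhds ⟨by linarith, by linarith⟩)).differentiableWithinAt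
  · refine Differentiable.differentiableOn (fun s => ?_)
    unfold tm
    refine DifferentiableAt.add (DifferentiableAt.sub (DifferentiableAt.mul (by fun_prop) ?_) ?_) ?_
    · exact differentiableAt_id.neg.const_cpow (Or.inl (Nat.cast_ne_zero.2 (Nat.succ_ne_zero _)))
    · exact (differentiableAt_id.const_sub 1).const_cpow
        (Or.inl (Nat.cast_ne_zero.2 (Nat.succ_ne_zero _)))
    · exact (differentiableAt_id.const_sub 1).const_cpow
        (Or.inl (Nat.cast_ne_zero.2 (Nat.succ_ne_zero _)))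
  · refine (tm_le_one (by linarith [hs.1]) n).trans ?_
    have h1 : ‖s - 1‖ ≤ ‖s₀‖ + 2 := (norm_sub_le _ _).trans (by rw [norm_one]; linarith [hs.2])
    refine mul_le_mul h1 (mul_le_mul hs.2.le ?_ (by positivity) (by positivity)) (by positivity)
      (by positivity)
    exact Real.rpow_le_rpow_of_exponent_le (by exact_mod_cast Nat.succ_pos _) (by linarith [hs.1])

lemma sum_tm (s : ℂ) (N : ℕ) : ∑ n ∈ range N, tm n s =
    (s - 1) * ∑ n ∈ range N, ((n + 1 : ℕ) : ℂ) ^ (-s) - 1 + ((N + 1 : ℕ) : ℂ) ^ (1 - s) := by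
  induction N with
  | zero => simp
  | succ N ih => rw [sum_range_succ, sum_range_succ, ih, tm]; ring

lemma tsum_tm_of_one_lt {s : ℂ} (hs : 1 < s.re) : ∑' n, tm n s = (s - 1) * riemannZeta₀ s := by
  have hs1 : s ≠ 1 := fun h => by rw [h] at hs; simp at hs
  have hsum : HasSum (fun n : ℕ => ((n + 1 : ℕ) : ℂ) ^ (-s)) (riemannZeta s) := by
    have h1 := (summable_nat_add_iff 1).2 (Complex.summable_one_div_nat_cpow.2 hs)
    have := h1.hasSum
    rw [zeta_eq_tsum_one_div_nat_add_one_cpow hs]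
    simpa [cpow_neg] using this
  have h0 : Tendsto (fun N : ℕ => ((N + 1 : ℕ) : ℂ) ^ (1 - s)) atTop (𝓝 0) := by
    rw [tendsto_zero_iff_norm_tendsto_zero]
    have := ((tendsto_rpow_neg_atTop (y := s.re - 1) (by linarith)).comp
      tendsto_natCast_atTop_atTop).comp (tendsto_add_atTop_nat 1)
    refine this.congr fun N => ?_
    rw [norm_natCast_cpow_of_pos (Nat.succ_pos _)]
    simp
  have h1 := ((hsum.tendsto_sum_nat.const_mul (s - 1)).sub_const 1).add h0
  simp only [← sum_tm] at h1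
  rw [tendsto_nhds_unique (summable_tm (by linarith)).hasSum.tendsto_sum_nat h1,
    riemannZeta_eq_inv_sub_add hs1, mul_add, mul_inv_cancel₀ (sub_ne_zero.2 hs1)]
  ring

lemma tsum_tm {s : ℂ} (hs : 0 < s.re) : (s - 1) * riemannZeta₀ s = ∑' n, tm n s := by
  have hU : IsOpen {s : ℂ | 0 < s.re} := isOpen_lt continuous_const continuous_re
  have h1 : AnalyticOnNhd ℂ (fun s => (s - 1) * riemannZeta₀ s) {s : ℂ | 0 < s.re} :=
    (by fun_prop : Differentiable ℂ fun s => (s - 1) * riemannZeta₀ s).differentiableOn.analyticOnNhd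
      hU
  have h2 := differentiableOn_tm.analyticOnNhd hU
  refine h1.eqOn_of_preconnected_of_eventuallyEq h2 (convex_halfSpace_re_gt 0).isPreconnected
    (z₀ := 2) (by simp) ?_ hs
  have : {s : ℂ | 1 < s.re} ∈ 𝓝 (2 : ℂ) :=
    (isOpen_lt continuous_const continuous_re).mem_nhds (by simp)
  filter_upwards [this] with s hs using (tsum_tm_of_one_lt hs).symm

/-- `|ζ(s) - 1 / (s - 1)| ≤ 12 log N` for `re s ≥ 1 - 1 / log N` and `1 + 2 |s| ≤ N`. -/
theorem norm_zeta₀_le {N : ℕ} (hN : 2 ≤ Real.log N) {s : ℂ} (hs : 1 - 1 / Real.log N ≤ s.re)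
    (hq : 1 + 2 * ‖s‖ ≤ N) : ‖riemannZeta₀ s‖ ≤ 12 * Real.log N := by
  by_cases hs1 : s = 1
  · rw [hs1, riemannZeta₀_one, norm_real,
      Real.norm_of_nonneg (by linarith [Real.one_half_lt_eulerMascheroniConstant])]
    linarith [Real.eulerMascheroniConstant_lt_two_thirds]
  have hN0 : 0 < N := by
    rcases Nat.eq_zero_or_pos N with rfl | h
    · simp at hN; linarith
    · exact h
  have hN0' : (0 : ℝ) < N := by exact_mod_cast hN0
  have hL : 1 / Real.log N ≤ 1 / 2 := one_div_le_one_div_of_le (by norm_num) hN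
  have hσ : 1 / 2 ≤ s.re := by linarith
  have hpow : ∀ n : ℝ, 1 ≤ n → n ≤ N → n ^ (-s.re) ≤ 3 * n⁻¹ := fun n h1 h2 => by
    have hn0 : 0 < n := by linarith
    calc n ^ (-s.re) ≤ n ^ (1 / Real.log N + -1) :=
          Real.rpow_le_rpow_of_exponent_le h1 (by linarith)
      _ = n ^ (1 / Real.log N) * n⁻¹ := by rw [Real.rpow_add hn0, Real.rpow_neg_one]
      _ ≤ 3 * n⁻¹ := by
          refine mul_le_mul_of_nonneg_right ?_ (by positivity)
          calc n ^ (1 / Real.log N) ≤ (N : ℝ) ^ (1 / Real.log N) :=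
                Real.rpow_le_rpow hn0.le h2 (by positivity)
            _ = Real.exp 1 := by
                rw [Real.rpow_def_of_pos hN0']; congr 1; field_simp
            _ ≤ 3 := by have := Real.exp_one_lt_d9; linarith
  have r0 : 0 < ‖s - 1‖ := norm_pos_iff.2 (sub_ne_zero.2 hs1)
  refine le_of_mul_le_mul_left ?_ r0
  rw [← norm_mul, tsum_tm (by linarith)]
  refine le_of_tendsto' ((tendsto_add_atTop_iff_nat N).2
    (summable_tm (s := s) (by linarith)).hasSum.tendsto_sum_nat).norm fun M => ?_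
  rw [add_comm M N, sum_range_add]
  have h1 : ‖∑ n ∈ range N, tm n s‖ ≤ ‖s - 1‖ * (6 * (1 + Real.log N)) := by
    refine (norm_sum_le _ _).trans ((sum_le_sum fun n _ => tm_le_two (by linarith) n).trans ?_)
    rw [← mul_sum]
    refine mul_le_mul_of_nonneg_left ?_ r0.le
    refine le_trans (sum_le_sum (g := fun n => 6 * (((n + 1 : ℕ) : ℝ))⁻¹) fun n hn => ?_) ?_
    · have := hpow ((n + 1 : ℕ) : ℝ) (by exact_mod_cast Nat.succ_pos _)
        (by exact_mod_cast mem_range.1 hn)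
      linarith
    · rw [← mul_sum]; linarith [sum_range_inv_le N]
  have h2 : ‖∑ n ∈ range M, tm (N + n) s‖ ≤ ‖s - 1‖ * 3 := by
    refine (norm_sum_le _ _).trans ((sum_le_sum fun n _ => tm_le_one (by linarith) _).trans ?_)
    rw [← mul_sum, ← mul_sum]
    refine mul_le_mul_of_nonneg_left ?_ r0.le
    have a0 := sum_rpow_tail_le (σ := s.re) (by linarith) hN0 M
    simp_rw [add_comm N]
    have a1 : (N : ℝ) ^ (-s.re) / s.re ≤ 2 * (3 * (N : ℝ)⁻¹) := by
      rw [div_le_iff₀ (by linarith)]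
      have := hpow N (by exact_mod_cast hN0) le_rfl
      have : 0 ≤ 3 * (N : ℝ)⁻¹ := by positivity
      nlinarith
    calc _ ≤ ‖s‖ * (2 * (3 * (N : ℝ)⁻¹)) := mul_le_mul_of_nonneg_left (a0.trans a1) (norm_nonneg _)
      _ = 2 * ‖s‖ * (3 * (N : ℝ)⁻¹) := by ring
      _ ≤ N * (3 * (N : ℝ)⁻¹) := by gcongr; linarith
      _ = 3 := by field_simp
  refine (norm_add_le _ _).trans ((add_le_add h1 h2).trans ?_)
  rw [← mul_add]
  exact mul_le_mul_of_nonneg_left (by linarith) r0.le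

theorem norm_deriv_zeta₀_le {N : ℕ} (hN : 2 ≤ Real.log N) {s : ℂ}
    (hs : 1 - 1 / (2 * Real.log N) ≤ s.re) (hq : 2 + 2 * ‖s‖ ≤ N) :
    ‖deriv riemannZeta₀ s‖ ≤ 24 * Real.log N ^ 2 := by
  have hL : 0 < Real.log N := by linarith
  have hr : 1 / (2 * Real.log N) ≤ 1 / 4 := one_div_le_one_div_of_le (by norm_num) (by linarith)
  have h := norm_deriv_le_of_forall_mem_sphere_norm_le (c := s) (R := 1 / (2 * Real.log N))
    (C := 12 * Real.log N) (f := riemannZeta₀) (by positivity)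
    differentiable_riemannZeta₀.diffContOnCl fun z hz => ?_
  · refine h.trans_eq ?_; field_simp; ring
  · rw [mem_sphere_iff_norm] at hz
    have h1 : |(z - s).re| ≤ ‖z - s‖ := abs_re_le_norm _
    have h2 : ‖z‖ ≤ ‖s‖ + ‖z - s‖ := norm_le_norm_add_norm_sub' _ _
    rw [sub_re, hz, abs_le] at h1
    refine norm_zeta₀_le hN ?_ (le_trans (by linarith) hq)
    have : 1 / Real.log N = 2 * (1 / (2 * Real.log N)) := by field_simp
    linarith [h1.1]

lemma zeta₀_lip {N : ℕ} (hN : 2 ≤ Real.log N) {ρ : ℝ} (hq : 2 + 2 * ρ ≤ N) {s₁ s₂ : ℂ}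
    (h1 : 1 - 1 / (2 * Real.log N) ≤ s₁.re) (h1' : ‖s₁‖ ≤ ρ)
    (h2 : 1 - 1 / (2 * Real.log N) ≤ s₂.re) (h2' : ‖s₂‖ ≤ ρ) :
    ‖riemannZeta₀ s₁ - riemannZeta₀ s₂‖ ≤ 24 * Real.log N ^ 2 * ‖s₁ - s₂‖ := by
  have hc : Convex ℝ ({s : ℂ | 1 - 1 / (2 * Real.log N) ≤ s.re} ∩ Metric.closedBall 0 ρ) :=
    (convex_halfSpace_re_ge _).inter (convex_closedBall 0 ρ)
  refine hc.norm_image_sub_le_of_norm_deriv_le (𝕜 := ℂ)
    (fun x _ => differentiable_riemannZeta₀ x) (fun x hx => ?_)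
    ⟨h2, by simpa using h2'⟩ ⟨h1, by simpa using h1'⟩
  refine norm_deriv_zeta₀_le hN hx.1 (le_trans ?_ hq)
  have : ‖x‖ ≤ ρ := by simpa using hx.2
  gcongr

/-- A weak zero-free region with a lower bound for `|(s - 1) ζ(s)|`. -/
theorem zero_free_zeta {N : ℕ} (hN : 2 ≤ Real.log N) {M T : ℝ} (hM1 : 24 * Real.log N ^ 2 ≤ M)
    (hM : 1000 ≤ M) (hq : 6 + 4 * T ≤ N) {s : ℂ} (hs : |s.re - 1| ≤ 1 / M ^ 12)
    (ht : |s.im| ≤ T) : (1 + ‖s - 1‖) / M ^ 14 ≤ ‖riemannZeta₁ s‖ := by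
  set L := Real.log N with hL
  have hM' : 1 ≤ M := by linarith
  have hLM : 12 * L ≤ M := by nlinarith
  have hT : 0 ≤ T := (abs_nonneg _).trans ht
  set δ : ℝ := 1 / M ^ 12 with hδ
  have hδ0 : 0 < δ := by positivity
  have hpow : ∀ a b : ℕ, a ≤ b → M ^ a ≤ M ^ b := fun a b h => pow_le_pow_right₀ hM' h
  have hM2 : 1000 * M ≤ M ^ 2 := by nlinarith
  have hδτ : δ ≤ 1 / (4 * M) :=
    one_div_le_one_div_of_le (by positivity) (by linarith [hpow 2 12 (by norm_num)])
  have hδL : δ ≤ 1 / (2 * L) :=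
    one_div_le_one_div_of_le (by positivity) (by linarith [hpow 2 12 (by norm_num)])
  have hL4 : 1 / (2 * L) ≤ 1 / 4 := one_div_le_one_div_of_le (by norm_num) (by linarith)
  have hL2 : 1 / (2 * L) ≤ 1 / L := one_div_le_one_div_of_le (by positivity) (by linarith)
  have hL0 : 0 < 1 / (2 * L) := by positivity
  rw [abs_le] at hs
  have hns : ‖s‖ ≤ 2 + T := by
    refine (norm_le_abs_re_add_abs_im s).trans (add_le_add ?_ ht)
    rw [abs_le]; constructor <;> linarith [hs.1, hs.2]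
  by_cases hc : |s.im| ≤ 1 / (4 * M)
  · have h1 : ‖riemannZeta₀ s‖ ≤ M :=
      (norm_zeta₀_le hN (by linarith [hs.1]) (by linarith)).trans hLM
    have h2 : ‖s - 1‖ ≤ 2 * (1 / (4 * M)) := by
      refine (norm_le_abs_re_add_abs_im _).trans ?_
      have : |s.re - 1| ≤ 1 / (4 * M) := by rw [abs_le]; constructor <;> linarith [hs.1, hs.2]
      simp only [sub_re, one_re, sub_im, one_im, sub_zero]
      linarith
    have h3 : ‖(s - 1) * riemannZeta₀ s‖ ≤ 1 / 2 := by
      rw [norm_mul]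
      calc _ ≤ 2 * (1 / (4 * M)) * M := by gcongr
        _ = _ := by field_simp; norm_num
    have h4 := norm_sub_le (riemannZeta₁ s) ((s - 1) * riemannZeta₀ s)
    rw [show riemannZeta₁ s - (s - 1) * riemannZeta₀ s = 1 by rw [riemannZeta₁]; ring,
      norm_one] at h4
    have h5 : 1 / (4 * M) ≤ 1 / 4 := one_div_le_one_div_of_le (by norm_num) (by linarith)
    have h6 : (1 + ‖s - 1‖) / M ^ 14 ≤ 1 / 2 := by
      rw [div_le_iff₀ (by positivity)]
      linarith [hpow 2 14 (by norm_num)]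
    linarith
  · rw [not_le] at hc
    have τ0 : 0 < 1 / (4 * M) := by positivity
    have inv : ∀ z : ℂ, |s.im| ≤ |z.im| → z ≠ 1 ∧ ‖(z - 1)⁻¹‖ ≤ 4 * M := fun z hz => by
      have a := abs_im_le_norm (z - 1)
      simp only [sub_im, one_im, sub_zero] at a
      refine ⟨fun h => ?_, ?_⟩
      · rw [h, one_im, abs_zero] at hz; linarith
      · rw [norm_inv]
        exact inv_le_of_inv_le₀ (by positivity) (by rw [← one_div]; linarith)
    have H := (1 : DirichletCharacter ℂ 1).norm_LFunction_product_ge_one hδ0 s.im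
    simp only [DirichletCharacter.LFunctionTrivChar, DirichletCharacter.LFunction_modOne_eq] at H
    have b0 := norm_zeta_one_add_le hδ0 (by linarith)
    have hn2 : ‖1 + δ + 2 * I * s.im‖ ≤ 2 + 2 * T := by
      refine (norm_le_abs_re_add_abs_im _).trans ?_
      simp only [add_re, one_re, ofReal_re, mul_re, re_ofNat, I_re, mul_zero, im_ofNat, I_im,
        mul_one, sub_self, zero_mul, mul_im, add_zero, ofReal_im, add_im, one_im, zero_add, abs_mul]
      rw [abs_of_pos (by linarith : 0 < 1 + δ)]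
      norm_num; linarith
    have b2 : ‖riemannZeta (1 + δ + 2 * I * s.im)‖ ≤ 5 * M := by
      obtain ⟨c1, c2⟩ := inv (1 + δ + 2 * I * s.im) (by
        rw [show (1 + δ + 2 * I * s.im : ℂ).im = 2 * s.im by simp, abs_mul, abs_two]
        linarith [abs_nonneg s.im])
      rw [riemannZeta_eq_inv_sub_add c1]
      have := (norm_zeta₀_le hN (s := 1 + δ + 2 * I * s.im)
        (by rw [show (1 + δ + 2 * I * s.im : ℂ).re = 1 + δ by simp]; linarith)
        (by linarith)).trans hLM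
      exact (norm_add_le _ _).trans (by linarith)
    have b1 : 35 * M ^ 2 * δ ≤ ‖riemannZeta (1 + δ + I * s.im)‖ := by
      refine le_of_pow_le_pow_left₀ (n := 4) (by norm_num) (norm_nonneg _) ?_
      rw [ge_iff_le, norm_mul, norm_mul, norm_pow, norm_pow] at H
      have c1 : 1 ≤ (5 / δ) ^ 3 * ‖riemannZeta (1 + δ + I * s.im)‖ ^ 4 * (5 * M) :=
        H.trans (by gcongr)
      have c2 : (35 * M ^ 2 * δ) ^ 4 * ((5 / δ) ^ 3 * (5 * M)) = 937890625 / M ^ 3 := by
        rw [hδ]; field_simp; norm_num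
      have c3 : 937890625 / M ^ 3 ≤ 1 := by
        rw [div_le_one (by positivity)]
        calc (937890625 : ℝ) ≤ 1000 ^ 3 := by norm_num
          _ ≤ _ := by gcongr
      have c4 : 0 < (5 / δ) ^ 3 * (5 * M) := by positivity
      refine le_of_mul_le_mul_right ?_ c4
      linarith
    obtain ⟨d1, d2⟩ := inv (1 + δ + I * s.im) (by simp)
    obtain ⟨d3, d4⟩ := inv s le_rfl
    have hn1 : ‖1 + δ + I * s.im‖ ≤ 2 + T := by
      refine (norm_le_abs_re_add_abs_im _).trans ?_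
      simp only [add_re, one_re, ofReal_re, mul_re, I_re, zero_mul, I_im, ofReal_im, mul_zero,
        sub_self, add_zero, add_im, one_im, mul_im, one_mul, zero_add]
      rw [abs_of_pos (by linarith : 0 < 1 + δ)]
      linarith
    have h1 := zeta₀_lip hN (ρ := 2 + T) (by linarith) (s₁ := 1 + δ + I * s.im) (s₂ := s)
      (by rw [show (1 + δ + I * s.im : ℂ).re = 1 + δ by simp]; linarith) hn1
      (by linarith [hs.1]) hns
    have h2 : ‖1 + δ + I * s.im - s‖ ≤ 2 * δ := by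
      refine (norm_le_abs_re_add_abs_im _).trans ?_
      have : |1 + δ - s.re| ≤ 2 * δ := by rw [abs_le]; constructor <;> linarith [hs.1, hs.2]
      simpa using this
    have h3 : 24 * L ^ 2 * ‖1 + δ + I * s.im - s‖ ≤ M ^ 2 * (2 * δ) := by
      gcongr; linarith
    have h4 : ‖(1 + δ + I * s.im - 1)⁻¹ - (s - 1)⁻¹‖ ≤ 4 * M * (2 * δ) * (4 * M) := by
      rw [inv_sub_inv' (sub_ne_zero.2 d1) (sub_ne_zero.2 d3), norm_mul, norm_mul,
        show s - 1 - (1 + δ + I * s.im - 1) = -(1 + δ + I * s.im - s) by ring, norm_neg]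
      gcongr
    have h5 : M ^ 2 * δ ≤ ‖riemannZeta s‖ := by
      have e : riemannZeta (1 + δ + I * s.im) = riemannZeta s +
          (((1 + δ + I * s.im - 1)⁻¹ - (s - 1)⁻¹) +
            (riemannZeta₀ (1 + δ + I * s.im) - riemannZeta₀ s)) := by
        rw [riemannZeta_eq_inv_sub_add d1, riemannZeta_eq_inv_sub_add d3]; ring
      rw [e] at b1
      have := b1.trans ((norm_add_le _ _).trans (add_le_add le_rfl
        ((norm_add_le _ _).trans (add_le_add h4 (h1.trans h3)))))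
      linarith
    have h6 : ‖riemannZeta₁ s‖ = ‖s - 1‖ * ‖riemannZeta s‖ := by
      rw [← norm_mul, riemannZeta_eq_inv_sub_mul d3, mul_inv_cancel_left₀ (sub_ne_zero.2 d3)]
    have h7 : 1 ≤ 4 * M * ‖s - 1‖ := by
      rw [norm_inv] at d4
      have r0 : 0 < ‖s - 1‖ := norm_pos_iff.2 (sub_ne_zero.2 d3)
      rwa [inv_le_iff_one_le_mul₀ r0] at d4
    rw [h6, div_le_iff₀ (by positivity)]
    have r0 := norm_nonneg (s - 1)
    calc 1 + ‖s - 1‖ ≤ ‖s - 1‖ * M ^ 2 := by nlinarith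
      _ ≤ ‖s - 1‖ * M ^ 4 := by gcongr; norm_num
      _ = ‖s - 1‖ * (M ^ 2 * δ) * M ^ 14 := by rw [hδ]; field_simp
      _ ≤ _ := by gcongr

/-- The coefficients `Λ(n) - 1`. -/
def cf (n : ℕ) : ℂ := if n = 0 then 0 else (vonMangoldt n : ℂ) - 1

/-- The continuation of `-ζ'(s) / ζ(s) - ζ(s)`. -/
def FF (s : ℂ) : ℂ := -deriv riemannZeta₁ s / riemannZeta₁ s - riemannZeta₀ s

lemma cf_congr {n : ℕ} (hn : n ≠ 0) :
    cf n = ((fun n : ℕ => (vonMangoldt n : ℂ)) - 1 : ℕ → ℂ) n := by simp [cf, hn]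

lemma summable_cf {s : ℂ} (hs : 1 < s.re) : LSeriesSummable cf s :=
  (LSeriesSummable_congr s cf_congr).2
    ((LSeriesSummable_vonMangoldt hs).sub (LSeriesSummable_one_iff.2 hs))

lemma zeta₁_ne_zero {s : ℂ} (hs : 1 < s.re) : riemannZeta₁ s ≠ 0 := fun h => by
  have hs1 : s ≠ 1 := fun h => by rw [h] at hs; simp at hs
  exact riemannZeta_ne_zero_of_one_lt_re hs (by rw [riemannZeta_eq_inv_sub_mul hs1, h, mul_zero])

lemma LSeries_cf {s : ℂ} (hs : 1 < s.re) : LSeries cf s = FF s := by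
  have hs1 : s ≠ 1 := fun h => by rw [h] at hs; simp at hs
  have h1 := sub_ne_zero.2 hs1
  have h2 := zeta₁_ne_zero hs
  rw [LSeries_congr cf_congr, LSeries_sub (LSeriesSummable_vonMangoldt hs)
    (LSeriesSummable_one_iff.2 hs), LSeries_vonMangoldt_eq_deriv_riemannZeta_div hs,
    LSeries_one_eq_riemannZeta hs, deriv_riemannZeta_eq_neg_inv_sub_sq_mul_add hs1, FF]
  nth_rewrite 2 [riemannZeta_eq_inv_sub_add hs1]
  rw [riemannZeta_eq_inv_sub_mul hs1]
  field_simp
  ring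

lemma differentiableAt_FF {s : ℂ} (h : riemannZeta₁ s ≠ 0) : DifferentiableAt ℂ FF s :=
  ((differentiable_riemannZeta₁.deriv s).neg.div (differentiable_riemannZeta₁ s) h).sub
    (differentiable_riemannZeta₀ s)

lemma norm_cf_le {n : ℕ} {B : ℝ} (h1 : 1 ≤ B) (h2 : Real.log n ≤ B) : ‖cf n‖ ≤ B := by
  rw [cf]
  split_ifs
  · rw [norm_zero]; linarith
  · rw [← ofReal_one, ← ofReal_sub, norm_real, Real.norm_eq_abs, abs_le]
    have := vonMangoldt_nonneg (n := n)
    have := vonMangoldt_le_log (n := n)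
    constructor <;> linarith

lemma norm_LSeries_cf_le {ε : ℝ} (hε : 0 < ε) (hε1 : ε ≤ 1) {s : ℂ} (hs : s.re = 1 + 2 * ε) :
    ‖LSeries cf s‖ ≤ (1 + 1 / ε) / ε := by
  have hsum := summable_cf (s := s) (by linarith)
  have h := (hasSum_nat_add_iff' 1).2 hsum.hasSum
  simp only [range_one, sum_singleton, LSeries.term_zero, sub_zero] at h
  refine le_of_tendsto' ((tendsto_add_atTop_iff_nat 1).2 h.tendsto_sum_nat).norm fun M => ?_
  refine (norm_sum_le _ _).trans ?_
  refine le_trans (sum_le_sum (g := fun n => ((n + 1 : ℕ) : ℝ) ^ (-ε - 1) / ε) fun n _ => ?_) ?_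
  · have hn : (0 : ℝ) < (n + 1 : ℕ) := by positivity
    rw [LSeries.norm_term_eq, if_neg (Nat.succ_ne_zero _), hs, div_le_iff₀ (by positivity)]
    refine (norm_cf_le ?_ (Real.log_le_rpow_div hn.le hε)).trans_eq ?_
    · rw [le_div_iff₀ hε, one_mul]
      exact hε1.trans (Real.one_le_rpow (by exact_mod_cast Nat.succ_pos _) hε.le)
    · rw [div_mul_eq_mul_div, ← Real.rpow_add hn]; congr 2; ring
  · rw [← sum_div, sum_range_succ']
    have := sum_rpow_tail_le hε one_pos M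
    simp only [Nat.cast_one, Real.one_rpow, zero_add] at this ⊢
    exact div_le_div_of_nonneg_right (by linarith) hε.le

lemma FF_le {N : ℕ} (hN : 2 ≤ Real.log N) {M T : ℝ} (hM1 : 24 * Real.log N ^ 2 ≤ M)
    (hM : 1000 ≤ M) (hq : 6 + 4 * T ≤ N) {s : ℂ} (hs : |s.re - 1| ≤ 1 / M ^ 12)
    (ht : |s.im| ≤ T) : riemannZeta₁ s ≠ 0 ∧ ‖FF s‖ ≤ M ^ 16 := by
  have b1 := zero_free_zeta hN hM1 hM hq hs ht
  have hM' : 1 ≤ M := by linarith
  have hT : 0 ≤ T := (abs_nonneg _).trans ht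
  have hLM : 12 * Real.log N ≤ M := by nlinarith
  have hM12 : M ≤ M ^ 12 := le_self_pow₀ hM' (by norm_num)
  have hδL : 1 / M ^ 12 ≤ 1 / (2 * Real.log N) :=
    one_div_le_one_div_of_le (by positivity) (by linarith)
  have hL4 : 1 / (2 * Real.log N) ≤ 1 / 4 := one_div_le_one_div_of_le (by norm_num) (by linarith)
  have hL2 : 1 / (2 * Real.log N) ≤ 1 / Real.log N :=
    one_div_le_one_div_of_le (by positivity) (by linarith)
  rw [abs_le] at hs
  have hns : ‖s‖ ≤ 2 + T := by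
    refine (norm_le_abs_re_add_abs_im s).trans (add_le_add ?_ ht)
    rw [abs_le]; constructor <;> linarith [hs.1, hs.2]
  have b2 : ‖riemannZeta₀ s‖ ≤ M := (norm_zeta₀_le hN (by linarith [hs.1]) (by linarith)).trans hLM
  have b3 : ‖deriv riemannZeta₀ s‖ ≤ M :=
    (norm_deriv_zeta₀_le hN (by linarith [hs.1]) (by linarith)).trans hM1
  have e : deriv riemannZeta₁ s = riemannZeta₀ s + (s - 1) * deriv riemannZeta₀ s := by
    unfold riemannZeta₁
    rw [deriv_const_add, deriv_fun_mul (by fun_prop) (by fun_prop)]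
    simp
  have b4 : ‖deriv riemannZeta₁ s‖ ≤ M * (1 + ‖s - 1‖) := by
    rw [e]
    refine (norm_add_le _ _).trans ?_
    rw [norm_mul]
    nlinarith [norm_nonneg (s - 1)]
  have b0 : 0 < (1 + ‖s - 1‖) / M ^ 14 := by positivity
  refine ⟨norm_pos_iff.1 (b0.trans_le b1), (norm_sub_le _ _).trans ?_⟩
  rw [norm_div, norm_neg]
  have b5 : ‖deriv riemannZeta₁ s‖ / ‖riemannZeta₁ s‖ ≤ M ^ 15 := by
    calc _ ≤ M * (1 + ‖s - 1‖) / ((1 + ‖s - 1‖) / M ^ 14) := by gcongr
      _ = _ := by field_simp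
  have b6 : M ≤ M ^ 15 := le_self_pow₀ hM' (by norm_num)
  have b7 : 2 * M ^ 15 ≤ M ^ 16 := by
    rw [pow_succ' M 15]; gcongr; linarith
  linarith

/-- Cesàro means of `Λ(n) - 1`. -/
theorem cesaro_cf {δ B T : ℝ} (hδ0 : 0 < δ) (hδ4 : δ ≤ 1 / 4) (hT : 1 ≤ T) (hB : 0 ≤ B)
    (hR : ∀ s : ℂ, |s.re - 1| ≤ δ → |s.im| ≤ T → riemannZeta₁ s ≠ 0 ∧ ‖FF s‖ ≤ B)
    {y : ℝ} (hy : 0 < y) (hyM : 1 / δ ≤ Real.log y) {K : ℕ} (hK : y ≤ K) :
    ‖∑ n ∈ range K, cf n * ((max (1 - n / y) 0 : ℝ) : ℂ)‖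
      ≤ y * (T * B * y ^ (-δ) + B / T ^ 2 + 6 * Real.log y ^ 2 / T) := by
  set l := Real.log y with hl
  have hl1 : 1 ≤ l := by
    have : 4 ≤ 1 / δ := by rw [le_div_iff₀ hδ0]; linarith
    linarith
  set c : ℝ := 1 + 1 / l with hc
  have hlδ : 1 / l ≤ δ := (one_div_le hδ0 (by linarith)).1 hyM
  have hc1 : 1 < c := by
    have : 0 < 1 / l := by positivity
    linarith
  have hy1 : 1 ≤ y := by
    by_contra h; linarith [Real.log_nonpos hy.le (not_le.1 h).le]
  have hyc : y ^ c ≤ 3 * y := by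
    rw [hc, Real.rpow_add hy, Real.rpow_one, mul_comm]
    refine mul_le_mul_of_nonneg_right ?_ hy.le
    rw [Real.rpow_def_of_pos hy, ← hl, mul_one_div_cancel (by linarith)]
    linarith [Real.exp_one_lt_d9]
  have hy' : (y : ℂ) ≠ 0 := by exact_mod_cast hy.ne'
  set G : ℂ → ℂ := fun s => FF s * ((y : ℂ) ^ s * (1 / (s * (s + 1)))) with hG
  have hGe : ∀ t : ℝ, LSeries cf (c + t * I) = FF (c + t * I) := fun t =>
    LSeries_cf (by simpa using hc1)
  have hP := perron (a := cf) (by simp [cf]) hc1.le (summable_cf (by simpa using hc1)) hy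
  simp_rw [hGe] at hP
  have hP2 := hP.unique (hasSum_sum_of_ne_finset_zero (s := range K) fun n hn => by
    have : (K : ℝ) ≤ n := by exact_mod_cast not_lt.1 (mem_range.not.1 hn)
    have : 1 ≤ n / y := by rw [le_div_iff₀ hy]; linarith
    rw [max_eq_right (by linarith)]; simp)
  rw [← mul_sum] at hP2
  have hS : ∀ t : ℝ, ‖FF (c + t * I)‖ ≤ 6 * l ^ 2 := by
    intro t
    rw [← hGe]
    refine (norm_LSeries_cf_le (ε := 1 / (2 * l)) (by positivity) ?_ ?_).trans ?_
    · rw [div_le_one (by positivity)]; linarith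
    · simp only [add_re, ofReal_re, mul_re, I_re, mul_zero, ofReal_im, I_im, mul_one, sub_self,
        add_zero, hc]; field_simp
    · rw [one_div_one_div, div_div_eq_mul_div, div_one]; nlinarith
  have hGc : ∀ t : ℝ, ‖G (c + t * I)‖ ≤ 18 * y * l ^ 2 * (1 + t ^ 2)⁻¹ := fun t => by
    rw [hG, norm_mul, norm_mul, norm_cpow_eq_rpow_re_of_pos hy,
      show (c + t * I : ℂ).re = c by simp]
    calc _ ≤ 6 * l ^ 2 * (3 * y * (1 + t ^ 2)⁻¹) := by
          gcongr
          · exact hS t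
          · exact norm_kernel_le hc1.le t
      _ = _ := by ring
  have hGi : Integrable fun t : ℝ => G (c + t * I) := by
    refine (integrable_inv_one_add_sq.const_mul _).mono' (Continuous.aestronglyMeasurable ?_)
      (Eventually.of_forall hGc)
    have h0 : Continuous fun t : ℝ => (c + t * I : ℂ) := by fun_prop
    have hF : Continuous fun t : ℝ => FF (c + t * I) := continuous_iff_continuousAt.2 fun t =>
      (differentiableAt_FF (zeta₁_ne_zero (by simpa using hc1))).continuousAt.comp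
        (f := fun t : ℝ => (c + t * I : ℂ)) h0.continuousAt
    exact hF.mul ((h0.const_cpow (Or.inl hy')).mul (continuous_const.div (by fun_prop)
        (kernel_ne_zero (by linarith))))
  have h1 := norm_integral_sub_le hGi (C := 18 * y * l ^ 2) (T := T) (by linarith) fun t ht =>
    (hGc t).trans (by
      have : 0 < |t| := by linarith
      have : 0 < t ^ 2 := by rw [← sq_abs]; positivity
      gcongr; linarith)
  have hR' : ∀ s : ℂ, 1 - δ ≤ s.re → s.re ≤ c → |s.im| ≤ T →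
      riemannZeta₁ s ≠ 0 ∧ ‖FF s‖ ≤ B := fun s a1 a2 a3 =>
    hR s (by rw [abs_le]; constructor <;> linarith) a3
  have hne : ∀ s : ℂ, 1 - δ ≤ s.re → s * (s + 1) ≠ 0 := fun s hs => by
    refine mul_ne_zero (fun h => ?_) (fun h => ?_) <;> have := congrArg re h <;> simp at this <;>
      linarith
  have hC := integral_boundary_rect_eq_zero_of_differentiableOn G ⟨1 - δ, -T⟩ ⟨c, T⟩ (by
    intro s hs
    rw [mem_reProdIm, Set.uIcc_of_le (by simp; linarith), Set.uIcc_of_le (by simp; linarith)] at hs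
    obtain ⟨⟨a1, a2⟩, a3⟩ := hs
    refine DifferentiableAt.differentiableWithinAt ?_
    exact (differentiableAt_FF (hR' s a1 a2 (abs_le.2 a3)).1).mul
      ((differentiableAt_id.const_cpow (Or.inl hy')).mul
        ((differentiableAt_const _).div (by fun_prop) (hne s a1))))
  simp only at hC
  have hH : ∀ u : ℝ, |u| = T → ‖∫ x : ℝ in (1 - δ)..c, G (x + u * I)‖ ≤ 3 * (y * (B / T ^ 2)) := by
    intro u hu
    refine (intervalIntegral.norm_integral_le_of_norm_le_const (C := B * (3 * y * (1 / T ^ 2)))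
      fun x hx => ?_).trans ?_
    · rw [Set.uIoc_of_le (by linarith)] at hx
      rw [hG, norm_mul, norm_mul, norm_cpow_eq_rpow_re_of_pos hy,
        show (x + u * I : ℂ).re = x by simp]
      gcongr
      · exact (hR' _ (by simpa using hx.1.le) (by simpa using hx.2) (by simpa using hu.le)).2
      · exact (Real.rpow_le_rpow_of_exponent_le hy1 hx.2).trans hyc
      · rw [norm_div, norm_one, norm_mul]
        have a1 := abs_im_le_norm (x + u * I : ℂ)
        have a2 := abs_im_le_norm (x + u * I + 1 : ℂ)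
        simp only [add_im, ofReal_im, mul_im, ofReal_re, I_im, mul_one, I_re, mul_zero, add_zero,
          zero_add, one_im, hu] at a1 a2
        rw [sq]; gcongr
    · rw [abs_of_nonneg (by linarith)]
      calc _ ≤ B * (3 * y * (1 / T ^ 2)) * 1 := by gcongr; linarith
        _ = _ := by ring
  have hV : ‖∫ t : ℝ in (-T)..T, G ((1 - δ : ℝ) + t * I)‖ ≤ B * (y * y ^ (-δ)) * (2 * T) := by
    refine (intervalIntegral.norm_integral_le_of_norm_le_const (C := B * (y * y ^ (-δ) * 1))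
      fun t ht => ?_).trans ?_
    · rw [Set.uIoc_of_le (by linarith)] at ht
      rw [hG, norm_mul, norm_mul, norm_cpow_eq_rpow_re_of_pos hy,
        show ((1 - δ : ℝ) + t * I : ℂ).re = 1 + -δ by simp; ring, Real.rpow_add hy, Real.rpow_one]
      gcongr
      · exact (hR' _ (by simp) (by simp; linarith) (by simpa using abs_le.2 ⟨ht.1.le, ht.2⟩)).2
      · rw [norm_div, norm_one, norm_mul]
        have a1 := re_le_norm ((1 - δ : ℝ) + t * I : ℂ)
        have a2 := re_le_norm ((1 - δ : ℝ) + t * I + 1 : ℂ)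
        simp only [add_re, ofReal_re, mul_re, I_re, mul_zero, ofReal_im, I_im, mul_one, sub_self,
          add_zero, one_re] at a1 a2
        rw [div_le_one (by nlinarith)]
        nlinarith
    · rw [abs_of_nonneg (by linarith)]; apply le_of_eq; ring
  have h2 : ‖∫ t : ℝ in (-T)..T, G (c + t * I)‖
      ≤ B * (y * y ^ (-δ)) * (2 * T) + 2 * (3 * (y * (B / T ^ 2))) := by
    have e : I • ∫ t : ℝ in (-T)..T, G (c + t * I) = I • (∫ t : ℝ in (-T)..T, G ((1 - δ : ℝ) + t * I))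
        + ((∫ x : ℝ in (1 - δ)..c, G (x + T * I)) - ∫ x : ℝ in (1 - δ)..c, G (x + (-T : ℝ) * I)) := by
      linear_combination hC
    have a1 := hH T (abs_of_nonneg (by linarith))
    have a2 := hH (-T) (by rw [abs_neg, abs_of_nonneg (by linarith)])
    have a3 := congrArg norm e
    rw [norm_smul, norm_I, one_mul] at a3
    rw [a3]
    refine (norm_add_le _ _).trans (add_le_add ?_ ((norm_sub_le _ _).trans (by linarith)))
    rwa [norm_smul, norm_I, one_mul]
  have h3 := congrArg norm hP2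
  rw [norm_mul] at h3
  have h4 : ‖(2 * Real.pi : ℂ)‖ = 2 * Real.pi := by
    rw [norm_mul, norm_real, Real.norm_of_nonneg Real.pi_pos.le]; simp
  have h5 : 6 * ‖∑ n ∈ range K, cf n * ((max (1 - n / y) 0 : ℝ) : ℂ)‖
      ≤ ‖∫ t : ℝ, G (c + t * I)‖ := by
    rw [h3, h4]; gcongr; linarith [Real.pi_gt_three]
  have h6 : 0 ≤ y * (T * B * y ^ (-δ)) := by positivity
  have e1 : B * (y * y ^ (-δ)) * (2 * T) = 2 * (y * (T * B * y ^ (-δ))) := by ring
  have e3 : 2 * (18 * y * l ^ 2) / T = 6 * (y * (6 * l ^ 2 / T)) := by ring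
  rw [mul_add, mul_add]
  linarith

lemma psi_le {Q : ℕ} (hQ : 20 ≤ Q) {M : ℝ} (hM : M = 24 * (15 * Real.log Q) ^ 2)
    (hMQ : M ^ 16 ≤ Q) {X : ℕ} (hX3 : 23 * M ^ 12 * Real.log Q ≤ Real.log X)
    (hX2 : Real.log X ≤ Q) : ‖∑ n ∈ range (X + 1), cf n‖ ≤ X / Q ^ 3 := by
  have hQ' : (20 : ℝ) ≤ Q := by exact_mod_cast hQ
  have hl : 1 ≤ Real.log Q := by
    rw [Real.le_log_iff_exp_le (by linarith)]; linarith [Real.exp_one_lt_d9]
  have hN : Real.log ((Q ^ 15 : ℕ) : ℝ) = 15 * Real.log Q := by simp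
  have hM1 : 24 * Real.log ((Q ^ 15 : ℕ) : ℝ) ^ 2 ≤ M := by rw [hN, hM]
  have hM0 : 1000 ≤ M := by rw [hM]; nlinarith
  have hM12 : M ≤ M ^ 12 := le_self_pow₀ (by linarith) (by norm_num)
  have hX0 : 0 < X := by
    rcases Nat.eq_zero_or_pos X with rfl | h
    · simp at hX3; nlinarith
    · exact h
  have hX0' : (0 : ℝ) < X := by exact_mod_cast hX0
  have hXQ : Q ^ 5 ≤ X := by
    have : Real.log ((Q ^ 5 : ℕ) : ℝ) ≤ Real.log X := by simp; nlinarith
    exact_mod_cast (Real.log_le_log_iff (by positivity) hX0').1 this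
  have hT : (1 : ℝ) ≤ Q ^ 12 := one_le_pow₀ (by linarith)
  have hq : 6 + 4 * (Q : ℝ) ^ 12 ≤ ((Q ^ 15 : ℕ) : ℝ) := by
    calc 6 + 4 * (Q : ℝ) ^ 12 ≤ 10 * (Q : ℝ) ^ 12 := by linarith
      _ ≤ (Q : ℝ) ^ 3 * (Q : ℝ) ^ 12 := by
          gcongr
          exact le_trans (by linarith) (le_self_pow₀ (by linarith) (by norm_num))
      _ = _ := by push_cast; ring
  have key : ∀ y : ℝ, X ≤ y → y ≤ 2 * X → ∀ K : ℕ, y ≤ K →
      ‖∑ n ∈ range K, cf n * ((max (1 - n / y) 0 : ℝ) : ℂ)‖ ≤ y * (26 / Q ^ 10) := by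
    intro y h1 h2 K hK
    have hy : 0 < y := by linarith
    have hly : Real.log X ≤ Real.log y := Real.log_le_log hX0' h1
    have hly2 : Real.log y ≤ 2 * Q := by
      have := Real.log_le_log hy h2
      rw [Real.log_mul (by norm_num) hX0'.ne'] at this
      linarith [Real.log_two_lt_d9]
    refine (cesaro_cf (δ := 1 / M ^ 12) (B := M ^ 16) (by positivity)
      (one_div_le_one_div_of_le (by norm_num) (by linarith)) hT (by positivity)
      (fun s a1 a2 => FF_le (N := Q ^ 15) (by rw [hN]; linarith) hM1 hM0 hq a1 a2) hy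
      (by rw [one_div_one_div]; nlinarith) hK).trans ?_
    refine mul_le_mul_of_nonneg_left ?_ hy.le
    have a1 : y ^ (-(1 / M ^ 12)) ≤ ((Q : ℝ) ^ 23)⁻¹ := by
      rw [Real.rpow_def_of_pos hy, ← Real.exp_log (x := ((Q : ℝ) ^ 23)⁻¹) (by positivity),
        Real.exp_le_exp, Real.log_inv, Real.log_pow, mul_neg, neg_le_neg_iff, mul_one_div,
        le_div_iff₀ (by positivity)]
      push_cast; linarith
    have a2 : (Q : ℝ) ^ 12 * M ^ 16 * y ^ (-(1 / M ^ 12)) ≤ 1 / Q ^ 10 := by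
      calc _ ≤ (Q : ℝ) ^ 12 * Q * ((Q : ℝ) ^ 23)⁻¹ := by gcongr
        _ = _ := by field_simp
    have a3 : M ^ 16 / ((Q : ℝ) ^ 12) ^ 2 ≤ 1 / Q ^ 10 := by
      rw [div_le_div_iff₀ (by positivity) (by positivity)]
      calc M ^ 16 * (Q : ℝ) ^ 10 ≤ (Q : ℝ) ^ 2 * (Q : ℝ) ^ 10 := by gcongr; nlinarith
        _ = 1 * (Q : ℝ) ^ 12 := by ring
        _ ≤ _ := by gcongr; exact le_self_pow₀ hT (by norm_num)
    have a4 : 6 * Real.log y ^ 2 / (Q : ℝ) ^ 12 ≤ 24 / Q ^ 10 := by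
      have : 0 ≤ Real.log y := by nlinarith
      calc _ ≤ 6 * (2 * Q) ^ 2 / (Q : ℝ) ^ 12 := by gcongr
        _ = _ := by field_simp; norm_num
    have : (26 : ℝ) / Q ^ 10 = 1 / Q ^ 10 + 1 / Q ^ 10 + 24 / Q ^ 10 := by ring
    linarith
  set h := X / Q ^ 5 with hh
  have hQ5 : 0 < Q ^ 5 := by positivity
  have hh0 : 0 < h := Nat.div_pos hXQ hQ5
  have hh0' : (1 : ℝ) ≤ h := by exact_mod_cast hh0
  have hh1 : (h : ℝ) * Q ^ 5 ≤ X := by exact_mod_cast Nat.div_mul_le_self X (Q ^ 5)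
  have hh2 : (X : ℝ) ≤ 2 * (h * Q ^ 5) := by
    have h1 : X < (h + 1) * Q ^ 5 := by
      rw [hh, mul_comm]; exact Nat.lt_mul_div_succ X hQ5
    have h2 : (X : ℝ) ≤ (h + 1) * Q ^ 5 := by exact_mod_cast h1.le
    have : (0 : ℝ) < Q ^ 5 := by positivity
    nlinarith
  have hh3 : (h : ℝ) ≤ X := by exact_mod_cast Nat.div_le_self _ _
  have hD := decesaro cf hX0 hh0 (B := 2 * Q) fun n hn => by
    refine norm_cf_le (by linarith) ?_
    rcases Nat.eq_zero_or_pos n with rfl | hn0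
    · simp
    · have : (n : ℝ) ≤ 2 * X := by
        have : (n : ℝ) ≤ X + h := by exact_mod_cast hn
        linarith
      have := Real.log_le_log (by exact_mod_cast hn0) this
      rw [Real.log_mul (by norm_num) hX0'.ne'] at this
      linarith [Real.log_two_lt_d9]
  have k1 := key ((X + h : ℕ) : ℝ) (by push_cast; linarith) (by push_cast; linarith) (X + 1 + h)
    (by push_cast; linarith)
  have k2 := key X le_rfl (by linarith) (X + 1 + h) (by push_cast; linarith)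
  have k3 : ((X + h : ℕ) : ℝ) ≤ 2 * X := by push_cast; linarith
  refine le_of_mul_le_mul_left (hD.trans ?_) (by linarith : (0 : ℝ) < h)
  have k4 : (h : ℝ) * (2 * Q) ≤ 2 * (X / Q ^ 4) := by
    rw [← mul_div_assoc, le_div_iff₀ (by positivity)]
    calc _ = 2 * ((h : ℝ) * Q ^ 5) := by ring
      _ ≤ _ := by linarith
  calc _ ≤ (2 * X : ℝ) * ((2 * X) * (26 / Q ^ 10)) + X * (X * (26 / Q ^ 10)) + h * (2 * (X / Q ^ 4)) := by
        gcongr
        exact k1.trans (by gcongr)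
    _ = X * (X * (130 / Q ^ 10)) + h * (2 * (X / Q ^ 4)) := by ring
    _ ≤ (2 * (h * Q ^ 5)) * (X * (130 / Q ^ 10)) + h * (2 * (X / Q ^ 4)) := by gcongr
    _ = h * (X / Q ^ 3 * (260 / Q ^ 2 + 2 / Q)) := by field_simp; ring
    _ ≤ h * (X / Q ^ 3 * 1) := by
        gcongr
        have b1 : (260 : ℝ) / Q ^ 2 ≤ 260 / 20 ^ 2 := by gcongr
        have b2 : (2 : ℝ) / Q ≤ 2 / 20 := by gcongr
        linarith
    _ = _ := by ring

lemma norm_sum_cf (x : ℕ) :
    ‖∑ n ∈ range (x + 1), cf n‖ = |∑ n ∈ Icc 1 x, vonMangoldt n - (x : ℝ)| := by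
  rw [← Real.norm_eq_abs, ← norm_real]
  congr 1
  induction x with
  | zero => simp [cf]
  | succ x ih =>
    rw [sum_range_succ, ih, sum_Icc_succ_top (by omega), cf, if_neg (Nat.succ_ne_zero x)]
    push_cast; ring

lemma tendsto_log : Tendsto (fun Q : ℕ => Real.log Q) atTop atTop :=
  Real.tendsto_log_atTop.comp tendsto_natCast_atTop_atTop

lemma eventually_pow_log_le (c : ℝ) (hc : 0 < c) (k : ℕ) :
    ∀ᶠ Q : ℕ in atTop, c * Real.log Q ^ k ≤ Q := by
  have := (Real.isLittleO_pow_log_id_atTop (n := k)).bound (c := 1 / c) (by positivity)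
  filter_upwards [tendsto_natCast_atTop_atTop.eventually this] with Q hQ
  simp only [Real.norm_eq_abs, id, Nat.abs_cast] at hQ
  have := (le_abs_self _).trans hQ
  calc _ ≤ c * (1 / c * Q) := by gcongr
    _ = _ := by field_simp

/-- The estimate at a single point. -/
lemma pnt_at (A : ℕ) : ∀ᶠ X : ℕ in atTop,
    |∑ n ∈ Icc 1 X, vonMangoldt n - (X : ℝ)| ≤ X / Real.log X ^ A := by
  have e1 := eventually_pow_log_le (5400 ^ 16) (by positivity) 32
  have e2 := tendsto_log.eventually_ge_atTop (23 * 5400 ^ 12)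
  have e3 := eventually_pow_log_le (2 ^ (26 * (A + 1))) (by positivity) (26 * (A + 1))
  set u : ℕ → ℝ := fun X => Real.log X ^ (1 / 26 : ℝ) with hu
  have hT : Tendsto (fun X : ℕ => ⌊Real.exp (u X)⌋₊) atTop atTop :=
    tendsto_nat_floor_atTop.comp (Real.tendsto_exp_atTop.comp
      ((tendsto_rpow_atTop (by norm_num)).comp tendsto_log))
  filter_upwards [hT.eventually e1, hT.eventually e2, hT.eventually e3,
    hT.eventually_ge_atTop 20, tendsto_log.eventually_ge_atTop 1] with X h1 h2 h3 h5 h6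
  set Q := ⌊Real.exp (u X)⌋₊ with hQ
  have hQ' : (20 : ℝ) ≤ Q := by exact_mod_cast h5
  have hl : 1 ≤ Real.log Q := by
    rw [Real.le_log_iff_exp_le (by linarith)]; linarith [Real.exp_one_lt_d9]
  have hu26 : u X ^ 26 = Real.log X := by
    simp only [hu]
    rw [← Real.rpow_natCast, ← Real.rpow_mul (by linarith)]; norm_num
  have hu0 : 0 ≤ u X := by simp only [hu]; positivity
  have a1 : Real.log Q ≤ u X := by
    rw [Real.log_le_iff_le_exp (by linarith)]
    exact Nat.floor_le (by positivity)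
  have a2 : u X ≤ 2 * Real.log Q := by
    have : Real.exp (u X) ≤ Q ^ 2 := by
      have := Nat.lt_floor_add_one (Real.exp (u X))
      rw [← hQ] at this; nlinarith
    have := Real.log_le_log (by positivity) this
    rwa [Real.log_exp, Real.log_pow] at this
  have a3 : Real.log X ^ (A + 1) ≤ Q := by
    refine le_trans ?_ h3
    rw [← hu26, ← pow_mul, ← mul_pow]; gcongr
  have a4 : Real.log X ^ A ≤ Q := (pow_le_pow_right₀ h6 (by omega)).trans a3
  have a5 : Real.log X ≤ Q := (le_self_pow₀ h6 (by omega)).trans a3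
  rw [← norm_sum_cf]
  refine (psi_le h5 rfl (le_of_eq_of_le (by ring) h1) ?_ a5).trans ?_
  · calc _ = 23 * 5400 ^ 12 * Real.log Q ^ 25 := by ring
      _ ≤ Real.log Q * Real.log Q ^ 25 := by gcongr
      _ = Real.log Q ^ 26 := by ring
      _ ≤ _ := by rw [← hu26]; gcongr
  · gcongr
    exact a4.trans (le_self_pow₀ (by linarith) (by norm_num))

end PNTError

open PNTError in
theorem pnt_error (A : ℕ) : ∀ᶠ X : ℕ in atTop, ∀ x : ℕ, x ≤ X →
    |∑ n ∈ Icc 1 x, vonMangoldt n - (x : ℝ)| ≤ X / Real.log X ^ A := by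
  obtain ⟨X₀, hX₀⟩ := eventually_atTop.1 (pnt_at (2 * A))
  have e1 : ∀ᶠ X : ℕ in atTop, 6 * √(X : ℝ) ≤ X / Real.log X ^ A := by
    have := (isLittleO_log_rpow_rpow_atTop (A : ℝ) (s := 1 / 2) (by norm_num)).bound
      (c := 1 / 6) (by norm_num)
    filter_upwards [tendsto_natCast_atTop_atTop.eventually this,
      tendsto_log.eventually_gt_atTop 0] with X h h0
    rw [Real.norm_of_nonneg (by positivity), Real.norm_of_nonneg (by positivity),
      Real.rpow_natCast, ← Real.sqrt_eq_rpow] at h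
    rw [le_div_iff₀ (by positivity)]
    calc _ ≤ 6 * √(X : ℝ) * (1 / 6 * √(X : ℝ)) := by gcongr
      _ = √(X : ℝ) * √(X : ℝ) := by ring
      _ = _ := Real.mul_self_sqrt (by positivity)
  filter_upwards [e1, eventually_ge_atTop (X₀ ^ 2), tendsto_log.eventually_ge_atTop 4]
    with X h1 h2 h3
  intro y hx
  have hy : (y : ℝ) ≤ X := by exact_mod_cast hx
  rcases le_or_gt (y : ℝ) √(X : ℝ) with h | h
  · refine le_trans ?_ h1
    have a1 : ∑ n ∈ Icc 1 y, vonMangoldt n ≤ 6 * y := sum_vonMangoldt_le y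
    have a2 : 0 ≤ ∑ n ∈ Icc 1 y, vonMangoldt n := sum_nonneg fun _ _ => vonMangoldt_nonneg
    have a3 : (0 : ℝ) ≤ y := Nat.cast_nonneg y
    rw [abs_le]
    constructor <;> linarith
  · have hX0 : (0 : ℝ) < X := by
      by_contra h0
      have : (X : ℝ) = 0 := le_antisymm (not_lt.1 h0) (by positivity)
      rw [this] at h3; norm_num at h3
    have b0 : X₀ ≤ y := by
      have : (X₀ : ℝ) ≤ √(X : ℝ) := Real.le_sqrt_of_sq_le (by exact_mod_cast h2)
      exact_mod_cast this.trans h.le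
    have b1 : Real.log X / 2 ≤ Real.log y := by
      rw [← Real.log_sqrt hX0.le]
      exact Real.log_le_log (by positivity) h.le
    have b2 : Real.log X ^ A ≤ Real.log y ^ (2 * A) := by
      rw [pow_mul]; gcongr; nlinarith
    refine (hX₀ y b0).trans ?_
    gcongr

end Pool.Agent.Lib.ANT
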