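import Pool.Agent.Lib.ANT.ZeroFree

/-!
# Perron's formula with Cesàro weights and the contour shift for `∑ χ(n) Λ(n)`
-/

noncomputable section

open Finset Complex Filter Topology MeasureTheory ArithmeticFunction

namespace Pool.Agent.Lib.ANT

lemma norm_kernel_le {c : ℝ} (hc : 1 ≤ c) (t : ℝ) :
    ‖1 / ((c + t * I) * (c + t * I + 1))‖ ≤ (1 + t ^ 2)⁻¹ := by
  have h1 : ‖(c + t * I : ℂ)‖ ^ 2 = c ^ 2 + t ^ 2 := by
    rw [Complex.sq_norm, normSq_add_mul_I]
  have h2 : ‖(c + t * I + 1 : ℂ)‖ ^ 2 = (c + 1) ^ 2 + t ^ 2 := by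
    rw [Complex.sq_norm, ← normSq_add_mul_I]; congr 1; push_cast; ring
  have h3 : ‖(c + t * I : ℂ)‖ ≤ ‖(c + t * I + 1 : ℂ)‖ :=
    le_of_pow_le_pow_left₀ (n := 2) (by norm_num) (norm_nonneg _) (by rw [h1, h2]; nlinarith)
  rw [norm_div, norm_one, norm_mul, one_div]
  refine inv_anti₀ (by positivity) ?_
  nlinarith [norm_nonneg (c + t * I : ℂ)]

lemma kernel_ne_zero {c : ℝ} (hc : 0 < c) (t : ℝ) : (c + t * I : ℂ) * (c + t * I + 1) ≠ 0 := by
  refine mul_ne_zero (fun h => ?_) (fun h => ?_) <;> have := congrArg re h <;> simp at this <;>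
    linarith

lemma integrable_kernel {c : ℝ} (hc : 1 ≤ c) :
    Integrable fun t : ℝ => 1 / ((c + t * I : ℂ) * (c + t * I + 1)) := by
  refine integrable_inv_one_add_sq.mono' (Continuous.aestronglyMeasurable ?_)
    (Eventually.of_forall (norm_kernel_le hc))
  exact continuous_const.div (by fun_prop) (kernel_ne_zero (by linarith))

lemma perron_one {c : ℝ} (hc : 1 ≤ c) {x : ℝ} (hx : 0 < x) :
    ∫ t : ℝ, (x : ℂ) ^ (-(c + t * I)) * (1 / ((c + t * I) * (c + t * I + 1)))
      = 2 * Real.pi * ((max (1 - x) 0 : ℝ) : ℂ) := by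
  set f : ℝ → ℂ := fun u => Set.indicator (Set.Ioc 0 1) (fun _ => (1 : ℂ)) u -
    Set.indicator (Set.Ioc 0 1) (fun t : ℝ => (t : ℂ) ^ (1 : ℂ)) u with hf
  have hm : ∀ s : ℂ, 0 < s.re → HasMellin f s (1 / (s * (s + 1))) := fun s hs => by
    have h1 := hasMellin_one_Ioc hs
    have h2 := hasMellin_cpow_Ioc 1 (s := s) (by simp; linarith)
    have h3 := hasMellin_sub h1.1 h2.1
    rw [h1.2, h2.2] at h3
    have e : 1 / s - 1 / (s + 1) = 1 / (s * (s + 1)) := by
      have a1 : s ≠ 0 := fun h => by simp [h] at hs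
      have a2 : s + 1 ≠ 0 := fun h => by have := congrArg re h; simp at this; linarith
      field_simp; ring
    rwa [e] at h3
  have hfe : ∀ u : ℝ, 0 < u → f u = ((max (1 - u) 0 : ℝ) : ℂ) := fun u hu => by
    rcases le_or_gt u 1 with h | h
    · simp [hf, Set.indicator_of_mem (show u ∈ Set.Ioc (0 : ℝ) 1 from ⟨hu, h⟩), h]
    · simp [hf, Set.indicator_of_notMem (show u ∉ Set.Ioc (0 : ℝ) 1 from fun h' => h.not_ge h'.2),
        h.le]
  have hcont : ContinuousAt f x := by
    have : ContinuousAt (fun u : ℝ => ((max (1 - u) 0 : ℝ) : ℂ)) x := by fun_prop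
    refine this.congr ?_
    filter_upwards [lt_mem_nhds hx] with u hu using (hfe u hu).symm
  have hme : ∀ t : ℝ, mellin f (c + t * I) = 1 / ((c + t * I) * (c + t * I + 1)) := fun t =>
    (hm _ (by simp; linarith)).2
  have hv : VerticalIntegrable (mellin f) c := by
    unfold VerticalIntegrable
    simp_rw [hme]; exact integrable_kernel hc
  have h := mellinInv_mellin_eq c f hx (hm c (by simp; linarith)).1 hv hcont
  rw [hfe x hx, mellinInv] at h
  simp_rw [hme, smul_eq_mul] at h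
  rw [← h, real_smul]
  have : (Real.pi : ℂ) ≠ 0 := by exact_mod_cast Real.pi_ne_zero
  rw [← mul_assoc]
  have e : (2 * Real.pi : ℂ) * ((1 / (2 * Real.pi) : ℝ) : ℂ) = 1 := by push_cast; field_simp
  rw [e, one_mul]

theorem perron {a : ℕ → ℂ} (ha0 : a 0 = 0) {c : ℝ} (hc : 1 ≤ c) (hs : LSeriesSummable a c)
    {y : ℝ} (hy : 0 < y) :
    HasSum (fun n : ℕ => 2 * Real.pi * (a n * ((max (1 - n / y) 0 : ℝ) : ℂ)))
      (∫ t : ℝ, LSeries a (c + t * I) * ((y : ℂ) ^ (c + t * I) *
        (1 / ((c + t * I) * (c + t * I + 1))))) := by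
  have hy' : (y : ℂ) ≠ 0 := by exact_mod_cast hy.ne'
  have hK : Integrable fun t : ℝ => (y : ℂ) ^ (c + t * I) *
      (1 / ((c + t * I) * (c + t * I + 1))) := by
    refine (integrable_kernel hc).bdd_mul (c := y ^ c) (Continuous.aestronglyMeasurable ?_)
      (Eventually.of_forall fun t => ?_)
    · exact (by fun_prop : Continuous fun t : ℝ => (c + t * I : ℂ)).const_cpow (Or.inl hy')
    · rw [norm_cpow_eq_rpow_re_of_pos hy]; simp
  have hnorm : ∀ n (t : ℝ), ‖LSeries.term a (c + t * I) n‖ = ‖LSeries.term a c n‖ := fun n t => by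
    simp [LSeries.norm_term_eq]
  have H := hasSum_integral_of_summable_integral_norm (μ := volume)
    (F := fun (n : ℕ) (t : ℝ) => LSeries.term a (c + t * I) n * ((y : ℂ) ^ (c + t * I) *
      (1 / ((c + t * I) * (c + t * I + 1))))) (fun n => ?_) ?_
  · simp_rw [tsum_mul_right] at H
    refine HasSum.congr_fun H fun n => ?_
    rcases Nat.eq_zero_or_pos n with rfl | hn
    · simp [ha0]
    · have hn' : (0 : ℝ) < n := by exact_mod_cast hn
      rw [mul_left_comm, ← perron_one hc (div_pos hn' hy), ← integral_const_mul]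
      refine integral_congr_ae (Eventually.of_forall fun t => ?_)
      have e : ((n / y : ℝ) : ℂ) ^ (-(c + t * I)) = (y : ℂ) ^ (c + t * I) / (n : ℂ) ^ (c + t * I) := by
        rw [cpow_def_of_ne_zero (by exact_mod_cast (div_pos hn' hy).ne'), cpow_def_of_ne_zero hy',
          cpow_def_of_ne_zero (by exact_mod_cast hn.ne'), ← Complex.exp_sub,
          ← ofReal_log (div_pos hn' hy).le, Real.log_div hn'.ne' hy.ne', ← ofReal_log hy.le,
          ← natCast_log]
        congr 1; push_cast; ring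
      simp only [LSeries.term_of_ne_zero hn.ne', e]
      ring
  · refine hK.bdd_mul (c := ‖LSeries.term a c n‖) (Continuous.aestronglyMeasurable ?_)
      (Eventually.of_forall fun t => (hnorm n t).le)
    rcases Nat.eq_zero_or_pos n with rfl | hn
    · simp [continuous_const]
    · simp only [LSeries.term_of_ne_zero hn.ne']
      have hn' : (n : ℂ) ≠ 0 := by exact_mod_cast hn.ne'
      exact continuous_const.div ((by fun_prop : Continuous fun t : ℝ =>
        (c + t * I : ℂ)).const_cpow (Or.inl hn')) fun t => by simp [hn.ne']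
  · simp_rw [norm_mul (LSeries.term _ _ _), hnorm, integral_const_mul]
    exact hs.norm.mul_right _

lemma norm_integral_sub_le {G : ℝ → ℂ} (hG : Integrable G) {C T : ℝ} (hT : 0 < T)
    (h : ∀ t, T ≤ |t| → ‖G t‖ ≤ C * (t ^ 2)⁻¹) :
    ‖∫ t, G t‖ ≤ ‖∫ t in (-T)..T, G t‖ + 2 * C / T := by
  have key : ∀ G : ℝ → ℂ, (∀ t, T ≤ t → ‖G t‖ ≤ C * (t ^ 2)⁻¹) →
      ‖∫ t in Set.Ioi T, G t‖ ≤ C / T := fun G h => by
    have h1 := (integrableOn_Ioi_rpow_of_lt (a := -2) (by norm_num) hT).const_mul C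
    refine (norm_integral_le_of_norm_le h1 ?_).trans_eq ?_
    · filter_upwards [ae_restrict_mem measurableSet_Ioi] with t ht
      have ht' : T < t := ht
      rw [Real.rpow_neg (by linarith), Real.rpow_two]
      exact h t ht'.le
    · rw [integral_const_mul, integral_Ioi_rpow_of_lt (by norm_num) hT]
      norm_num [Real.rpow_neg_one, div_eq_mul_inv]
  have h1 := key G fun t ht => h t (ht.trans (le_abs_self _))
  have h2 := key (fun t => G (-t)) fun t ht => by
    simpa using h (-t) (by rw [abs_neg]; exact ht.trans (le_abs_self _))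
  rw [integral_comp_neg_Ioi] at h2
  rw [← intervalIntegral.integral_Iic_add_Ioi (b := T) hG.integrableOn hG.integrableOn,
    ← intervalIntegral.integral_Iic_sub_Iic hG.integrableOn hG.integrableOn]
  have e : (∫ t in Set.Iic T, G t) + ∫ t in Set.Ioi T, G t = ((∫ t in Set.Iic T, G t) -
      ∫ t in Set.Iic (-T), G t) + ((∫ t in Set.Iic (-T), G t) + ∫ t in Set.Ioi T, G t) := by ring
  rw [e]
  refine (norm_add_le _ _).trans (add_le_add le_rfl ((norm_add_le _ _).trans ?_))
  have : 2 * C / T = C / T + C / T := by ring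
  linarith

lemma norm_LSeries_twist_le {q : ℕ} (χ : DirichletCharacter ℂ q) {ε : ℝ} (hε : 0 < ε) {s : ℂ}
    (hs : s.re = 1 + 2 * ε) :
    ‖LSeries ((fun n : ℕ => χ n) * fun n : ℕ => (vonMangoldt n : ℂ)) s‖ ≤ (1 + 1 / ε) / ε := by
  have hsum := χ.LSeriesSummable_twist_vonMangoldt (s := s) (by linarith)
  have h := (hasSum_nat_add_iff' 1).2 hsum.hasSum
  simp only [range_one, sum_singleton, LSeries.term_zero, sub_zero] at h
  refine le_of_tendsto' ((tendsto_add_atTop_iff_nat 1).2 h.tendsto_sum_nat).norm fun M => ?_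
  refine (norm_sum_le _ _).trans ?_
  refine le_trans (sum_le_sum (g := fun n => ((n + 1 : ℕ) : ℝ) ^ (-ε - 1) / ε) fun n _ => ?_) ?_
  · have hn : (0 : ℝ) < (n + 1 : ℕ) := by positivity
    rw [LSeries.norm_term_eq, if_neg (Nat.succ_ne_zero _), Pi.mul_apply, norm_mul, hs,
      div_le_iff₀ (by positivity)]
    refine (mul_le_of_le_one_left (norm_nonneg _) (χ.norm_le_one _)).trans ?_
    rw [norm_real, Real.norm_of_nonneg vonMangoldt_nonneg]
    refine vonMangoldt_le_log.trans ((Real.log_le_rpow_div hn.le hε).trans_eq ?_)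
    rw [div_mul_eq_mul_div, ← Real.rpow_add hn]; congr 2; ring
  · rw [← sum_div, sum_range_succ']
    have := sum_rpow_tail_le hε one_pos M
    simp only [Nat.cast_one, Real.one_rpow, zero_add] at this ⊢
    exact div_le_div_of_nonneg_right (by linarith) hε.le

/-- Cesàro means of `χ(n) Λ(n)`. -/
theorem cesaro_bound {q : ℕ} [NeZero q] {χ : DirichletCharacter ℂ q} (hχ : χ ≠ 1) {N : ℕ}
    (hN : 2 ≤ Real.log N) {M T : ℝ} (hM1 : 12 * Real.log N ^ 2 ≤ M)
    (hM2 : Real.exp 73 * Real.log N ≤ M) (hT : 1 ≤ T) (hq : q * (6 + 4 * T) ≤ N)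
    (hreal : χ ^ 2 = 1 → 1 / (20 * M ^ 2) ≤ ‖χ.LFunction 1‖) {y : ℝ} (hy : 0 < y)
    (hyM : M ^ 12 ≤ Real.log y) {K : ℕ} (hK : y ≤ K) :
    ‖∑ n ∈ range K, χ n * vonMangoldt n * ((max (1 - n / y) 0 : ℝ) : ℂ)‖
      ≤ y * (T * M ^ 13 * y ^ (-(1 / M ^ 12)) + 2 * M / T ^ 2 + 6 * Real.log y ^ 2 / T) := by
  have hM3 := big_of_exp hN hM2
  have hM : 10 ^ 7 ≤ M := by linarith
  have hM12 : M ≤ M ^ 12 := le_self_pow₀ (by linarith) (by norm_num)
  have hq1 : (1 : ℝ) ≤ q := by exact_mod_cast NeZero.pos q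
  set δ : ℝ := 1 / M ^ 12 with hδ
  have hδ0 : 0 < δ := by positivity
  have hδL : δ ≤ 1 / (2 * Real.log N) := one_div_le_one_div_of_le (by positivity) (by linarith)
  have hδ4 : δ ≤ 1 / 4 := one_div_le_one_div_of_le (by positivity) (by linarith)
  set l := Real.log y with hl
  have hl1 : 1 ≤ l := by linarith
  set c : ℝ := 1 + 1 / l with hc
  have hlδ : 1 / l ≤ δ := one_div_le_one_div_of_le (by positivity) hyM
  have hc1 : 1 < c := by have : 0 < 1 / l := by positivity
                         linarith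
  have hy1 : 1 ≤ y := by
    by_contra h; linarith [Real.log_nonpos hy.le (not_le.1 h).le]
  have hyc : y ^ c ≤ 3 * y := by
    rw [hc, Real.rpow_add hy, Real.rpow_one, mul_comm]
    refine mul_le_mul_of_nonneg_right ?_ hy.le
    rw [Real.rpow_def_of_pos hy, ← hl, mul_one_div_cancel (by linarith)]
    linarith [Real.exp_one_lt_d9]
  have hy' : (y : ℂ) ≠ 0 := by exact_mod_cast hy.ne'
  set G : ℂ → ℂ := fun s => -deriv χ.LFunction s / χ.LFunction s *
    ((y : ℂ) ^ s * (1 / (s * (s + 1)))) with hG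
  have hLd := DirichletCharacter.differentiable_LFunction hχ
  have hLd' : Differentiable ℂ (deriv χ.LFunction) := hLd.deriv
  have hGe : ∀ t : ℝ, LSeries ((fun n : ℕ => χ n) * fun n : ℕ => (vonMangoldt n : ℂ)) (c + t * I)
      = -deriv χ.LFunction (c + t * I) / χ.LFunction (c + t * I) := fun t => by
    have hs : 1 < (c + t * I : ℂ).re := by simpa using hc1
    rw [χ.LSeries_twist_vonMangoldt_eq hs, χ.deriv_LFunction_eq_deriv_LSeries hs,
      χ.LFunction_eq_LSeries hs]
  have hP := perron (a := (fun n : ℕ => χ n) * fun n : ℕ => (vonMangoldt n : ℂ)) (by simp) hc1.le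
    (χ.LSeriesSummable_twist_vonMangoldt (by simpa using hc1)) hy
  simp_rw [hGe] at hP
  have hP2 := hP.unique (hasSum_sum_of_ne_finset_zero (s := range K) fun n hn => by
    have : (K : ℝ) ≤ n := by exact_mod_cast not_lt.1 (mem_range.not.1 hn)
    have : 1 ≤ n / y := by rw [le_div_iff₀ hy]; linarith
    rw [max_eq_right (by linarith)]; simp)
  rw [← mul_sum] at hP2
  -- bounds on the line `re s = c`
  have hS : ∀ t : ℝ, ‖-deriv χ.LFunction (c + t * I) / χ.LFunction (c + t * I)‖ ≤ 6 * l ^ 2 := by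
    intro t
    rw [← hGe]
    refine (norm_LSeries_twist_le χ (ε := 1 / (2 * l)) (by positivity) ?_).trans ?_
    · simp only [add_re, ofReal_re, mul_re, I_re, mul_zero, ofReal_im, I_im, mul_one, sub_self,
        add_zero, hc]; field_simp
    · rw [one_div_one_div, div_div_eq_mul_div, div_one]; nlinarith
  have hGc : ∀ t : ℝ, ‖G (c + t * I)‖ ≤ 18 * y * l ^ 2 * (1 + t ^ 2)⁻¹ := fun t => by
    rw [hG, norm_mul, norm_mul, norm_cpow_eq_rpow_re_of_pos hy,
      show (c + t * I : ℂ).re = c by simp]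
    calc _ ≤ 6 * l ^ 2 * (3 * y * (1 + t ^ 2)⁻¹) := by
          gcongr
          · exact hS t
          · exact norm_kernel_le hc1.le t
      _ = _ := by ring
  have hGi : Integrable fun t : ℝ => G (c + t * I) := by
    refine (integrable_inv_one_add_sq.const_mul _).mono' (Continuous.aestronglyMeasurable ?_)
      (Eventually.of_forall hGc)
    have h0 : Continuous fun t : ℝ => (c + t * I : ℂ) := by fun_prop
    refine ((hLd'.continuous.comp h0).neg.div (hLd.continuous.comp h0) fun t => ?_).mul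
      ((h0.const_cpow (Or.inl hy')).mul (continuous_const.div (by fun_prop)
        (kernel_ne_zero (by linarith))))
    exact χ.LFunction_ne_zero_of_one_le_re (Or.inl hχ) (by simpa using hc1.le)
  have h1 := norm_integral_sub_le hGi (C := 18 * y * l ^ 2) (T := T) (by linarith) fun t ht =>
    (hGc t).trans (by
      have : 0 < |t| := by linarith
      have : 0 < t ^ 2 := by rw [← sq_abs]; positivity
      gcongr; linarith)
  -- the rectangle
  have hR : ∀ s : ℂ, 1 - δ ≤ s.re → s.re ≤ c → |s.im| ≤ T →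
      χ.LFunction s ≠ 0 ∧ ‖-deriv χ.LFunction s / χ.LFunction s‖ ≤ M ^ 13 := fun s a1 a2 a3 => by
    have b1 := zero_free hχ hN hM1 hM2 hq hreal (s := s)
      (by rw [abs_le]; constructor <;> linarith) a3
    have hns : ‖s‖ ≤ 2 + T := by
      refine (norm_le_abs_re_add_abs_im s).trans (add_le_add ?_ a3)
      rw [abs_le]; constructor <;> linarith
    have b2 := norm_deriv_LFunction_le hχ hN (s := s) (by linarith)
      (le_trans (mul_le_mul_of_nonneg_left (by linarith) (by linarith)) hq)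
    refine ⟨norm_pos_iff.1 (hδ0.trans_le b1), ?_⟩
    rw [norm_div, norm_neg]
    calc _ ≤ M / (1 / M ^ 12) := by gcongr; linarith
      _ = _ := by field_simp
  have hne : ∀ s : ℂ, 1 - δ ≤ s.re → s * (s + 1) ≠ 0 := fun s hs => by
    refine mul_ne_zero (fun h => ?_) (fun h => ?_) <;> have := congrArg re h <;> simp at this <;>
      linarith
  have hC := integral_boundary_rect_eq_zero_of_differentiableOn G ⟨1 - δ, -T⟩ ⟨c, T⟩ (by
    intro s hs
    rw [mem_reProdIm, Set.uIcc_of_le (by simp; linarith), Set.uIcc_of_le (by simp; linarith)] at hs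
    obtain ⟨⟨a1, a2⟩, a3⟩ := hs
    refine DifferentiableAt.differentiableWithinAt ?_
    exact ((hLd' s).neg.div (hLd s) (hR s a1 a2 (abs_le.2 a3)).1).mul
      ((differentiableAt_id.const_cpow (Or.inl hy')).mul
        ((differentiableAt_const _).div (by fun_prop) (hne s a1))))
  simp only at hC
  have hH : ∀ u : ℝ, |u| = T → ‖∫ x : ℝ in (1 - δ)..c, G (x + u * I)‖ ≤ 6 * M * y / T ^ 2 := by
    intro u hu
    refine (intervalIntegral.norm_integral_le_of_norm_le_const (C := M ^ 13 * (3 * y * (1 / T ^ 2)))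
      fun x hx => ?_).trans ?_
    · rw [Set.uIoc_of_le (by linarith)] at hx
      rw [hG, norm_mul, norm_mul, norm_cpow_eq_rpow_re_of_pos hy,
        show (x + u * I : ℂ).re = x by simp]
      gcongr
      · exact (hR _ (by simpa using hx.1.le) (by simpa using hx.2) (by simpa using hu.le)).2
      · exact (Real.rpow_le_rpow_of_exponent_le hy1 hx.2).trans hyc
      · rw [norm_div, norm_one, norm_mul]
        have a1 := abs_im_le_norm (x + u * I : ℂ)
        have a2 := abs_im_le_norm (x + u * I + 1 : ℂ)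
        simp only [add_im, ofReal_im, mul_im, ofReal_re, I_im, mul_one, I_re, mul_zero, add_zero,
          zero_add, one_im, hu] at a1 a2
        rw [sq]; gcongr
    · rw [abs_of_nonneg (by linarith)]
      calc _ ≤ M ^ 13 * (3 * y * (1 / T ^ 2)) * (2 * δ) := by gcongr; linarith
        _ = _ := by rw [hδ]; field_simp; norm_num
  have hV : ‖∫ t : ℝ in (-T)..T, G ((1 - δ : ℝ) + t * I)‖ ≤ M ^ 13 * (y * y ^ (-δ)) * (2 * T) := by
    refine (intervalIntegral.norm_integral_le_of_norm_le_const (C := M ^ 13 * (y * y ^ (-δ) * 1))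
      fun t ht => ?_).trans ?_
    · rw [Set.uIoc_of_le (by linarith)] at ht
      rw [hG, norm_mul, norm_mul, norm_cpow_eq_rpow_re_of_pos hy,
        show ((1 - δ : ℝ) + t * I : ℂ).re = 1 + -δ by simp; ring, Real.rpow_add hy, Real.rpow_one]
      gcongr
      · exact (hR _ (by simp) (by simp; linarith) (by simpa using abs_le.2 ⟨ht.1.le, ht.2⟩)).2
      · rw [norm_div, norm_one, norm_mul]
        have a1 := re_le_norm ((1 - δ : ℝ) + t * I : ℂ)
        have a2 := re_le_norm ((1 - δ : ℝ) + t * I + 1 : ℂ)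
        simp only [add_re, ofReal_re, mul_re, I_re, mul_zero, ofReal_im, I_im, mul_one, sub_self,
          add_zero, one_re] at a1 a2
        rw [div_le_one (by nlinarith)]
        nlinarith
    · rw [abs_of_nonneg (by linarith)]; apply le_of_eq; ring
  have h2 : ‖∫ t : ℝ in (-T)..T, G (c + t * I)‖
      ≤ M ^ 13 * (y * y ^ (-δ)) * (2 * T) + 2 * (6 * M * y / T ^ 2) := by
    have e : I • ∫ t : ℝ in (-T)..T, G (c + t * I) = I • (∫ t : ℝ in (-T)..T, G ((1 - δ : ℝ) + t * I))
        + ((∫ x : ℝ in (1 - δ)..c, G (x + T * I)) - ∫ x : ℝ in (1 - δ)..c, G (x + (-T : ℝ) * I)) := by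
      linear_combination hC
    have a1 := hH T (abs_of_nonneg (by linarith))
    have a2 := hH (-T) (by rw [abs_neg, abs_of_nonneg (by linarith)])
    have a3 := congrArg norm e
    rw [norm_smul, norm_I, one_mul] at a3
    rw [a3]
    refine (norm_add_le _ _).trans (add_le_add ?_ ((norm_sub_le _ _).trans (by linarith)))
    rwa [norm_smul, norm_I, one_mul]
  have h3 := congrArg norm hP2
  rw [norm_mul] at h3
  have h4 : ‖(2 * Real.pi : ℂ)‖ = 2 * Real.pi := by
    rw [norm_mul, norm_real, Real.norm_of_nonneg Real.pi_pos.le]; simp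
  simp only [Pi.mul_apply] at h3
  have h5 : 6 * ‖∑ n ∈ range K, χ n * vonMangoldt n * ((max (1 - n / y) 0 : ℝ) : ℂ)‖
      ≤ ‖∫ t : ℝ, G (c + t * I)‖ := by
    rw [h3, h4]; gcongr; linarith [Real.pi_gt_three]
  have h6 : 0 ≤ y * (T * M ^ 13 * y ^ (-δ)) := by positivity
  have e1 : M ^ 13 * (y * y ^ (-δ)) * (2 * T) = 2 * (y * (T * M ^ 13 * y ^ (-δ))) := by ring
  have e2 : 6 * M * y / T ^ 2 = 3 * (y * (2 * M / T ^ 2)) := by ring
  have e3 : 2 * (18 * y * l ^ 2) / T = 6 * (y * (6 * l ^ 2 / T)) := by ring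
  rw [mul_add, mul_add]
  linarith

end Pool.Agent.Lib.ANT
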