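import Pool.Agent.Lib.ANT.SieveSums

/-!
# Upper bound for prime pairs `n, n + h` in an interval
-/

noncomputable section

open Finset

namespace Pool.Agent.Lib.ANT

theorem totient_le_totient_mul (a b : ℕ) (ha : 0 < a) : b.totient ≤ (a * b).totient := by
  have := Nat.totient_super_multiplicative a b
  exact le_trans (Nat.le_mul_of_pos_left _ (Nat.totient_pos.mpr ha)) this

/-- The number of `n ∈ (M, M+N]` with `n` and `n + h` prime is at most
`400 (h/φ(h)) N / (log N)²`. -/
theorem card_prime_pairs_le (h M N : ℕ) (hh : 0 < h) (hN : 2 ≤ N) :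
    (((Ioc M (M + N)).filter (fun n => n.Prime ∧ (n + h).Prime)).card : ℝ) ≤
      400 * ((h : ℝ) / h.totient) * N / Real.log N ^ 2 := by
  classical
  have hN1 : (1 : ℝ) < N := by exact_mod_cast hN
  have hN0 : (0 : ℝ) < N := by linarith
  set w : ℝ := (N : ℝ) ^ ((1 : ℝ) / 10) with hw
  have hw1 : 1 < w := Real.one_lt_rpow hN1 (by norm_num)
  have hw10 : w ^ 10 = N := by
    rw [hw, ← Real.rpow_natCast, ← Real.rpow_mul hN0.le]; norm_num
  have hlog : Real.log N = 10 * Real.log w := by
    rw [← hw10, Real.log_pow]; norm_num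
  have hlw : 0 < Real.log w := Real.log_pos hw1
  let Ω : ℕ → Finset ℕ := fun p => if p ∣ 2 * h then {0} else {0, p - h % p}
  let q : Bool → ℕ := fun b => if b then 1 else 2 * h
  have hcard : ∀ p : ℕ, p.Prime → ¬ p ∣ 2 * h → (Ω p).card = 2 ∧ 2 < p ∧ 0 < h % p := by
    intro p hp hpd
    have h1 : 0 < h % p := Nat.pos_of_ne_zero fun h0 =>
      hpd (Dvd.dvd.mul_left (Nat.dvd_of_mod_eq_zero h0) 2)
    have h2 : h % p < p := Nat.mod_lt _ hp.pos
    refine ⟨?_, ?_, h1⟩
    · simp only [Ω, if_neg hpd]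
      exact Finset.card_pair (by omega)
    · rcases hp.two_le.lt_or_eq with h3 | h3
      · exact h3
      · exact absurd (h3 ▸ Dvd.intro h rfl) hpd
  have hs := sieve_dim (Finset.univ : Finset Bool) q
    (fun b _ => by cases b <;> simp [q, hh]) w hw1 Ω
    (fun p hp _ => by
      by_cases hpd : p ∣ 2 * h
      · simp only [Ω, if_pos hpd]
        simpa using hp.pos
      · have := hcard p hp hpd
        simp only [Ω, if_neg hpd]
        intro x hx
        simp only [Finset.mem_insert, Finset.mem_singleton] at hx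
        rw [Finset.mem_range]
        omega)
    (fun p hp _ => by
      by_cases hpd : p ∣ 2 * h
      · simp only [Ω, if_pos hpd]
        simpa using hp.one_lt
      · have := hcard p hp hpd
        omega)
    (fun p hp _ => by
      by_cases hpd : p ∣ 2 * h
      · simp only [Ω, if_pos hpd, Finset.card_singleton]
        refine Finset.card_le_one.mpr ?_
        intro a ha b hb
        cases a <;> cases b <;> simp_all [q]
      · rw [(hcard p hp hpd).1]
        exact (Finset.card_filter_le _ _).trans (by simp)) M N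
  have hsub : (Ioc M (M + N)).filter (fun n => n.Prime ∧ (n + h).Prime) ⊆
      Icc 1 ⌊w⌋₊ ∪ (Ioc M (M + N)).filter (fun n => ∀ p ∈ (range (⌊w⌋₊ + 1)).filter Nat.Prime,
        n % p ∉ Ω p) := by
    intro n hn
    obtain ⟨hn1, hn2, hn3⟩ := Finset.mem_filter.mp hn
    by_cases hnw : n ≤ ⌊w⌋₊
    · exact Finset.mem_union_left _ (Finset.mem_Icc.mpr ⟨hn2.pos, hnw⟩)
    · refine Finset.mem_union_right _ (Finset.mem_filter.mpr ⟨hn1, fun p hp hmem => ?_⟩)
      obtain ⟨hp1, hp2⟩ := Finset.mem_filter.mp hp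
      have hp1' := Finset.mem_range.mp hp1
      have a1 : n % p ≠ 0 := fun h0 => by
        have := (Nat.prime_dvd_prime_iff_eq hp2 hn2).mp (Nat.dvd_of_mod_eq_zero h0)
        omega
      have a2 : n % p ≠ p - h % p := fun h0 => by
        have h2 : h % p < p := Nat.mod_lt _ hp2.pos
        have : (n + h) % p = 0 := by
          rw [Nat.add_mod, h0, Nat.sub_add_cancel h2.le, Nat.mod_self]
        have := (Nat.prime_dvd_prime_iff_eq hp2 hn3).mp (Nat.dvd_of_mod_eq_zero this)
        omega
      by_cases hpd : p ∣ 2 * h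
      · simp only [Ω, if_pos hpd, Finset.mem_singleton] at hmem
        exact a1 hmem
      · simp only [Ω, if_neg hpd, Finset.mem_insert, Finset.mem_singleton] at hmem
        rcases hmem with hm | hm
        · exact a1 hm
        · exact a2 hm
  have hc := (Finset.card_le_card hsub).trans (Finset.card_union_le _ _)
  have hc' : (((Ioc M (M + N)).filter (fun n => n.Prime ∧ (n + h).Prime)).card : ℝ) ≤
      w + (((Ioc M (M + N)).filter (fun n => ∀ p ∈ (range (⌊w⌋₊ + 1)).filter Nat.Prime,
        n % p ∉ Ω p)).card : ℝ) := by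
    refine (Nat.cast_le.mpr hc).trans ?_
    push_cast
    gcongr
    simpa using Nat.floor_le (by linarith : 0 ≤ w)
  refine hc'.trans ?_
  have hh' : (0 : ℝ) < h := by exact_mod_cast hh
  have hφ : (0 : ℝ) < h.totient := by exact_mod_cast Nat.totient_pos.mpr hh
  have hφ1 : (h.totient : ℝ) ≤ h := by exact_mod_cast Nat.totient_le h
  have hφ2 : (h.totient : ℝ) ≤ (2 * h).totient := by
    exact_mod_cast totient_le_totient_mul 2 h two_pos
  have hprod : ∏ b : Bool, (((q b).totient : ℝ) / q b * Real.log w) =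
      Real.log w * (((2 * h).totient : ℝ) / (2 * h) * Real.log w) := by
    simp [q]
  rw [hprod] at hs
  simp only [Finset.card_univ, Fintype.card_bool] at hs
  set r : ℝ := (h : ℝ) / h.totient with hr
  have hr1 : 1 ≤ r := (one_le_div hφ).mpr hφ1
  have e1 : (N : ℝ) / (Real.log w * (((2 * h).totient : ℝ) / (2 * h) * Real.log w)) ≤
      2 * r * N / Real.log w ^ 2 := by
    have : Real.log w ^ 2 / (2 * r) ≤
        Real.log w * (((2 * h).totient : ℝ) / (2 * h) * Real.log w) := by
      rw [hr]
      have : Real.log w ^ 2 / (2 * (h / h.totient)) =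
          Real.log w * ((h.totient : ℝ) / (2 * h) * Real.log w) := by field_simp
      rw [this]
      gcongr
    calc _ ≤ (N : ℝ) / (Real.log w ^ 2 / (2 * r)) :=
          div_le_div_of_nonneg_left hN0.le (by positivity) this
      _ = _ := by field_simp
  have e2 : w + (w ^ 2) ^ 4 ≤ 2 * r * N / Real.log w ^ 2 := by
    have a1 : Real.log w ≤ w := (Real.log_le_sub_one_of_pos (by linarith)).trans (by linarith)
    have a2 : Real.log w ^ 2 ≤ w ^ 2 := by gcongr
    have a3 : w ≤ w ^ 8 := by
      calc w = w ^ 1 := (pow_one w).symm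
        _ ≤ w ^ 8 := pow_le_pow_right₀ hw1.le (by norm_num)
    rw [le_div_iff₀ (by positivity), ← hw10]
    calc (w + (w ^ 2) ^ 4) * Real.log w ^ 2 ≤ (w ^ 8 + (w ^ 2) ^ 4) * w ^ 2 := by gcongr
      _ = 2 * 1 * w ^ 10 := by ring
      _ ≤ 2 * r * w ^ 10 := by gcongr
  have e3 : 400 * r * N / Real.log N ^ 2 = 2 * r * N / Real.log w ^ 2 + 2 * r * N / Real.log w ^ 2 := by
    rw [hlog]; field_simp; ring
  rw [e3]
  linarith

end Pool.Agent.Lib.ANT
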