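import Mathlib.Algebra.BigOperators.Ring.Finset
import Mathlib.Algebra.BigOperators.Group.Finset.Powerset
import Mathlib.Algebra.Order.BigOperators.Ring.Finset
import Mathlib.Data.Real.Basic
import Mathlib.Data.Finset.Max
import Mathlib.Tactic.Positivity
import Mathlib.Tactic.Linarith
import Mathlib.Tactic.FieldSimp
import Mathlib.Tactic.Ring

/-!
# Rosser's weights of the linear sieve: combinatorics
-/

set_option autoImplicit false

namespace Pool.Agent.Lib.ANT

open Finset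

/-- Rosser's truncation; `e = 0` is the upper and `e = 1` the lower sieve -/
def rOK (e : ℕ) (D : ℝ) (d : Finset ℕ) : Prop :=
  ∀ p ∈ d, (d.filter (fun q => p < q)).card % 2 = e →
    (∏ q ∈ d.filter (fun q => p < q), (q : ℝ)) * (p : ℝ) ^ 3 < D

open Classical in
/-- support of the weights -/
noncomputable def rSet (e : ℕ) (D : ℝ) (Ps : Finset ℕ) : Finset (Finset ℕ) :=
  Ps.powerset.filter (rOK e D)

/-- main term -/
noncomputable def rSum (e : ℕ) (D : ℝ) (Ps : Finset ℕ) (g : ℕ → ℝ) : ℝ :=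
  ∑ d ∈ rSet e D Ps, (-1) ^ d.card * ∏ p ∈ d, g p

lemma mem_rSet {e : ℕ} {D : ℝ} {Ps d : Finset ℕ} : d ∈ rSet e D Ps ↔ d ⊆ Ps ∧ rOK e D d := by
  simp [rSet]

lemma rOK_empty (e : ℕ) (D : ℝ) : rOK e D ∅ := fun _ h => absurd h (notMem_empty _)

lemma rOK_insert_min {e : ℕ} {D : ℝ} {d : Finset ℕ} {p : ℕ} (h : ∀ q ∈ d, p < q) :
    rOK e D (insert p d) ↔
      rOK e D d ∧ (d.card % 2 = e → (∏ q ∈ d, (q : ℝ)) * (p : ℝ) ^ 3 < D) := by
  have e1 : (insert p d).filter (fun q => p < q) = d := by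
    rw [filter_insert, if_neg (lt_irrefl p), filter_true_of_mem h]
  have e2 : ∀ r ∈ d, (insert p d).filter (fun q => r < q) = d.filter (fun q => r < q) := by
    intro r hr
    rw [filter_insert, if_neg (lt_asymm (h r hr))]
  unfold rOK
  rw [forall_mem_insert, e1, and_comm]
  exact and_congr_left' (forall₂_congr fun r hr => by rw [e2 r hr])

lemma rOK_insert_max {e : ℕ} (he : e ≤ 1) {D : ℝ} {d : Finset ℕ} {p : ℕ} (hp : 0 < p)
    (h : ∀ q ∈ d, q < p) :
    rOK e D (insert p d) ↔ (e = 0 → (p : ℝ) ^ 3 < D) ∧ rOK (1 - e) (D / p) d := by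
  have e1 : (insert p d).filter (fun q => p < q) = ∅ := by
    rw [filter_insert, if_neg (lt_irrefl p), filter_false_of_mem fun q hq => lt_asymm (h q hq)]
  have hp' : (0 : ℝ) < p := by exact_mod_cast hp
  unfold rOK
  rw [forall_mem_insert, e1]
  refine and_congr (by simp [eq_comm]) (forall₂_congr fun r hr => ?_)
  have hn : p ∉ d.filter (fun q => r < q) := fun hh => lt_irrefl p (h p (mem_filter.mp hh).1)
  rw [filter_insert, if_pos (h r hr), card_insert_of_notMem hn, prod_insert hn, lt_div_iff₀ hp']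
  refine imp_congr (by omega) ?_
  rw [mul_assoc, mul_comm]

lemma sum_powerset_max (Ps : Finset ℕ) (F : Finset ℕ → ℝ) :
    ∑ d ∈ Ps.powerset, F d
      = F ∅ + ∑ p ∈ Ps, ∑ d ∈ (Ps.filter (fun q => q < p)).powerset, F (insert p d) := by
  induction Ps using Finset.induction_on_max with
  | empty => simp
  | insert a s ha ih =>
    have hn : a ∉ s := fun hh => lt_irrefl a (ha a hh)
    rw [sum_powerset_insert hn, ih, sum_insert hn, filter_insert, if_neg (lt_irrefl a),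
      filter_true_of_mem ha]
    have : ∑ p ∈ s, ∑ d ∈ ((insert a s).filter (fun q => q < p)).powerset, F (insert p d)
        = ∑ p ∈ s, ∑ d ∈ (s.filter (fun q => q < p)).powerset, F (insert p d) :=
      sum_congr rfl fun p hp => by rw [filter_insert, if_neg (lt_asymm (ha p hp))]
    rw [this]; ring

lemma rSum_rec {e : ℕ} (he : e ≤ 1) (D : ℝ) (Ps : Finset ℕ) (hPs : ∀ p ∈ Ps, 0 < p) (g : ℕ → ℝ) :
    rSum e D Ps g = 1 - ∑ p ∈ Ps, if (e = 0 → (p : ℝ) ^ 3 < D) then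
      g p * rSum (1 - e) (D / p) (Ps.filter (fun q => q < p)) g else 0 := by
  classical
  unfold rSum rSet
  rw [sum_filter, sum_powerset_max, if_pos (rOK_empty e D), sub_eq_add_neg, ← sum_neg_distrib]
  simp only [card_empty, pow_zero, prod_empty, mul_one]
  congr 1
  refine sum_congr rfl fun p hp => ?_
  have key : ∀ d ∈ (Ps.filter (fun q => q < p)).powerset,
      (if rOK e D (insert p d) then (-1 : ℝ) ^ (insert p d).card * ∏ q ∈ insert p d, g q else 0)
      = if (e = 0 → (p : ℝ) ^ 3 < D) then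
        -(g p * if rOK (1 - e) (D / p) d then (-1 : ℝ) ^ d.card * ∏ q ∈ d, g q else 0) else 0 := by
    intro d hd
    have h1 : ∀ q ∈ d, q < p := fun q hq => (mem_filter.mp (mem_powerset.mp hd hq)).2
    have hn : p ∉ d := fun hh => lt_irrefl p (h1 p hh)
    rw [rOK_insert_max he (hPs p hp) h1, card_insert_of_notMem hn, prod_insert hn]
    by_cases h2 : (e = 0 → (p : ℝ) ^ 3 < D)
    · by_cases h3 : rOK (1 - e) (D / p) d
      · rw [if_pos ⟨h2, h3⟩, if_pos h2, if_pos h3]; ring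
      · rw [if_neg (fun hh => h3 hh.2), if_pos h2, if_neg h3]; ring
    · rw [if_neg (fun hh => h2 hh.1), if_neg h2]
  rw [sum_congr rfl key]
  split_ifs with h2
  · rw [sum_neg_distrib, ← mul_sum, sum_filter]
  · simp

open Classical in
/-- the pairing identity -/
lemma sum_rSet_insert_min (e : ℕ) (D : ℝ) {T : Finset ℕ} {p : ℕ} (h : ∀ q ∈ T, p < q) :
    ∑ d ∈ rSet e D (insert p T), (-1 : ℝ) ^ d.card = (-1) ^ e *
      ((rSet e D T).filter (fun d : Finset ℕ => d.card % 2 = e ∧ D ≤ (∏ q ∈ d, (q : ℝ)) * (p : ℝ) ^ 3)).card := by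
  have hn : p ∉ T := fun hh => lt_irrefl p (h p hh)
  unfold rSet
  rw [sum_filter, sum_powerset_insert hn, ← sum_add_distrib, filter_filter, card_filter]
  push_cast
  rw [mul_sum]
  refine sum_congr rfl fun d hd => ?_
  have h1 : ∀ q ∈ d, p < q := fun q hq => h q (mem_powerset.mp hd hq)
  have hn' : p ∉ d := fun hh => lt_irrefl p (h1 p hh)
  rw [rOK_insert_min h1, card_insert_of_notMem hn']
  by_cases h2 : rOK e D d
  · by_cases h3 : d.card % 2 = e ∧ D ≤ (∏ q ∈ d, (q : ℝ)) * (p : ℝ) ^ 3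
    · rw [if_pos h2, if_neg (fun hh => absurd (hh.2 h3.1) (not_lt.mpr h3.2)), if_pos ⟨h2, h3⟩,
        ← h3.1, ← neg_one_pow_eq_pow_mod_two]
      ring
    · rw [if_pos h2, if_pos ⟨h2, fun hh => not_le.mp fun k => h3 ⟨hh, k⟩⟩,
        if_neg fun hh => h3 hh.2]
      ring
  · rw [if_neg h2, if_neg (fun hh => h2 hh.1), if_neg fun hh => h2 hh.1]
    ring

lemma rSet_empty (e : ℕ) (D : ℝ) : rSet e D ∅ = {∅} := by
  ext d
  simp only [mem_rSet, subset_empty, mem_singleton]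
  exact ⟨fun h => h.1, fun h => ⟨h, h ▸ rOK_empty e D⟩⟩

/-- the lower sieve -/
lemma sum_rSet_lower (D : ℝ) (T : Finset ℕ) :
    ∑ d ∈ rSet 1 D T, (-1 : ℝ) ^ d.card ≤ if T = ∅ then 1 else 0 := by
  induction T using Finset.induction_on_min with
  | empty => simp [rSet_empty]
  | insert a s ha _ =>
    rw [sum_rSet_insert_min 1 D ha, if_neg (insert_ne_empty a s)]
    simp

lemma prod_lt_of_rOK {e : ℕ} (he : e ≤ 1) {D : ℝ} {d : Finset ℕ} (h : rOK e D d) (h1 : 1 < D)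
    (h2 : ∀ p ∈ d, 0 < p ∧ (p : ℝ) < D) : ∏ p ∈ d, (p : ℝ) < D := by
  induction d using Finset.induction_on_min with
  | empty => simpa using h1
  | insert a s ha _ =>
    have hn : a ∉ s := fun hh => lt_irrefl a (ha a hh)
    have a1 : (1 : ℝ) ≤ a := by exact_mod_cast (h2 a (mem_insert_self _ _)).1
    have hP : ∀ t : Finset ℕ, 0 ≤ ∏ p ∈ t, (p : ℝ) := fun t =>
      prod_nonneg fun _ _ => Nat.cast_nonneg _
    rw [rOK_insert_min ha] at h
    rw [prod_insert hn]
    by_cases h3 : s.card % 2 = e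
    · have := h.2 h3
      have a3 : (a : ℝ) ≤ (a : ℝ) ^ 3 := le_self_pow₀ a1 (by norm_num)
      nlinarith [hP s]
    · induction s using Finset.induction_on_min with
      | empty => simpa using (h2 a (mem_insert_self _ _)).2
      | insert b t hb _ =>
        have hn' : b ∉ t := fun hh => lt_irrefl b (hb b hh)
        have h4 := h.1
        rw [rOK_insert_min hb] at h4
        rw [card_insert_of_notMem hn'] at h3
        have := h4.2 (by omega)
        have ab : (a : ℝ) ≤ b := by exact_mod_cast (ha b (mem_insert_self _ _)).le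
        rw [prod_insert hn']
        have b2 : (b : ℝ) ^ 2 ≤ (b : ℝ) ^ 3 := pow_le_pow_right₀ (a1.trans ab) (by norm_num)
        have b1 : (a : ℝ) * b ≤ (b : ℝ) ^ 3 := by nlinarith
        nlinarith [hP t]

lemma sum_rSet_ind (e : ℕ) (D : ℝ) (Ps : Finset ℕ) (q : ℕ → Prop) [DecidablePred q] :
    ∑ d ∈ rSet e D Ps, (-1 : ℝ) ^ d.card * (if ∀ p ∈ d, q p then 1 else 0)
      = ∑ d ∈ rSet e D (Ps.filter q), (-1 : ℝ) ^ d.card := by
  classical
  have : rSet e D (Ps.filter q) = (rSet e D Ps).filter (fun d => ∀ p ∈ d, q p) := by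
    ext d
    simp only [mem_rSet, mem_filter, subset_iff]
    exact ⟨fun h => ⟨⟨fun p hp => (h.1 hp).1, h.2⟩, fun p hp => (h.1 hp).2⟩,
      fun h => ⟨fun p hp => ⟨h.1.1 hp, h.2 p hp⟩, h.1.2⟩⟩
  rw [this, sum_filter]
  refine sum_congr rfl fun d _ => ?_
  split_ifs <;> simp

/-- partial summation against the sieve product -/
lemma partial_sum (T : Finset ℕ) (g x : ℕ → ℝ) (ψ Ψ : ℝ → ℝ) {s ε : ℝ} (hs : 0 < s) (hε : 0 ≤ ε)
    (hg : ∀ p ∈ T, 0 ≤ g p ∧ g p < 1) (hx : ∀ p ∈ T, s ≤ x p)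
    (hx2 : ∀ p ∈ T, ∀ q ∈ T, p ≤ q → x q ≤ x p)
    (hW : ∀ p ∈ T, (∏ q ∈ T.filter (fun q => p ≤ q), (1 - g q))⁻¹ ≤ (1 + ε) * x p / s)
    (hψ : ∀ u v, s ≤ u → u ≤ v → ψ v ≤ ψ u) (hψ0 : ∀ u, s ≤ u → 0 ≤ ψ u)
    (hΨ0 : ∀ u, s ≤ u → 0 ≤ Ψ u) (hΨ : ∀ u v, s ≤ u → u ≤ v → (v - u) * ψ v ≤ Ψ u - Ψ v) :
    ∑ p ∈ T, g p * (∏ q ∈ T.filter (fun q => q < p), (1 - g q)) * ψ (x p)
      ≤ (∏ q ∈ T, (1 - g q)) * ((1 + ε) * Ψ s / s + ε * ψ s) := by
  have move : ∀ u v W, s ≤ u → u ≤ v → W ≤ (1 + ε) * u / s →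
      ((1 + ε) * v / s - W) * ψ v + (1 + ε) * Ψ v / s
        ≤ ((1 + ε) * u / s - W) * ψ u + (1 + ε) * Ψ u / s := by
    intro u v W h1 h2 h3
    have k1 := mul_le_mul_of_nonneg_left (hψ u v h1 h2) (sub_nonneg.mpr h3)
    have k2 := mul_le_mul_of_nonneg_left (hΨ u v h1 h2) (show 0 ≤ (1 + ε) / s by positivity)
    have e1 : ((1 + ε) * v / s - W) * ψ v + (1 + ε) * Ψ v / s = ((1 + ε) * u / s - W) * ψ v
        + (1 + ε) / s * ((v - u) * ψ v) + (1 + ε) / s * Ψ v := by ring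
    have e2 : (1 + ε) * Ψ u / s = (1 + ε) / s * (Ψ u - Ψ v) + (1 + ε) / s * Ψ v := by ring
    rw [e1, e2]; linarith
  have key : ∀ σ, s ≤ σ → (∀ p ∈ T, x p ≤ σ) → (∏ q ∈ T, (1 - g q))⁻¹ ≤ (1 + ε) * σ / s →
      ∑ p ∈ T, g p * (∏ q ∈ T.filter (fun q => p ≤ q), (1 - g q))⁻¹ * ψ (x p)
        + (((1 + ε) * σ / s - (∏ q ∈ T, (1 - g q))⁻¹) * ψ σ + (1 + ε) * Ψ σ / s)
        ≤ (1 + ε) * Ψ s / s + ε * ψ s := by
    induction T using Finset.induction_on_min with
    | empty =>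
      intro σ h1 _ _
      have := move s σ 1 le_rfl h1 (by rw [mul_div_assoc, div_self hs.ne']; linarith)
      rw [mul_div_assoc _ s, div_self hs.ne'] at this
      simp only [sum_empty, prod_empty, inv_one]
      linarith
    | insert a t ha ih =>
      intro σ h1 h2 _
      have hn : a ∉ t := fun hh => lt_irrefl a (ha a hh)
      have ma := mem_insert_self a t
      have e1 : (insert a t).filter (fun q => a ≤ q) = insert a t :=
        filter_true_of_mem fun q hq => by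
          rcases mem_insert.mp hq with rfl | hq
          · exact le_rfl
          · exact (ha q hq).le
      have e2 : ∀ p ∈ t, (insert a t).filter (fun q => p ≤ q) = t.filter (fun q => p ≤ q) :=
        fun p hp => by rw [filter_insert, if_neg (not_le.mpr (ha p hp))]
      have w := hW a ma
      rw [e1] at w
      have P0 : 0 < ∏ q ∈ t, (1 - g q) :=
        prod_pos fun q hq => sub_pos.mpr (hg q (mem_insert_of_mem hq)).2
      have g1 := sub_pos.mpr (hg a ma).2
      have e3 : g a * (∏ q ∈ insert a t, (1 - g q))⁻¹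
          = (∏ q ∈ insert a t, (1 - g q))⁻¹ - (∏ q ∈ t, (1 - g q))⁻¹ := by
        rw [prod_insert hn]; field_simp; ring
      have w2 : (∏ q ∈ t, (1 - g q))⁻¹ ≤ (∏ q ∈ insert a t, (1 - g q))⁻¹ := by
        have : 0 ≤ g a * (∏ q ∈ insert a t, (1 - g q))⁻¹ := by
          rw [prod_insert hn]; exact mul_nonneg (hg a ma).1 (by positivity)
        linarith
      have i := ih (fun p hp => hg p (mem_insert_of_mem hp)) (fun p hp => hx p (mem_insert_of_mem hp))
        (fun p hp q hq => hx2 p (mem_insert_of_mem hp) q (mem_insert_of_mem hq))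
        (fun p hp => e2 p hp ▸ hW p (mem_insert_of_mem hp)) (x a) (hx a ma)
        (fun p hp => hx2 a ma p (mem_insert_of_mem hp) (ha p hp).le) (w2.trans w)
      have m := move (x a) σ _ (hx a ma) (h2 a ma) w
      rw [sum_insert hn, e1, e3, sum_congr rfl fun p hp => by rw [e2 p hp]]
      linarith
  have P0 : 0 < ∏ q ∈ T, (1 - g q) := prod_pos fun q hq => sub_pos.mpr (hg q hq).2
  have x0 : ∀ p ∈ T, 0 ≤ x p := fun p hp => hs.le.trans (hx p hp)
  have S0 := sum_nonneg x0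
  have W0 : 0 < (∏ q ∈ T, (1 - g q))⁻¹ := inv_pos.mpr P0
  set σ := s + ∑ p ∈ T, x p + s * (∏ q ∈ T, (1 - g q))⁻¹ with hσ
  have s1 : s ≤ σ := by have := mul_pos hs W0; linarith
  have s2 : (∏ q ∈ T, (1 - g q))⁻¹ ≤ (1 + ε) * σ / s := by
    rw [le_div_iff₀ hs]; nlinarith
  have k := key σ s1 (fun p hp => by
    have := single_le_sum x0 hp; have := mul_pos hs W0; linarith) s2
  have k1 := mul_nonneg (sub_nonneg.mpr s2) (hψ0 σ s1)
  have k2 : 0 ≤ (1 + ε) * Ψ σ / s := div_nonneg (mul_nonneg (by linarith) (hΨ0 σ s1)) hs.le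
  refine le_trans (le_of_eq ?_) (mul_le_mul_of_nonneg_left
    (show ∑ p ∈ T, g p * (∏ q ∈ T.filter (fun q => p ≤ q), (1 - g q))⁻¹ * ψ (x p) ≤ _ by linarith)
    P0.le)
  rw [mul_sum]
  refine sum_congr rfl fun p _ => ?_
  have e := prod_filter_mul_prod_filter_not T (fun q => q < p) (fun q => 1 - g q)
  simp only [not_lt] at e
  have P1 : 0 < ∏ q ∈ T.filter (fun q => p ≤ q), (1 - g q) :=
    prod_pos fun q hq => sub_pos.mpr (hg q (mem_filter.mp hq).1).2
  rw [← e]; field_simp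

end Pool.Agent.Lib.ANT
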