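import Mathlib.Analysis.SpecialFunctions.ImproperIntegrals
import Mathlib.MeasureTheory.Integral.Bochner.Set

/-!
# The functions of the linear sieve
-/

set_option autoImplicit false

namespace Pool.Agent.Lib.ANT

open MeasureTheory Set

/-- majorant `(c / max s c) ^ 3` -/
noncomputable def maj (c s : ℝ) : ℝ := (c / max s c) ^ 3

/-- `∫_x^∞ u(t) dt / t` -/
noncomputable def II (u : ℝ → ℝ) (x : ℝ) : ℝ := ∫ t in Ioi x, u t / t

lemma maj_pos {c : ℝ} (hc : 0 < c) (s : ℝ) : 0 < maj c s :=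
  pow_pos (div_pos hc (lt_max_of_lt_right hc)) _

lemma maj_anti {c : ℝ} (hc : 0 < c) : Antitone (maj c) := fun _ _ h =>
  pow_le_pow_left₀ (div_pos hc (lt_max_of_lt_right hc)).le
    (div_le_div_of_nonneg_left hc.le (lt_max_of_lt_right hc) (max_le_max_right c h)) _

lemma maj_of_le {c s : ℝ} (hc : 0 < c) (h : s ≤ c) : maj c s = 1 := by
  rw [maj, max_eq_right h, div_self hc.ne', one_pow]

lemma maj_of_ge {c s : ℝ} (h : c ≤ s) : maj c s = c ^ 3 / s ^ 3 := by
  rw [maj, max_eq_left h, div_pow]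

lemma maj_le {c s : ℝ} (hc : 0 < c) (hs : 0 < s) : maj c s ≤ c ^ 3 / s ^ 3 := by
  rw [← div_pow]
  exact pow_le_pow_left₀ (div_pos hc (lt_max_of_lt_right hc)).le
    (div_le_div_of_nonneg_left hc.le hs (le_max_left _ _)) _

lemma maj_max {c s : ℝ} : maj c (max s c) = maj c s := by
  rw [maj, maj, max_assoc, max_self]

/-- admissible functions -/
structure Adm (u : ℝ → ℝ) : Prop where
  anti : Antitone u
  nonneg : ∀ s, 0 ≤ u s
  bound : ∃ K, ∀ s, 0 < s → u s ≤ K / s ^ 3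

lemma adm_maj {c : ℝ} (hc : 0 < c) : Adm (maj c) :=
  ⟨maj_anti hc, fun s => (maj_pos hc s).le, _, fun _ hs => maj_le hc hs⟩

lemma Adm.smul {u : ℝ → ℝ} (h : Adm u) {k : ℝ} (hk : 0 ≤ k) : Adm fun s => k * u s := by
  obtain ⟨K, hK⟩ := h.bound
  exact ⟨fun _ _ hh => mul_le_mul_of_nonneg_left (h.anti hh) hk, fun s => mul_nonneg hk (h.nonneg s),
    k * K, fun s hs => by rw [mul_div_assoc]; exact mul_le_mul_of_nonneg_left (hK s hs) hk⟩

lemma Adm.add {u v : ℝ → ℝ} (h : Adm u) (h' : Adm v) : Adm fun s => u s + v s := by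
  obtain ⟨K, hK⟩ := h.bound
  obtain ⟨K', hK'⟩ := h'.bound
  exact ⟨fun _ _ hh => add_le_add (h.anti hh) (h'.anti hh),
    fun s => add_nonneg (h.nonneg s) (h'.nonneg s),
    K + K', fun s hs => by rw [add_div]; exact add_le_add (hK s hs) (hK' s hs)⟩

lemma Adm.of_le {u v : ℝ → ℝ} (h : Adm v) (h1 : Antitone u) (h2 : ∀ s, 0 ≤ u s)
    (h3 : ∀ s, u s ≤ v s) : Adm u := by
  obtain ⟨K, hK⟩ := h.bound
  exact ⟨h1, h2, K, fun s hs => (h3 s).trans (hK s hs)⟩

lemma rpow_four {t : ℝ} (ht : 0 < t) : t ^ (-4 : ℝ) = 1 / t ^ 3 / t := by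
  rw [Real.rpow_neg ht.le, show (4 : ℝ) = (4 : ℕ) by norm_num, Real.rpow_natCast]
  field_simp

lemma Adm.integrableOn {u : ℝ → ℝ} (h : Adm u) {x : ℝ} (hx : 0 < x) :
    IntegrableOn (fun t => u t / t) (Ioi x) := by
  obtain ⟨K, hK⟩ := h.bound
  refine Integrable.mono' ((integrableOn_Ioi_rpow_of_lt (show (-4 : ℝ) < -1 by norm_num)
    hx).const_mul K) (h.anti.measurable.div measurable_id).aestronglyMeasurable ?_
  refine (ae_restrict_iff' measurableSet_Ioi).mpr (Filter.Eventually.of_forall fun t ht => ?_)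
  have t0 : 0 < t := hx.trans ht
  rw [Real.norm_of_nonneg (div_nonneg (h.nonneg t) t0.le), rpow_four t0, ← mul_div_assoc,
    mul_one_div]
  exact div_le_div_of_nonneg_right (hK t t0) t0.le

lemma Adm.II_nonneg {u : ℝ → ℝ} (h : Adm u) {x : ℝ} (hx : 0 < x) : 0 ≤ II u x :=
  setIntegral_nonneg measurableSet_Ioi fun t ht => div_nonneg (h.nonneg t) (hx.trans ht).le

lemma Adm.II_mono {u v : ℝ → ℝ} (h : Adm u) (h' : Adm v) {x : ℝ} (hx : 0 < x)
    (huv : ∀ t, x < t → u t ≤ v t) : II u x ≤ II v x :=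
  setIntegral_mono_on (h.integrableOn hx) (h'.integrableOn hx) measurableSet_Ioi fun t ht =>
    div_le_div_of_nonneg_right (huv t ht) (hx.trans ht).le

lemma II_smul (u : ℝ → ℝ) (k x : ℝ) : II (fun s => k * u s) x = k * II u x := by
  unfold II
  rw [← integral_const_mul]
  simp only [mul_div_assoc]

lemma Adm.II_add {u v : ℝ → ℝ} (h : Adm u) (h' : Adm v) {x : ℝ} (hx : 0 < x) :
    II (fun s => u s + v s) x = II u x + II v x := by
  unfold II
  rw [← integral_add (h.integrableOn hx) (h'.integrableOn hx)]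
  simp only [add_div]

lemma Adm.II_split {u : ℝ → ℝ} (h : Adm u) {x y : ℝ} (hx : 0 < x) (hxy : x ≤ y) :
    II u x = (∫ t in Ioc x y, u t / t) + II u y := by
  unfold II
  rw [← setIntegral_union (Ioc_disjoint_Ioi le_rfl) measurableSet_Ioi
    ((h.integrableOn hx).mono_set Ioc_subset_Ioi_self) (h.integrableOn (hx.trans_le hxy)),
    Ioc_union_Ioi_eq_Ioi hxy]

lemma Adm.slope {u : ℝ → ℝ} (h : Adm u) {x y : ℝ} (hx : 0 < x) (hxy : x ≤ y) :
    (y - x) * (u y / y) ≤ II u x - II u y := by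
  rw [h.II_split hx hxy, add_sub_cancel_right]
  have : ∫ _ in Ioc x y, u y / y = (y - x) * (u y / y) := by
    rw [setIntegral_const, Real.volume_real_Ioc_of_le hxy, smul_eq_mul]
  rw [← this]
  refine setIntegral_mono_on (integrableOn_const (by simp)) ((h.integrableOn hx).mono_set
    Ioc_subset_Ioi_self) measurableSet_Ioc fun t ht => ?_
  exact div_le_div₀ (h.nonneg t) (h.anti ht.2) (hx.trans ht.1) ht.2

lemma Adm.slope' {u : ℝ → ℝ} (h : Adm u) {x y : ℝ} (hx : 0 < x) (hxy : x ≤ y) :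
    II u x - II u y ≤ (y - x) * (u x / x) := by
  rw [h.II_split hx hxy, add_sub_cancel_right]
  have : ∫ _ in Ioc x y, u x / x = (y - x) * (u x / x) := by
    rw [setIntegral_const, Real.volume_real_Ioc_of_le hxy, smul_eq_mul]
  rw [← this]
  refine setIntegral_mono_on ((h.integrableOn hx).mono_set Ioc_subset_Ioi_self)
    (integrableOn_const (by simp)) measurableSet_Ioc fun t ht => ?_
  exact div_le_div₀ (h.nonneg x) (h.anti ht.1.le) hx ht.1.le

lemma Adm.II_anti {u : ℝ → ℝ} (h : Adm u) {x y : ℝ} (hx : 0 < x) (hxy : x ≤ y) :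
    II u y ≤ II u x := by
  have := h.slope hx hxy
  have := mul_nonneg (sub_nonneg.mpr hxy) (div_nonneg (h.nonneg y) (hx.le.trans hxy))
  linarith

lemma II_maj {c x : ℝ} (hc : 0 < c) (hx : c ≤ x) : II (maj c) x = c ^ 3 / (3 * x ^ 3) := by
  have x0 : 0 < x := hc.trans_le hx
  have : II (maj c) x = ∫ t in Ioi x, c ^ 3 * t ^ (-4 : ℝ) :=
    setIntegral_congr_fun measurableSet_Ioi fun t ht => by
      have t0 : 0 < t := x0.trans ht
      rw [maj_of_ge (hx.trans (le_of_lt ht)), rpow_four t0]; ring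
  rw [this, integral_const_mul, integral_Ioi_rpow_of_lt (by norm_num) x0,
    show (-4 : ℝ) + 1 = -3 by norm_num, Real.rpow_neg x0.le,
    show (3 : ℝ) = (3 : ℕ) by norm_num, Real.rpow_natCast]
  push_cast
  field_simp

lemma II_maj_two {s : ℝ} (hs : 3 ≤ s) : II (maj 2) (s - 1) ≤ maj 3 s / 3 := by
  rw [II_maj (by norm_num) (by linarith), maj_of_ge hs, div_div, div_le_div_iff₀ (by
    have : 0 < s - 1 := by linarith
    positivity) (by positivity)]
  have h := pow_le_pow_left₀ (show 0 ≤ 2 * s by linarith) (show 2 * s ≤ 3 * (s - 1) by linarith) 3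
  nlinarith

lemma II_maj_three {s : ℝ} (hs : 2 ≤ s) : II (maj 3) (s - 1) ≤ 2.9 * maj 2 s := by
  rw [maj_of_ge hs]
  have s1 : 0 < s - 1 := by linarith
  rcases le_total 4 s with h | h
  · rw [II_maj (by norm_num) (by linarith), ← mul_div_assoc, div_le_div_iff₀ (by positivity)
      (by positivity)]
    have h := pow_le_pow_left₀ (show 0 ≤ 3 * s by linarith) (show 3 * s ≤ 4 * (s - 1) by linarith) 3
    nlinarith [pow_pos s1 3]
  · have h1 := (adm_maj (c := 3) (by norm_num)).slope' s1 (show s - 1 ≤ 3 by linarith)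
    rw [II_maj (x := 3) (by norm_num) le_rfl, maj_of_le (by norm_num) (by linarith)] at h1
    have h2 : (3 - (s - 1)) * (1 / (s - 1)) + 1 / 3 ≤ 2.9 * (2 ^ 3 / s ^ 3) := by
      have e : (3 - (s - 1)) * (1 / (s - 1)) + 1 / 3 = (11 - 2 * s) / (3 * (s - 1)) := by
        field_simp; ring
      rw [e, ← mul_div_assoc, div_le_div_iff₀ (by positivity) (by positivity)]
      nlinarith [mul_nonneg (sq_nonneg (s - 3.35))
        (show 0 ≤ 2 * (s - 1) ^ 2 + 6.4 * (s - 1) - 1.965 by nlinarith)]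
    linarith

/-- one full step of the recursion -/
noncomputable def stepB (u : ℝ → ℝ) (s : ℝ) : ℝ := II u (max s 2 - 1)

/-- one full step of the recursion -/
noncomputable def stepA (v : ℝ → ℝ) (s : ℝ) : ℝ := (3 - min (max s 1) 3) + II v (max s 3 - 1)

lemma stepB_le {u : ℝ → ℝ} (h : Adm u) {k : ℝ} (hk : 0 ≤ k) (hu : ∀ s, u s ≤ k * maj 3 s) (s : ℝ) :
    stepB u s ≤ 2.9 * k * maj 2 s := by
  have m := le_max_right s 2
  have := h.II_mono ((adm_maj (c := 3) (by norm_num)).smul hk) (x := max s 2 - 1) (by linarith)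
    fun t _ => hu t
  rw [II_smul] at this
  have h2 := mul_le_mul_of_nonneg_left (II_maj_three m) hk
  rw [maj_max] at h2
  unfold stepB; linarith

lemma stepB_adm {u : ℝ → ℝ} (h : Adm u) {k : ℝ} (hk : 0 ≤ k) (hu : ∀ s, u s ≤ k * maj 3 s) :
    Adm (stepB u) :=
  ((adm_maj (c := 2) (by norm_num)).smul (k := 2.9 * k) (by positivity)).of_le
    (fun x y hxy => h.II_anti (by linarith [le_max_right x 2])
      (by linarith [max_le_max_right 2 hxy]))
    (fun s => h.II_nonneg (by linarith [le_max_right s 2])) (stepB_le h hk hu)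

lemma stepA_le {v : ℝ → ℝ} (h : Adm v) {k : ℝ} (hk : 0 ≤ k) (hv : ∀ s, v s ≤ k * maj 2 s) (s : ℝ) :
    stepA v s ≤ (2 + k / 3) * maj 3 s := by
  have m := le_max_right s 3
  have := h.II_mono ((adm_maj (c := 2) (by norm_num)).smul hk) (x := max s 3 - 1) (by linarith)
    fun t _ => hv t
  rw [II_smul] at this
  have h2 := mul_le_mul_of_nonneg_left (II_maj_two m) hk
  rw [maj_max] at h2
  have h3 : 3 - min (max s 1) 3 ≤ 2 * maj 3 s := by
    rcases le_total s 3 with h4 | h4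
    · rw [maj_of_le (by norm_num) h4]
      have : 1 ≤ min (max s 1) 3 := le_min (le_max_right _ _) (by norm_num)
      linarith
    · rw [min_eq_right (h4.trans (le_max_left _ _))]
      linarith [maj_pos (c := 3) (by norm_num) s]
  unfold stepA; linarith

lemma stepA_anti {v : ℝ → ℝ} (h : Adm v) : Antitone (stepA v) := fun x y hxy =>
  add_le_add (sub_le_sub_left (min_le_min_right 3 (max_le_max_right 1 hxy)) 3)
    (h.II_anti (by linarith [le_max_right x 3]) (by linarith [max_le_max_right 3 hxy]))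

lemma stepA_nonneg {v : ℝ → ℝ} (h : Adm v) (s : ℝ) : 0 ≤ stepA v s :=
  add_nonneg (sub_nonneg.mpr (min_le_right _ _)) (h.II_nonneg (by linarith [le_max_right s 3]))

theorem exists_sieve_fn : ∃ a : ℝ → ℝ, Adm a ∧ (∀ s, a s ≤ 60 * maj 3 s) ∧
    ∀ s, a s = stepA (stepB a) s := by
  have m3 := (adm_maj (c := 3) (by norm_num)).smul (k := 60) (by norm_num)
  have mono : ∀ u v, Adm u → Adm v → (∀ s, v s ≤ 60 * maj 3 s) → (∀ s, u s ≤ v s) →
      ∀ s, stepA (stepB u) s ≤ stepA (stepB v) s := by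
    intro u v hu hv h1 h2 s
    refine add_le_add_right ((stepB_adm hu (by norm_num) fun s => (h2 s).trans (h1 s)).II_mono
      (stepB_adm hv (by norm_num) h1) (by linarith [le_max_right s 3]) fun t _ => ?_) _
    exact hu.II_mono hv (by linarith [le_max_right t 2]) fun r _ => h2 r
  have bd : ∀ u, Adm u → (∀ s, u s ≤ 60 * maj 3 s) → ∀ s, stepA (stepB u) s ≤ 60 * maj 3 s := by
    intro u hu h1 s
    have := stepA_le (stepB_adm hu (by norm_num) h1) (by norm_num) (stepB_le hu (by norm_num) h1) s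
    linarith
  let S := {u : ℝ → ℝ | Adm u ∧ (∀ s, u s ≤ 60 * maj 3 s) ∧ ∀ s, stepA (stepB u) s ≤ u s}
  have hS : (fun s => 60 * maj 3 s) ∈ S := ⟨m3, fun _ => le_rfl, bd _ m3 fun _ => le_rfl⟩
  have : Nonempty S := ⟨⟨_, hS⟩⟩
  let a : ℝ → ℝ := fun s => ⨅ u : S, u.1 s
  have bb : ∀ s, BddBelow (range fun u : S => u.1 s) := fun s =>
    ⟨0, by rintro _ ⟨u, rfl⟩; exact u.2.1.nonneg s⟩
  have le1 : ∀ u ∈ S, ∀ s, a s ≤ u s := fun u hu s => ciInf_le (bb s) ⟨u, hu⟩
  have a1 : ∀ s, a s ≤ 60 * maj 3 s := le1 _ hS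
  have aa : Adm a := m3.of_le (fun x y hxy => le_ciInf fun u => (le1 u.1 u.2 y).trans
    (u.2.1.anti hxy)) (fun s => le_ciInf fun u => u.2.1.nonneg s) a1
  have a2 : ∀ s, stepA (stepB a) s ≤ a s := fun s => le_ciInf fun u =>
    (mono a u.1 aa u.2.1 u.2.2.1 (le1 u.1 u.2) s).trans (u.2.2.2 s)
  have ab := stepB_adm aa (by norm_num) a1
  have a3 : Adm (stepA (stepB a)) := aa.of_le (stepA_anti ab) (stepA_nonneg ab) a2
  exact ⟨a, aa, a1, fun s => le_antisymm (le1 _ ⟨a3, bd a aa a1, mono _ a a3 aa a1 a2⟩ s) (a2 s)⟩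

end Pool.Agent.Lib.ANT
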