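import Pool.Agent.Lib.ANT.Rosser
import Pool.Agent.Lib.ANT.RosserFn

/-!
# The main term of the linear sieve (Jurkat-Richert)
-/

set_option autoImplicit false

namespace Pool.Agent.Lib.ANT

open Finset

/-- the hypothesis of the linear sieve -/
structure LinHyp (Ps : Finset ℕ) (g : ℕ → ℝ) (ε : ℝ) : Prop where
  two_le : ∀ p ∈ Ps, 2 ≤ p
  nonneg : ∀ p ∈ Ps, 0 ≤ g p
  lt_one : ∀ p ∈ Ps, g p < 1
  dim : ∀ u v : ℝ, 1 < u → u ≤ v →
    (∏ p ∈ Ps.filter (fun p : ℕ => u ≤ p ∧ (p : ℝ) < v), (1 - g p))⁻¹
      ≤ (1 + ε) * Real.log v / Real.log u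

/-- the elements below `z` -/
noncomputable def below (Ps : Finset ℕ) (z : ℝ) : Finset ℕ := Ps.filter (fun p : ℕ => (p : ℝ) < z)

/-- the sieve product -/
noncomputable def VV (Ps : Finset ℕ) (g : ℕ → ℝ) (z : ℝ) : ℝ := ∏ p ∈ below Ps z, (1 - g p)

variable {Ps : Finset ℕ} {g : ℕ → ℝ} {ε : ℝ}

lemma mem_below {z : ℝ} {p : ℕ} : p ∈ below Ps z ↔ p ∈ Ps ∧ (p : ℝ) < z := mem_filter

lemma below_filter {z : ℝ} {p : ℕ} (h : (p : ℝ) ≤ z) :
    (below Ps z).filter (fun q => q < p) = below Ps p := by
  ext q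
  simp only [mem_filter, mem_below, Nat.cast_lt]
  exact ⟨fun h => ⟨h.1.1, h.2⟩, fun k => ⟨⟨k.1, lt_of_lt_of_le (by exact_mod_cast k.2) h⟩, k.2⟩⟩

lemma LinHyp.VV_pos (H : LinHyp Ps g ε) (z : ℝ) : 0 < VV Ps g z :=
  prod_pos fun p hp => sub_pos.mpr (H.lt_one p (mem_below.mp hp).1)

lemma VV_rec (z : ℝ) : VV Ps g z = 1 - ∑ p ∈ below Ps z, g p * VV Ps g p := by
  rw [VV, prod_one_sub_ordered]
  congr 1
  exact sum_congr rfl fun p hp => by rw [below_filter (mem_below.mp hp).2.le, VV]

lemma LinHyp.VV_le (H : LinHyp Ps g ε) {u v : ℝ} (hu : 1 < u) (huv : u ≤ v) :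
    VV Ps g u ≤ VV Ps g v * ((1 + ε) * Real.log v / Real.log u) := by
  have e := prod_filter_mul_prod_filter_not (below Ps v) (fun p : ℕ => (p : ℝ) < u)
    (fun q => 1 - g q)
  have e1 : (below Ps v).filter (fun p : ℕ => (p : ℝ) < u) = below Ps u := by
    ext q
    simp only [mem_filter, mem_below]
    exact ⟨fun h => ⟨h.1.1, h.2⟩, fun k => ⟨⟨k.1, k.2.trans_le huv⟩, k.2⟩⟩
  have e2 : (below Ps v).filter (fun p : ℕ => ¬ (p : ℝ) < u)
      = Ps.filter (fun p : ℕ => u ≤ p ∧ (p : ℝ) < v) := by
    ext q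
    simp only [mem_filter, mem_below, not_lt]
    tauto
  rw [e1, e2] at e
  have P1 : 0 < ∏ p ∈ Ps.filter (fun p : ℕ => u ≤ p ∧ (p : ℝ) < v), (1 - g p) :=
    prod_pos fun q hq => sub_pos.mpr (H.lt_one q (mem_filter.mp hq).1)
  refine le_trans (le_of_eq ?_) (mul_le_mul_of_nonneg_left (H.dim u v hu huv) (H.VV_pos v).le)
  rw [VV, VV, ← e]; field_simp

lemma LinHyp.VV_anti (H : LinHyp Ps g ε) {u v : ℝ} (huv : u ≤ v) : VV Ps g v ≤ VV Ps g u := by
  refine prod_le_prod_of_subset_of_le_one ?_ (fun p hp => ?_) fun p hp _ => ?_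
  · intro q hq
    exact mem_below.mpr ⟨(mem_below.mp hq).1, (mem_below.mp hq).2.trans_le huv⟩
  · exact sub_nonneg.mpr (H.lt_one p (mem_below.mp hp).1).le
  · linarith [H.nonneg p (mem_below.mp hp).1]

lemma LinHyp.ps (H : LinHyp Ps g ε) (hε : 0 ≤ ε) {u : ℝ → ℝ} (hu : Adm u) {z L s : ℝ} (hz : 1 < z)
    (hs : s = L / Real.log z) (hs1 : 1 < s) :
    ∑ p ∈ below Ps z, g p * VV Ps g p * (u (L / Real.log p - 1) / (L / Real.log p - 1))
      ≤ VV Ps g z * (((1 + ε) * II u (s - 1) + ε * (s / (s - 1) * u (s - 1))) / s) := by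
  have lz := Real.log_pos hz
  have L0 : 0 < L := by
    have : L = s * Real.log z := by rw [hs]; field_simp
    rw [this]; positivity
  have lp : ∀ p ∈ below Ps z, 0 < Real.log p := fun p hp =>
    Real.log_pos (by exact_mod_cast H.two_le p (mem_below.mp hp).1)
  have p0 : ∀ p ∈ below Ps z, (1 : ℝ) < p := fun p hp => by
    exact_mod_cast H.two_le p (mem_below.mp hp).1
  have k := partial_sum (below Ps z) g (fun p => L / Real.log p) (fun t => u (t - 1) / (t - 1))
    (fun t => II u (t - 1)) (s := s) (by linarith) hε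
    (fun p hp => ⟨H.nonneg p (mem_below.mp hp).1, H.lt_one p (mem_below.mp hp).1⟩)
    (fun p hp => hs ▸ div_le_div_of_nonneg_left L0.le (lp p hp)
      (Real.log_le_log (by linarith [p0 p hp]) (mem_below.mp hp).2.le))
    (fun p hp q hq h => div_le_div_of_nonneg_left L0.le (lp p hp)
      (Real.log_le_log (by linarith [p0 p hp]) (by exact_mod_cast h)))
    (fun p hp => ?_)
    (fun x y h1 h2 => div_le_div₀ (hu.nonneg _) (hu.anti (by linarith)) (by linarith) (by linarith))
    (fun x h1 => div_nonneg (hu.nonneg _) (by linarith)) (fun x h1 => hu.II_nonneg (by linarith))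
    (fun x y h1 h2 => by
      have := hu.slope (x := x - 1) (y := y - 1) (by linarith) (by linarith)
      rwa [show y - 1 - (x - 1) = y - x by ring] at this)
  · refine le_trans (le_of_eq ?_) (k.trans (le_of_eq ?_))
    · exact sum_congr rfl fun p hp => by rw [below_filter (mem_below.mp hp).2.le, VV]
    · have : s - 1 ≠ 0 := by linarith
      have : s ≠ 0 := by linarith
      rw [VV]; field_simp
  · have e : (below Ps z).filter (fun q => p ≤ q)
        = Ps.filter (fun q : ℕ => (p : ℝ) ≤ q ∧ (q : ℝ) < z) := by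
      ext q
      simp only [mem_filter, mem_below, Nat.cast_le]
      tauto
    rw [e]
    refine (H.dim p z (p0 p hp) (mem_below.mp hp).2.le).trans (le_of_eq ?_)
    have := lp p hp
    rw [hs]; field_simp

lemma maj_three_shift {s : ℝ} (hs : 2 ≤ s) : maj 3 (s - 1) ≤ 8 * maj 2 s := by
  rw [maj_of_ge hs]
  rcases le_total 4 s with h | h
  · have s1 : 0 < s - 1 := by linarith
    rw [maj_of_ge (by linarith), ← mul_div_assoc, div_le_div_iff₀ (by positivity) (by positivity)]
    have h := pow_le_pow_left₀ (show 0 ≤ 3 * s by linarith) (show 3 * s ≤ 4 * (s - 1) by linarith) 3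
    nlinarith
  · rw [maj_of_le (by norm_num) (by linarith), ← mul_div_assoc, le_div_iff₀ (by positivity)]
    have h := pow_le_pow_left₀ (show 0 ≤ s by linarith) h 3
    linarith

lemma maj_two_shift {s : ℝ} (hs : 3 ≤ s) : maj 2 (s - 1) ≤ maj 3 s := by
  have s1 : 0 < s - 1 := by linarith
  rw [maj_of_ge hs, maj_of_ge (by linarith), div_le_div_iff₀ (by positivity) (by positivity)]
  have h := pow_le_pow_left₀ (show 0 ≤ 2 * s by linarith) (show 2 * s ≤ 3 * (s - 1) by linarith) 3
  nlinarith

lemma log_div_prime {D : ℝ} (hD : 0 < D) {p : ℕ} (hp : 2 ≤ p) :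
    Real.log (D / p) / Real.log p = Real.log D / Real.log p - 1 := by
  have p1 : (1 : ℝ) < p := by exact_mod_cast hp
  have := Real.log_pos p1
  rw [Real.log_div hD.ne' (by linarith)]; field_simp

theorem rosser_induct (H : LinHyp Ps g ε) (hε : 0 ≤ ε) (hε1 : ε ≤ 1 / 1000) {a : ℝ → ℝ}
    (ha : Adm a) (ha1 : ∀ s, a s ≤ 60 * maj 3 s) (ha2 : ∀ s, a s = stepA (stepB a) s) (N : ℕ) :
    ∀ z D : ℝ, 1 < z → z ≤ N →
      (z ≤ D → rSum 0 D (below Ps z) g ≤ VV Ps g z * (1 + (a (Real.log D / Real.log z)
        + ε * 200000 * maj 3 (Real.log D / Real.log z)) / (Real.log D / Real.log z))) ∧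
      (z ^ 2 ≤ D → VV Ps g z * (1 - (stepB a (Real.log D / Real.log z)
        + ε * 590000 * maj 2 (Real.log D / Real.log z)) / (Real.log D / Real.log z))
          ≤ rSum 1 D (below Ps z) g) := by
  have hb := stepB_adm ha (by norm_num) ha1
  have hb1 := stepB_le ha (by norm_num) ha1
  have m2 := adm_maj (c := 2) (by norm_num)
  have m3 := adm_maj (c := 3) (by norm_num)
  have hA := ha.add (m3.smul (k := ε * 200000) (by positivity))
  have hB := hb.add (m2.smul (k := ε * 590000) (by positivity))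
  induction N with
  | zero => intro z D h1 h2; simp only [Nat.cast_zero] at h2; linarith
  | succ N ih =>
  intro z D h1 h2
  have lz := Real.log_pos h1
  have pN : ∀ p ∈ below Ps z, (1 : ℝ) < p ∧ (p : ℝ) ≤ N := fun p hp =>
    ⟨by exact_mod_cast H.two_le p (mem_below.mp hp).1, by
      have : (p : ℝ) < (N + 1 : ℕ) := (mem_below.mp hp).2.trans_le h2
      exact_mod_cast Nat.lt_succ_iff.mp (by exact_mod_cast this)⟩
  have pos : ∀ p ∈ below Ps z, 0 < p := fun p hp => by
    have := H.two_le p (mem_below.mp hp).1; omega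
  constructor
  · intro hD
    have D0 : 0 < D := by linarith
    -- the bound at `z' = min z D^(1/3)`
    have main : ∀ z' s' : ℝ, 1 < z' → z' ≤ z → s' = Real.log D / Real.log z' → 3 ≤ s' →
        (∀ p ∈ below Ps z, (p : ℝ) ^ 3 < D ↔ (p : ℝ) < z') →
        rSum 0 D (below Ps z) g ≤ VV Ps g z' *
          (1 + (II (stepB a) (s' - 1) + ε * 198100 * maj 3 s') / s') := by
      intro z' s' z1 z2 e3 s3 hz'
      have k := H.ps hε hB z1 e3 (by linarith)
      have e1 : below Ps z' = (below Ps z).filter (fun p : ℕ => (0 : ℕ) = 0 → (p : ℝ) ^ 3 < D) := by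
        ext q
        rw [mem_filter]
        exact ⟨fun h => have := mem_below.mpr ⟨(mem_below.mp h).1, (mem_below.mp h).2.trans_le z2⟩
          ⟨this, fun _ => (hz' q this).mpr (mem_below.mp h).2⟩,
          fun h => mem_below.mpr ⟨(mem_below.mp h.1).1, (hz' q h.1).mp (h.2 rfl)⟩⟩
      rw [rSum_rec zero_le_one D _ pos, ← sum_filter, ← e1]
      have t : ∑ p ∈ below Ps z', (g p * VV Ps g p - g p * VV Ps g p *
          ((stepB a (Real.log D / Real.log p - 1) + ε * 590000 * maj 2 (Real.log D / Real.log p - 1))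
            / (Real.log D / Real.log p - 1)))
          ≤ ∑ p ∈ below Ps z', g p * rSum (1 - 0) (D / p) ((below Ps z).filter (fun q => q < p)) g := by
        refine sum_le_sum fun p hp => ?_
        have hp' := e1 ▸ hp
        rw [mem_filter] at hp'
        have q1 := pN p hp'.1
        have i := (ih p (D / p) q1.1 q1.2).2 (by
          rw [le_div_iff₀ (by linarith)]; linarith [hp'.2 rfl])
        rw [log_div_prime D0 (H.two_le p (mem_below.mp hp).1)] at i
        rw [below_filter (mem_below.mp hp'.1).2.le]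
        have := mul_le_mul_of_nonneg_left i (H.nonneg p (mem_below.mp hp).1)
        linarith
      rw [sum_sub_distrib] at t
      have v := VV_rec (Ps := Ps) (g := g) z'
      have c : (1 + ε) * II (fun s => stepB a s + ε * 590000 * maj 2 s) (s' - 1) + ε * (s' / (s' - 1)
          * (stepB a (s' - 1) + ε * 590000 * maj 2 (s' - 1)))
          ≤ II (stepB a) (s' - 1) + ε * 198100 * maj 3 s' := by
        rw [hb.II_add (m2.smul (by positivity)) (by linarith), II_smul]
        have c1 := II_maj_two s3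
        have c2 := hb.II_mono (m2.smul (k := 2.9 * 60) (by norm_num)) (x := s' - 1) (by linarith)
          fun t _ => hb1 t
        rw [II_smul] at c2
        have c3 : s' / (s' - 1) ≤ 3 / 2 := by rw [div_le_iff₀ (by linarith)]; linarith
        have c4 := maj_two_shift s3
        have c5 := hb1 (s' - 1)
        have c6 := maj_pos (c := 3) (by norm_num) s'
        have c7 : stepB a (s' - 1) + ε * 590000 * maj 2 (s' - 1) ≤ 764 * maj 3 s' := by
          nlinarith [m2.nonneg (s' - 1)]
        have c8 := mul_le_mul c3 c7 (hB.nonneg _) (by norm_num)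
        have c9 : II (stepB a) (s' - 1) + (1 + ε) * 590000 * II (maj 2) (s' - 1)
            ≤ 196922 * maj 3 s' := by nlinarith [m2.II_nonneg (x := s' - 1) (by linarith)]
        nlinarith [mul_le_mul_of_nonneg_left c8 hε, mul_le_mul_of_nonneg_left c9 hε,
          mul_nonneg hε c6.le]
      have c' := mul_le_mul_of_nonneg_left (div_le_div_of_nonneg_right c (by linarith : 0 ≤ s'))
        (H.VV_pos z').le
      linarith
    set s := Real.log D / Real.log z with hs
    have s1 : 1 ≤ s := by rw [hs, le_div_iff₀ lz, one_mul]; exact Real.log_le_log (by linarith) hD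
    have V0 := H.VV_pos z
    rcases le_total 3 s with h3 | h3
    · have k := main z s h1 le_rfl hs h3 fun p hp => ⟨fun _ => (mem_below.mp hp).2, fun h => ?_⟩
      · rw [ha2 s, stepA, min_eq_right (h3.trans (le_max_left _ _)), max_eq_left h3]
        refine k.trans (mul_le_mul_of_nonneg_left (add_le_add_right
          (div_le_div_of_nonneg_right ?_ (by linarith)) _) V0.le)
        nlinarith [mul_nonneg hε (m3.nonneg s)]
      · rw [hs, le_div_iff₀ lz] at h3
        refine (pow_lt_pow_left₀ h (Nat.cast_nonneg _) (by norm_num)).trans_le ?_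
        rw [← Real.log_le_log_iff (by positivity) D0, Real.log_pow]
        exact_mod_cast h3
    · have L0 : 0 < Real.log D := Real.log_pos (by linarith)
      have z1 : 1 < Real.exp (Real.log D / 3) := Real.one_lt_exp_iff.mpr (by positivity)
      have z2 : Real.exp (Real.log D / 3) ≤ z := by
        rw [← Real.le_log_iff_exp_le (by linarith)]
        rw [hs, div_le_iff₀ lz] at h3; linarith
      have k := main _ 3 z1 z2 (by rw [Real.log_exp]; field_simp) le_rfl fun p hp => by
        have q1 := (pN p hp).1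
        rw [← Real.log_lt_iff_lt_exp (by linarith), ← Real.log_lt_log_iff (by positivity) D0,
          Real.log_pow, lt_div_iff₀ (by norm_num), mul_comm]
        norm_num
      have k2 := H.VV_le z1 z2
      rw [Real.log_exp] at k2
      have e : (1 + ε) * Real.log z / (Real.log D / 3) = (1 + ε) * 3 / s := by
        rw [hs]; field_simp
      rw [e] at k2
      rw [maj_of_le (by norm_num) le_rfl] at k
      have c1 := II_maj_two (s := 3) le_rfl
      have c2 := hb.II_mono (m2.smul (k := 2.9 * 60) (by norm_num)) (x := 3 - 1) (by linarith)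
        fun t _ => hb1 t
      rw [II_smul] at c2
      rw [maj_of_le (by norm_num) le_rfl] at c1
      have c0 := hb.II_nonneg (x := 3 - 1) (by norm_num)
      rw [ha2 s, stepA, max_eq_left s1, min_eq_left h3, max_eq_right h3, maj_of_le (by norm_num) h3]
      refine k.trans ((mul_le_mul_of_nonneg_right k2 (by positivity)).trans ?_)
      rw [mul_assoc]
      refine mul_le_mul_of_nonneg_left ?_ V0.le
      have s0 : 0 < s := by linarith
      rw [div_mul_eq_mul_div, div_le_iff₀ s0, add_mul 1 _ s, div_mul_cancel₀ _ s0.ne']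
      nlinarith
  · intro hD
    have D0 : 0 < D := lt_of_lt_of_le (by positivity) hD
    set s := Real.log D / Real.log z with hs
    have s2 : 2 ≤ s := by
      rw [hs, le_div_iff₀ lz]
      have := Real.log_le_log (by positivity) hD
      rw [Real.log_pow] at this
      exact_mod_cast this
    have k := H.ps hε hA h1 hs (by linarith)
    rw [rSum_rec le_rfl D _ pos]
    have t : ∑ p ∈ below Ps z, (if ((1 : ℕ) = 0 → (p : ℝ) ^ 3 < D) then
        g p * rSum (1 - 1) (D / p) ((below Ps z).filter (fun q => q < p)) g else 0)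
        ≤ ∑ p ∈ below Ps z, (g p * VV Ps g p + g p * VV Ps g p *
          ((a (Real.log D / Real.log p - 1) + ε * 200000 * maj 3 (Real.log D / Real.log p - 1))
            / (Real.log D / Real.log p - 1))) := by
      refine sum_le_sum fun p hp => ?_
      have q1 := pN p hp
      have q2 := (mem_below.mp hp).2
      have i := (ih p (D / p) q1.1 q1.2).1 (by rw [le_div_iff₀ (by linarith)]; nlinarith)
      rw [log_div_prime D0 (H.two_le p (mem_below.mp hp).1)] at i
      rw [if_pos (by simp), below_filter q2.le]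
      have := mul_le_mul_of_nonneg_left i (H.nonneg p (mem_below.mp hp).1)
      linarith
    rw [sum_add_distrib] at t
    have v := VV_rec (Ps := Ps) (g := g) z
    have c : (1 + ε) * II (fun s => a s + ε * 200000 * maj 3 s) (s - 1) + ε * (s / (s - 1)
        * (a (s - 1) + ε * 200000 * maj 3 (s - 1))) ≤ stepB a s + ε * 590000 * maj 2 s := by
      rw [ha.II_add (m3.smul (by positivity)) (by linarith), II_smul]
      have c0 : stepB a s = II a (s - 1) := by rw [stepB, max_eq_left s2]
      have c1 := II_maj_three s2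
      have c3 : s / (s - 1) ≤ 2 := by rw [div_le_iff₀ (by linarith)]; linarith
      have c4 := maj_three_shift s2
      have c5 := ha1 (s - 1)
      have c6 := maj_pos (c := 2) (by norm_num) s
      have c7 : a (s - 1) + ε * 200000 * maj 3 (s - 1) ≤ 2080 * maj 2 s := by
        nlinarith [m3.nonneg (s - 1)]
      have c8 := mul_le_mul c3 c7 (hA.nonneg _) (by norm_num)
      have c9 : II a (s - 1) + (1 + ε) * 200000 * II (maj 3) (s - 1) ≤ 580800 * maj 2 s := by
        nlinarith [m3.II_nonneg (x := s - 1) (by linarith), hb1 s]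
      rw [c0]
      nlinarith [mul_le_mul_of_nonneg_left c8 hε, mul_le_mul_of_nonneg_left c9 hε,
        mul_nonneg hε c6.le]
    have c' := mul_le_mul_of_nonneg_left (div_le_div_of_nonneg_right c (by linarith : 0 ≤ s))
      (H.VV_pos z).le
    linarith

/-- lower bound for the main term of the lower sieve -/
theorem rosser_lower (H : LinHyp Ps g ε) (hε : 0 ≤ ε) (hε1 : ε ≤ 1 / 1000) {z D : ℝ} (hz : 1 < z)
    (hD : z ^ 12 ≤ D) : VV Ps g z / 2 ≤ rSum 1 D (below Ps z) g := by
  obtain ⟨a, ha, ha1, ha2⟩ := exists_sieve_fn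
  have lz := Real.log_pos hz
  have k := (rosser_induct H hε hε1 ha ha1 ha2 ⌈z⌉₊ z D hz (Nat.le_ceil z)).2
    ((pow_le_pow_right₀ hz.le (by norm_num)).trans hD)
  set s := Real.log D / Real.log z with hs
  have s2 : 12 ≤ s := by
    rw [hs, le_div_iff₀ lz]
    have := Real.log_le_log (by positivity) hD
    rw [Real.log_pow] at this
    exact_mod_cast this
  have c1 := stepB_le ha (by norm_num) ha1 s
  have c2 := maj_anti (c := 2) (by norm_num) s2
  rw [maj_of_ge (s := 12) (by norm_num)] at c2
  have c3 := maj_pos (c := 2) (by norm_num) s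
  have c : (stepB a s + ε * 590000 * maj 2 s) / s ≤ 1 / 2 := by
    rw [div_le_iff₀ (by linarith)]; nlinarith
  have := mul_le_mul_of_nonneg_left c (H.VV_pos z).le
  linarith

/-- upper bound for the main term of the upper sieve -/
theorem rosser_upper (H : LinHyp Ps g ε) (hε : 0 ≤ ε) (hε1 : ε ≤ 1 / 1000) {a : ℝ → ℝ}
    (ha : Adm a) (ha1 : ∀ s, a s ≤ 60 * maj 3 s) (ha2 : ∀ s, a s = stepA (stepB a) s)
    {z : ℝ} (hz : 1 < z) :
    rSum 0 (z ^ 3) (below Ps z) g ≤ VV Ps g z * ((a 3 + 3 + ε * 200000) / 3) := by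
  have lz := Real.log_pos hz
  have k := (rosser_induct H hε hε1 ha ha1 ha2 ⌈z⌉₊ z (z ^ 3) hz (Nat.le_ceil z)).1
    (le_self_pow₀ hz.le (by norm_num))
  have e : Real.log (z ^ 3) / Real.log z = 3 := by rw [Real.log_pow]; field_simp; norm_num
  rw [e, maj_of_le (by norm_num) le_rfl] at k
  refine k.trans (le_of_eq ?_)
  ring

end Pool.Agent.Lib.ANT
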