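import Mathlib.NumberTheory.SelbergSieve
import Mathlib.Algebra.Order.BigOperators.Ring.Finset
import Mathlib.Tactic.Positivity
import Mathlib.Tactic.Linarith
import Mathlib.Tactic.GCongr

/-!
# The Selberg upper bound sieve (fundamental theorem)

We finish the Selberg sieve set up in Mathlib: optimal weights, the bound `|w d| ≤ 1`, and the
fundamental inequality, first for a `BoundingSieve` and then for an arbitrary weighted family.
-/

noncomputable section

open Finset Nat ArithmeticFunction
open scoped ArithmeticFunction.Moebius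

namespace Pool.Agent.Lib.ANT

/-- For squarefree `k` the sum of `μ d` over `l ∣ d ∣ k` is `μ l` if `k = l` and `0` otherwise. -/
theorem sum_moebius_between {P k l : ℕ} (hP : Squarefree P) (hk : k ∣ P) :
    (∑ d ∈ P.divisors, if l ∣ d ∧ d ∣ k then (μ d : ℝ) else 0) = if k = l then (μ l : ℝ) else 0 := by
  have hP0 : P ≠ 0 := hP.ne_zero
  have hksq : Squarefree k := hP.squarefree_of_dvd hk
  have hk0 : k ≠ 0 := hksq.ne_zero
  by_cases hlk : l ∣ k
  · obtain ⟨m, rfl⟩ := hlk
    have hl0 : l ≠ 0 := left_ne_zero_of_mul hk0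
    have hm0 : m ≠ 0 := right_ne_zero_of_mul hk0
    have hcop : l.Coprime m := Nat.coprime_of_squarefree_mul hksq
    have h1 : (∑ d ∈ P.divisors, if l ∣ d ∧ d ∣ l * m then (μ d : ℝ) else 0)
        = ∑ e ∈ m.divisors, (μ (l * e) : ℝ) := by
      rw [← Finset.sum_filter]
      symm
      refine Finset.sum_bij (fun e _ => l * e) ?_ ?_ ?_ ?_
      · intro e he
        have he' := Nat.dvd_of_mem_divisors he
        simp only [Finset.mem_filter, Nat.mem_divisors]
        exact ⟨⟨(Nat.mul_dvd_mul_left l he').trans hk, hP0⟩, Dvd.intro _ rfl,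
          Nat.mul_dvd_mul_left l he'⟩
      · intro a _ b _ hab
        exact Nat.eq_of_mul_eq_mul_left (Nat.pos_of_ne_zero hl0) hab
      · intro d hd
        simp only [Finset.mem_filter, Nat.mem_divisors] at hd
        obtain ⟨-, ⟨e, rfl⟩, hde⟩ := hd
        exact ⟨e, Nat.mem_divisors.mpr
          ⟨Nat.dvd_of_mul_dvd_mul_left (Nat.pos_of_ne_zero hl0) hde, hm0⟩, rfl⟩
      · intro e _; rfl
    rw [h1]
    have h2 : ∀ e ∈ m.divisors, (μ (l * e) : ℝ) = μ l * μ e := by
      intro e he
      rw [isMultiplicative_moebius.map_mul_of_coprime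
        (hcop.coprime_dvd_right (Nat.dvd_of_mem_divisors he))]
      push_cast; ring
    rw [Finset.sum_congr rfl h2, ← Finset.mul_sum]
    have h3 : (∑ e ∈ m.divisors, (μ e : ℝ)) = if m = 1 then 1 else 0 := by
      have := congrArg (fun f : ArithmeticFunction ℝ => f m) (coe_moebius_mul_coe_zeta (R := ℝ))
      simp only [coe_mul_zeta_apply, intCoe_apply, one_apply] at this
      exact this
    rw [h3]
    by_cases hm1 : m = 1
    · simp [hm1]
    · have : l * m ≠ l := fun h => hm1 (by
        have h' : l * m = l * 1 := by simpa using h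
        exact Nat.eq_of_mul_eq_mul_left (Nat.pos_of_ne_zero hl0) h')
      simp [hm1, this]
  · have : k ≠ l := fun h => hlk (h ▸ dvd_rfl)
    rw [if_neg this]
    refine Finset.sum_eq_zero fun d _ => ?_
    rw [if_neg]
    rintro ⟨h1, h2⟩
    exact hlk (h1.trans h2)

section Weights

variable (s : BoundingSieve) (z : ℝ)

/-- The Selberg sum `S = ∑_{l ∣ P, l ≤ z} g l`. -/
def selbergSum : ℝ := ∑ l ∈ s.prodPrimes.divisors, if (l : ℝ) ≤ z then s.selbergTerms l else 0

/-- The optimal Selberg weights. -/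
def selbergWeight (d : ℕ) : ℝ :=
  (s.nu d)⁻¹ * (selbergSum s z)⁻¹ * μ d *
    ∑ l ∈ s.prodPrimes.divisors, if d ∣ l ∧ (l : ℝ) ≤ z then s.selbergTerms l else 0

variable {z}

theorem one_le_selbergSum (hz : 1 ≤ z) : 1 ≤ selbergSum s z := by
  unfold selbergSum
  have h1 : (1 : ℕ) ∈ s.prodPrimes.divisors :=
    Nat.one_mem_divisors.mpr BoundingSieve.prodPrimes_ne_zero
  have := Finset.single_le_sum (f := fun l : ℕ => if (l : ℝ) ≤ z then s.selbergTerms l else 0)
    (s := s.prodPrimes.divisors) (fun l hl => by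
      split_ifs
      · exact (BoundingSieve.selbergTerms_pos (Nat.dvd_of_mem_divisors hl)).le
      · exact le_rfl) h1
  simpa [hz, BoundingSieve.selbergTerms_isMultiplicative.map_one] using this

theorem selbergWeight_one (hz : 1 ≤ z) : selbergWeight s z 1 = 1 := by
  have h := one_le_selbergSum s hz
  unfold selbergWeight
  simp only [s.nu_mult.map_one, inv_one, one_mul, moebius_apply_one, Int.cast_one, mul_one,
    one_dvd, true_and]
  exact inv_mul_cancel₀ (by unfold selbergSum at h ⊢; linarith)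

theorem selbergWeight_eq_zero {d : ℕ} (hd : z < d) : selbergWeight s z d = 0 := by
  unfold selbergWeight
  rw [Finset.sum_eq_zero, mul_zero]
  intro l hl
  rw [if_neg]
  rintro ⟨h1, h2⟩
  have : d ≤ l := Nat.le_of_dvd (Nat.pos_of_mem_divisors hl) h1
  have : (d : ℝ) ≤ l := by exact_mod_cast this
  linarith

theorem selbergWeight_diag {l : ℕ} (hl : l ∈ s.prodPrimes.divisors) :
    (∑ d ∈ s.prodPrimes.divisors, if l ∣ d then s.nu d * selbergWeight s z d else 0) =
      if (l : ℝ) ≤ z then s.selbergTerms l * μ l * (selbergSum s z)⁻¹ else 0 := by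
  have h1 : ∀ d ∈ s.prodPrimes.divisors,
      (if l ∣ d then s.nu d * selbergWeight s z d else 0) =
      ∑ k ∈ s.prodPrimes.divisors, (selbergSum s z)⁻¹ *
        (if (k : ℝ) ≤ z then s.selbergTerms k else 0) *
        (if l ∣ d ∧ d ∣ k then (μ d : ℝ) else 0) := by
    intro d hd
    have hν : s.nu d ≠ 0 := BoundingSieve.nu_ne_zero (Nat.dvd_of_mem_divisors hd)
    by_cases hld : l ∣ d
    · rw [if_pos hld]
      unfold selbergWeight
      rw [Finset.mul_sum, Finset.mul_sum]
      refine Finset.sum_congr rfl fun k _ => ?_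
      by_cases h1 : d ∣ k <;> by_cases h2 : (k : ℝ) ≤ z <;> simp [h1, h2, hld]
      field_simp
    · simp [hld]
  rw [Finset.sum_congr rfl h1, Finset.sum_comm]
  simp_rw [← Finset.mul_sum]
  have h2 : ∀ k ∈ s.prodPrimes.divisors, (selbergSum s z)⁻¹ *
        (if (k : ℝ) ≤ z then s.selbergTerms k else 0) *
        (∑ d ∈ s.prodPrimes.divisors, if l ∣ d ∧ d ∣ k then (μ d : ℝ) else 0) =
        if k = l then (if (l : ℝ) ≤ z then s.selbergTerms l * μ l * (selbergSum s z)⁻¹ else 0)
          else 0 := by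
    intro k hk
    rw [sum_moebius_between s.prodPrimes_squarefree (Nat.dvd_of_mem_divisors hk)]
    by_cases hkl : k = l
    · subst hkl
      by_cases h2 : (k : ℝ) ≤ z <;> simp [h2]
      ring
    · simp [hkl]
  rw [Finset.sum_congr rfl h2, Finset.sum_ite_eq' , if_pos hl]

theorem mainSum_selbergWeight (hz : 1 ≤ z) :
    s.mainSum (BoundingSieve.lambdaSquared (selbergWeight s z)) = (selbergSum s z)⁻¹ := by
  have hS := one_le_selbergSum s hz
  rw [BoundingSieve.mainSum_lambdaSquared_eq_sum_mul_sum_sq]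
  have h1 : ∀ l ∈ s.prodPrimes.divisors, (s.selbergTerms l)⁻¹ *
      (∑ d ∈ s.prodPrimes.divisors, if l ∣ d then s.nu d * selbergWeight s z d else 0) ^ 2 =
      (selbergSum s z)⁻¹ ^ 2 * (if (l : ℝ) ≤ z then s.selbergTerms l else 0) := by
    intro l hl
    rw [selbergWeight_diag s hl]
    have hg : s.selbergTerms l ≠ 0 :=
      (BoundingSieve.selbergTerms_pos (Nat.dvd_of_mem_divisors hl)).ne'
    have hμ : (μ l : ℝ) ^ 2 = 1 := by
      exact_mod_cast moebius_sq_eq_one_of_squarefree
        (BoundingSieve.squarefree_of_mem_divisors_prodPrimes hl)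
    split_ifs
    · rw [mul_pow, mul_pow, hμ]; field_simp
    · simp
  rw [Finset.sum_congr rfl h1, ← Finset.mul_sum]
  change (selbergSum s z)⁻¹ ^ 2 * selbergSum s z = _
  field_simp

theorem abs_selbergWeight_le_one (hz : 1 ≤ z) {d : ℕ} (hd : d ∈ s.prodPrimes.divisors) :
    |selbergWeight s z d| ≤ 1 := by
  have hS := one_le_selbergSum s hz
  have hdP := Nat.dvd_of_mem_divisors hd
  have hP0 : s.prodPrimes ≠ 0 := BoundingSieve.prodPrimes_ne_zero
  have hν : 0 < s.nu d := BoundingSieve.nu_pos_of_dvd_prodPrimes hdP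
  have hd0 : 0 < d := Nat.pos_of_mem_divisors hd
  set T : ℝ := ∑ l ∈ s.prodPrimes.divisors,
    if d ∣ l ∧ (l : ℝ) ≤ z then s.selbergTerms l else 0 with hT
  have hgpos : ∀ l ∈ s.prodPrimes.divisors, 0 ≤ s.selbergTerms l := fun l hl =>
    (BoundingSieve.selbergTerms_pos (Nat.dvd_of_mem_divisors hl)).le
  have hT0 : 0 ≤ T := Finset.sum_nonneg fun l hl => by
    split_ifs
    · exact hgpos l hl
    · exact le_rfl
  -- key inequality
  have key : (s.nu d)⁻¹ * T ≤ selbergSum s z := by
    have hsum := BoundingSieve.sum_divisors_selbergTerms_eq_selbergTerms_mul_nu_inv hdP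
    rw [← Finset.sum_filter, Nat.divisors_filter_dvd_of_dvd hP0 hdP] at hsum
    set L := s.prodPrimes.divisors.filter (fun l => d ∣ l ∧ (l : ℝ) ≤ z) with hL
    have hTL : T = ∑ l ∈ L, s.selbergTerms l := by rw [hT, hL, Finset.sum_filter]
    have hcop : ∀ l ∈ L, d.Coprime (l / d) := by
      intro l hl
      simp only [hL, Finset.mem_filter] at hl
      apply Nat.coprime_of_squarefree_mul
      rw [Nat.mul_div_cancel' hl.2.1]
      exact BoundingSieve.squarefree_of_mem_divisors_prodPrimes hl.1
    have h1 : (s.nu d)⁻¹ * T = ∑ x ∈ L ×ˢ d.divisors, s.selbergTerms (x.2 * (x.1 / d)) := by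
      rw [hTL, Finset.mul_sum, Finset.sum_product]
      refine Finset.sum_congr rfl fun l hl => ?_
      have hl' := hl
      simp only [hL, Finset.mem_filter] at hl'
      have : s.selbergTerms l = s.selbergTerms d * s.selbergTerms (l / d) := by
        conv_lhs => rw [← Nat.mul_div_cancel' hl'.2.1]
        exact BoundingSieve.selbergTerms_isMultiplicative.map_mul_of_coprime (hcop l hl)
      rw [this, ← mul_assoc, mul_comm (s.nu d)⁻¹, ← hsum, Finset.sum_mul]
      refine Finset.sum_congr rfl fun e he => ?_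
      exact (BoundingSieve.selbergTerms_isMultiplicative.map_mul_of_coprime
        ((hcop l hl).coprime_dvd_left (Nat.dvd_of_mem_divisors he))).symm
    rw [h1]
    have hinj : Set.InjOn (fun x : ℕ × ℕ => x.2 * (x.1 / d)) (L ×ˢ d.divisors : Finset (ℕ × ℕ)) := by
      rintro ⟨l1, e1⟩ h1 ⟨l2, e2⟩ h2 h
      simp only [Finset.coe_product, Set.mem_prod, Finset.mem_coe] at h1 h2
      simp only at h
      have g1 : Nat.gcd (e1 * (l1 / d)) d = e1 := by
        rw [Nat.Coprime.gcd_mul_right_cancel _ (hcop l1 h1.1).symm]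
        exact Nat.gcd_eq_left (Nat.dvd_of_mem_divisors h1.2)
      have g2 : Nat.gcd (e2 * (l2 / d)) d = e2 := by
        rw [Nat.Coprime.gcd_mul_right_cancel _ (hcop l2 h2.1).symm]
        exact Nat.gcd_eq_left (Nat.dvd_of_mem_divisors h2.2)
      have he : e1 = e2 := by rw [← g1, ← g2, h]
      subst he
      have he0 : 0 < e1 := Nat.pos_of_mem_divisors h1.2
      have hq := Nat.eq_of_mul_eq_mul_left he0 h
      have hd1 : d ∣ l1 := (Finset.mem_filter.mp h1.1).2.1
      have hd2 : d ∣ l2 := (Finset.mem_filter.mp h2.1).2.1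
      have : l1 = l2 := by rw [← Nat.mul_div_cancel' hd1, ← Nat.mul_div_cancel' hd2, hq]
      rw [this]
    rw [← Finset.sum_image (f := fun n => s.selbergTerms n) hinj]
    unfold selbergSum
    rw [← Finset.sum_filter]
    refine Finset.sum_le_sum_of_subset_of_nonneg ?_ ?_
    · intro n hn
      simp only [Finset.mem_image, Finset.mem_product, Prod.exists] at hn
      obtain ⟨l, e, ⟨hl, he⟩, rfl⟩ := hn
      have hl' := hl
      simp only [hL, Finset.mem_filter] at hl'
      have hdvd : e * (l / d) ∣ l := by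
        conv_rhs => rw [← Nat.mul_div_cancel' hl'.2.1]
        exact Nat.mul_dvd_mul_right (Nat.dvd_of_mem_divisors he) _
      refine Finset.mem_filter.mpr ⟨Nat.mem_divisors.mpr
        ⟨hdvd.trans (Nat.dvd_of_mem_divisors hl'.1), hP0⟩, ?_⟩
      have : e * (l / d) ≤ l := Nat.le_of_dvd (Nat.pos_of_mem_divisors hl'.1) hdvd
      have : ((e * (l / d) : ℕ) : ℝ) ≤ l := by exact_mod_cast this
      linarith [hl'.2.2]
    · intro n hn _
      exact hgpos n (Finset.mem_filter.mp hn).1
  have hμ : |(μ d : ℝ)| ≤ 1 := by exact_mod_cast abs_moebius_le_one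
  unfold selbergWeight
  rw [← hT, abs_mul, abs_mul, abs_mul, abs_of_nonneg hT0, abs_of_nonneg (inv_nonneg.mpr hν.le),
    abs_of_nonneg (inv_nonneg.mpr (by linarith : 0 ≤ selbergSum s z))]
  have hS0 : 0 < selbergSum s z := by linarith
  calc (s.nu d)⁻¹ * (selbergSum s z)⁻¹ * |(μ d : ℝ)| * T
      ≤ (s.nu d)⁻¹ * (selbergSum s z)⁻¹ * 1 * T := by gcongr
    _ = ((s.nu d)⁻¹ * T) * (selbergSum s z)⁻¹ := by ring
    _ ≤ selbergSum s z * (selbergSum s z)⁻¹ := by gcongr
    _ = 1 := mul_inv_cancel₀ hS0.ne'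

theorem errSum_selbergWeight_le (hz : 1 ≤ z) :
    s.errSum (BoundingSieve.lambdaSquared (selbergWeight s z)) ≤
      ∑ d1 ∈ s.prodPrimes.divisors.filter (fun d : ℕ => (d : ℝ) ≤ z),
        ∑ d2 ∈ s.prodPrimes.divisors.filter (fun d : ℕ => (d : ℝ) ≤ z),
          |s.rem (Nat.lcm d1 d2)| := by
  have hP0 : s.prodPrimes ≠ 0 := BoundingSieve.prodPrimes_ne_zero
  unfold BoundingSieve.errSum BoundingSieve.lambdaSquared
  have hw : ∀ d ∈ s.prodPrimes.divisors,
      |selbergWeight s z d| ≤ if (d : ℝ) ≤ z then 1 else 0 := by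
    intro d hd
    split_ifs with h
    · exact abs_selbergWeight_le_one s hz hd
    · rw [selbergWeight_eq_zero s (lt_of_not_ge h)]; simp
  calc ∑ d ∈ s.prodPrimes.divisors, |∑ d1 ∈ d.divisors, ∑ d2 ∈ d.divisors,
          if d = Nat.lcm d1 d2 then selbergWeight s z d1 * selbergWeight s z d2 else 0| * |s.rem d|
      ≤ ∑ d ∈ s.prodPrimes.divisors, ∑ d1 ∈ s.prodPrimes.divisors, ∑ d2 ∈ s.prodPrimes.divisors,
          if d = Nat.lcm d1 d2 then
            (if (d1 : ℝ) ≤ z then 1 else 0) * (if (d2 : ℝ) ≤ z then 1 else 0) *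
              |s.rem (Nat.lcm d1 d2)| else 0 := by
        refine Finset.sum_le_sum fun d hd => ?_
        have hsub : d.divisors ⊆ s.prodPrimes.divisors :=
          Nat.divisors_subset_of_dvd hP0 (Nat.dvd_of_mem_divisors hd)
        calc _ ≤ (∑ d1 ∈ d.divisors, ∑ d2 ∈ d.divisors, |if d = Nat.lcm d1 d2 then
                selbergWeight s z d1 * selbergWeight s z d2 else 0|) * |s.rem d| := by
              gcongr
              refine (Finset.abs_sum_le_sum_abs _ _).trans (Finset.sum_le_sum fun d1 _ => ?_)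
              exact Finset.abs_sum_le_sum_abs _ _
          _ ≤ (∑ d1 ∈ s.prodPrimes.divisors, ∑ d2 ∈ s.prodPrimes.divisors,
                |if d = Nat.lcm d1 d2 then
                selbergWeight s z d1 * selbergWeight s z d2 else 0|) * |s.rem d| := by
              refine mul_le_mul_of_nonneg_right ?_ (abs_nonneg _)
              refine (Finset.sum_le_sum fun d1 _ => Finset.sum_le_sum_of_subset_of_nonneg hsub
                (fun _ _ _ => abs_nonneg _)).trans ?_
              exact Finset.sum_le_sum_of_subset_of_nonneg hsub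
                (fun _ _ _ => Finset.sum_nonneg fun _ _ => abs_nonneg _)
          _ ≤ _ := by
              rw [Finset.sum_mul]
              refine Finset.sum_le_sum fun d1 hd1 => ?_
              rw [Finset.sum_mul]
              refine Finset.sum_le_sum fun d2 hd2 => ?_
              by_cases h : d = Nat.lcm d1 d2
              · rw [if_pos h, if_pos h, abs_mul, ← h]
                refine mul_le_mul_of_nonneg_right ?_ (abs_nonneg _)
                exact mul_le_mul (hw d1 hd1) (hw d2 hd2) (abs_nonneg _)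
                  (by split_ifs <;> norm_num)
              · simp [h]
    _ = ∑ d1 ∈ s.prodPrimes.divisors, ∑ d2 ∈ s.prodPrimes.divisors,
            (if (d1 : ℝ) ≤ z then 1 else 0) * (if (d2 : ℝ) ≤ z then 1 else 0) *
              |s.rem (Nat.lcm d1 d2)| := by
        rw [Finset.sum_comm]
        refine Finset.sum_congr rfl fun d1 hd1 => ?_
        rw [Finset.sum_comm]
        refine Finset.sum_congr rfl fun d2 hd2 => ?_
        rw [Finset.sum_ite_eq', if_pos]
        exact Nat.mem_divisors.mpr ⟨Nat.lcm_dvd (Nat.dvd_of_mem_divisors hd1)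
          (Nat.dvd_of_mem_divisors hd2), hP0⟩
    _ = _ := by
        rw [Finset.sum_filter]
        refine Finset.sum_congr rfl fun d1 _ => ?_
        rw [Finset.sum_filter]
        split_ifs with h1
        · refine Finset.sum_congr rfl fun d2 _ => ?_
          split_ifs <;> simp
        · simp

/-- Fundamental theorem of the Selberg upper bound sieve for a `BoundingSieve`. -/
theorem selberg_boundingSieve (hz : 1 ≤ z) :
    s.siftedSum ≤ s.totalMass / selbergSum s z +
      ∑ d1 ∈ s.prodPrimes.divisors.filter (fun d : ℕ => (d : ℝ) ≤ z),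
        ∑ d2 ∈ s.prodPrimes.divisors.filter (fun d : ℕ => (d : ℝ) ≤ z),
          |s.rem (Nat.lcm d1 d2)| := by
  have h := BoundingSieve.siftedSum_le_mainSum_errSum_of_upperMoebius (s := s) _
    (BoundingSieve.upperMoebius_lambdaSquared (selbergWeight s z) (selbergWeight_one s hz))
  rw [mainSum_selbergWeight s hz] at h
  have h2 := errSum_selbergWeight_le s hz
  rw [div_eq_mul_inv]
  linarith

end Weights

/-- **Selberg's upper bound sieve** for a weighted family `(a i)_{i ∈ A}` of natural numbers `f i`.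
`P` is squarefree, `ν p ∈ (0,1)` for the primes `p ∣ P`, and `X` is arbitrary. -/
theorem selberg_sieve {ι : Type*} (A : Finset ι) (f : ι → ℕ) (a : ι → ℝ) (ha : ∀ i ∈ A, 0 ≤ a i)
    (P : ℕ) (hP : Squarefree P) (ν : ℕ → ℝ) (hν0 : ∀ p, p.Prime → p ∣ P → 0 < ν p)
    (hν1 : ∀ p, p.Prime → p ∣ P → ν p < 1) (X z : ℝ) (hz : 1 ≤ z) :
    ∑ i ∈ A.filter (fun i => Nat.Coprime P (f i)), a i ≤
      X / (∑ l ∈ P.divisors.filter (fun l : ℕ => (l : ℝ) ≤ z),
          ∏ p ∈ l.primeFactors, ν p / (1 - ν p)) +
      ∑ d1 ∈ P.divisors.filter (fun d : ℕ => (d : ℝ) ≤ z),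
        ∑ d2 ∈ P.divisors.filter (fun d : ℕ => (d : ℝ) ≤ z),
          |(∑ i ∈ A.filter (fun i => Nat.lcm d1 d2 ∣ f i), a i) -
            (∏ p ∈ (Nat.lcm d1 d2).primeFactors, ν p) * X| := by
  classical
  let s : BoundingSieve :=
    { support := A.image f
      prodPrimes := P
      prodPrimes_squarefree := hP
      weights := fun n => ∑ i ∈ A.filter (fun i => f i = n), a i
      weights_nonneg := fun n => Finset.sum_nonneg fun i hi => ha i (Finset.mem_filter.mp hi).1
      totalMass := X
      nu := ArithmeticFunction.prodPrimeFactors ν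
      nu_mult := ArithmeticFunction.IsMultiplicative.prodPrimeFactors ν
      nu_pos_of_prime := fun p hp hpP => by
        rw [ArithmeticFunction.prodPrimeFactors_apply hp.ne_zero, hp.primeFactors]
        simpa using hν0 p hp hpP
      nu_lt_one_of_prime := fun p hp hpP => by
        rw [ArithmeticFunction.prodPrimeFactors_apply hp.ne_zero, hp.primeFactors]
        simpa using hν1 p hp hpP }
  have hfib : ∀ q : ℕ → Prop, ∀ [DecidablePred q],
      (∑ n ∈ A.image f, if q n then ∑ i ∈ A.filter (fun i => f i = n), a i else 0) =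
        ∑ i ∈ A.filter (fun i => q (f i)), a i := by
    intro q _
    rw [Finset.sum_filter, ← Finset.sum_fiberwise_of_maps_to (s := A) (t := A.image f) (g := f)
      (fun i hi => Finset.mem_image_of_mem f hi)]
    refine Finset.sum_congr rfl fun n _ => ?_
    split_ifs with h
    · refine Finset.sum_congr rfl fun i hi => ?_
      rw [(Finset.mem_filter.mp hi).2, if_pos h]
    · symm
      refine Finset.sum_eq_zero fun i hi => ?_
      rw [(Finset.mem_filter.mp hi).2, if_neg h]
  have h := selberg_boundingSieve s hz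
  have h1 : s.siftedSum = ∑ i ∈ A.filter (fun i => Nat.Coprime P (f i)), a i :=
    hfib (fun n => Nat.Coprime P n)
  have h2 : selbergSum s z = ∑ l ∈ P.divisors.filter (fun l : ℕ => (l : ℝ) ≤ z),
      ∏ p ∈ l.primeFactors, ν p / (1 - ν p) := by
    unfold selbergSum
    rw [Finset.sum_filter]
    refine Finset.sum_congr rfl fun l hl => ?_
    have hl0 : l ≠ 0 := (Nat.pos_of_mem_divisors hl).ne'
    split_ifs
    · rw [BoundingSieve.selbergTerms_apply]
      change (ArithmeticFunction.prodPrimeFactors ν) l * _ = _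
      rw [ArithmeticFunction.prodPrimeFactors_apply hl0, ← Finset.prod_mul_distrib]
      refine Finset.prod_congr rfl fun p hp => ?_
      have hpp := Nat.prime_of_mem_primeFactors hp
      change ν p * (1 - (ArithmeticFunction.prodPrimeFactors ν) p)⁻¹ = _
      rw [ArithmeticFunction.prodPrimeFactors_apply hpp.ne_zero, hpp.primeFactors, div_eq_mul_inv]
      simp
    · rfl
  rw [h1, h2] at h
  refine h.trans (le_of_eq ?_)
  congr 1
  refine Finset.sum_congr rfl fun d1 hd1 => Finset.sum_congr rfl fun d2 hd2 => ?_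
  have hd1' : d1 ≠ 0 := (Nat.pos_of_mem_divisors (Finset.mem_filter.mp hd1).1).ne'
  have hd2' : d2 ≠ 0 := (Nat.pos_of_mem_divisors (Finset.mem_filter.mp hd2).1).ne'
  have hl : Nat.lcm d1 d2 ≠ 0 := Nat.lcm_ne_zero hd1' hd2'
  congr 1
  unfold BoundingSieve.rem BoundingSieve.multSum
  congr 1
  · exact hfib (fun n => Nat.lcm d1 d2 ∣ n)
  · change (ArithmeticFunction.prodPrimeFactors ν) _ * X = _
    rw [ArithmeticFunction.prodPrimeFactors_apply hl]

end Pool.Agent.Lib.ANT
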