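import Pool.Agent.Lib.ANT.Perron

/-!
# A Siegel–Walfisz type estimate with the Landau–Page exceptional modulus removed
-/

noncomputable section

open Finset Complex Filter Topology ArithmeticFunction

namespace Pool.Agent.Lib.ANT

lemma decesaro (a : ℕ → ℂ) {X h : ℕ} (hX : 0 < X) (hh : 0 < h) {B : ℝ}
    (hB : ∀ n ≤ X + h, ‖a n‖ ≤ B) :
    h * ‖∑ n ∈ range (X + 1), a n‖ ≤
      ((X + h : ℕ) : ℝ) * ‖∑ n ∈ range (X + 1 + h), a n * ((max (1 - n / ((X + h : ℕ) : ℝ)) 0 : ℝ) : ℂ)‖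
      + X * ‖∑ n ∈ range (X + 1 + h), a n * ((max (1 - n / (X : ℝ)) 0 : ℝ) : ℂ)‖ + h * (h * B) := by
  have hX' : (0 : ℝ) < X := by exact_mod_cast hX
  have hh' : (0 : ℝ) < h := by exact_mod_cast hh
  have hm : ∀ y : ℝ, 0 < y → ∀ n : ℕ, y * max (1 - n / y) 0 = max (y - n) 0 := fun y hy n => by
    rw [mul_max_of_nonneg _ _ hy.le, mul_zero, mul_sub, mul_one, mul_div_cancel₀ _ hy.ne']
  have hs : ∀ y : ℝ, 0 < y → y * ‖∑ n ∈ range (X + 1 + h), a n * ((max (1 - n / y) 0 : ℝ) : ℂ)‖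
      = ‖∑ n ∈ range (X + 1 + h), a n * ((max (y - n) 0 : ℝ) : ℂ)‖ := fun y hy => by
    have hn : ∀ z : ℂ, y * ‖z‖ = ‖y * z‖ := fun z => by
      rw [norm_mul, norm_real, Real.norm_of_nonneg hy.le]
    rw [hn, mul_sum]
    congr 1
    refine sum_congr rfl fun n _ => ?_
    rw [← hm y hy n]; push_cast; ring
  rw [hs _ (by positivity), hs _ hX']
  have e : (h : ℂ) * ∑ n ∈ range (X + 1), a n
      = ∑ n ∈ range (X + 1 + h), a n * ((max (((X + h : ℕ) : ℝ) - n) 0 : ℝ) : ℂ)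
        - ∑ n ∈ range (X + 1 + h), a n * ((max ((X : ℝ) - n) 0 : ℝ) : ℂ)
        - ∑ n ∈ range h, a (X + 1 + n) * ((max ((h : ℝ) - 1 - n) 0 : ℝ) : ℂ) := by
    rw [← sum_sub_distrib, sum_range_add _ (X + 1) h, mul_sum, add_sub_assoc, ← sum_sub_distrib,
      sum_eq_zero (s := range h), add_zero]
    · refine sum_congr rfl fun n hn => ?_
      have : (n : ℝ) ≤ X := by exact_mod_cast Nat.lt_succ_iff.1 (mem_range.1 hn)
      rw [max_eq_left (by push_cast; linarith), max_eq_left (by linarith)]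
      push_cast; ring
    · intro n _
      have : (0 : ℝ) ≤ n := Nat.cast_nonneg n
      rw [max_eq_right (a := (X : ℝ) - _) (by push_cast; linarith),
        show ((X + h : ℕ) : ℝ) - ((X + 1 + n : ℕ) : ℝ) = h - 1 - n by push_cast; ring]
      simp
  have e2 := congrArg norm e
  rw [norm_mul, Complex.norm_natCast] at e2
  rw [e2]
  refine (norm_sub_le _ _).trans (add_le_add (norm_sub_le _ _) ?_)
  refine (norm_sum_le _ _).trans ((sum_le_card_nsmul _ _ (h * B) fun n hn => ?_).trans (by simp))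
  have hn' := mem_range.1 hn
  have : (0 : ℝ) ≤ n := Nat.cast_nonneg n
  rw [norm_mul, mul_comm, norm_real, Real.norm_of_nonneg (le_max_right _ _)]
  exact mul_le_mul (max_le (by linarith) hh'.le) (hB _ (by omega)) (norm_nonneg _) hh'.le

lemma psi_char_le {q : ℕ} [NeZero q] {χ : DirichletCharacter ℂ q} (hχ : χ ≠ 1) {Q : ℕ}
    (hQ : 20 ≤ Q) (hq : q ≤ Q) {M : ℝ} (hM : M = Real.exp 73 * (15 * Real.log Q) ^ 2)
    (hMQ : M ^ 13 ≤ Q) (hMl : 23 * M ^ 12 ≤ Real.log Q ^ 25)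
    (hreal : χ ^ 2 = 1 → 1 / (20 * M ^ 2) ≤ ‖χ.LFunction 1‖) {X : ℕ}
    (hX1 : Real.log Q ^ 26 ≤ Real.log X) (hX2 : Real.log X ≤ Q) :
    ‖∑ n ∈ range (X + 1), χ n * vonMangoldt n‖ ≤ X / Q ^ 3 := by
  have hQ' : (20 : ℝ) ≤ Q := by exact_mod_cast hQ
  have hq' : (q : ℝ) ≤ Q := by exact_mod_cast hq
  have hl : 1 ≤ Real.log Q := by
    rw [Real.le_log_iff_exp_le (by linarith)]; linarith [Real.exp_one_lt_d9]
  have hN : Real.log ((Q ^ 15 : ℕ) : ℝ) = 15 * Real.log Q := by simp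
  have he : 12 ≤ Real.exp 73 := by linarith [Real.add_one_le_exp 73]
  have hM1 : 12 * Real.log ((Q ^ 15 : ℕ) : ℝ) ^ 2 ≤ M := by rw [hN, hM]; gcongr
  have hM2 : Real.exp 73 * Real.log ((Q ^ 15 : ℕ) : ℝ) ≤ M := by rw [hN, hM]; gcongr; nlinarith
  have hM0 : 1 ≤ M := by rw [hN] at hM1; nlinarith
  have hMQ' : M ≤ Q := (le_self_pow₀ hM0 (by norm_num)).trans hMQ
  have hM12 : 1 ≤ M ^ 12 := one_le_pow₀ hM0
  have hX3 : 23 * M ^ 12 * Real.log Q ≤ Real.log X := by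
    refine le_trans ?_ hX1; rw [pow_succ (Real.log Q) 25]; gcongr
  have hX0 : 0 < X := by
    rcases Nat.eq_zero_or_pos X with rfl | h
    · simp at hX3; nlinarith
    · exact h
  have hX0' : (0 : ℝ) < X := by exact_mod_cast hX0
  have hXQ : Q ^ 5 ≤ X := by
    have : Real.log ((Q ^ 5 : ℕ) : ℝ) ≤ Real.log X := by simp; nlinarith
    exact_mod_cast (Real.log_le_log_iff (by positivity) hX0').1 this
  have key : ∀ y : ℝ, X ≤ y → y ≤ 2 * X → ∀ K : ℕ, y ≤ K →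
      ‖∑ n ∈ range K, χ n * vonMangoldt n * ((max (1 - n / y) 0 : ℝ) : ℂ)‖ ≤ y * (26 / Q ^ 10) := by
    intro y h1 h2 K hK
    have hy : 0 < y := by linarith
    have hly : Real.log X ≤ Real.log y := Real.log_le_log hX0' h1
    have hly2 : Real.log y ≤ 2 * Q := by
      have := Real.log_le_log hy h2
      rw [Real.log_mul (by norm_num) hX0'.ne'] at this
      linarith [Real.log_two_lt_d9]
    refine (cesaro_bound hχ (N := Q ^ 15) (by rw [hN]; linarith) hM1 hM2 (T := (Q : ℝ) ^ 12)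
      (one_le_pow₀ (by linarith)) ?_ hreal hy (by nlinarith) hK).trans ?_
    · have : (1 : ℝ) ≤ Q ^ 12 := one_le_pow₀ (by linarith)
      calc (q : ℝ) * (6 + 4 * Q ^ 12) ≤ Q * (Q * Q * Q ^ 12) := by
            have : (10 : ℝ) * Q ^ 12 ≤ Q * Q * Q ^ 12 := by gcongr; nlinarith
            gcongr; linarith
        _ = _ := by push_cast; ring
    · refine mul_le_mul_of_nonneg_left ?_ hy.le
      have a1 : y ^ (-(1 / M ^ 12)) ≤ ((Q : ℝ) ^ 23)⁻¹ := by
        rw [Real.rpow_def_of_pos hy, ← Real.exp_log (x := ((Q : ℝ) ^ 23)⁻¹) (by positivity),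
          Real.exp_le_exp, Real.log_inv, Real.log_pow, mul_neg, neg_le_neg_iff, mul_one_div,
          le_div_iff₀ (by positivity)]
        push_cast; linarith
      have a2 : (Q : ℝ) ^ 12 * M ^ 13 * y ^ (-(1 / M ^ 12)) ≤ 1 / Q ^ 10 := by
        calc _ ≤ (Q : ℝ) ^ 12 * Q * ((Q : ℝ) ^ 23)⁻¹ := by gcongr
          _ = _ := by field_simp
      have a3 : 2 * M / ((Q : ℝ) ^ 12) ^ 2 ≤ 1 / Q ^ 10 := by
        rw [div_le_div_iff₀ (by positivity) (by positivity)]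
        have : (1 : ℝ) ≤ Q ^ 12 := one_le_pow₀ (by linarith)
        calc 2 * M * (Q : ℝ) ^ 10 ≤ (Q : ℝ) * Q * (Q : ℝ) ^ 10 := by gcongr; linarith
          _ = 1 * (Q : ℝ) ^ 12 := by ring
          _ ≤ _ := by gcongr; exact le_self_pow₀ this (by norm_num)
      have a4 : 6 * Real.log y ^ 2 / (Q : ℝ) ^ 12 ≤ 24 / Q ^ 10 := by
        have : 0 ≤ Real.log y := by nlinarith
        calc _ ≤ 6 * (2 * Q) ^ 2 / (Q : ℝ) ^ 12 := by gcongr
          _ = _ := by field_simp; norm_num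
      have : (26 : ℝ) / Q ^ 10 = 1 / Q ^ 10 + 1 / Q ^ 10 + 24 / Q ^ 10 := by ring
      linarith
  set h := X / Q ^ 5 with hh
  have hQ5 : 0 < Q ^ 5 := by positivity
  have hh0 : 0 < h := Nat.div_pos hXQ hQ5
  have hh0' : (1 : ℝ) ≤ h := by exact_mod_cast hh0
  have hh1 : (h : ℝ) * Q ^ 5 ≤ X := by exact_mod_cast Nat.div_mul_le_self X (Q ^ 5)
  have hh2 : (X : ℝ) ≤ 2 * (h * Q ^ 5) := by
    have h1 : X < (h + 1) * Q ^ 5 := by
      rw [hh, mul_comm]; exact Nat.lt_mul_div_succ X hQ5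
    have h2 : (X : ℝ) ≤ (h + 1) * Q ^ 5 := by exact_mod_cast h1.le
    have : (0 : ℝ) < Q ^ 5 := by positivity
    nlinarith
  have hh3 : (h : ℝ) ≤ X := by exact_mod_cast Nat.div_le_self _ _
  have hD := decesaro (fun n => χ n * vonMangoldt n) hX0 hh0 (B := 2 * Q) fun n hn => by
    rw [norm_mul]
    refine (mul_le_of_le_one_left (norm_nonneg _) (χ.norm_le_one _)).trans ?_
    rw [norm_real, Real.norm_of_nonneg vonMangoldt_nonneg]
    refine vonMangoldt_le_log.trans ?_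
    rcases Nat.eq_zero_or_pos n with rfl | hn0
    · simp
    · have : (n : ℝ) ≤ 2 * X := by
        have : (n : ℝ) ≤ X + h := by exact_mod_cast hn
        linarith
      have := Real.log_le_log (by exact_mod_cast hn0) this
      rw [Real.log_mul (by norm_num) hX0'.ne'] at this
      linarith [Real.log_two_lt_d9]
  have k1 := key ((X + h : ℕ) : ℝ) (by push_cast; linarith) (by push_cast; linarith) (X + 1 + h)
    (by push_cast; linarith)
  have k2 := key X le_rfl (by linarith) (X + 1 + h) (by push_cast; linarith)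
  have k3 : ((X + h : ℕ) : ℝ) ≤ 2 * X := by push_cast; linarith
  refine le_of_mul_le_mul_left (hD.trans ?_) (by linarith : (0 : ℝ) < h)
  have k4 : (h : ℝ) * (2 * Q) ≤ 2 * (X / Q ^ 4) := by
    rw [← mul_div_assoc, le_div_iff₀ (by positivity)]
    calc _ = 2 * ((h : ℝ) * Q ^ 5) := by ring
      _ ≤ _ := by linarith
  calc _ ≤ (2 * X : ℝ) * ((2 * X) * (26 / Q ^ 10)) + X * (X * (26 / Q ^ 10)) + h * (2 * (X / Q ^ 4)) := by
        gcongr
        exact k1.trans (by gcongr)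
    _ = X * (X * (130 / Q ^ 10)) + h * (2 * (X / Q ^ 4)) := by ring
    _ ≤ (2 * (h * Q ^ 5)) * (X * (130 / Q ^ 10)) + h * (2 * (X / Q ^ 4)) := by gcongr
    _ = h * (X / Q ^ 3 * (260 / Q ^ 2 + 2 / Q)) := by field_simp; ring
    _ ≤ h * (X / Q ^ 3 * 1) := by
        gcongr
        have b1 : (260 : ℝ) / Q ^ 2 ≤ 260 / 20 ^ 2 := by gcongr
        have b2 : (2 : ℝ) / Q ≤ 2 / 20 := by gcongr
        linarith
    _ = _ := by ring

/-- For all large `Q` there is a large prime `p₁` (dividing the possible exceptional modulus) such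
that `ψ(X, χ) ≤ X / Q³` for every primitive character of squarefree conductor `f ≤ Q` prime to `p₁`,
in the range `(log Q)^26 ≤ log X ≤ Q`. -/
theorem weak_siegel_walfisz (y₀ : ℕ) : ∀ᶠ Q : ℕ in atTop, ∃ p₁ : ℕ, p₁.Prime ∧ y₀ < p₁ ∧
    ∀ f : ℕ, 1 < f → f ≤ Q → Squarefree f → ¬ p₁ ∣ f → ∀ χ : DirichletCharacter ℂ f,
      χ.IsPrimitive → ∀ X : ℕ, Real.log Q ^ 26 ≤ Real.log X → Real.log X ≤ Q →
        ‖∑ n ∈ range (X + 1), χ n * vonMangoldt n‖ ≤ X / Q ^ 3 := by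
  set c : ℝ := Real.exp 73 * 225 with hc
  have hc0 : 0 < c := by positivity
  have hlog : Tendsto (fun Q : ℕ => Real.log Q) atTop atTop :=
    Real.tendsto_log_atTop.comp tendsto_natCast_atTop_atTop
  have e1 : ∀ᶠ Q : ℕ in atTop, (c * Real.log Q ^ 2) ^ 13 ≤ Q := by
    have := (Real.isLittleO_pow_log_id_atTop (n := 26)).bound (c := 1 / c ^ 13) (by positivity)
    filter_upwards [tendsto_natCast_atTop_atTop.eventually this] with Q hQ
    simp only [Real.norm_eq_abs, id, Nat.abs_cast] at hQ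
    have := (le_abs_self _).trans hQ
    calc _ = c ^ 13 * Real.log Q ^ 26 := by ring
      _ ≤ c ^ 13 * (1 / c ^ 13 * Q) := by gcongr
      _ = _ := by field_simp
  have e2 : ∀ᶠ Q : ℕ in atTop, 23 * (c * Real.log Q ^ 2) ^ 12 ≤ Real.log Q ^ 25 := by
    filter_upwards [hlog.eventually_ge_atTop (23 * c ^ 12), hlog.eventually_ge_atTop 0] with Q h1 h2
    calc _ = 23 * c ^ 12 * Real.log Q ^ 24 := by ring
      _ ≤ Real.log Q * Real.log Q ^ 24 := by gcongr
      _ = _ := by ring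
  have e3 : ∀ᶠ Q : ℕ in atTop, ∀ f ∈ range (primorial y₀), ∀ χ : DirichletCharacter ℂ (f + 1),
      χ ≠ 1 → 1 / (20 * (c * Real.log Q ^ 2) ^ 2) ≤ ‖χ.LFunction 1‖ := by
    rw [eventually_all_finset]
    intro f _
    rw [eventually_all]
    intro χ
    by_cases hχ : χ = 1
    · simp [hχ]
    · have h0 : 0 < ‖χ.LFunction 1‖ := norm_pos_iff.2 (χ.LFunction_apply_one_ne_zero hχ)
      have h1 : Tendsto (fun Q : ℕ => 1 / (20 * (c * Real.log Q ^ 2) ^ 2)) atTop (𝓝 0) := by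
        refine tendsto_const_nhds.div_atTop (Tendsto.const_mul_atTop (by norm_num) ?_)
        exact (tendsto_pow_atTop two_ne_zero).comp
          (Tendsto.const_mul_atTop hc0 ((tendsto_pow_atTop two_ne_zero).comp hlog))
      filter_upwards [h1.eventually_le_const h0] with Q hQ _ using hQ
  filter_upwards [e1, e2, e3, eventually_ge_atTop 20] with Q h1 h2 h3 hQ
  set M : ℝ := c * Real.log Q ^ 2 with hM
  have hM' : M = Real.exp 73 * (15 * Real.log Q) ^ 2 := by rw [hM, hc]; ring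
  have hne : ∀ f : ℕ, 1 < f → ∀ χ : DirichletCharacter ℂ f, χ.IsPrimitive → χ ≠ 1 := by
    intro f hf χ hχ h
    have : NeZero f := ⟨by omega⟩
    rw [DirichletCharacter.isPrimitive_def, h, DirichletCharacter.conductor_one] at hχ
    omega
  by_cases hex : ∃ f : ℕ, 0 < f ∧ f + 1 ≤ Q ∧ Squarefree (f + 1) ∧
      ∃ χ : DirichletCharacter ℂ (f + 1), χ.IsPrimitive ∧ χ ^ 2 = 1 ∧
        ‖χ.LFunction 1‖ < 1 / (20 * M ^ 2)
  · obtain ⟨f₁, a0, a1, a2, χ₁, a3, a4, a5⟩ := hex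
    have b0 : ∃ p ∈ (f₁ + 1).primeFactors, y₀ < p := by
      by_contra hcon
      push Not at hcon
      have : f₁ + 1 ≤ primorial y₀ := by
        refine Nat.le_of_dvd (primorial_pos _) ?_
        rw [← Nat.prod_primeFactors_of_squarefree a2]
        refine prod_dvd_prod_of_subset _ _ _ fun p hp => ?_
        exact mem_filter.2 ⟨mem_range.2 (Nat.lt_succ_of_le (hcon p hp)),
          Nat.prime_of_mem_primeFactors hp⟩
      exact a5.not_ge (h3 f₁ (mem_range.2 this) χ₁ (hne _ (by omega) _ a3))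
    obtain ⟨p, hp, hp'⟩ := b0
    refine ⟨p, Nat.prime_of_mem_primeFactors hp, hp', fun f hf1 hf2 _ hf4 χ hχ X hX1 hX2 => ?_⟩
    have : NeZero f := ⟨by omega⟩
    refine psi_char_le (hne f hf1 χ hχ) hQ hf2 hM' h1 h2 (fun hq => ?_) hX1 hX2
    have hQ' : (20 : ℝ) ≤ Q := by exact_mod_cast hQ
    have hl : 1 ≤ Real.log Q := by
      rw [Real.le_log_iff_exp_le (by linarith)]; linarith [Real.exp_one_lt_d9]
    have hN : Real.log ((Q ^ 15 : ℕ) : ℝ) = 15 * Real.log Q := by simp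
    have he : 12 ≤ Real.exp 73 := by linarith [Real.add_one_le_exp 73]
    refine (landau hχ a3 (hne f hf1 χ hχ) (hne _ (by omega) _ a3) hq a4
      (fun h => hf4 (h ▸ Nat.dvd_of_mem_primeFactors hp)) (N := Q ^ 15) (by rw [hN]; linarith) ?_
      (M := M) (by rw [hN, hM']; gcongr)).resolve_right a5.not_ge
    calc 6 * (f * (f₁ + 1)) ≤ Q * (Q * Q) := by gcongr; omega
      _ = Q ^ 3 := by ring
      _ ≤ Q ^ 15 := Nat.pow_le_pow_right (by omega) (by norm_num)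
  · obtain ⟨p, hp, hp'⟩ := Nat.exists_infinite_primes (y₀ + 1)
    refine ⟨p, hp', hp, fun f hf1 hf2 hf3 _ χ hχ X hX1 hX2 => ?_⟩
    obtain ⟨f, rfl⟩ : ∃ g, f = g + 1 := ⟨f - 1, by omega⟩
    refine psi_char_le (hne _ hf1 χ hχ) hQ hf2 hM' h1 h2 (fun hq => ?_) hX1 hX2
    by_contra hcon
    exact hex ⟨f, by omega, hf2, hf3, χ, hχ, hq, not_le.1 hcon⟩

end Pool.Agent.Lib.ANT
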