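import Pool.Agent.Lib.ANT.Estermann
import Pool.Agent.Lib.ANT.SiegelWalfisz

/-!
# Siegel's theorem and the Siegel–Walfisz theorem for non-principal characters
-/

noncomputable section

open Finset Complex Filter Topology ArithmeticFunction
open scoped ComplexOrder

namespace Pool.Agent.Lib.ANT

/-- a Dirichlet character as an arithmetic function -/
abbrev chiA {q : ℕ} (χ : DirichletCharacter ℂ q) : ArithmeticFunction ℂ :=
  toArithmeticFunction (fun n : ℕ => χ n)

lemma pmul_chiA_zetaMul {q₁ q₂ q : ℕ} (χ₁ : DirichletCharacter ℂ q₁) (χ₂ : DirichletCharacter ℂ q₂)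
    (ψ : DirichletCharacter ℂ q) (hψ : ∀ n : ℕ, ψ n = χ₁ n * χ₂ n) :
    chiA χ₂ * chiA ψ = (chiA χ₂).pmul χ₁.zetaMul := by
  ext n
  rw [pmul_apply, DirichletCharacter.zetaMul, ArithmeticFunction.mul_apply,
    ArithmeticFunction.mul_apply, mul_sum]
  refine sum_congr rfl fun x hx => ?_
  obtain ⟨h1, h2⟩ := Nat.mem_divisorsAntidiagonal.1 hx
  have h3 : x.1 ≠ 0 := fun h => h2 (by rw [← h1, h, zero_mul])
  have h4 : x.2 ≠ 0 := fun h => h2 (by rw [← h1, h, mul_zero])
  simp only [chiA, toArithmeticFunction, coe_mk, h3, h4, if_false, natCoe_apply, zeta_apply,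
    hψ, ← h1, Nat.cast_mul, map_mul, Nat.cast_one, mul_ne_zero h3 h4]
  ring

lemma four_prime_pow_nonneg {q₁ q₂ : ℕ} {χ₁ : DirichletCharacter ℂ q₁}
    {χ₂ : DirichletCharacter ℂ q₂} (h₁ : χ₁ ^ 2 = 1) (h₂ : χ₂ ^ 2 = 1) {p : ℕ} (hp : p.Prime)
    (h : χ₂ p ≠ -1 ∨ χ₁ p = -1) (k : ℕ) :
    0 ≤ (χ₁.zetaMul * (chiA χ₂).pmul χ₁.zetaMul) (p ^ k) := by
  rw [ArithmeticFunction.mul_apply]
  refine sum_nonneg fun x hx => mul_nonneg (DirichletCharacter.zetaMul_nonneg h₁ _) ?_
  obtain ⟨j, -, hj⟩ := (Nat.dvd_prime_pow hp).1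
    (Dvd.intro_left _ (Nat.mem_divisorsAntidiagonal.1 hx).1)
  rw [pmul_apply, hj]
  have e : chiA χ₂ (p ^ j) = χ₂ p ^ j := by
    simp [chiA, toArithmeticFunction, hp.ne_zero]
  rw [e]
  have h0 := DirichletCharacter.zetaMul_nonneg h₁ (p ^ j)
  rcases MulChar.isQuadratic_iff_sq_eq_one.2 h₂ (p : ZMod q₂) with b | b | b
  · rw [b]; exact mul_nonneg (pow_nonneg le_rfl _) h0
  · rw [b]; exact mul_nonneg (pow_nonneg zero_le_one _) h0
  · rcases Nat.even_or_odd j with hj | hj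
    · rw [b, hj.neg_one_pow, one_mul]; exact h0
    · have : χ₁.zetaMul (p ^ j) = 0 := by
        simp only [DirichletCharacter.zetaMul, toArithmeticFunction, coe_zeta_mul_apply, coe_mk,
          Nat.sum_divisors_prime_pow hp, pow_eq_zero_iff', hp.ne_zero, ne_eq, false_and,
          ↓reduceIte, Nat.cast_pow, map_pow, h.resolve_left (not_not.2 b)]
        rw [neg_one_geom_sum, if_pos hj.add_one]
      rw [this, mul_zero]

lemma four_nonneg {q₁ q₂ q : ℕ} {χ₁ : DirichletCharacter ℂ q₁} {χ₂ : DirichletCharacter ℂ q₂}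
    {ψ : DirichletCharacter ℂ q} (h₁ : χ₁ ^ 2 = 1) (h₂ : χ₂ ^ 2 = 1)
    (hψ : ∀ n : ℕ, ψ n = χ₁ n * χ₂ n) (n : ℕ) : 0 ≤ (χ₁.zetaMul * (chiA χ₂ * chiA ψ)) n := by
  have hm : (χ₁.zetaMul * (chiA χ₂ * chiA ψ)).IsMultiplicative :=
    χ₁.isMultiplicative_zetaMul.mul (χ₂.isMultiplicative_toArithmeticFunction.mul
      ψ.isMultiplicative_toArithmeticFunction)
  rcases eq_or_ne n 0 with rfl | hn
  · simp
  rw [hm.multiplicative_factorization _ hn]
  refine prod_nonneg fun p hp => ?_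
  have hp' := Nat.prime_of_mem_primeFactors hp
  by_cases h : χ₂ p = -1
  · have e : χ₁.zetaMul * (chiA χ₂ * chiA ψ) = χ₂.zetaMul * (chiA χ₁ * chiA ψ) := by
      simp only [DirichletCharacter.zetaMul, chiA]; ring
    rw [e, pmul_chiA_zetaMul χ₂ χ₁ ψ (fun n => by rw [hψ, mul_comm])]
    exact four_prime_pow_nonneg h₂ h₁ hp' (Or.inr h) _
  · rw [pmul_chiA_zetaMul χ₁ χ₂ ψ hψ]
    exact four_prime_pow_nonneg h₁ h₂ hp' (Or.inl h) _

lemma norm_LFunction_le_crude {q : ℕ} [NeZero q] {χ : DirichletCharacter ℂ q} (hχ : χ ≠ 1) {s : ℂ}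
    (hs : s ∈ Metric.sphere (2 : ℂ) (3 / 2)) : ‖χ.LFunction s‖ ≤ 9 * q := by
  have hK : ∀ n, ‖psum (fun n => χ n) n‖ ≤ q := fun n => by
    have := norm_psum_char_le hχ 1 n
    simpa [psum, add_comm] using this
  have h1 : ‖s - 2‖ = 3 / 2 := by simpa [dist_eq_norm] using hs
  have h2 : 1 / 2 ≤ s.re := by
    have := (abs_le.1 ((abs_re_le_norm (s - 2)).trans h1.le)).1
    simp at this; linarith
  have h3 : ‖s‖ ≤ 7 / 2 := by
    have := norm_le_insert' s 2
    simp only [Complex.norm_ofNat] at this; linarith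
  have h := abel_approx hK (s := s) (by linarith) (N := 1) one_pos
  rw [← LFunction_eq_abel hχ (by linarith)] at h
  simp only [range_one, sum_singleton, zero_add, Nat.cast_one, map_one, one_cpow, mul_one,
    Real.one_rpow] at h
  have h4 : ‖s‖ / s.re ≤ 7 := by rw [div_le_iff₀ (by linarith)]; linarith
  have hq : (1 : ℝ) ≤ q := by exact_mod_cast NeZero.pos q
  have := norm_le_insert' (χ.LFunction s) 1
  rw [norm_one] at this
  nlinarith

lemma LSeries_chiA {q : ℕ} [NeZero q] (χ : DirichletCharacter ℂ q) {s : ℂ} (hs : 1 < s.re) :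
    LSeries (chiA χ) s = χ.LFunction s := by
  rw [χ.LFunction_eq_LSeries hs]
  exact (LSeries_congr χ.apply_eq_toArithmeticFunction_apply s).symm

lemma summable_chiA {q : ℕ} (χ : DirichletCharacter ℂ q) {s : ℂ} (hs : 1 < s.re) :
    LSeriesSummable (chiA χ) s :=
  (LSeriesSummable_congr s χ.apply_eq_toArithmeticFunction_apply).1
    (χ.LSeriesSummable_of_one_lt_re hs)

/-- the entire function s ↦ (s - 1) ζ(s) -/
abbrev zetaOne : ℂ → ℂ := DirichletCharacter.LFunctionTrivChar₁ 1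

lemma zetaOne_one : zetaOne 1 = 1 := by simp [zetaOne]

lemma zetaOne_mul {q : ℕ} [NeZero q] (χ : DirichletCharacter ℂ q) {s : ℂ} (hs : 1 < s.re) :
    zetaOne s * χ.LFunction s = (s - 1) * LSeries χ.zetaMul s := by
  have hs1 : s ≠ 1 := fun h => by rw [h] at hs; simp at hs
  have := LSeries_mul' (f := (ArithmeticFunction.zeta : ArithmeticFunction ℂ)) (g := chiA χ)
    (LSeriesSummable_zeta_iff.2 hs) (summable_chiA χ hs)
  rw [DirichletCharacter.zetaMul, this, LSeries_chiA χ hs, zetaOne,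
    DirichletCharacter.LFunctionTrivChar₁, Function.update_of_ne hs1,
    DirichletCharacter.LFunctionTrivChar_eq_mul_riemannZeta hs1, ← LSeries_zeta_eq_riemannZeta hs]
  simp only [Nat.primeFactors_one, prod_empty, one_mul, mul_assoc]
  rfl

lemma euler_factor_bounds {q N : ℕ} (χ : DirichletCharacter ℂ q) (hN : 2 ≤ N) :
    ‖∏ p ∈ N.primeFactors, (1 - χ p * (p : ℂ) ^ (-(1 : ℂ)))‖ ≤ Real.exp 73 * Real.log N ∧
    1 ≤ Real.exp 73 * Real.log N * ‖∏ p ∈ N.primeFactors, (1 - χ p * (p : ℂ) ^ (-(1 : ℂ)))‖ := by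
  have hp : ∀ p : ℕ, p.Prime → (p : ℝ)⁻¹ ≤ 1 / 2 := fun p hp => by
    have h2 : (2 : ℝ) ≤ p := by exact_mod_cast hp.two_le
    rw [one_div]; exact inv_anti₀ (by norm_num) h2
  have h1 : ∏ p ∈ N.primeFactors, (1 - (p : ℝ)⁻¹)⁻¹ ≤ Real.exp 73 * Real.log N := by
    refine le_trans ?_ (prod_one_sub_inv_prime_inv_le N hN)
    refine prod_le_prod_of_subset_of_one_le (fun p hp' => ?_) (fun p hp' => ?_) fun p hp' _ => ?_
    · have hpp := Nat.prime_of_mem_primeFactors hp'
      exact mem_filter.2 ⟨mem_Ioc.2 ⟨hpp.pos, Nat.le_of_mem_primeFactors hp'⟩, hpp⟩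
    · have := hp p (Nat.prime_of_mem_primeFactors hp')
      exact inv_nonneg.2 (by linarith)
    · have := hp p (mem_filter.1 hp').2
      have h0 : (0 : ℝ) ≤ (p : ℝ)⁻¹ := by positivity
      exact (one_le_inv₀ (by linarith)).2 (by linarith)
  have h2 : ∀ p ∈ N.primeFactors, ‖χ p * (p : ℂ) ^ (-(1 : ℂ))‖ ≤ (p : ℝ)⁻¹ := fun p _ => by
    rw [norm_mul, cpow_neg_one, norm_inv, Complex.norm_natCast]
    exact mul_le_of_le_one_left (by positivity) (χ.norm_le_one _)
  rw [norm_prod]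
  constructor
  · refine le_trans (prod_le_prod (fun _ _ => norm_nonneg _) fun p hp' => ?_) h1
    have := hp p (Nat.prime_of_mem_primeFactors hp')
    have h3 := h2 p hp'
    refine (norm_sub_le _ _).trans ?_
    rw [norm_one, ← one_div (1 - _), le_div_iff₀ (by linarith)]
    have h0 : (0 : ℝ) ≤ (p : ℝ)⁻¹ := by positivity
    nlinarith [norm_nonneg (χ p * (p : ℂ) ^ (-(1 : ℂ)))]
  · refine le_trans ?_ (mul_le_mul_of_nonneg_right h1 (prod_nonneg fun _ _ => norm_nonneg _))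
    rw [← prod_mul_distrib]
    refine Finset.one_le_prod fun p hp' => ?_
    have := hp p (Nat.prime_of_mem_primeFactors hp')
    have h3 := h2 p hp'
    have h4 := norm_sub_norm_le (1 : ℂ) (χ p * (p : ℂ) ^ (-(1 : ℂ)))
    rw [norm_one] at h4
    rw [← div_eq_inv_mul, le_div_iff₀ (by linarith)]
    linarith

lemma exists_zetaOne_bound :
    ∃ C : ℝ, 1 ≤ C ∧ ∀ s ∈ Metric.sphere (2 : ℂ) (3 / 2), ‖zetaOne s‖ ≤ C := by
  obtain ⟨C, hC⟩ := (isCompact_sphere (2 : ℂ) (3 / 2)).exists_bound_of_continuousOn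
    (DirichletCharacter.differentiable_LFunctionTrivChar₁ 1).continuous.continuousOn
  exact ⟨max 1 C, le_max_left _ _, fun s hs => (hC s hs).trans (le_max_right _ _)⟩

lemma rpow_aux {K q e η : ℝ} (hK : 0 ≤ K) (hq : 1 ≤ q) (he : 8 * e ≤ η) :
    (K * q ^ 2) ^ (4 * e) ≤ K ^ (4 * e) * q ^ η := by
  rw [Real.mul_rpow hK (by positivity), ← Real.rpow_natCast, ← Real.rpow_mul (by linarith)]
  gcongr
  push_cast; linarith

lemma log_aux {K q η : ℝ} (hK : 0 ≤ K) (hq : 0 ≤ q) (hη : 0 < η) :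
    Real.log (K * q) ≤ K ^ η / η * q ^ η := by
  refine (Real.log_le_rpow_div (by positivity) hη).trans (le_of_eq ?_)
  rw [Real.mul_rpow hK hq]; ring

lemma siegel_of_zero {ε : ℝ} (hε : 0 < ε) {q₁ : ℕ} [NeZero q₁] {χ₁ : DirichletCharacter ℂ q₁}
    (hn₁ : χ₁ ≠ 1) (h₁ : χ₁ ^ 2 = 1) {β : ℝ} (hβ0 : 7 / 8 ≤ β) (hβ1 : β < 1)
    (hβε : 16 * (1 - β) ≤ ε) (hz : χ₁.LFunction β = 0) :
    ∃ c : ℝ, 0 < c ∧ ∀ (q : ℕ) [NeZero q] (χ : DirichletCharacter ℂ q), χ ≠ 1 → χ ^ 2 = 1 →
      c ≤ ‖χ.LFunction 1‖ * (q : ℝ) ^ ε := by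
  obtain ⟨C, hC1, hC⟩ := exists_zetaOne_bound
  have hδ : 0 < 1 - β := by linarith
  have hq1 : (1 : ℝ) ≤ q₁ := by exact_mod_cast NeZero.pos q₁
  have hL1 : 0 < ‖χ₁.LFunction 1‖ := norm_pos_iff.2 (χ₁.LFunction_apply_one_ne_zero hn₁)
  set K₁ : ℝ := (30 * (729 * C * q₁ ^ 2) / (1 - β)) ^ (4 * (1 - β)) with hK₁
  set K₂ : ℝ := (8 * q₁) ^ (ε / 2) / (ε / 2) with hK₂
  have hK₁0 : 0 < K₁ := by positivity
  have hK₂0 : 0 < K₂ := by positivity
  refine ⟨min ((1 - β) / (12 * ‖χ₁.LFunction 1‖ * K₁ * K₂))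
    (‖χ₁.LFunction 1‖ / (Real.exp 73 * K₂) ^ 2), by positivity, fun q _ χ hn h₂ => ?_⟩
  have hq : (1 : ℝ) ≤ q := by exact_mod_cast NeZero.pos q
  have : NeZero (q₁ * q) := ⟨mul_ne_zero (NeZero.ne _) (NeZero.ne _)⟩
  have hlog : Real.log (8 * q₁ * q) ≤ K₂ * q ^ (ε / 2) :=
    log_aux (by positivity) (by positivity) (by positivity)
  have hsq : (q : ℝ) ^ (ε / 2) * q ^ (ε / 2) = q ^ ε := by
    rw [← Real.rpow_add (by linarith)]; ring_nf
  set ψ : DirichletCharacter ℂ (q₁ * q) :=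
    DirichletCharacter.changeLevel (dvd_mul_right q₁ q) χ₁ *
      DirichletCharacter.changeLevel (dvd_mul_left q q₁) χ with hψ
  by_cases hψ1 : ψ = 1
  · refine (min_le_right _ _).trans ?_
    have e2 : DirichletCharacter.changeLevel (dvd_mul_left q q₁) χ ^ 2 = 1 := by
      rw [← map_pow, h₂, map_one]
    have e3 : DirichletCharacter.changeLevel (dvd_mul_right q₁ q) χ₁
        = DirichletCharacter.changeLevel (dvd_mul_left q q₁) χ := by
      have := congrArg (· * DirichletCharacter.changeLevel (dvd_mul_left q q₁) χ) hψ1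
      simp only [hψ] at this
      rwa [mul_assoc, ← sq, e2, mul_one, one_mul] at this
    have e4 := DirichletCharacter.LFunction_changeLevel (dvd_mul_right q₁ q) χ₁ (s := 1) (.inl hn₁)
    rw [e3, DirichletCharacter.LFunction_changeLevel _ χ (.inl hn)] at e4
    have hq2 : 2 ≤ q₁ * q := by
      have : q ≠ 1 := by
        rintro rfl
        exact hn (Subsingleton.elim _ _)
      have := NeZero.pos q
      have := NeZero.pos q₁
      nlinarith [show 2 ≤ q by omega]
    have b1 := (euler_factor_bounds χ hq2).1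
    have b2 := (euler_factor_bounds χ₁ hq2).2
    have b3 : Real.log ((q₁ * q : ℕ) : ℝ) ≤ K₂ * q ^ (ε / 2) := by
      refine le_trans (Real.log_le_log (by positivity) ?_) hlog
      push_cast; nlinarith
    have b4 := congrArg norm e4
    rw [norm_mul, norm_mul] at b4
    have b5 : 0 ≤ Real.log ((q₁ * q : ℕ) : ℝ) := Real.log_natCast_nonneg _
    rw [div_le_iff₀ (by positivity)]
    calc ‖χ₁.LFunction 1‖ ≤ ‖χ₁.LFunction 1‖ * (Real.exp 73 * Real.log ((q₁ * q : ℕ) : ℝ) * _) :=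
          le_mul_of_one_le_right (norm_nonneg _) b2
      _ = Real.exp 73 * Real.log ((q₁ * q : ℕ) : ℝ) * (‖χ.LFunction 1‖ * _) := by
          rw [b4]; ring
      _ ≤ Real.exp 73 * (K₂ * q ^ (ε / 2)) *
          (‖χ.LFunction 1‖ * (Real.exp 73 * (K₂ * q ^ (ε / 2)))) := by
          gcongr
          exact b1.trans (by gcongr)
      _ = _ := by rw [← hsq]; ring
  · refine (min_le_left _ _).trans ?_
    have hψv : ∀ n : ℕ, ψ n = χ₁ n * χ n := fun n => by
      by_cases h : Nat.Coprime n (q₁ * q)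
      · have hc : IsCoprime (n : ℤ) ((q₁ * q : ℕ) : ℤ) := Nat.isCoprime_iff_coprime.2 h
        have a1 := χ₁.changeLevel_eq_cast_of_dvd' (dvd_mul_right q₁ q) hc
        have a2 := χ.changeLevel_eq_cast_of_dvd' (dvd_mul_left q q₁) hc
        simp only [Int.cast_natCast] at a1 a2
        rw [hψ, MulChar.mul_apply, a1, a2]
      · rw [ψ.map_nonunit (by rwa [ZMod.isUnit_iff_coprime])]
        rw [Nat.coprime_mul_iff_right, not_and_or] at h
        rcases h with h | h
        · rw [χ₁.map_nonunit (by rwa [ZMod.isUnit_iff_coprime]), zero_mul]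
        · rw [χ.map_nonunit (by rwa [ZMod.isUnit_iff_coprime]), mul_zero]
    set A : ArithmeticFunction ℂ := χ₁.zetaMul * (chiA χ * chiA ψ) with hA
    have hs : ∀ s : ℂ, 1 < s.re → LSeriesSummable A s :=
      fun s hs => LSeriesSummable_mul (χ₁.LSeriesSummable_zetaMul hs)
        (LSeriesSummable_mul (summable_chiA χ hs) (summable_chiA ψ hs))
    have hM1 : (1 : ℝ) ≤ 729 * C * q₁ ^ 2 * q ^ 2 := by
      have := one_le_mul_of_one_le_of_one_le (one_le_pow₀ (n := 2) hq1) (one_le_pow₀ (n := 2) hq)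
      have := one_le_mul_of_one_le_of_one_le hC1 this
      nlinarith
    have E := estermann (a := A) (four_nonneg h₁ h₂ hψv)
      (χ₁.isMultiplicative_zetaMul.mul (χ.isMultiplicative_toArithmeticFunction.mul
        ψ.isMultiplicative_toArithmeticFunction)).map_one
      (LSeries.abscissaOfAbsConv_le_of_forall_lt_LSeriesSummable fun y hy => hs y (by simpa))
      (Φ := fun s => zetaOne s * χ₁.LFunction s * (χ.LFunction s * ψ.LFunction s))
      (((DirichletCharacter.differentiable_LFunctionTrivChar₁ 1).mul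
        (DirichletCharacter.differentiable_LFunction hn₁)).mul
        ((DirichletCharacter.differentiable_LFunction hn).mul
        (DirichletCharacter.differentiable_LFunction hψ1)))
      (fun s hs => by
        rw [hA, LSeries_mul' (χ₁.LSeriesSummable_zetaMul hs)
          (LSeriesSummable_mul (summable_chiA χ hs) (summable_chiA ψ hs)),
          LSeries_mul' (summable_chiA χ hs) (summable_chiA ψ hs), LSeries_chiA χ hs,
          LSeries_chiA ψ hs, zetaOne_mul χ₁ hs, mul_assoc])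
      hM1
      (fun s hs => by
        rw [norm_mul, norm_mul, norm_mul]
        calc _ ≤ C * (9 * q₁) * ((9 * q) * (9 * (q₁ * q : ℕ))) := by
              gcongr
              exacts [hC s hs, norm_LFunction_le_crude hn₁ hs, norm_LFunction_le_crude hn hs,
                norm_LFunction_le_crude hψ1 hs]
          _ = _ := by push_cast; ring)
      hβ0 hβ1 (Or.inl (by simp [hz]))
    have b1 : (30 * (729 * C * q₁ ^ 2 * q ^ 2) / (1 - β)) ^ (4 * (1 - β)) ≤ K₁ * q ^ (ε / 2) := by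
      rw [show 30 * (729 * C * q₁ ^ 2 * q ^ 2) / (1 - β)
        = 30 * (729 * C * q₁ ^ 2) / (1 - β) * (q : ℝ) ^ 2 by ring]
      exact rpow_aux (by positivity) hq (by linarith)
    have b2 : ‖ψ.LFunction 1‖ ≤ 6 * (K₂ * q ^ (ε / 2)) := by
      have hN : 2 ≤ Real.log ((8 * q₁ * q : ℕ) : ℝ) := by
        rw [Real.le_log_iff_exp_le (by push_cast; positivity)]
        have : Real.exp 2 = Real.exp 1 * Real.exp 1 := by rw [← Real.exp_add]; norm_num
        have h8 := Real.exp_one_lt_d9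
        push_cast
        nlinarith [Real.exp_pos 1, one_le_mul_of_one_le_of_one_le hq1 hq]
      refine (norm_LFunction_le hψ1 hN (by rw [one_re]; exact sub_le_self _ (by positivity))
        (by simp; nlinarith)).trans ?_
      push_cast
      gcongr
    rw [div_le_iff₀ (by positivity)]
    refine E.trans ?_
    simp only [zetaOne_one, one_mul, norm_mul]
    calc _ ≤ 2 * (‖χ₁.LFunction 1‖ * (‖χ.LFunction 1‖ * (6 * (K₂ * q ^ (ε / 2))))) *
          (K₁ * q ^ (ε / 2)) := by gcongr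
      _ = _ := by rw [← hsq]; ring

/-- **Siegel's theorem**. -/
theorem siegel {ε : ℝ} (hε : 0 < ε) :
    ∃ c : ℝ, 0 < c ∧ ∀ (q : ℕ) [NeZero q] (χ : DirichletCharacter ℂ q), χ ≠ 1 → χ ^ 2 = 1 →
      c ≤ ‖χ.LFunction 1‖ * (q : ℝ) ^ ε := by
  obtain ⟨δ, hδ0, hδ1, hδ2, hδ⟩ : ∃ δ : ℝ, 0 < δ ∧ δ ≤ 1 / 8 ∧ 16 * δ ≤ ε ∧
      ∀ σ ∈ Set.Icc (1 - δ) 1, zetaOne σ ≠ 0 := by
    have hc : ContinuousAt (fun σ : ℝ => zetaOne σ) 1 :=
      ((DirichletCharacter.differentiable_LFunctionTrivChar₁ 1).continuous.comp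
        continuous_ofReal).continuousAt
    obtain ⟨r, hr, h⟩ := Metric.eventually_nhds_iff.1
      (hc.eventually_ne (y := 0) (by simp))
    refine ⟨min (r / 2) (min (1 / 8) (ε / 16)), by positivity,
      (min_le_right _ _).trans (min_le_left _ _), ?_, fun σ hσ => h ?_⟩
    · have := (min_le_right (r / 2) _).trans (min_le_right (1 / 8) (ε / 16)); linarith
    · have := min_le_left (r / 2) (min (1 / 8) (ε / 16))
      rw [Real.dist_eq, abs_lt]; constructor <;> linarith [hσ.1, hσ.2]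
  by_cases hA : ∃ (q₁ : ℕ) (_ : NeZero q₁) (χ₁ : DirichletCharacter ℂ q₁) (β : ℝ),
      χ₁ ≠ 1 ∧ χ₁ ^ 2 = 1 ∧ 1 - δ ≤ β ∧ β < 1 ∧ χ₁.LFunction β = 0
  · obtain ⟨q₁, _, χ₁, β, a1, a2, a3, a4, a5⟩ := hA
    exact siegel_of_zero hε a1 a2 (by linarith) a4 (by linarith) a5
  push Not at hA
  obtain ⟨C, hC1, hC⟩ := exists_zetaOne_bound
  set K₁ : ℝ := (30 * (9 * C) / δ) ^ (4 * δ) with hK₁
  have hK₁0 : 0 < K₁ := by positivity
  refine ⟨δ / (2 * K₁), by positivity, fun q _ χ hn h₂ => ?_⟩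
  have hq : (1 : ℝ) ≤ q := by exact_mod_cast NeZero.pos q
  have E := estermann (a := χ.zetaMul) (DirichletCharacter.zetaMul_nonneg h₂)
    χ.isMultiplicative_zetaMul.map_one
    (LSeries.abscissaOfAbsConv_le_of_forall_lt_LSeriesSummable fun y hy =>
      χ.LSeriesSummable_zetaMul (by simpa))
    (Φ := fun s => zetaOne s * χ.LFunction s)
    ((DirichletCharacter.differentiable_LFunctionTrivChar₁ 1).mul
      (DirichletCharacter.differentiable_LFunction hn))
    (fun s hs => zetaOne_mul χ hs) (M := 9 * C * q ^ 2) (by nlinarith [one_le_pow₀ (n := 2) hq])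
    (fun s hs => by
      rw [norm_mul]
      calc _ ≤ C * (9 * q) := by
            gcongr
            exacts [hC s hs, norm_LFunction_le_crude hn hs]
        _ ≤ C * (9 * q ^ 2) := by gcongr; nlinarith
        _ = _ := by ring)
    (β := 1 - δ) (by linarith) (by linarith) (Or.inr fun σ hσ => mul_ne_zero (hδ σ hσ) (by
      rcases hσ.2.lt_or_eq with h | h
      · exact hA q _ χ σ hn h₂ hσ.1 h
      · rw [h]; exact χ.LFunction_apply_one_ne_zero hn))
  rw [sub_sub_cancel, show 30 * (9 * C * q ^ 2) / δ = 30 * (9 * C) / δ * (q : ℝ) ^ 2 by ring] at E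
  have b1 := rpow_aux (K := 30 * (9 * C) / δ) (e := δ) (η := ε) (by positivity) hq (by linarith)
  rw [div_le_iff₀ (by positivity)]
  refine E.trans ?_
  simp only [zetaOne_one, one_mul]
  calc _ ≤ 2 * ‖χ.LFunction 1‖ * (K₁ * q ^ ε) := by gcongr
    _ = _ := by ring

lemma tendsto_log_nat : Tendsto (fun Q : ℕ => Real.log Q) atTop atTop :=
  Real.tendsto_log_atTop.comp tendsto_natCast_atTop_atTop

/-- Siegel–Walfisz at a single point. -/
lemma siegel_walfisz_at (A : ℕ) : ∀ᶠ X : ℕ in atTop, ∀ (q : ℕ) [NeZero q]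
    (χ : DirichletCharacter ℂ q), χ ≠ 1 → (q : ℝ) ≤ Real.log X ^ A →
      ‖∑ n ∈ range (X + 1), χ n * vonMangoldt n‖ ≤ X / Real.log X ^ A := by
  set c : ℝ := Real.exp 73 * 225 with hc
  have hc0 : 0 < c := by positivity
  have e1 : ∀ᶠ Q : ℕ in atTop, (c * Real.log Q ^ 2) ^ 13 ≤ Q := by
    have := (Real.isLittleO_pow_log_id_atTop (n := 26)).bound (c := 1 / c ^ 13) (by positivity)
    filter_upwards [tendsto_natCast_atTop_atTop.eventually this] with Q hQ
    simp only [Real.norm_eq_abs, id, Nat.abs_cast] at hQ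
    have := (le_abs_self _).trans hQ
    calc _ = c ^ 13 * Real.log Q ^ 26 := by ring
      _ ≤ c ^ 13 * (1 / c ^ 13 * Q) := by gcongr
      _ = _ := by field_simp
  have e2 : ∀ᶠ Q : ℕ in atTop, 23 * (c * Real.log Q ^ 2) ^ 12 ≤ Real.log Q ^ 25 := by
    filter_upwards [tendsto_log_nat.eventually_ge_atTop (23 * c ^ 12),
      tendsto_log_nat.eventually_ge_atTop 0] with Q h1 h2
    calc _ = 23 * c ^ 12 * Real.log Q ^ 24 := by ring
      _ ≤ Real.log Q * Real.log Q ^ 24 := by gcongr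
      _ = _ := by ring
  have e3 : ∀ᶠ Q : ℕ in atTop, (2 * Real.log Q) ^ (26 * (A + 1)) ≤ Q := by
    have := (Real.isLittleO_pow_log_id_atTop (n := 26 * (A + 1))).bound
      (c := 1 / 2 ^ (26 * (A + 1))) (by positivity)
    filter_upwards [tendsto_natCast_atTop_atTop.eventually this] with Q hQ
    simp only [Real.norm_eq_abs, id, Nat.abs_cast] at hQ
    have := (le_abs_self _).trans hQ
    rw [mul_pow]
    calc _ ≤ 2 ^ (26 * (A + 1)) * (1 / 2 ^ (26 * (A + 1)) * (Q : ℝ)) := by gcongr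
      _ = _ := by field_simp
  obtain ⟨κ, hκ, hS⟩ := siegel (ε := 1 / (26 * (A + 1))) (by positivity)
  have e4 : ∀ᶠ Q : ℕ in atTop, 1 / (10 * c ^ 2 * κ) ≤ Real.log Q :=
    tendsto_log_nat.eventually_ge_atTop _
  set u : ℕ → ℝ := fun X => Real.log X ^ (1 / 26 : ℝ) with hu
  have hT : Tendsto (fun X : ℕ => ⌊Real.exp (u X)⌋₊) atTop atTop :=
    tendsto_nat_floor_atTop.comp (Real.tendsto_exp_atTop.comp
      ((tendsto_rpow_atTop (by norm_num)).comp tendsto_log_nat))
  filter_upwards [hT.eventually e1, hT.eventually e2, hT.eventually e3, hT.eventually e4,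
    hT.eventually_ge_atTop 20, tendsto_log_nat.eventually_ge_atTop 1] with X h1 h2 h3 h4 h5 h6
  intro q _ χ hχ hq
  set Q := ⌊Real.exp (u X)⌋₊ with hQ
  have hQ' : (20 : ℝ) ≤ Q := by exact_mod_cast h5
  have hl : 1 ≤ Real.log Q := by
    rw [Real.le_log_iff_exp_le (by linarith)]; linarith [Real.exp_one_lt_d9]
  have hu26 : u X ^ 26 = Real.log X := by
    simp only [hu]
    rw [← Real.rpow_natCast, ← Real.rpow_mul (by linarith)]; norm_num
  have hu0 : 0 ≤ u X := by simp only [hu]; positivity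
  have a1 : Real.log Q ≤ u X := by
    rw [Real.log_le_iff_le_exp (by linarith)]
    exact Nat.floor_le (by positivity)
  have a2 : u X ≤ 2 * Real.log Q := by
    have : Real.exp (u X) ≤ Q ^ 2 := by
      have := Nat.lt_floor_add_one (Real.exp (u X))
      rw [← hQ] at this; nlinarith
    have := Real.log_le_log (by positivity) this
    rwa [Real.log_exp, Real.log_pow] at this
  have a3 : Real.log X ^ (A + 1) ≤ Q := by
    refine le_trans ?_ h3
    rw [← hu26, ← pow_mul]; gcongr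
  have a4 : Real.log X ^ A ≤ Q := (pow_le_pow_right₀ h6 (by omega)).trans a3
  have a5 : Real.log X ≤ Q := (le_self_pow₀ h6 (by omega)).trans a3
  have hM' : c * Real.log Q ^ 2 = Real.exp 73 * (15 * Real.log Q) ^ 2 := by rw [hc]; ring
  refine (psi_char_le hχ h5 (by exact_mod_cast hq.trans a4) hM' h1 h2 (fun hr => ?_)
    (by rw [← hu26]; gcongr) a5).trans ?_
  · have b1 := hS q χ hχ hr
    have b2 : (q : ℝ) ^ (1 / (26 * (A + 1)) : ℝ) ≤ 2 * Real.log Q := by
      refine le_trans ?_ a2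
      calc _ ≤ (Real.log X ^ (A + 1)) ^ (1 / (26 * (A + 1)) : ℝ) := by
            gcongr
            exact hq.trans (pow_le_pow_right₀ h6 (by omega))
        _ = _ := by
            simp only [hu]
            rw [← Real.rpow_natCast, ← Real.rpow_mul (by linarith)]
            congr 1
            push_cast; field_simp
    have b3 : κ ≤ ‖χ.LFunction 1‖ * (2 * Real.log Q) := b1.trans (by gcongr)
    rw [div_le_iff₀ (by positivity)] at h4 ⊢
    have b4 : Real.log Q * Real.log Q ≤ Real.log Q ^ 4 := by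
      rw [← sq]; exact pow_le_pow_right₀ hl (by norm_num)
    calc 1 ≤ Real.log Q * (10 * c ^ 2 * κ) := h4
      _ ≤ Real.log Q * (10 * c ^ 2 * (‖χ.LFunction 1‖ * (2 * Real.log Q))) := by gcongr
      _ = ‖χ.LFunction 1‖ * (20 * c ^ 2 * (Real.log Q * Real.log Q)) := by ring
      _ ≤ ‖χ.LFunction 1‖ * (20 * c ^ 2 * Real.log Q ^ 4) := by gcongr
      _ = _ := by ring
  · gcongr
    exact a4.trans (le_self_pow₀ (by linarith) (by norm_num))

/-- **Siegel–Walfisz theorem** for non-principal characters, uniformly for all `x ≤ X`. -/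
theorem siegel_walfisz (A : ℕ) : ∀ᶠ X : ℕ in atTop, ∀ (q : ℕ) [NeZero q]
    (χ : DirichletCharacter ℂ q), χ ≠ 1 → (q : ℝ) ≤ Real.log X ^ A → ∀ x ≤ X + 1,
      ‖∑ n ∈ range x, χ n * vonMangoldt n‖ ≤ X / Real.log X ^ A := by
  obtain ⟨X₀, hX₀⟩ := eventually_atTop.1 (siegel_walfisz_at (2 * A))
  have e1 : ∀ᶠ X : ℕ in atTop, 6 * √(X : ℝ) ≤ X / Real.log X ^ A := by
    have := (isLittleO_log_rpow_rpow_atTop (A : ℝ) (s := 1 / 2) (by norm_num)).bound
      (c := 1 / 6) (by norm_num)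
    filter_upwards [tendsto_natCast_atTop_atTop.eventually this,
      tendsto_log_nat.eventually_gt_atTop 0] with X h h0
    rw [Real.norm_of_nonneg (by positivity), Real.norm_of_nonneg (by positivity),
      Real.rpow_natCast, ← Real.sqrt_eq_rpow] at h
    rw [le_div_iff₀ (by positivity)]
    calc _ ≤ 6 * √(X : ℝ) * (1 / 6 * √(X : ℝ)) := by gcongr
      _ = √(X : ℝ) * √(X : ℝ) := by ring
      _ = _ := Real.mul_self_sqrt (by positivity)
  filter_upwards [e1, eventually_ge_atTop (X₀ ^ 2), tendsto_log_nat.eventually_ge_atTop 4]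
    with X h1 h2 h3
  intro q _ χ hχ hq x hx
  rcases Nat.eq_zero_or_pos x with rfl | hx0
  · simp; positivity
  obtain ⟨y, rfl⟩ : ∃ y, x = y + 1 := ⟨x - 1, by omega⟩
  have hy : (y : ℝ) ≤ X := by exact_mod_cast (by omega : y ≤ X)
  rcases le_or_gt (y : ℝ) √(X : ℝ) with h | h
  · refine le_trans ?_ h1
    refine (norm_sum_le _ _).trans (le_trans ?_ ((sum_vonMangoldt_le y).trans (by gcongr)))
    rw [range_eq_Ico, sum_eq_sum_Ico_succ_bot (by omega)]
    simp only [ArithmeticFunction.map_zero, ofReal_zero, mul_zero, norm_zero, zero_add]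
    refine sum_le_sum fun n _ => ?_
    rw [norm_mul, norm_real, Real.norm_of_nonneg vonMangoldt_nonneg]
    exact mul_le_of_le_one_left vonMangoldt_nonneg (χ.norm_le_one _)
  · have hX0 : (0 : ℝ) < X := by
      by_contra h0
      have : (X : ℝ) = 0 := le_antisymm (not_lt.1 h0) (by positivity)
      rw [this] at h3; norm_num at h3
    have b0 : X₀ ≤ y := by
      have : (X₀ : ℝ) ≤ √(X : ℝ) := Real.le_sqrt_of_sq_le (by exact_mod_cast h2)
      exact_mod_cast this.trans h.le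
    have b1 : Real.log X / 2 ≤ Real.log y := by
      rw [← Real.log_sqrt hX0.le]
      exact Real.log_le_log (by positivity) h.le
    have b2 : Real.log X ^ A ≤ Real.log y ^ (2 * A) := by
      rw [pow_mul]; gcongr; nlinarith
    refine (hX₀ y b0 q χ hχ (hq.trans b2)).trans ?_
    gcongr

end Pool.Agent.Lib.ANT
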