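import Pool.Agent.Lib.ANT.Selberg
import Mathlib.Data.Int.CardIntervalMod
import Mathlib.Data.Nat.ChineseRemainder
import Mathlib.Algebra.Order.Floor.Ring

/-!
# Sifting an interval by residue classes

Counting lemmas for residue classes in intervals and the Selberg upper bound for the number of
`n ∈ (M, M+N]` avoiding `ω p` residue classes modulo each prime `p` of a finite set.
-/

noncomputable section

open Finset

namespace Pool.Agent.Lib.ANT

/-- A residue class mod `r` has `N / r + O(1)` elements in an interval of length `N`. -/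
theorem abs_card_modEq_sub_le (M N r v : ℕ) (hr : 0 < r) :
    |(((Ioc M (M + N)).filter (fun n => n ≡ v [MOD r])).card : ℝ) - N / r| ≤ 1 := by
  have h := Nat.Ioc_filter_modEq_card M (M + N) hr v
  have hr' : (0 : ℚ) < r := by exact_mod_cast hr
  have hle : ⌊((M : ℚ) - v) / r⌋ ≤ ⌊(((M + N : ℕ) : ℚ) - v) / r⌋ := by
    apply Int.floor_le_floor
    push_cast
    gcongr
    linarith [(Nat.cast_nonneg N : (0 : ℚ) ≤ N)]
  rw [max_eq_left (by linarith)] at h
  have h1 := Int.floor_le (((M : ℚ) - v) / r)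
  have h2 := Int.lt_floor_add_one (((M : ℚ) - v) / r)
  have h3 := Int.floor_le ((((M + N : ℕ) : ℚ) - v) / r)
  have h4 := Int.lt_floor_add_one ((((M + N : ℕ) : ℚ) - v) / r)
  have h5 : (((M + N : ℕ) : ℚ) - v) / r = ((M : ℚ) - v) / r + N / r := by push_cast; ring
  have h6 : |((((Ioc M (M + N)).filter (fun n => n ≡ v [MOD r])).card : ℚ)) - N / r| ≤ 1 := by
    have : ((((Ioc M (M + N)).filter (fun n => n ≡ v [MOD r])).card : ℚ)) =
        (⌊(((M + N : ℕ) : ℚ) - v) / r⌋ : ℚ) - ⌊((M : ℚ) - v) / r⌋ := by exact_mod_cast h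
    rw [this, abs_le]
    constructor <;> linarith
  have h7 : ((|((((Ioc M (M + N)).filter (fun n => n ≡ v [MOD r])).card : ℚ)) - N / r| : ℚ) : ℝ)
      ≤ ((1 : ℚ) : ℝ) := by exact_mod_cast h6
  push_cast at h7
  exact h7

/-- A union of `ρ` residue classes mod `d` has `ρ N / d + O(ρ)` elements in an interval of
length `N`. -/
theorem abs_card_mod_mem_sub_le (M N d : ℕ) (hd : 0 < d) (q : ℕ → Prop) [DecidablePred q] :
    |(((Ioc M (M + N)).filter (fun n => q (n % d))).card : ℝ) -
      ((range d).filter q).card * (N / d : ℝ)| ≤ ((range d).filter q).card := by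
  have h1 : ((Ioc M (M + N)).filter (fun n => q (n % d))).card =
      ∑ v ∈ (range d).filter q, ((Ioc M (M + N)).filter (fun n => n ≡ v [MOD d])).card := by
    rw [Finset.card_eq_sum_card_fiberwise (f := fun n => n % d) (t := (range d).filter q)]
    · refine Finset.sum_congr rfl fun v hv => ?_
      rw [Finset.filter_filter]
      congr 1
      refine Finset.filter_congr fun n _ => ?_
      have hv' := Finset.mem_filter.mp hv
      have hvd : v % d = v := Nat.mod_eq_of_lt (Finset.mem_range.mp hv'.1)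
      unfold Nat.ModEq
      rw [hvd]
      constructor
      · exact fun h => h.2
      · exact fun h => ⟨h ▸ hv'.2, h⟩
    · intro n hn
      have := Finset.mem_filter.mp (Finset.mem_coe.mp hn)
      exact Finset.mem_coe.mpr
        (Finset.mem_filter.mpr ⟨Finset.mem_range.mpr (Nat.mod_lt _ hd), this.2⟩)
  rw [h1]
  push_cast
  have h2 : (((range d).filter q).card : ℝ) * (N / d : ℝ) = ∑ _v ∈ (range d).filter q, (N / d : ℝ) := by
    simp
  rw [h2, ← Finset.sum_sub_distrib]
  refine (Finset.abs_sum_le_sum_abs _ _).trans ?_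
  refine (Finset.sum_le_sum fun v _ => abs_card_modEq_sub_le M N d v hd).trans ?_
  simp

/-- Chinese remainder theorem, counting form. -/
theorem card_range_mul_coprime {a b : ℕ} (hab : a.Coprime b) (ha : 0 < a) (hb : 0 < b)
    (q1 q2 : ℕ → Prop) [DecidablePred q1] [DecidablePred q2] :
    ((range (a * b)).filter (fun n => q1 (n % a) ∧ q2 (n % b))).card =
      ((range a).filter q1).card * ((range b).filter q2).card := by
  rw [← Finset.card_product]
  refine Finset.card_bij (fun n _ => (n % a, n % b)) ?_ ?_ ?_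
  · intro n hn
    have := Finset.mem_filter.mp hn
    simp only [Finset.mem_product, Finset.mem_filter, Finset.mem_range]
    exact ⟨⟨Nat.mod_lt _ ha, this.2.1⟩, Nat.mod_lt _ hb, this.2.2⟩
  · intro n hn m hm h
    simp only [Prod.mk.injEq] at h
    have h1 : n ≡ m [MOD a * b] := (Nat.modEq_and_modEq_iff_modEq_mul hab).mp ⟨h.1, h.2⟩
    exact Nat.ModEq.eq_of_lt_of_lt h1 (Finset.mem_range.mp (Finset.mem_filter.mp hn).1)
      (Finset.mem_range.mp (Finset.mem_filter.mp hm).1)
  · rintro ⟨u, v⟩ huv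
    simp only [Finset.mem_product, Finset.mem_filter, Finset.mem_range] at huv
    have hu : ((Nat.chineseRemainder hab u v : ℕ)) % a = u := by
      have := (Nat.chineseRemainder hab u v).2.1
      unfold Nat.ModEq at this
      rw [this, Nat.mod_eq_of_lt huv.1.1]
    have hv : ((Nat.chineseRemainder hab u v : ℕ)) % b = v := by
      have := (Nat.chineseRemainder hab u v).2.2
      unfold Nat.ModEq at this
      rw [this, Nat.mod_eq_of_lt huv.2.1]
    refine ⟨Nat.chineseRemainder hab u v, ?_, by rw [hu, hv]⟩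
    refine Finset.mem_filter.mpr ⟨Finset.mem_range.mpr
      (Nat.chineseRemainder_lt_mul hab u v ha.ne' hb.ne'), ?_⟩
    rw [hu, hv]
    exact ⟨huv.1.2, huv.2.2⟩

/-- The number of classes mod `∏ T` lying in `Ω p` mod `p` for all `p ∈ T`. -/
theorem card_range_prod_primes (T : Finset ℕ) (hT : ∀ p ∈ T, p.Prime) (Ω : ℕ → Finset ℕ)
    (hΩ : ∀ p ∈ T, Ω p ⊆ range p) :
    ((range (∏ p ∈ T, p)).filter (fun n => ∀ p ∈ T, n % p ∈ Ω p)).card = ∏ p ∈ T, (Ω p).card := by
  induction T using Finset.induction_on with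
  | empty => simp
  | insert p T hp ih =>
    have hpp : p.Prime := hT p (Finset.mem_insert_self _ _)
    have hT' : ∀ q ∈ T, q.Prime := fun q hq => hT q (Finset.mem_insert_of_mem hq)
    have hcop : p.Coprime (∏ q ∈ T, q) := Nat.Coprime.prod_right fun q hq =>
      (Nat.coprime_primes hpp (hT' q hq)).mpr (fun h => hp (h ▸ hq))
    have hpos : 0 < ∏ q ∈ T, q := Finset.prod_pos fun q hq => (hT' q hq).pos
    rw [Finset.prod_insert hp, Finset.prod_insert hp,
      ← ih hT' (fun q hq => hΩ q (Finset.mem_insert_of_mem hq))]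
    have h1 : (Ω p).card = ((range p).filter (fun n => n ∈ Ω p)).card := by
      congr 1
      ext n
      simp only [Finset.mem_filter]
      exact ⟨fun h => ⟨hΩ p (Finset.mem_insert_self _ _) h, h⟩, fun h => h.2⟩
    rw [h1, ← card_range_mul_coprime hcop hpp.pos hpos]
    congr 1
    refine Finset.filter_congr fun n _ => ?_
    simp only [Finset.mem_insert, forall_eq_or_imp]
    refine and_congr Iff.rfl (forall₂_congr fun q hq => ?_)
    rw [Nat.mod_mod_of_dvd _ (Finset.dvd_prod_of_mem (fun q => q) hq)]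

theorem squarefree_prod_primes (T : Finset ℕ) (hT : ∀ p ∈ T, p.Prime) :
    Squarefree (∏ p ∈ T, p) := by
  refine Finset.squarefree_prod_of_pairwise_isCoprime ?_ fun p hp => (hT p hp).squarefree
  intro p hp q hq hpq
  exact Nat.coprime_iff_isRelPrime.mp ((Nat.coprime_primes (hT p hp) (hT q hq)).mpr hpq)

/-- **Selberg sieve for residue classes.** Remove `ω p = |Ω p|` classes modulo each prime `p ∈ Ps`
(`0 < ω p < p`) from the interval `(M, M+N]`. -/
theorem sieve_classes (Ps : Finset ℕ) (hPs : ∀ p ∈ Ps, p.Prime) (Ω : ℕ → Finset ℕ)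
    (hΩ : ∀ p ∈ Ps, Ω p ⊆ range p) (hω0 : ∀ p ∈ Ps, 0 < (Ω p).card)
    (hω1 : ∀ p ∈ Ps, (Ω p).card < p) (M N : ℕ) (z : ℝ) (hz : 1 ≤ z) :
    (((Ioc M (M + N)).filter (fun n => ∀ p ∈ Ps, n % p ∉ Ω p)).card : ℝ) ≤
      N / (∑ l ∈ (∏ p ∈ Ps, p).divisors.filter (fun l : ℕ => (l : ℝ) ≤ z),
          ∏ p ∈ l.primeFactors, ((Ω p).card : ℝ) / (p - (Ω p).card)) +
      (∑ d ∈ (∏ p ∈ Ps, p).divisors.filter (fun d : ℕ => (d : ℝ) ≤ z),
          ∏ p ∈ d.primeFactors, ((Ω p).card : ℝ)) ^ 2 := by
  set P := ∏ p ∈ Ps, p with hP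
  have hPsq : Squarefree P := squarefree_prod_primes Ps hPs
  have hPf : P.primeFactors = Ps := Nat.primeFactors_prod hPs
  have hmem : ∀ p, p.Prime → p ∣ P → p ∈ Ps := fun p hp hpP =>
    hPf ▸ Nat.mem_primeFactors.mpr ⟨hp, hpP, hPsq.ne_zero⟩
  let f : ℕ → ℕ := fun n => ∏ p ∈ Ps.filter (fun p => n % p ∈ Ω p), p
  have hf : ∀ n, (f n).primeFactors = Ps.filter (fun p => n % p ∈ Ω p) := fun n =>
    Nat.primeFactors_prod fun p hp => hPs p (Finset.mem_filter.mp hp).1
  have hf0 : ∀ n, f n ≠ 0 := fun n =>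
    (Finset.prod_pos fun p hp => (hPs p (Finset.mem_filter.mp hp).1).pos).ne'
  have hdvd : ∀ n p, p ∈ Ps → (p ∣ f n ↔ n % p ∈ Ω p) := by
    intro n p hp
    constructor
    · intro h
      have : p ∈ (f n).primeFactors := Nat.mem_primeFactors.mpr ⟨hPs p hp, h, hf0 n⟩
      rw [hf] at this
      exact (Finset.mem_filter.mp this).2
    · intro h
      exact Finset.dvd_prod_of_mem (fun p => p) (Finset.mem_filter.mpr ⟨hp, h⟩)
  have h := selberg_sieve (Ioc M (M + N)) f (fun _ => 1) (fun _ _ => zero_le_one) P hPsq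
    (fun p => ((Ω p).card : ℝ) / p)
    (fun p hp hpP => div_pos (by exact_mod_cast hω0 p (hmem p hp hpP)) (by exact_mod_cast hp.pos))
    (fun p hp hpP => (div_lt_one (by exact_mod_cast hp.pos)).mpr
      (by exact_mod_cast hω1 p (hmem p hp hpP))) N z hz
  have e1 : (Ioc M (M + N)).filter (fun n => ∀ p ∈ Ps, n % p ∉ Ω p) =
      (Ioc M (M + N)).filter (fun n => Nat.Coprime P (f n)) := by
    refine Finset.filter_congr fun n _ => ?_
    constructor
    · intro hn
      refine Nat.coprime_of_dvd fun p hp hpP hpf => ?_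
      exact hn p (hmem p hp hpP) ((hdvd n p (hmem p hp hpP)).mp hpf)
    · intro hn p hp hp'
      have h1 : p ∣ Nat.gcd P (f n) :=
        Nat.dvd_gcd (Finset.dvd_prod_of_mem (fun p => p) hp) ((hdvd n p hp).mpr hp')
      rw [hn] at h1
      exact (hPs p hp).one_lt.ne' (Nat.dvd_one.mp h1)
  rw [e1]
  simp only [Finset.sum_const, nsmul_eq_mul, mul_one] at h
  refine h.trans (add_le_add (le_of_eq ?_) ?_)
  · congr 1
    refine Finset.sum_congr rfl fun l _ => Finset.prod_congr rfl fun p hp => ?_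
    have : (p : ℝ) ≠ 0 := by exact_mod_cast (Nat.prime_of_mem_primeFactors hp).ne_zero
    field_simp
  · rw [sq, Finset.sum_mul_sum]
    refine Finset.sum_le_sum fun d1 hd1 => Finset.sum_le_sum fun d2 hd2 => ?_
    have hd1P := Nat.dvd_of_mem_divisors (Finset.mem_filter.mp hd1).1
    have hd2P := Nat.dvd_of_mem_divisors (Finset.mem_filter.mp hd2).1
    set d := Nat.lcm d1 d2 with hd
    have hdP : d ∣ P := Nat.lcm_dvd hd1P hd2P
    have hdsq : Squarefree d := hPsq.squarefree_of_dvd hdP
    have hsub : d.primeFactors ⊆ Ps := hPf ▸ Nat.primeFactors_mono hdP hPsq.ne_zero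
    have hdprod : ∏ p ∈ d.primeFactors, p = d := Nat.prod_primeFactors_of_squarefree hdsq
    have hcount := card_range_prod_primes d.primeFactors
      (fun p hp => Nat.prime_of_mem_primeFactors hp) Ω (fun p hp => hΩ p (hsub hp))
    rw [hdprod] at hcount
    have hb := abs_card_mod_mem_sub_le M N d (Nat.pos_of_ne_zero hdsq.ne_zero)
      (fun n => ∀ p ∈ d.primeFactors, n % p ∈ Ω p)
    rw [hcount] at hb
    have e2 : (Ioc M (M + N)).filter (fun n => d ∣ f n) =
        (Ioc M (M + N)).filter (fun n => ∀ p ∈ d.primeFactors, n % d % p ∈ Ω p) := by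
      refine Finset.filter_congr fun n _ => ?_
      constructor
      · intro hn p hp
        rw [Nat.mod_mod_of_dvd _ (Nat.dvd_of_mem_primeFactors hp)]
        exact (hdvd n p (hsub hp)).mp ((Nat.dvd_of_mem_primeFactors hp).trans hn)
      · intro hn
        rw [← hdprod]
        refine Finset.prod_dvd_prod_of_subset _ _ (fun p => p) fun p hp => ?_
        refine Finset.mem_filter.mpr ⟨hsub hp, ?_⟩
        have := hn p hp
        rwa [Nat.mod_mod_of_dvd _ (Nat.dvd_of_mem_primeFactors hp)] at this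
    rw [e2]
    have e3 : (∏ p ∈ d.primeFactors, ((Ω p).card : ℝ) / p) * N =
        ((∏ p ∈ d.primeFactors, (Ω p).card : ℕ) : ℝ) * (N / d : ℝ) := by
      rw [Finset.prod_div_distrib]
      have : (∏ p ∈ d.primeFactors, (p : ℝ)) = d := by
        rw [← Nat.cast_prod]; exact congrArg _ hdprod
      rw [this]
      push_cast
      ring
    rw [e3]
    refine hb.trans ?_
    have hd10 : d1 ≠ 0 := (hPsq.squarefree_of_dvd hd1P).ne_zero
    have hd20 : d2 ≠ 0 := (hPsq.squarefree_of_dvd hd2P).ne_zero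
    have hunion : d.primeFactors = d1.primeFactors ∪ d2.primeFactors := by
      ext p
      simp only [Nat.mem_primeFactors, Finset.mem_union, hd]
      constructor
      · rintro ⟨hp, hpd, -⟩
        rcases (Nat.Prime.dvd_mul hp).mp (hpd.trans (Nat.lcm_dvd_mul _ _)) with h | h
        · exact Or.inl ⟨hp, h, hd10⟩
        · exact Or.inr ⟨hp, h, hd20⟩
      · rintro (⟨hp, h, -⟩ | ⟨hp, h, -⟩)
        · exact ⟨hp, h.trans (Nat.dvd_lcm_left _ _), Nat.lcm_ne_zero hd10 hd20⟩
        · exact ⟨hp, h.trans (Nat.dvd_lcm_right _ _), Nat.lcm_ne_zero hd10 hd20⟩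
    have hle : (∏ p ∈ d.primeFactors, (Ω p).card) ≤
        (∏ p ∈ d1.primeFactors, (Ω p).card) * ∏ p ∈ d2.primeFactors, (Ω p).card := by
      rw [← Finset.prod_union_inter, ← hunion]
      refine Nat.le_mul_of_pos_right _ (Finset.prod_pos fun p hp => hω0 p (hsub ?_))
      rw [hunion]
      exact Finset.mem_union_left _ (Finset.mem_inter.mp hp).1
    exact_mod_cast hle

end Pool.Agent.Lib.ANT
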