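import Pool.Agent.Lib.ANT.SieveClasses
import Mathlib.NumberTheory.EulerProduct.Basic
import Mathlib.NumberTheory.Harmonic.Bounds
import Mathlib.Data.Nat.Totient
import Mathlib.Analysis.SpecialFunctions.Pow.Real

/-!
# Lower bounds for Selberg sums and the sieve of dimension `k`
-/

noncomputable section

open Finset

namespace Pool.Agent.Lib.ANT

/-- `∑ ∏_{p ∈ T} g p` over the subsets `T` of `Ps` with `∏ T ≤ z`. -/
def sqfSum (Ps : Finset ℕ) (g : ℕ → ℝ) (z : ℝ) : ℝ :=
  ∑ T ∈ Ps.powerset, if ((∏ p ∈ T, p : ℕ) : ℝ) ≤ z then ∏ p ∈ T, g p else 0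

theorem sqfSum_eq_sum_divisors (Ps : Finset ℕ) (hPs : ∀ p ∈ Ps, p.Prime) (g : ℕ → ℝ) (z : ℝ) :
    sqfSum Ps g z = ∑ l ∈ (∏ p ∈ Ps, p).divisors.filter (fun l : ℕ => (l : ℝ) ≤ z),
      ∏ p ∈ l.primeFactors, g p := by
  have hsq := squarefree_prod_primes Ps hPs
  have hPf : (∏ p ∈ Ps, p).primeFactors = Ps := Nat.primeFactors_prod hPs
  unfold sqfSum
  rw [Finset.sum_filter]
  refine Finset.sum_bij' (fun T _ => ∏ p ∈ T, p) (fun l _ => l.primeFactors) ?_ ?_ ?_ ?_ ?_
  · intro T hT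
    exact Nat.mem_divisors.mpr ⟨Finset.prod_dvd_prod_of_subset _ _ (fun p => p)
      (Finset.mem_powerset.mp hT), hsq.ne_zero⟩
  · intro l hl
    rw [Finset.mem_powerset, ← hPf]
    exact Nat.primeFactors_mono (Nat.dvd_of_mem_divisors hl) hsq.ne_zero
  · intro T hT
    exact Nat.primeFactors_prod fun p hp => hPs p (Finset.mem_powerset.mp hT hp)
  · intro l hl
    exact Nat.prod_primeFactors_of_squarefree (hsq.squarefree_of_dvd (Nat.dvd_of_mem_divisors hl))
  · intro T hT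
    rw [Nat.primeFactors_prod fun p hp => hPs p (Finset.mem_powerset.mp hT hp)]

theorem sqfSum_empty (g : ℕ → ℝ) (z : ℝ) : sqfSum ∅ g z = if 1 ≤ z then 1 else 0 := by
  simp [sqfSum]

theorem sqfSum_insert {Ps : Finset ℕ} {p : ℕ} (hp : p ∉ Ps) (hp0 : 0 < p) (g : ℕ → ℝ) (z : ℝ) :
    sqfSum (insert p Ps) g z = sqfSum Ps g z + g p * sqfSum Ps g (z / p) := by
  unfold sqfSum
  rw [Finset.sum_powerset_insert hp, Finset.mul_sum]
  congr 1
  refine Finset.sum_congr rfl fun T hT => ?_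
  have hpT : p ∉ T := fun h => hp (Finset.mem_powerset.mp hT h)
  have hp' : (0 : ℝ) < p := by exact_mod_cast hp0
  rw [Finset.prod_insert hpT, Finset.prod_insert hpT]
  simp only [le_div_iff₀ hp', Nat.cast_mul, mul_comm (p : ℝ)]
  split_ifs <;> simp

theorem sqfSum_nonneg {Ps : Finset ℕ} {g : ℕ → ℝ} (hg : ∀ p ∈ Ps, 0 ≤ g p) (z : ℝ) :
    0 ≤ sqfSum Ps g z := by
  refine Finset.sum_nonneg fun T hT => ?_
  split_ifs
  · exact Finset.prod_nonneg fun p hp => hg p (Finset.mem_powerset.mp hT hp)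
  · exact le_rfl

theorem sqfSum_mono {Ps : Finset ℕ} {g g' : ℕ → ℝ} (hg : ∀ p ∈ Ps, 0 ≤ g p)
    (hgg : ∀ p ∈ Ps, g p ≤ g' p) {z z' : ℝ} (hz : z ≤ z') : sqfSum Ps g z ≤ sqfSum Ps g' z' := by
  refine Finset.sum_le_sum fun T hT => ?_
  have hT' := Finset.mem_powerset.mp hT
  by_cases h : ((∏ p ∈ T, p : ℕ) : ℝ) ≤ z
  · rw [if_pos h, if_pos (h.trans hz)]
    exact Finset.prod_le_prod (fun p hp => hg p (hT' hp)) fun p hp => hgg p (hT' hp)
  · rw [if_neg h]
    split_ifs
    · exact Finset.prod_nonneg fun p hp => (hg p (hT' hp)).trans (hgg p (hT' hp))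
    · exact le_rfl

theorem sqfSum_filter_of_eq_zero (Ps : Finset ℕ) (g : ℕ → ℝ) (q : ℕ → Prop) [DecidablePred q]
    (hq : ∀ p ∈ Ps, ¬ q p → g p = 0) (z : ℝ) : sqfSum (Ps.filter q) g z = sqfSum Ps g z := by
  unfold sqfSum
  refine Finset.sum_subset (Finset.powerset_mono.mpr (Finset.filter_subset _ _)) ?_
  intro T hT hT'
  have : ∃ p ∈ T, ¬ q p := by
    by_contra hcon
    push Not at hcon
    exact hT' (Finset.mem_powerset.mpr fun p hp =>
      Finset.mem_filter.mpr ⟨Finset.mem_powerset.mp hT hp, hcon p hp⟩)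
  obtain ⟨p, hp, hpq⟩ := this
  rw [Finset.prod_eq_zero hp (hq p (Finset.mem_powerset.mp hT hp) hpq)]
  simp

/-- Product rule. -/
theorem sqfSum_mul_le (Ps : Finset ℕ) (hPs : ∀ p ∈ Ps, 0 < p) (g1 g2 : ℕ → ℝ)
    (h1 : ∀ p ∈ Ps, 0 ≤ g1 p) (h2 : ∀ p ∈ Ps, 0 ≤ g2 p) (z1 z2 : ℝ) :
    sqfSum Ps g1 z1 * sqfSum Ps g2 z2 ≤
      sqfSum Ps (fun p => g1 p + g2 p + g1 p * g2 p) (z1 * z2) := by
  induction Ps using Finset.induction_on generalizing z1 z2 with
  | empty =>
    simp only [sqfSum_empty]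
    by_cases a : 1 ≤ z1 <;> by_cases b : 1 ≤ z2
    · have : 1 ≤ z1 * z2 := by nlinarith
      simp [a, b, this]
    · simp only [a, b, if_true, if_false, mul_zero]; split_ifs <;> norm_num
    · simp only [a, b, if_true, if_false, zero_mul]; split_ifs <;> norm_num
    · simp only [a, b, if_false, zero_mul]; split_ifs <;> norm_num
  | insert p Ps hp ih =>
    have hp0 := hPs p (Finset.mem_insert_self _ _)
    have hp1 : (1 : ℝ) ≤ p := by exact_mod_cast hp0
    have ih' := ih (fun q hq => hPs q (Finset.mem_insert_of_mem hq))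
      (fun q hq => h1 q (Finset.mem_insert_of_mem hq))
      (fun q hq => h2 q (Finset.mem_insert_of_mem hq))
    have a1 := h1 p (Finset.mem_insert_self _ _)
    have a2 := h2 p (Finset.mem_insert_self _ _)
    set g : ℕ → ℝ := fun p => g1 p + g2 p + g1 p * g2 p with hg
    have hg0 : ∀ q ∈ Ps, 0 ≤ g q := fun q hq => by
      have b1 := h1 q (Finset.mem_insert_of_mem hq)
      have b2 := h2 q (Finset.mem_insert_of_mem hq)
      simp only [hg]; positivity
    rw [sqfSum_insert hp hp0, sqfSum_insert hp hp0, sqfSum_insert hp hp0]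
    have e1 := ih' z1 z2
    have e2 := ih' (z1 / p) z2
    have e3 := ih' z1 (z2 / p)
    have e4 : sqfSum Ps g1 (z1 / p) * sqfSum Ps g2 (z2 / p) ≤ sqfSum Ps g (z1 * z2 / p) := by
      by_cases hz : 0 ≤ z1 * z2
      · refine (ih' (z1 / p) (z2 / p)).trans (sqfSum_mono hg0 (fun _ _ => le_rfl) ?_)
        rw [div_mul_div_comm]
        gcongr
        nlinarith
      · have : sqfSum Ps g1 (z1 / p) * sqfSum Ps g2 (z2 / p) = 0 := by
          have hz0 : ∀ (f : ℕ → ℝ) (y : ℝ), y < 0 → sqfSum Ps f y = 0 := by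
            intro f y hy
            refine Finset.sum_eq_zero fun T _ => if_neg ?_
            have : (0 : ℝ) ≤ ((∏ p ∈ T, p : ℕ) : ℝ) := Nat.cast_nonneg _
            linarith
          rcases lt_or_ge z1 0 with h | h
          · rw [hz0 g1 _ (div_neg_of_neg_of_pos h (by linarith)), zero_mul]
          · have : z2 < 0 := by
              by_contra hcon
              exact hz (mul_nonneg h (not_lt.mp hcon))
            rw [hz0 g2 _ (div_neg_of_neg_of_pos this (by linarith)), mul_zero]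
        rw [this]
        exact sqfSum_nonneg hg0 _
    rw [show z1 / p * z2 = z1 * z2 / p by ring] at e2
    rw [show z1 * (z2 / p) = z1 * z2 / p by ring] at e3
    have f2 := mul_le_mul_of_nonneg_left e2 a1
    have f3 := mul_le_mul_of_nonneg_left e3 a2
    have f4 := mul_le_mul_of_nonneg_left e4 (mul_nonneg a1 a2)
    simp only [hg] at *
    nlinarith

/-- Removing the primes satisfying `q` costs at most the factor `∏ (1 + g p)`. -/
theorem sqfSum_le_mul_prod (Ps : Finset ℕ) (hPs : ∀ p ∈ Ps, 0 < p) (g : ℕ → ℝ)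
    (h : ∀ p ∈ Ps, 0 ≤ g p) (q : ℕ → Prop) [DecidablePred q] (z : ℝ) :
    sqfSum Ps g z ≤
      sqfSum Ps (fun p => if q p then 0 else g p) z * ∏ p ∈ Ps.filter q, (1 + g p) := by
  induction Ps using Finset.induction_on generalizing z with
  | empty => simp [sqfSum_empty]
  | insert p Ps hp ih =>
    have hp0 := hPs p (Finset.mem_insert_self _ _)
    have hp1 : (1 : ℝ) ≤ p := by exact_mod_cast hp0
    have h' : ∀ r ∈ Ps, 0 ≤ g r := fun r hr => h r (Finset.mem_insert_of_mem hr)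
    have ih' := ih (fun r hr => hPs r (Finset.mem_insert_of_mem hr)) h'
    have a := h p (Finset.mem_insert_self _ _)
    rw [sqfSum_insert hp hp0, sqfSum_insert hp hp0, Finset.filter_insert]
    by_cases hq : q p
    · rw [if_pos hq, if_pos hq, Finset.prod_insert (fun hh => hp (Finset.mem_filter.mp hh).1)]
      have e1 := ih' z
      have e2 : sqfSum Ps g (z / p) ≤ sqfSum Ps g z := by
        by_cases hz : 0 ≤ z
        · exact sqfSum_mono h' (fun _ _ => le_rfl) (div_le_self hz hp1)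
        · have : sqfSum Ps g (z / p) = 0 := by
            refine Finset.sum_eq_zero fun T _ => if_neg ?_
            have : (0 : ℝ) ≤ ((∏ p ∈ T, p : ℕ) : ℝ) := Nat.cast_nonneg _
            have : z / p < 0 := div_neg_of_neg_of_pos (not_le.mp hz) (by linarith)
            linarith
          rw [this]
          exact sqfSum_nonneg h' _
      have e3 := mul_le_mul_of_nonneg_left (e2.trans e1) a
      nlinarith
    · rw [if_neg hq, if_neg hq]
      have e1 := ih' z
      have e2 := mul_le_mul_of_nonneg_left (ih' (z / p)) a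
      nlinarith

/-- The integers with a given set of prime factors `T` have reciprocal sum at most
`∏_{p ∈ T} 1/(p-1)`. -/
theorem sum_inv_le_of_primeFactors_eq (s : Finset ℕ) (T : Finset ℕ) (hT : ∀ p ∈ T, p.Prime)
    (hs : ∀ n ∈ s, n ≠ 0 ∧ n.primeFactors = T) :
    ∑ n ∈ s, (n : ℝ)⁻¹ ≤ ∏ p ∈ T, ((p : ℝ) - 1)⁻¹ := by
  classical
  let f : ℕ →* ℝ := { toFun := fun n => (n : ℝ)⁻¹, map_one' := by simp,
                       map_mul' := fun a b => by push_cast; rw [mul_inv] }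
  have hf : ∀ {p : ℕ}, p.Prime → ‖f p‖ < 1 := by
    intro p hp
    change ‖(p : ℝ)⁻¹‖ < 1
    rw [Real.norm_eq_abs, abs_of_nonneg (by positivity)]
    exact inv_lt_one_of_one_lt₀ (by exact_mod_cast hp.one_lt)
  have hsum := (EulerProduct.summable_and_hasSum_factoredNumbers_prod_filter_prime_geometric
    hf T).2
  rw [Finset.filter_true_of_mem hT] at hsum
  set l := ∏ p ∈ T, p with hl
  have hl0 : 0 < l := Finset.prod_pos fun p hp => (hT p hp).pos
  have hdvd : ∀ n ∈ s, l ∣ n := fun n hn => by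
    rw [hl, ← (hs n hn).2]; exact Nat.prod_primeFactors_dvd n
  have hmem : ∀ n ∈ s, n / l ∈ Nat.factoredNumbers T := by
    intro n hn
    rw [Nat.mem_factoredNumbers_iff_primeFactors_subset]
    refine ⟨(Nat.div_pos (Nat.le_of_dvd (Nat.pos_of_ne_zero (hs n hn).1) (hdvd n hn)) hl0).ne', ?_⟩
    rw [← (hs n hn).2]
    exact Nat.primeFactors_mono (Nat.div_dvd_of_dvd (hdvd n hn)) (hs n hn).1
  let e : s → Nat.factoredNumbers T := fun n => ⟨n.1 / l, hmem n.1 n.2⟩
  have he : Function.Injective e := by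
    intro a b hab
    have : a.1 / l = b.1 / l := congrArg Subtype.val hab
    apply Subtype.ext
    rw [← Nat.mul_div_cancel' (hdvd a.1 a.2), ← Nat.mul_div_cancel' (hdvd b.1 b.2), this]
  have h1 := sum_le_hasSum (Finset.univ.map ⟨e, he⟩)
    (fun m _ => (show (0 : ℝ) ≤ ((m : ℕ) : ℝ)⁻¹ by positivity)) hsum
  rw [Finset.sum_map] at h1
  have h2 : ∑ n ∈ s, (n : ℝ)⁻¹ = (l : ℝ)⁻¹ * ∑ n : s, f (e n) := by
    rw [Finset.mul_sum, ← Finset.sum_coe_sort s]
    refine Finset.sum_congr rfl fun n _ => ?_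
    change ((n : ℕ) : ℝ)⁻¹ = (l : ℝ)⁻¹ * (((n : ℕ) / l : ℕ) : ℝ)⁻¹
    rw [← mul_inv, ← Nat.cast_mul, Nat.mul_div_cancel' (hdvd n.1 n.2)]
  rw [h2]
  refine (mul_le_mul_of_nonneg_left h1 (by positivity)).trans (le_of_eq ?_)
  rw [hl, Nat.cast_prod, ← Finset.prod_inv_distrib, ← Finset.prod_mul_distrib]
  refine Finset.prod_congr rfl fun p hp => ?_
  change (p : ℝ)⁻¹ * (1 - (p : ℝ)⁻¹)⁻¹ = _
  have : (p : ℝ) ≠ 0 := by exact_mod_cast (hT p hp).ne_zero
  rw [← mul_inv]
  congr 1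
  field_simp

theorem log_le_sqfSum (Ps : Finset ℕ) (hPs : ∀ p ∈ Ps, p.Prime) (z : ℝ) (hz : 0 ≤ z)
    (hall : ∀ p : ℕ, p.Prime → (p : ℝ) ≤ z → p ∈ Ps) :
    Real.log z ≤ sqfSum Ps (fun p => ((p : ℝ) - 1)⁻¹) z := by
  classical
  refine (log_le_harmonic_floor z hz).trans ?_
  rw [harmonic_eq_sum_Icc]
  push_cast
  have hmaps : ∀ n ∈ Icc 1 ⌊z⌋₊, n.primeFactors ∈ Ps.powerset := by
    intro n hn
    have hn' := Finset.mem_Icc.mp hn
    refine Finset.mem_powerset.mpr fun p hp => hall p (Nat.prime_of_mem_primeFactors hp) ?_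
    have : p ≤ ⌊z⌋₊ := (Nat.le_of_mem_primeFactors hp).trans hn'.2
    exact (Nat.cast_le.mpr this).trans (Nat.floor_le hz)
  rw [← Finset.sum_fiberwise_of_maps_to hmaps]
  refine Finset.sum_le_sum fun T hT => ?_
  split_ifs with h
  · refine sum_inv_le_of_primeFactors_eq _ T (fun p hp => hPs p (Finset.mem_powerset.mp hT hp)) ?_
    intro n hn
    have := Finset.mem_filter.mp hn
    exact ⟨by have := (Finset.mem_Icc.mp this.1).1; omega, this.2⟩
  · refine le_of_eq (Finset.sum_eq_zero fun n hn => absurd ?_ h)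
    have hn' := Finset.mem_filter.mp hn
    have h1 := Finset.mem_Icc.mp hn'.1
    have : ∏ p ∈ T, p ≤ ⌊z⌋₊ := by
      rw [← hn'.2]
      exact (Nat.le_of_dvd (by omega) (Nat.prod_primeFactors_dvd n)).trans h1.2
    exact (Nat.cast_le.mpr this).trans (Nat.floor_le hz)

theorem prod_primeFactors_one_add_inv (q : ℕ) (hq : 0 < q) :
    ∏ p ∈ q.primeFactors, (1 + ((p : ℝ) - 1)⁻¹) = q / q.totient := by
  have h := Nat.totient_eq_mul_prod_factors q
  have h' : (q.totient : ℝ) = q * ∏ p ∈ q.primeFactors, (1 - (p : ℝ)⁻¹) := by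
    have := congrArg (fun x : ℚ => (x : ℝ)) h
    push_cast at this
    exact this
  have hq' : (q : ℝ) ≠ 0 := by exact_mod_cast hq.ne'
  rw [h', div_mul_cancel_left₀ hq', ← Finset.prod_inv_distrib]
  refine Finset.prod_congr rfl fun p hp => ?_
  have : (1 : ℝ) < p := by exact_mod_cast (Nat.prime_of_mem_primeFactors hp).one_lt
  have h1 : (p : ℝ) - 1 ≠ 0 := by linarith
  have h2 : (p : ℝ) ≠ 0 := by linarith
  field_simp
  ring

/-- `∑_{l ≤ z, (l,q)=1} μ²(l)/φ(l) ≥ (φ(q)/q) log z`. -/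
theorem totient_mul_log_le_sqfSum (Ps : Finset ℕ) (hPs : ∀ p ∈ Ps, p.Prime) (z : ℝ) (hz : 0 ≤ z)
    (hall : ∀ p : ℕ, p.Prime → (p : ℝ) ≤ z → p ∈ Ps) (q : ℕ) (hq : 0 < q) :
    (q.totient : ℝ) / q * Real.log z ≤
      sqfSum Ps (fun p => if p ∣ q then 0 else ((p : ℝ) - 1)⁻¹) z := by
  have hg : ∀ p ∈ Ps, (0 : ℝ) ≤ ((p : ℝ) - 1)⁻¹ := fun p hp => by
    have : (1 : ℝ) < p := by exact_mod_cast (hPs p hp).one_lt
    exact inv_nonneg.mpr (by linarith)
  have h1 := log_le_sqfSum Ps hPs z hz hall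
  have h2 := sqfSum_le_mul_prod Ps (fun p hp => (hPs p hp).pos) _ hg (fun p => p ∣ q) z
  have h3 : ∏ p ∈ Ps.filter (fun p => p ∣ q), (1 + ((p : ℝ) - 1)⁻¹) ≤ q / q.totient := by
    rw [← prod_primeFactors_one_add_inv q hq]
    refine Finset.prod_le_prod_of_subset_of_one_le ?_ ?_ ?_
    · intro p hp
      have := Finset.mem_filter.mp hp
      exact Nat.mem_primeFactors.mpr ⟨hPs p this.1, this.2, hq.ne'⟩
    · intro p hp
      have := hg p (Finset.mem_filter.mp hp).1
      linarith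
    · intro p hp _
      have : (1 : ℝ) < p := by exact_mod_cast (Nat.prime_of_mem_primeFactors hp).one_lt
      have : (0 : ℝ) ≤ ((p : ℝ) - 1)⁻¹ := inv_nonneg.mpr (by linarith)
      linarith
  have h0 : 0 ≤ sqfSum Ps (fun p => if p ∣ q then 0 else ((p : ℝ) - 1)⁻¹) z :=
    sqfSum_nonneg (fun p hp => by split_ifs; exact le_rfl; exact hg p hp) z
  have hq' : (0 : ℝ) < q := by exact_mod_cast hq
  have hφ : (0 : ℝ) < q.totient := by exact_mod_cast Nat.totient_pos.mpr hq
  have h4 := h1.trans (h2.trans (mul_le_mul_of_nonneg_left h3 h0))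
  rw [div_mul_eq_mul_div, div_le_iff₀ hq']
  rw [mul_div_assoc', le_div_iff₀ hφ] at h4
  linarith

/-- Lower bound for a Selberg sum of dimension `|I|`. -/
theorem prod_le_sqfSum {ι : Type*} (I : Finset ι) (q : ι → ℕ) (hq : ∀ i ∈ I, 0 < q i)
    (Ps : Finset ℕ) (hPs : ∀ p ∈ Ps, p.Prime) (w : ℝ) (hw : 1 ≤ w)
    (hall : ∀ p : ℕ, p.Prime → (p : ℝ) ≤ w → p ∈ Ps) :
    ∏ i ∈ I, (((q i).totient : ℝ) / q i * Real.log w) ≤
      sqfSum Ps (fun p => (1 + ((p : ℝ) - 1)⁻¹) ^ (I.filter (fun i => ¬ p ∣ q i)).card - 1)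
        (w ^ I.card) := by
  classical
  have hg : ∀ p ∈ Ps, (0 : ℝ) ≤ ((p : ℝ) - 1)⁻¹ := fun p hp => by
    have : (1 : ℝ) < p := by exact_mod_cast (hPs p hp).one_lt
    exact inv_nonneg.mpr (by linarith)
  induction I using Finset.induction_on with
  | empty =>
    simp only [Finset.prod_empty, Finset.filter_empty, Finset.card_empty, pow_zero, sub_self]
    rw [← sqfSum_filter_of_eq_zero Ps _ (fun _ => False) (fun _ _ _ => rfl)]
    simp [sqfSum_empty]
  | insert i I hi ih =>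
    have ih' := ih fun j hj => hq j (Finset.mem_insert_of_mem hj)
    have h1 := totient_mul_log_le_sqfSum Ps hPs w (by linarith) hall (q i)
      (hq i (Finset.mem_insert_self _ _))
    have hpos : ∀ (n : ℕ), ∀ p ∈ Ps, (0 : ℝ) ≤ (1 + ((p : ℝ) - 1)⁻¹) ^ n - 1 := fun n p hp => by
      have := one_le_pow₀ (n := n) (show (1 : ℝ) ≤ 1 + ((p : ℝ) - 1)⁻¹ by linarith [hg p hp])
      linarith
    have h2 := sqfSum_mul_le Ps (fun p hp => (hPs p hp).pos)
      (fun p => if p ∣ q i then 0 else ((p : ℝ) - 1)⁻¹)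
      (fun p => (1 + ((p : ℝ) - 1)⁻¹) ^ (I.filter (fun i => ¬ p ∣ q i)).card - 1)
      (fun p hp => by split_ifs; exact le_rfl; exact hg p hp)
      (fun p hp => hpos _ p hp) w (w ^ I.card)
    rw [Finset.prod_insert hi, Finset.card_insert_of_notMem hi, pow_succ']
    have h0 : 0 ≤ ∏ i ∈ I, (((q i).totient : ℝ) / q i * Real.log w) :=
      Finset.prod_nonneg fun j _ => mul_nonneg (by positivity) (Real.log_nonneg hw)
    refine (mul_le_mul h1 ih' h0 (sqfSum_nonneg
      (fun p hp => by split_ifs; exact le_rfl; exact hg p hp) _)).trans (h2.trans (le_of_eq ?_))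
    congr 1
    ext p
    rw [Finset.filter_insert]
    by_cases h : p ∣ q i
    · simp [h]
    · rw [if_neg h, if_pos h,
        Finset.card_insert_of_notMem (fun hh => hi (Finset.mem_filter.mp hh).1), pow_succ]
      ring

/-- **Upper bound sieve of dimension `|I|`.**  Suppose that for every prime `p ≤ w` a set `Ω p` of
`ω p < p` residues is removed, where `ω p` is at least the number of `i ∈ I` with `p ∤ q i`. -/
theorem sieve_dim {ι : Type*} (I : Finset ι) (q : ι → ℕ) (hq : ∀ i ∈ I, 0 < q i)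
    (w : ℝ) (hw : 1 < w) (Ω : ℕ → Finset ℕ)
    (hΩ : ∀ p : ℕ, p.Prime → (p : ℝ) ≤ w → Ω p ⊆ range p)
    (hω1 : ∀ p : ℕ, p.Prime → (p : ℝ) ≤ w → (Ω p).card < p)
    (hω : ∀ p : ℕ, p.Prime → (p : ℝ) ≤ w → (I.filter (fun i => ¬ p ∣ q i)).card ≤ (Ω p).card)
    (M N : ℕ) :
    (((Ioc M (M + N)).filter (fun n => ∀ p ∈ (range (⌊w⌋₊ + 1)).filter Nat.Prime,
        n % p ∉ Ω p)).card : ℝ) ≤
      N / (∏ i ∈ I, (((q i).totient : ℝ) / q i * Real.log w)) + (w ^ I.card) ^ 4 := by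
  classical
  set Ps := (range (⌊w⌋₊ + 1)).filter Nat.Prime with hPsdef
  have hPs : ∀ p ∈ Ps, p.Prime := fun p hp => (Finset.mem_filter.mp hp).2
  have hPw : ∀ p ∈ Ps, (p : ℝ) ≤ w := fun p hp => by
    have := Finset.mem_range.mp (Finset.mem_filter.mp hp).1
    exact (Nat.cast_le.mpr (Nat.lt_succ_iff.mp this)).trans (Nat.floor_le (by linarith))
  have hall : ∀ p : ℕ, p.Prime → (p : ℝ) ≤ w → p ∈ Ps := fun p hp hpw =>
    Finset.mem_filter.mpr ⟨Finset.mem_range.mpr (Nat.lt_succ_of_le (Nat.le_floor hpw)), hp⟩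
  set Ps' := Ps.filter (fun p => 0 < (Ω p).card) with hPs'def
  have hsub : Ps' ⊆ Ps := Finset.filter_subset _ _
  have hPs' : ∀ p ∈ Ps', p.Prime := fun p hp => hPs p (hsub hp)
  have hz : 1 ≤ w ^ I.card := one_le_pow₀ hw.le
  have h := sieve_classes Ps' hPs' Ω (fun p hp => hΩ p (hPs' p hp) (hPw p (hsub hp)))
    (fun p hp => (Finset.mem_filter.mp hp).2) (fun p hp => hω1 p (hPs' p hp) (hPw p (hsub hp)))
    M N (w ^ I.card) hz
  have hmono : ((Ioc M (M + N)).filter (fun n => ∀ p ∈ Ps, n % p ∉ Ω p)).card ≤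
      ((Ioc M (M + N)).filter (fun n => ∀ p ∈ Ps', n % p ∉ Ω p)).card :=
    Finset.card_le_card fun n hn => Finset.mem_filter.mpr
      ⟨(Finset.mem_filter.mp hn).1, fun p hp => (Finset.mem_filter.mp hn).2 p (hsub hp)⟩
  refine (Nat.cast_le.mpr hmono).trans (h.trans (add_le_add ?_ ?_))
  · have hprod : 0 < ∏ i ∈ I, (((q i).totient : ℝ) / q i * Real.log w) := by
      refine Finset.prod_pos fun i hi => mul_pos (div_pos ?_ ?_) (Real.log_pos hw)
      · exact_mod_cast Nat.totient_pos.mpr (hq i hi)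
      · exact_mod_cast hq i hi
    refine div_le_div_of_nonneg_left (Nat.cast_nonneg _) hprod ?_
    rw [← sqfSum_eq_sum_divisors Ps' hPs', hPs'def, sqfSum_filter_of_eq_zero]
    · refine (prod_le_sqfSum I q hq Ps hPs w hw.le hall).trans (sqfSum_mono ?_ ?_ le_rfl)
      · intro p hp
        have : (1 : ℝ) < p := by exact_mod_cast (hPs p hp).one_lt
        have h2 : (0 : ℝ) ≤ ((p : ℝ) - 1)⁻¹ := inv_nonneg.mpr (by linarith)
        have := one_le_pow₀ (n := (I.filter (fun i => ¬ p ∣ q i)).card)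
          (show (1 : ℝ) ≤ 1 + ((p : ℝ) - 1)⁻¹ by linarith)
        linarith
      · intro p hp
        have hp1 : (1 : ℝ) < p := by exact_mod_cast (hPs p hp).one_lt
        have h2 : (0 : ℝ) ≤ ((p : ℝ) - 1)⁻¹ := inv_nonneg.mpr (by linarith)
        have h3 : ((Ω p).card : ℝ) < p := by exact_mod_cast hω1 p (hPs p hp) (hPw p hp)
        have h4 : (1 + ((p : ℝ) - 1)⁻¹) ^ (I.filter (fun i => ¬ p ∣ q i)).card ≤
            (1 + ((p : ℝ) - 1)⁻¹) ^ (Ω p).card :=
          pow_le_pow_right₀ (by linarith) (hω p (hPs p hp) (hPw p hp))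
        have h5 : 1 + ((Ω p).card : ℝ) * (-(p : ℝ)⁻¹) ≤ (1 + -(p : ℝ)⁻¹) ^ (Ω p).card := by
          refine one_add_mul_le_pow ?_ _
          have : (p : ℝ)⁻¹ ≤ 1 := inv_le_one_of_one_le₀ hp1.le
          linarith
        have h6 : (1 + ((p : ℝ) - 1)⁻¹) = (1 + -(p : ℝ)⁻¹)⁻¹ := by
          have a1 : (p : ℝ) - 1 ≠ 0 := by linarith
          have a2 : (p : ℝ) ≠ 0 := by linarith
          have a3 : (p : ℝ) + -1 ≠ 0 := by linarith
          field_simp
          ring
        have h7 : 0 < 1 + ((Ω p).card : ℝ) * (-(p : ℝ)⁻¹) := by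
          have : ((Ω p).card : ℝ) * (p : ℝ)⁻¹ < 1 := by
            rw [← div_eq_mul_inv, div_lt_one (by linarith)]; exact h3
          linarith
        have h8 : (1 + ((p : ℝ) - 1)⁻¹) ^ (Ω p).card ≤
            (1 + ((Ω p).card : ℝ) * (-(p : ℝ)⁻¹))⁻¹ := by
          rw [h6, inv_pow]
          exact inv_anti₀ h7 h5
        have h9 : (1 + ((Ω p).card : ℝ) * (-(p : ℝ)⁻¹))⁻¹ - 1 =
            ((Ω p).card : ℝ) / (p - (Ω p).card) := by
          have a1 : (p : ℝ) - (Ω p).card ≠ 0 := by linarith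
          have a2 : (p : ℝ) ≠ 0 := by linarith
          have a3 : (1 + ((Ω p).card : ℝ) * (-(p : ℝ)⁻¹)) = (p - (Ω p).card) / p := by
            field_simp
            ring
          rw [a3]
          field_simp
          ring
        linarith
    · intro p _ hp
      have : (Ω p).card = 0 := by omega
      simp [this]
  · set z := w ^ I.card with hzdef
    have hb : ∑ d ∈ (∏ p ∈ Ps', p).divisors.filter (fun d : ℕ => (d : ℝ) ≤ z),
        ∏ p ∈ d.primeFactors, ((Ω p).card : ℝ) ≤ z ^ 2 := by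
      have hsq := squarefree_prod_primes Ps' hPs'
      have hPf : (∏ p ∈ Ps', p).primeFactors = Ps' := Nat.primeFactors_prod hPs'
      calc _ ≤ ∑ _d ∈ (∏ p ∈ Ps', p).divisors.filter (fun d : ℕ => (d : ℝ) ≤ z), z := by
            refine Finset.sum_le_sum fun d hd => ?_
            have hd' := Finset.mem_filter.mp hd
            have hdP := Nat.dvd_of_mem_divisors hd'.1
            refine le_trans ?_ hd'.2
            conv_rhs => rw [← Nat.prod_primeFactors_of_squarefree (hsq.squarefree_of_dvd hdP)]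
            rw [Nat.cast_prod]
            refine Finset.prod_le_prod (fun _ _ => Nat.cast_nonneg _) fun p hp => ?_
            have hp' : p ∈ Ps' := hPf ▸ Nat.primeFactors_mono hdP hsq.ne_zero hp
            exact_mod_cast (hω1 p (hPs' p hp') (hPw p (hsub hp'))).le
        _ ≤ z ^ 2 := by
            rw [Finset.sum_const, nsmul_eq_mul, sq]
            refine mul_le_mul_of_nonneg_right ?_ (by linarith)
            have : ((∏ p ∈ Ps', p).divisors.filter (fun d : ℕ => (d : ℝ) ≤ z)).card ≤ ⌊z⌋₊ := by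
              calc _ ≤ (Icc 1 ⌊z⌋₊).card := Finset.card_le_card fun d hd => by
                    have hd' := Finset.mem_filter.mp hd
                    exact Finset.mem_Icc.mpr ⟨Nat.pos_of_mem_divisors hd'.1, Nat.le_floor hd'.2⟩
                _ = ⌊z⌋₊ := by simp
            exact (Nat.cast_le.mpr this).trans (Nat.floor_le (by linarith))
    calc _ ≤ (z ^ 2) ^ 2 := pow_le_pow_left₀ (Finset.sum_nonneg fun d _ =>
            Finset.prod_nonneg fun _ _ => Nat.cast_nonneg _) hb 2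
      _ = z ^ 4 := by ring

end Pool.Agent.Lib.ANT
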