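import Mathlib

/-!
# A Tauberian theorem for Laplace transforms of bounded functions

If `m` is bounded, measurable, vanishes on the negative axis, and its Laplace transform extends
continuously to the closed right half plane, then the local averages of `m` tend to zero.
-/

open MeasureTheory Filter Topology Complex Set
open scoped FourierTransform Real

namespace Pool.Agent.Lib.ANT

/-- A continuous compactly supported function whose Fourier transform is integrable against
`1 + |w|` and has integral one. -/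
lemma exists_kernel : ∃ ψ : ℝ → ℂ, Continuous ψ ∧ HasCompactSupport ψ ∧ Integrable (𝓕 ψ) ∧
    Integrable (fun w : ℝ => ‖w‖ * ‖𝓕 ψ w‖) ∧ ∫ w, 𝓕 ψ w = 1 := by
  let b : ContDiffBump (0 : ℝ) := ⟨1, 2, one_pos, one_lt_two⟩
  let ψ : ℝ → ℂ := fun x => (b x : ℂ)
  have hs : HasCompactSupport ψ := b.hasCompactSupport.comp_left (g := fun x : ℝ => (x : ℂ)) (by simp)
  have hd : ContDiff ℝ (⊤ : ℕ∞) ψ := Complex.ofRealCLM.contDiff.comp b.contDiff
  let S : SchwartzMap ℝ ℂ := hs.toSchwartzMap hd
  have hS : (S : ℝ → ℂ) = ψ := rfl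
  have hF : Integrable (𝓕 ψ) := by
    have := (𝓕 S).integrable (μ := volume)
    rwa [SchwartzMap.fourier_coe, hS] at this
  refine ⟨ψ, hd.continuous, hs, hF, ?_, ?_⟩
  · have := (𝓕 S).integrable_pow_mul volume 1
    simpa [SchwartzMap.fourier_coe, hS] using this
  · have h1 := (hd.continuous.integrable_of_hasCompactSupport hs).fourierInv_fourier_eq hF
      (v := 0) hd.continuous.continuousAt
    rw [Real.fourierInv_eq] at h1
    simp only [inner_zero_right, AddChar.map_zero_eq_one, one_smul] at h1
    rw [h1]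
    simp only [ψ]
    rw [b.one_of_mem_closedBall (by simp [b])]
    simp

lemma fourier_self_adjoint {f g : ℝ → ℂ} (hf : Integrable f) (hg : Integrable g) :
    ∫ ξ, 𝓕 f ξ * g ξ = ∫ x, f x * 𝓕 g x := by
  have := VectorFourier.integral_fourierIntegral_smul_eq_flip (L := innerₗ ℝ)
    Real.continuous_fourierChar continuous_inner hf hg
  simpa using! this

/-- Step one: convolution with the Fourier transform of a compactly supported function. -/
lemma tendsto_conv_fourier {m : ℝ → ℂ} (hm : Measurable m) {C : ℝ} (hC : ∀ u, ‖m u‖ ≤ C)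
    (h0 : ∀ u < 0, m u = 0) {G : ℂ → ℂ} (hG : ContinuousOn G {z | 0 ≤ z.re})
    (hL : ∀ z : ℂ, 0 < z.re → ∫ u : ℝ, m u * cexp (-(z * u)) = G z)
    {ψ : ℝ → ℂ} (hψ : Continuous ψ) (hψs : HasCompactSupport ψ) (hψi : Integrable (𝓕 ψ)) :
    Tendsto (fun v : ℝ => ∫ u, m u * 𝓕 ψ (u - v)) atTop (𝓝 0) := by
  have hC0 : 0 ≤ C := (norm_nonneg _).trans (hC 0)
  have key : ∀ v : ℝ, ∫ u, m u * 𝓕 ψ (u - v) =
      ∫ τ : ℝ, G (2 * π * τ * I) * (cexp (2 * π * τ * v * I) * ψ τ) := by
    intro v
    set g : ℝ → ℂ := fun τ => cexp (2 * π * τ * v * I) * ψ τ with hg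
    have hgc : Continuous g := by fun_prop
    have hgs : HasCompactSupport g := hψs.mul_left
    have hgi : Integrable g := hgc.integrable_of_hasCompactSupport hgs
    have hFg : ∀ u, 𝓕 g u = 𝓕 ψ (u - v) := by
      intro u
      rw [Real.fourier_real_eq_integral_exp_smul, Real.fourier_real_eq_integral_exp_smul]
      congr 1 with τ
      simp only [hg, smul_eq_mul, ← mul_assoc, ← Complex.exp_add]
      congr 2
      push_cast
      ring
    have hδ : ∀ δ : ℝ, 0 < δ → ∫ u, (m u * cexp (-(δ * u))) * 𝓕 ψ (u - v) =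
        ∫ τ : ℝ, G (δ + 2 * π * τ * I) * g τ := by
      intro δ hδ
      have hi : Integrable (fun u : ℝ => m u * cexp (-(δ * u))) := by
        have h1 : IntegrableOn (fun u : ℝ => C * Real.exp (-δ * u)) (Ici 0) :=
          ((integrableOn_Ici_iff_integrableOn_Ioi (by simp)).2
            (exp_neg_integrableOn_Ioi 0 hδ)).const_mul C
        have h2 := (integrable_indicator_iff measurableSet_Ici).2 h1
        refine h2.mono' (by fun_prop : Measurable _).aestronglyMeasurable ?_
        filter_upwards with u
        by_cases hu : 0 ≤ u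
        · rw [indicator_of_mem (by exact hu), norm_mul, Complex.norm_exp]
          have : (-((δ : ℂ) * u)).re = -δ * u := by simp
          rw [this]
          gcongr
          exact hC u
        · rw [indicator_of_notMem (by exact hu), h0 u (not_le.1 hu)]
          simp
      have h3 := fourier_self_adjoint hi hgi
      simp_rw [hFg] at h3
      rw [← h3]
      congr 1 with τ
      congr 1
      rw [← hL _ (by simpa using hδ), Real.fourier_real_eq_integral_exp_smul]
      congr 1 with u
      simp only [smul_eq_mul]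
      rw [mul_comm, mul_assoc, ← Complex.exp_add]
      congr 2
      push_cast
      ring
    have hseq : Tendsto (fun k : ℕ => (1 : ℝ) / ((k : ℝ) + 1)) atTop (𝓝 0) :=
      tendsto_one_div_add_atTop_nhds_zero_nat
    have hL1 : Tendsto (fun k : ℕ => ∫ u, (m u * cexp (-(((1 : ℝ) / ((k : ℝ) + 1) : ℝ) * u))) *
        𝓕 ψ (u - v)) atTop (𝓝 (∫ u, m u * 𝓕 ψ (u - v))) := by
      have hFi : Integrable (fun u => 𝓕 ψ (u - v)) := hψi.comp_sub_right v
      refine tendsto_integral_of_dominated_convergence (fun u => C * ‖𝓕 ψ (u - v)‖) ?_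
        (hFi.norm.const_mul C) ?_ ?_
      · intro k
        exact (by fun_prop : Measurable _).aestronglyMeasurable.mul hFi.aestronglyMeasurable
      · intro k
        filter_upwards with u
        rw [norm_mul]
        gcongr
        by_cases hu : 0 ≤ u
        · rw [norm_mul, Complex.norm_exp]
          have : (-((((1 : ℝ) / ((k : ℝ) + 1) : ℝ) : ℂ) * u)).re = -(1 / ((k : ℝ) + 1) * u) := by
            rw [← Complex.ofReal_mul, ← Complex.ofReal_neg, Complex.ofReal_re]
          rw [this]
          have h5 : Real.exp (-(1 / ((k : ℝ) + 1) * u)) ≤ 1 := by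
            rw [Real.exp_le_one_iff]
            have : 0 ≤ 1 / ((k : ℝ) + 1) * u := by positivity
            linarith
          calc ‖m u‖ * Real.exp (-(1 / ((k : ℝ) + 1) * u)) ≤ C * 1 := by
                gcongr
                exact hC u
            _ = C := mul_one C
        · rw [h0 u (not_le.1 hu)]
          simpa using hC0
      · filter_upwards with u
        have : Continuous (fun δ : ℝ => (m u * cexp (-(δ * u))) * 𝓕 ψ (u - v)) := by fun_prop
        have h6 := (this.tendsto 0).comp hseq
        simpa [Function.comp_def] using h6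
    have hL2 : Tendsto (fun k : ℕ => ∫ τ : ℝ, G (((1 : ℝ) / ((k : ℝ) + 1) : ℝ) + 2 * π * τ * I) * g τ)
        atTop (𝓝 (∫ τ : ℝ, G (2 * π * τ * I) * g τ)) := by
      have hK : IsCompact ((fun p : ℝ × ℝ => (p.1 : ℂ) + 2 * π * p.2 * I) ''
          (Icc (0 : ℝ) 1 ×ˢ tsupport g)) :=
        (isCompact_Icc.prod hgs).image (by fun_prop)
      have hKsub : ((fun p : ℝ × ℝ => (p.1 : ℂ) + 2 * π * p.2 * I) ''
          (Icc (0 : ℝ) 1 ×ˢ tsupport g)) ⊆ {z | 0 ≤ z.re} := by
        rintro _ ⟨p, hp, rfl⟩
        simpa using hp.1.1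
      obtain ⟨B, hB⟩ := hK.exists_bound_of_continuousOn (hG.mono hKsub)
      have hGc : ∀ δ : ℝ, 0 ≤ δ → Continuous (fun τ : ℝ => G (δ + 2 * π * τ * I)) := by
        intro δ hδ
        exact hG.comp_continuous (by fun_prop) (fun τ => by simpa using hδ)
      refine tendsto_integral_of_dominated_convergence (fun τ => B * ‖g τ‖) ?_
        (hgi.norm.const_mul B) ?_ ?_
      · intro k
        exact ((hGc _ (by positivity)).mul hgc).aestronglyMeasurable
      · intro k
        filter_upwards with τ
        by_cases hτ : τ ∈ tsupport g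
        · rw [norm_mul]
          gcongr
          refine hB _ ⟨((1 : ℝ) / ((k : ℝ) + 1), τ), ⟨⟨by positivity, ?_⟩, hτ⟩, rfl⟩
          rw [div_le_one (by positivity)]
          have : (0 : ℝ) ≤ k := k.cast_nonneg
          linarith
        · rw [image_eq_zero_of_notMem_tsupport hτ]
          simp
      · filter_upwards with τ
        refine Tendsto.mul_const _ ?_
        have h7 : ContinuousWithinAt G {z | 0 ≤ z.re} (2 * π * τ * I) := hG _ (by simp)
        refine h7.tendsto.comp (tendsto_nhdsWithin_iff.2 ⟨?_, ?_⟩)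
        · have : Continuous (fun δ : ℝ => (δ : ℂ) + 2 * π * τ * I) := by fun_prop
          have h6 := (this.tendsto 0).comp hseq
          simpa [Function.comp_def] using h6
        · filter_upwards with k
          have : 0 ≤ (1 : ℝ) / ((k : ℝ) + 1) := by positivity
          simpa [-Complex.ofReal_div, -one_div] using this
    have : (fun k : ℕ => ∫ u, (m u * cexp (-(((1 : ℝ) / ((k : ℝ) + 1) : ℝ) * u))) *
        𝓕 ψ (u - v)) = fun k : ℕ =>
        ∫ τ : ℝ, G (((1 : ℝ) / ((k : ℝ) + 1) : ℝ) + 2 * π * τ * I) * g τ := by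
      ext k
      exact hδ _ (by positivity)
    rw [this] at hL1
    exact tendsto_nhds_unique hL1 hL2
  simp_rw [key]
  have h8 := (Real.zero_at_infty_fourier (fun τ : ℝ => G (2 * π * τ * I) * ψ τ)).comp
    (tendsto_neg_atTop_atBot.mono_right atBot_le_cocompact)
  refine h8.congr fun v => ?_
  simp only [Function.comp_apply]
  rw [Real.fourier_real_eq_integral_exp_smul]
  congr 1 with τ
  simp only [smul_eq_mul]
  rw [mul_left_comm]
  congr 3
  push_cast
  ring

/-- Rescaled form of step one. -/
lemma tendsto_conv_fourier_scaled {m : ℝ → ℂ} (hm : Measurable m) {C : ℝ} (hC : ∀ u, ‖m u‖ ≤ C)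
    (h0 : ∀ u < 0, m u = 0) {G : ℂ → ℂ} (hG : ContinuousOn G {z | 0 ≤ z.re})
    (hL : ∀ z : ℂ, 0 < z.re → ∫ u : ℝ, m u * cexp (-(z * u)) = G z)
    {ψ : ℝ → ℂ} (hψ : Continuous ψ) (hψs : HasCompactSupport ψ) (hψi : Integrable (𝓕 ψ))
    {R : ℝ} (hR : 0 < R) :
    Tendsto (fun v : ℝ => ∫ w, m (v + w / R) * 𝓕 ψ w) atTop (𝓝 0) := by
  have hF : ∀ u, 𝓕 (fun τ => ψ (τ / R)) u = R * 𝓕 ψ (R * u) := by
    intro u
    rw [Real.fourier_real_eq_integral_exp_smul, Real.fourier_real_eq_integral_exp_smul]
    have := Measure.integral_comp_div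
      (fun τ : ℝ => cexp (↑(-2 * π * τ * (R * u)) * I) • ψ τ) R
    rw [abs_of_pos hR, Complex.real_smul] at this
    rw [← this]
    congr 1 with τ
    congr 4
    field_simp
  have hs : HasCompactSupport (fun τ => ψ (τ / R)) :=
    hψs.comp_homeomorph (Homeomorph.mulRight₀ R⁻¹ (inv_ne_zero hR.ne'))
  have hi : Integrable (𝓕 (fun τ => ψ (τ / R))) := by
    have : 𝓕 (fun τ => ψ (τ / R)) = fun u => R * 𝓕 ψ (R * u) := funext hF
    rw [this]
    exact (hψi.comp_mul_left' hR.ne').const_mul _
  have h1 := tendsto_conv_fourier hm hC h0 hG hL (ψ := fun τ => ψ (τ / R)) (by fun_prop) hs hi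
  refine h1.congr fun v => ?_
  simp_rw [hF]
  have h2 := Measure.integral_comp_div
    (fun w : ℝ => m (v + w) * 𝓕 ψ (R * w)) R
  have h3 := integral_add_left_eq_self (μ := volume)
    (fun u : ℝ => m u * (R * 𝓕 ψ (R * (u - v)))) v
  rw [← h3]
  rw [abs_of_pos hR, Complex.real_smul, ← integral_const_mul] at h2
  have h4 : ∀ w : ℝ, R * (w / R) = w := fun w => by field_simp
  simp_rw [h4] at h2
  rw [h2]
  congr 1 with w
  simp only [add_sub_cancel_left]
  ring

/-- **Tauberian theorem**: local averages of `m` tend to zero. -/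
theorem tendsto_average_of_laplace {m : ℝ → ℂ} (hm : Measurable m) {C : ℝ} (hC : ∀ u, ‖m u‖ ≤ C)
    (h0 : ∀ u < 0, m u = 0) {G : ℂ → ℂ} (hG : ContinuousOn G {z | 0 ≤ z.re})
    (hL : ∀ z : ℂ, 0 < z.re → ∫ u : ℝ, m u * cexp (-(z * u)) = G z) {h : ℝ} (hh : 0 ≤ h) :
    Tendsto (fun v : ℝ => ∫ u in v..(v + h), m u) atTop (𝓝 0) := by
  obtain ⟨ψ, hψ, hψs, hψi, hψw, hψ1⟩ := exists_kernel
  have hC0 : 0 ≤ C := (norm_nonneg _).trans (hC 0)
  set K := 𝓕 ψ with hK
  set M : ℝ → ℂ := fun v => ∫ u in v..(v + h), m u with hM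
  have hmi : ∀ a b : ℝ, IntervalIntegrable m volume a b := by
    intro a b
    refine (intervalIntegrable_const (c := C)).mono_fun' hm.aestronglyMeasurable ?_
    filter_upwards with u using hC u
  have hMlip : ∀ a b, ‖M a - M b‖ ≤ 2 * C * |a - b| := by
    intro a b
    have : M a - M b = (∫ u in a..b, m u) + ∫ u in (b + h)..(a + h), m u := by
      simp only [hM]
      have e1 := intervalIntegral.integral_add_adjacent_intervals (hmi a b) (hmi b (b + h))
      have e2 := intervalIntegral.integral_add_adjacent_intervals (hmi a (b + h))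
        (hmi (b + h) (a + h))
      rw [← e2, ← e1]
      ring
    rw [this]
    have n1 := intervalIntegral.norm_integral_le_of_norm_le_const (a := a) (b := b) (f := m)
      (C := C) (fun x _ => hC x)
    have n2 := intervalIntegral.norm_integral_le_of_norm_le_const (a := b + h) (b := a + h)
      (f := m) (C := C) (fun x _ => hC x)
    rw [abs_sub_comm] at n1
    rw [show a + h - (b + h) = a - b by ring] at n2
    linarith [norm_add_le (∫ u in a..b, m u) (∫ u in (b + h)..(a + h), m u)]
  have hMc : Continuous M := by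
    have : LipschitzWith (Real.toNNReal (2 * C)) M := by
      refine LipschitzWith.of_dist_le' fun a b => ?_
      rw [dist_eq_norm, Real.dist_eq]
      exact hMlip a b
    exact this.continuous
  have hMb : ∀ v, ‖M v‖ ≤ C * h := by
    intro v
    have := intervalIntegral.norm_integral_le_of_norm_le_const (a := v) (b := v + h) (f := m)
      (C := C) (fun x _ => hC x)
    simpa [abs_of_nonneg hh] using this
  have hM' : ∀ v, M v = ∫ s in Ioc 0 h, m (v + s) := by
    intro v
    rw [← intervalIntegral.integral_of_le hh, intervalIntegral.integral_comp_add_left m v]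
    simp [hM]
  -- the smoothed averages tend to zero
  have hsm : ∀ R : ℝ, 0 < R → Tendsto (fun v : ℝ => ∫ w, M (v + w / R) * K w) atTop (𝓝 0) := by
    intro R hR
    have h1 := tendsto_conv_fourier_scaled hm hC h0 hG hL hψ hψs hψi hR
    have hsw : ∀ v : ℝ, ∫ w, M (v + w / R) * K w =
        ∫ s in Ioc 0 h, ∫ w, m (v + s + w / R) * K w := by
      intro v
      rw [integral_integral_swap]
      · congr 1 with w
        rw [hM', ← integral_mul_const]
        congr 1 with s
        congr 2
        ring
      · have hK2 : Integrable (fun p : ℝ × ℝ => K p.2)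
            ((volume.restrict (Ioc 0 h)).prod volume) := hψi.comp_snd _
        refine hK2.bdd_mul (c := C) (f := fun p : ℝ × ℝ => m (v + p.1 + p.2 / R))
          (by fun_prop : Measurable _).aestronglyMeasurable ?_
        filter_upwards with p using hC _
    simp_rw [hsw]
    have h2 : Tendsto (fun v : ℝ => ∫ s in Ioc 0 h, ∫ w, m (v + s + w / R) * K w) atTop
        (𝓝 (∫ s in Ioc 0 h, (0 : ℂ))) := by
      refine tendsto_integral_filter_of_dominated_convergence (fun _ => C * ∫ w, ‖K w‖) ?_ ?_
        (integrable_const _) ?_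
      · filter_upwards with v
        have hK2 : Integrable (fun p : ℝ × ℝ => K p.2)
            ((volume.restrict (Ioc 0 h)).prod volume) := hψi.comp_snd _
        have := hK2.bdd_mul (c := C) (f := fun p : ℝ × ℝ => m (v + p.1 + p.2 / R))
          (by fun_prop : Measurable _).aestronglyMeasurable
          (by filter_upwards with p using hC _)
        exact this.integral_prod_left.aestronglyMeasurable
      · filter_upwards with v
        filter_upwards with s
        rw [← integral_const_mul]
        refine norm_integral_le_of_norm_le (hψi.norm.const_mul C) ?_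
        filter_upwards with w
        rw [norm_mul]
        gcongr
        exact hC _
      · filter_upwards with s
        exact h1.comp (tendsto_atTop_add_const_right atTop s tendsto_id)
    simpa using h2
  set W : ℝ := ∫ w : ℝ, ‖w‖ * ‖K w‖ with hW
  have hW0 : 0 ≤ W := integral_nonneg fun w => by positivity
  have herr : ∀ R : ℝ, 0 < R → ∀ v, ‖M v - ∫ w, M (v + w / R) * K w‖ ≤ 2 * C * W / R := by
    intro R hR v
    have e1 : M v = ∫ w, M v * K w := by rw [integral_const_mul, hψ1, mul_one]
    have i2 : Integrable (fun w => M (v + w / R) * K w) :=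
      hψi.bdd_mul (c := C * h) (by fun_prop : Continuous _).aestronglyMeasurable
        (by filter_upwards with w using hMb _)
    rw [e1, ← integral_sub (hψi.const_mul _) i2]
    have : 2 * C * W / R = ∫ w : ℝ, (2 * C / R) * (‖w‖ * ‖K w‖) := by
      rw [integral_const_mul]
      ring
    rw [this]
    refine norm_integral_le_of_norm_le (hψw.const_mul _) ?_
    filter_upwards with w
    rw [← sub_mul, norm_mul]
    have := hMlip v (v + w / R)
    rw [show v - (v + w / R) = -(w / R) by ring, abs_neg, abs_div, abs_of_pos hR] at this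
    calc ‖M v - M (v + w / R)‖ * ‖K w‖ ≤ (2 * C * (|w| / R)) * ‖K w‖ := by gcongr
      _ = _ := by rw [Real.norm_eq_abs]; ring
  rw [Metric.tendsto_atTop]
  intro ε hε
  set R : ℝ := 4 * C * W / ε + 1 with hR
  have hR0 : 0 < R := by positivity
  obtain ⟨v0, hv0⟩ := Metric.tendsto_atTop.1 (hsm R hR0) (ε / 2) (by positivity)
  refine ⟨v0, fun v hv => ?_⟩
  have h1 := hv0 v hv
  have h2 := herr R hR0 v
  rw [dist_zero_right] at h1 ⊢
  have h3 : 2 * C * W / R ≤ ε / 2 := by
    rw [div_le_iff₀ hR0, hR]
    have : ε / 2 * (4 * C * W / ε + 1) = 2 * C * W + ε / 2 := by field_simp; ring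
    rw [this]
    linarith
  calc ‖M v‖ ≤ ‖M v - ∫ w, M (v + w / R) * K w‖ + ‖∫ w, M (v + w / R) * K w‖ := by
        simpa using norm_add_le (M v - ∫ w, M (v + w / R) * K w) (∫ w, M (v + w / R) * K w)
    _ < ε := by linarith

end Pool.Agent.Lib.ANT
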