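import Pool.Agent.Lib.ANT.Tauber

/-!
# Wiener-Ikehara type theorems for Dirichlet series

All statements assume the Chebyshev type bound `∑ k ≤ n, ‖a k‖ ≤ C n`.
-/

open MeasureTheory Filter Topology Complex Set
open scoped Real

namespace Pool.Agent.Lib.ANT

/-- The normalised partial sum `e^(-u) ∑ k ≤ e^u, a k`. -/
noncomputable def nsum (a : ℕ → ℂ) (u : ℝ) : ℂ :=
  (∑ k ∈ Finset.Icc 1 ⌊Real.exp u⌋₊, a k) * cexp (-u)

lemma measurable_nsum (a : ℕ → ℂ) : Measurable (nsum a) := by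
  unfold nsum
  have h1 : Measurable (fun u : ℝ => ∑ k ∈ Finset.Icc 1 ⌊Real.exp u⌋₊, a k) :=
    (measurable_from_top (f := fun n : ℕ => ∑ k ∈ Finset.Icc 1 n, a k)).comp
      (Nat.measurable_floor.comp Real.measurable_exp)
  exact h1.mul (by fun_prop)

lemma norm_nsum_le {a : ℕ → ℂ} {C : ℝ} (hC : ∀ n : ℕ, ∑ k ∈ Finset.Icc 1 n, ‖a k‖ ≤ C * n)
    (u : ℝ) : ‖nsum a u‖ ≤ C := by
  have hC0 : 0 ≤ C := by
    have := hC 1
    simp only [Finset.Icc_self, Finset.sum_singleton, Nat.cast_one, mul_one] at this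
    exact (norm_nonneg _).trans this
  unfold nsum
  rw [norm_mul, Complex.norm_exp]
  have h1 : ‖∑ k ∈ Finset.Icc 1 ⌊Real.exp u⌋₊, a k‖ ≤ C * Real.exp u :=
    (norm_sum_le _ _).trans ((hC _).trans (by gcongr; exact Nat.floor_le (Real.exp_pos u).le))
  have h2 : (-(u : ℂ)).re = -u := by simp
  rw [h2]
  calc _ ≤ C * Real.exp u * Real.exp (-u) := by gcongr
    _ = C := by rw [mul_assoc, ← Real.exp_add]; simp

lemma intervalIntegrable_nsum {a : ℕ → ℂ} {C : ℝ}
    (hC : ∀ n : ℕ, ∑ k ∈ Finset.Icc 1 n, ‖a k‖ ≤ C * n) (x y : ℝ) :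
    IntervalIntegrable (nsum a) volume x y := by
  refine (intervalIntegrable_const (c := C)).mono_fun'
    (measurable_nsum a).aestronglyMeasurable ?_
  filter_upwards with u using norm_nsum_le hC u

lemma laplace_nsum {a : ℕ → ℂ} {C : ℝ} (hC : ∀ n : ℕ, ∑ k ∈ Finset.Icc 1 n, ‖a k‖ ≤ C * n)
    {z : ℂ} (hz : 0 < z.re) :
    ∫ u in Ioi (0 : ℝ), nsum a u * cexp (-(z * u)) = LSeries a (1 + z) / (1 + z) := by
  have hO : (fun n : ℕ => ∑ k ∈ Finset.Icc 1 n, ‖a k‖) =O[atTop] fun n : ℕ => (n : ℝ) ^ (1 : ℝ) := by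
    refine Asymptotics.IsBigO.of_bound C ?_
    filter_upwards with n
    rw [Real.rpow_one, Real.norm_natCast, Real.norm_of_nonneg (by positivity)]
    exact hC n
  have h1 := LSeries_eq_mul_integral' a zero_le_one (s := 1 + z) (by simpa using hz) hO
  have hz1 : (1 + z) ≠ 0 := by
    intro h
    have := congrArg Complex.re h
    simp at this
    linarith
  rw [h1, mul_div_cancel_left₀ _ hz1]
  have h2 := integral_comp_exp_Ioi
    (fun t : ℝ => (∑ k ∈ Finset.Icc 1 ⌊t⌋₊, a k) * (t : ℂ) ^ (-(1 + z + 1))) 0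
  rw [Real.exp_zero] at h2
  rw [← h2]
  refine setIntegral_congr_fun measurableSet_Ioi fun u _ => ?_
  simp only [nsum, Complex.real_smul]
  rw [Complex.cpow_def_of_ne_zero (by simp), Complex.ofReal_exp, Complex.log_exp (by simp [Real.pi_pos])
    (by simp [Real.pi_pos.le])]
  rw [mul_left_comm, mul_assoc, ← Complex.exp_add, ← Complex.exp_add]
  congr 2
  ring

/-- Local averages of the normalised partial sums converge. -/
theorem tendsto_average_nsum {a : ℕ → ℂ} {C : ℝ}
    (hC : ∀ n : ℕ, ∑ k ∈ Finset.Icc 1 n, ‖a k‖ ≤ C * n) {G : ℂ → ℂ} {c : ℂ}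
    (hG : ContinuousOn G {s | 1 ≤ s.re})
    (hL : ∀ s : ℂ, 1 < s.re → LSeries a s = G s + c / (s - 1)) {h : ℝ} (hh : 0 ≤ h) :
    Tendsto (fun v : ℝ => ∫ u in v..(v + h), nsum a u) atTop (𝓝 (c * h)) := by
  set m : ℝ → ℂ := indicator (Ioi 0) (fun u => nsum a u - c) with hm
  have hmm : Measurable m := ((measurable_nsum a).sub_const c).indicator measurableSet_Ioi
  have hmb : ∀ u, ‖m u‖ ≤ C + ‖c‖ := by
    intro u
    refine (norm_indicator_le_norm_self _ _).trans ((norm_sub_le _ _).trans ?_)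
    gcongr
    exact norm_nsum_le hC u
  have hG' : ContinuousOn (fun z => (G (1 + z) - c) / (1 + z)) {z : ℂ | 0 ≤ z.re} := by
    refine ContinuousOn.div (ContinuousOn.sub ?_ continuousOn_const) (by fun_prop) ?_
    · exact hG.comp (by fun_prop) (fun z hz => by simpa using hz)
    · intro z hz h
      have := congrArg Complex.re h
      simp only [mem_ofPred_eq] at hz
      simp at this
      linarith
  have hL' : ∀ z : ℂ, 0 < z.re → ∫ u : ℝ, m u * cexp (-(z * u)) = (G (1 + z) - c) / (1 + z) := by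
    intro z hz
    have e1 : (fun u : ℝ => m u * cexp (-(z * u))) =
        indicator (Ioi 0) (fun u : ℝ => nsum a u * cexp (-(z * u)) - c * cexp (-z * u)) := by
      ext u
      by_cases hu : u ∈ Ioi (0 : ℝ)
      · simp only [hm, indicator_of_mem hu]
        rw [neg_mul]
        ring
      · simp [hm, indicator_of_notMem hu]
    have i2 : IntegrableOn (fun u : ℝ => cexp (-z * u)) (Ioi 0) :=
      integrableOn_exp_mul_complex_Ioi (by simpa using hz) 0
    have i1 : IntegrableOn (fun u : ℝ => nsum a u * cexp (-(z * u))) (Ioi 0) := by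
      have := i2.bdd_mul (c := C) (f := nsum a) (measurable_nsum a).aestronglyMeasurable
        (by filter_upwards with u using norm_nsum_le hC u)
      simpa [IntegrableOn] using this
    rw [e1, integral_indicator measurableSet_Ioi, integral_sub i1 (i2.const_mul c),
      laplace_nsum hC hz, integral_const_mul,
      integral_exp_mul_complex_Ioi (by simpa using hz) 0, hL _ (by simpa using hz)]
    have hz0 : z ≠ 0 := by
      rintro rfl
      simp at hz
    have hz1 : (1 + z) ≠ 0 := by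
      intro h
      have := congrArg Complex.re h
      simp at this
      linarith
    simp only [add_sub_cancel_left, ofReal_zero, mul_zero, Complex.exp_zero]
    field_simp
    ring
  have h1 := tendsto_average_of_laplace hmm hmb
    (fun u hu => indicator_of_notMem (by simpa using hu.le) _) hG' hL' hh
  have h2 := h1.add_const (c * h)
  rw [zero_add] at h2
  refine h2.congr' ?_
  filter_upwards [eventually_gt_atTop 0] with v hv
  have e2 : ∫ u in v..(v + h), m u = ∫ u in v..(v + h), (nsum a u - c) := by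
    refine intervalIntegral.integral_congr fun u hu => ?_
    rw [uIcc_of_le (by linarith)] at hu
    exact indicator_of_mem (by exact hv.trans_le hu.1) _
  rw [e2, intervalIntegral.integral_sub (intervalIntegrable_nsum hC _ _) intervalIntegrable_const]
  simp only [intervalIntegral.integral_const, add_sub_cancel_left, Complex.real_smul]
  ring

lemma tendsto_real_of_nsum {a : ℕ → ℂ} {c : ℂ} (h : Tendsto (nsum a) atTop (𝓝 c)) :
    Tendsto (fun x : ℝ => (∑ k ∈ Finset.Icc 1 ⌊x⌋₊, a k) / x) atTop (𝓝 c) := by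
  refine (h.comp Real.tendsto_log_atTop).congr' ?_
  filter_upwards [eventually_gt_atTop 0] with x hx
  simp only [Function.comp_apply, nsum, Real.exp_log hx]
  rw [Complex.exp_neg, ← Complex.ofReal_exp, Real.exp_log hx, div_eq_mul_inv]

lemma tendsto_nat_of_real {a : ℕ → ℂ} {c : ℂ}
    (h : Tendsto (fun x : ℝ => (∑ k ∈ Finset.Icc 1 ⌊x⌋₊, a k) / x) atTop (𝓝 c)) :
    Tendsto (fun n : ℕ => (∑ k ∈ Finset.Icc 1 n, a k) / n) atTop (𝓝 c) := by
  simpa [Function.comp_def] using h.comp tendsto_natCast_atTop_atTop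

/-- A slowly oscillating function whose local averages converge, converges. -/
lemma tendsto_of_average_of_slowly_oscillating {f : ℝ → ℂ} {c : ℂ}
    (hi : ∀ x y, IntervalIntegrable f volume x y)
    (hav : ∀ h : ℝ, 0 ≤ h → Tendsto (fun v : ℝ => ∫ u in v..(v + h), f u) atTop (𝓝 (c * h)))
    (hso : ∀ ε > 0, ∃ h > 0, ∀ᶠ v in atTop, ∀ u ∈ Icc v (v + h), ‖f u - f v‖ ≤ ε) :
    Tendsto f atTop (𝓝 c) := by
  rw [Metric.tendsto_nhds]
  intro ε hε
  obtain ⟨h, hh, hv⟩ := hso (ε / 2) (by positivity)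
  have h1 := Metric.tendsto_nhds.1 (hav h hh.le) (ε / 2 * h) (by positivity)
  filter_upwards [hv, h1] with v hv h1
  rw [dist_eq_norm] at h1 ⊢
  have h2 : ‖∫ u in v..(v + h), (f u - f v)‖ ≤ ε / 2 * |v + h - v| :=
    intervalIntegral.norm_integral_le_of_norm_le_const fun u hu => hv u (by
      rw [uIoc_of_le (by linarith)] at hu
      exact Ioc_subset_Icc_self hu)
  rw [intervalIntegral.integral_sub (hi _ _) intervalIntegrable_const] at h2
  simp only [intervalIntegral.integral_const, add_sub_cancel_left, Complex.real_smul,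
    abs_of_pos hh] at h2
  have h3 : ‖f v - c‖ * h < ε * h := by
    have e : (f v - c) * h = ((∫ u in v..(v + h), f u) - c * h) -
        ((∫ u in v..(v + h), f u) - h * f v) := by ring
    calc ‖f v - c‖ * h = ‖(f v - c) * h‖ := by
          rw [norm_mul, Complex.norm_real, Real.norm_of_nonneg hh.le]
      _ ≤ ‖(∫ u in v..(v + h), f u) - c * h‖ + ‖(∫ u in v..(v + h), f u) - h * f v‖ := by
          rw [e]; exact norm_sub_le _ _
      _ < ε * h := by linarith
  exact lt_of_mul_lt_mul_right h3 hh.le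

/-- A slowly decreasing real function whose local averages converge, converges. -/
lemma tendsto_of_average_of_slowly_decreasing {f : ℝ → ℝ} {c : ℝ}
    (hi : ∀ x y, IntervalIntegrable f volume x y)
    (hav : ∀ h : ℝ, 0 ≤ h → Tendsto (fun v : ℝ => ∫ u in v..(v + h), f u) atTop (𝓝 (c * h)))
    (hso : ∀ ε > 0, ∃ h > 0, ∀ u v, v ≤ u → u ≤ v + h → f v - ε ≤ f u) :
    Tendsto f atTop (𝓝 c) := by
  rw [Metric.tendsto_nhds]
  intro ε hε
  obtain ⟨h, hh, hv⟩ := hso (ε / 2) (by positivity)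
  have h1 := Metric.tendsto_nhds.1 (hav h hh.le) (ε / 2 * h) (by positivity)
  have h1' := (tendsto_atTop_add_const_right atTop (-h) tendsto_id).eventually h1
  filter_upwards [h1, h1'] with v h1 h1'
  rw [Real.dist_eq, abs_lt] at h1 h1' ⊢
  simp only [id, neg_add_cancel_right] at h1'
  have h2 : ∫ u in v..(v + h), (f v - ε / 2) ≤ ∫ u in v..(v + h), f u :=
    intervalIntegral.integral_mono_on (by linarith) intervalIntegrable_const (hi _ _)
      fun u hu => hv u v hu.1 hu.2
  have h3 : ∫ u in (v + -h)..v, f u ≤ ∫ u in (v + -h)..v, (f v + ε / 2) :=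
    intervalIntegral.integral_mono_on (by linarith) (hi _ _) intervalIntegrable_const
      fun u hu => by have := hv v u hu.2 (by linarith [hu.1]); linarith
  simp only [intervalIntegral.integral_const, add_sub_cancel_left, smul_eq_mul] at h2 h3
  rw [show v - (v + -h) = h by ring] at h3
  constructor
  · have : -ε * h < (f v - c) * h := by nlinarith
    exact lt_of_mul_lt_mul_right this hh.le
  · have : (f v - c) * h < ε * h := by nlinarith
    exact lt_of_mul_lt_mul_right this hh.le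

lemma exists_small_exp {D ε : ℝ} (hε : 0 < ε) :
    ∃ h > 0, D * (Real.exp h - 1) ≤ ε ∧ D * (1 - Real.exp (-h)) ≤ ε := by
  have h1 : ContinuousAt (fun h : ℝ => D * (Real.exp h - 1)) 0 := by fun_prop
  have h2 : ContinuousAt (fun h : ℝ => D * (1 - Real.exp (-h))) 0 := by fun_prop
  have e1 := h1.eventually (gt_mem_nhds (show D * (Real.exp 0 - 1) < ε by simpa using hε))
  have e2 := h2.eventually (gt_mem_nhds (show D * (1 - Real.exp (-0)) < ε by simpa using hε))
  obtain ⟨h, ⟨a1, a2⟩, a3⟩ :=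
    (((e1.and e2).filter_mono nhdsWithin_le_nhds).and
      (self_mem_nhdsWithin (s := Ioi (0 : ℝ)))).exists
  exact ⟨h, a3, a1.le, a2.le⟩

/-- **Wiener-Ikehara theorem** for nonnegative coefficients (with a Chebyshev bound). -/
theorem wienerIkehara_nonneg {a : ℕ → ℝ} (ha : ∀ n, 0 ≤ a n) {C : ℝ}
    (hC : ∀ n : ℕ, ∑ k ∈ Finset.Icc 1 n, a k ≤ C * n) {G : ℂ → ℂ} {c : ℝ}
    (hG : ContinuousOn G {s | 1 ≤ s.re})
    (hL : ∀ s : ℂ, 1 < s.re → LSeries (fun n => (a n : ℂ)) s = G s + c / (s - 1)) :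
    Tendsto (fun x : ℝ => (∑ k ∈ Finset.Icc 1 ⌊x⌋₊, a k) / x) atTop (𝓝 c) := by
  have hC' : ∀ n : ℕ, ∑ k ∈ Finset.Icc 1 n, ‖(a k : ℂ)‖ ≤ C * n := by
    intro n
    simpa [abs_of_nonneg (ha _)] using hC n
  set f : ℝ → ℝ := fun u => (∑ k ∈ Finset.Icc 1 ⌊Real.exp u⌋₊, a k) * Real.exp (-u) with hf
  have hfn : ∀ u, nsum (fun n => (a n : ℂ)) u = f u := by
    intro u
    simp [nsum, hf]
  have hfb : ∀ u, f u ≤ C := by
    intro u
    have := norm_nsum_le hC' u
    rw [hfn, Complex.norm_real] at this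
    exact (le_abs_self _).trans this
  have hi : ∀ x y, IntervalIntegrable f volume x y := by
    intro x y
    have := intervalIntegrable_nsum hC' x y
    rw [funext hfn] at this
    exact ⟨by simpa [IntegrableOn] using this.1.re, by simpa [IntegrableOn] using this.2.re⟩
  have hlim : Tendsto f atTop (𝓝 c) := by
    refine tendsto_of_average_of_slowly_decreasing hi (fun h hh => ?_) (fun ε hε => ?_)
    · have := tendsto_average_nsum hC' hG hL hh
      simp_rw [hfn, intervalIntegral.integral_ofReal] at this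
      have := (Complex.continuous_re.tendsto _).comp this
      simpa [Function.comp_def] using this
    · obtain ⟨h, hh, -, h2⟩ := exists_small_exp (D := C) hε
      refine ⟨h, hh, fun u v huv hvu => ?_⟩
      have hS : ∑ k ∈ Finset.Icc 1 ⌊Real.exp v⌋₊, a k ≤ ∑ k ∈ Finset.Icc 1 ⌊Real.exp u⌋₊, a k :=
        Finset.sum_le_sum_of_subset_of_nonneg
          (Finset.Icc_subset_Icc_right (Nat.floor_mono (Real.exp_le_exp.2 huv)))
          fun _ _ _ => ha _
      have hS0 : 0 ≤ ∑ k ∈ Finset.Icc 1 ⌊Real.exp v⌋₊, a k := Finset.sum_nonneg fun _ _ => ha _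
      have h3 : f v * Real.exp (-h) ≤ f u := by
        simp only [hf]
        rw [mul_assoc, ← Real.exp_add]
        gcongr
        · exact hS0.trans hS
        · linarith
      have h4 : f v * (1 - Real.exp (-h)) ≤ C * (1 - Real.exp (-h)) := by
        gcongr
        · have : Real.exp (-h) ≤ 1 := Real.exp_le_one_iff.2 (by linarith)
          linarith
        · exact hfb v
      linarith
  refine (hlim.comp Real.tendsto_log_atTop).congr' ?_
  filter_upwards [eventually_gt_atTop 0] with x hx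
  simp only [Function.comp_apply, hf, Real.exp_log hx]
  rw [Real.exp_neg, Real.exp_log hx, div_eq_mul_inv]

/-- **Wiener-Ikehara theorem** for coefficients dominated by a sequence with a mean value. -/
theorem wienerIkehara_dominated {a : ℕ → ℂ} {b : ℕ → ℝ} (hab : ∀ n, ‖a n‖ ≤ b n) {β : ℝ}
    (hb : Tendsto (fun x : ℝ => (∑ k ∈ Finset.Icc 1 ⌊x⌋₊, b k) / x) atTop (𝓝 β)) {C : ℝ}
    (hC : ∀ n : ℕ, ∑ k ∈ Finset.Icc 1 n, b k ≤ C * n) {G : ℂ → ℂ} {c : ℂ}
    (hG : ContinuousOn G {s | 1 ≤ s.re})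
    (hL : ∀ s : ℂ, 1 < s.re → LSeries a s = G s + c / (s - 1)) :
    Tendsto (fun x : ℝ => (∑ k ∈ Finset.Icc 1 ⌊x⌋₊, a k) / x) atTop (𝓝 c) := by
  have hC' : ∀ n : ℕ, ∑ k ∈ Finset.Icc 1 n, ‖a k‖ ≤ C * n := fun n =>
    (Finset.sum_le_sum fun k _ => hab k).trans (hC n)
  have hb0 : ∀ n, 0 ≤ b n := fun n => (norm_nonneg _).trans (hab n)
  refine tendsto_real_of_nsum (tendsto_of_average_of_slowly_oscillating
    (intervalIntegrable_nsum hC') (fun h hh => tendsto_average_nsum hC' hG hL hh) fun ε hε => ?_)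
  obtain ⟨h, hh, h1, -⟩ := exists_small_exp (D := β) (show 0 < ε / 4 by positivity)
  obtain ⟨h', hh', -, h2⟩ := exists_small_exp (D := C) (show 0 < ε / 2 by positivity)
  have hC0 : 0 ≤ C := (norm_nonneg _).trans (norm_nsum_le hC' 0)
  set B : ℝ → ℝ := fun u => ∑ k ∈ Finset.Icc 1 ⌊Real.exp u⌋₊, b k with hB
  have hB1 : Tendsto (fun v => B v / Real.exp v) atTop (𝓝 β) := hb.comp Real.tendsto_exp_atTop
  have hB2 : Tendsto (fun v => B (v + h) / Real.exp (v + h) * Real.exp h - B v / Real.exp v)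
      atTop (𝓝 (β * Real.exp h - β)) :=
    ((hB1.comp (tendsto_atTop_add_const_right atTop h tendsto_id)).mul_const _).sub hB1
  have hB3 := hB2.eventually (gt_mem_nhds (show β * Real.exp h - β < ε / 2 by linarith))
  refine ⟨min h h', lt_min hh hh', ?_⟩
  filter_upwards [hB3] with v hv u hu
  have hu1 : u ≤ v + h := hu.2.trans (by gcongr; exact min_le_left _ _)
  have hu2 : u ≤ v + h' := hu.2.trans (by gcongr; exact min_le_right _ _)
  have hv' : (B (v + h) - B v) * Real.exp (-v) < ε / 2 := by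
    refine lt_of_eq_of_lt ?_ hv
    rw [Real.exp_add, Real.exp_neg]
    field_simp
  have hsub : Finset.Icc 1 ⌊Real.exp v⌋₊ ⊆ Finset.Icc 1 ⌊Real.exp u⌋₊ :=
    Finset.Icc_subset_Icc_right (Nat.floor_mono (Real.exp_le_exp.2 hu.1))
  have hd : ‖∑ k ∈ Finset.Icc 1 ⌊Real.exp u⌋₊, a k - ∑ k ∈ Finset.Icc 1 ⌊Real.exp v⌋₊, a k‖ ≤
      B (v + h) - B v := by
    rw [← Finset.sum_sdiff_eq_sub hsub]
    refine (norm_sum_le _ _).trans ((Finset.sum_le_sum fun k _ => hab k).trans ?_)
    rw [Finset.sum_sdiff_eq_sub hsub]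
    simp only [hB]
    gcongr
    · exact fun i _ _ => hb0 i
  have e : nsum a u - nsum a v =
      (∑ k ∈ Finset.Icc 1 ⌊Real.exp u⌋₊, a k - ∑ k ∈ Finset.Icc 1 ⌊Real.exp v⌋₊, a k) *
        (Real.exp (-u) : ℝ) - nsum a v * ((1 - Real.exp (v - u) : ℝ)) := by
    simp only [nsum]
    push_cast
    have : cexp (-(u : ℂ)) = cexp (-(v : ℂ)) * cexp (v - u) := by
      rw [← Complex.exp_add]; congr 1; ring
    rw [this]
    ring
  have hle1 : Real.exp (v - u) ≤ 1 := Real.exp_le_one_iff.2 (by linarith [hu.1])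
  rw [e]
  refine (norm_sub_le _ _).trans ?_
  rw [norm_mul, norm_mul, Complex.norm_real, Complex.norm_real,
    Real.norm_of_nonneg (Real.exp_pos _).le, Real.norm_of_nonneg (by linarith)]
  have t1 : ‖∑ k ∈ Finset.Icc 1 ⌊Real.exp u⌋₊, a k - ∑ k ∈ Finset.Icc 1 ⌊Real.exp v⌋₊, a k‖ *
      Real.exp (-u) ≤ (B (v + h) - B v) * Real.exp (-v) := by
    gcongr
    · exact (norm_nonneg _).trans hd
    · exact hu.1
  have t2 : ‖nsum a v‖ * (1 - Real.exp (v - u)) ≤ C * (1 - Real.exp (-h')) := by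
    gcongr
    · exact norm_nsum_le hC' v
    · linarith
  linarith

/-- **Wiener-Ikehara theorem** for bounded coefficients. -/
theorem wienerIkehara_bounded {a : ℕ → ℂ} {C : ℝ} (hC : ∀ n, ‖a n‖ ≤ C) {G : ℂ → ℂ} {c : ℂ}
    (hG : ContinuousOn G {s | 1 ≤ s.re})
    (hL : ∀ s : ℂ, 1 < s.re → LSeries a s = G s + c / (s - 1)) :
    Tendsto (fun x : ℝ => (∑ k ∈ Finset.Icc 1 ⌊x⌋₊, a k) / x) atTop (𝓝 c) := by
  refine wienerIkehara_dominated (b := fun _ => C) hC (β := C) ?_ (C := C) (fun n => ?_) hG hL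
  · have := (tendsto_nat_floor_div_atTop (R := ℝ)).const_mul C
    rw [mul_one] at this
    refine this.congr fun x => ?_
    simp only [Finset.sum_const, Nat.card_Icc, add_tsub_cancel_right, nsmul_eq_mul]
    ring
  · simp [mul_comm]

end Pool.Agent.Lib.ANT
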