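import Pool.Agent.Lib.ANT.LBound

/-!
# A weak zero-free region for Dirichlet `L`-functions and Landau's lemma on exceptional characters
-/

noncomputable section

open Finset Complex Filter Topology

namespace Pool.Agent.Lib.ANT

lemma LFunction_lip {q : ℕ} [NeZero q] {χ : DirichletCharacter ℂ q} (hχ : χ ≠ 1) {N : ℕ}
    (hN : 2 ≤ Real.log N) {ρ : ℝ} (hq : q * (2 + 2 * ρ) ≤ N) {s₁ s₂ : ℂ}
    (h1 : 1 - 1 / (2 * Real.log N) ≤ s₁.re) (h1' : ‖s₁‖ ≤ ρ)
    (h2 : 1 - 1 / (2 * Real.log N) ≤ s₂.re) (h2' : ‖s₂‖ ≤ ρ) :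
    ‖χ.LFunction s₁ - χ.LFunction s₂‖ ≤ 12 * Real.log N ^ 2 * ‖s₁ - s₂‖ := by
  have hc : Convex ℝ ({s : ℂ | 1 - 1 / (2 * Real.log N) ≤ s.re} ∩ Metric.closedBall 0 ρ) :=
    (convex_halfSpace_re_ge _).inter (convex_closedBall 0 ρ)
  refine hc.norm_image_sub_le_of_norm_deriv_le (𝕜 := ℂ)
    (fun x _ => DirichletCharacter.differentiable_LFunction hχ x) (fun x hx => ?_)
    ⟨h2, by simpa using h2'⟩ ⟨h1, by simpa using h1'⟩
  refine norm_deriv_LFunction_le hχ hN hx.1 (le_trans ?_ hq)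
  have : ‖x‖ ≤ ρ := by simpa using hx.2
  gcongr

lemma norm_zeta_one_add_le {x : ℝ} (hx : 0 < x) (hx1 : x ≤ 1) :
    ‖riemannZeta (1 + x)‖ ≤ 5 / x := by
  have h := norm_zeta_le (s := 1 + x) (by simpa using hx) (N := 1) one_pos
  have h1 : ‖(1 : ℂ) + x‖ ≤ 2 := by
    refine (norm_add_le _ _).trans ?_
    rw [norm_one, norm_real, Real.norm_of_nonneg hx.le]; linarith
  simp only [Nat.cast_one, Real.log_one, div_one, add_sub_cancel_left, norm_real,
    Real.norm_of_nonneg hx.le] at h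
  have h2 : 1 ≤ 1 / x := by rw [le_div_iff₀ hx]; linarith
  have h3 : 5 / x = 3 * (1 / x) + 2 / x := by ring
  linarith

lemma one_le_norm_four {q₁ q₂ q : ℕ} (χ₁ : DirichletCharacter ℂ q₁) (χ₂ : DirichletCharacter ℂ q₂)
    (ψ : DirichletCharacter ℂ q) (h₁ : χ₁ ^ 2 = 1) (h₂ : χ₂ ^ 2 = 1)
    (hψ : ∀ n : ℕ, ψ n = χ₁ n * χ₂ n) {σ : ℝ} (hσ : 1 < σ) :
    1 ≤ ‖riemannZeta σ * LSeries (fun n => χ₁ n) σ * LSeries (fun n => χ₂ n) σ *
      LSeries (fun n => ψ n) σ‖ := by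
  have hs : 1 < (σ : ℂ).re := by simpa using hσ
  have H := (((riemannZeta_eulerProduct_hasProd hs).mul (χ₁.LSeries_eulerProduct_hasProd hs)).mul
    (χ₂.LSeries_eulerProduct_hasProd hs)).mul (ψ.LSeries_eulerProduct_hasProd hs)
  refine ge_of_tendsto' H.norm fun t => ?_
  refine Finset.one_le_prod fun p _ => ?_
  have hp : (1 : ℝ) < (p : ℕ) := by exact_mod_cast p.2.one_lt
  set x : ℝ := ((p : ℕ) : ℝ) ^ (-σ) with hx
  have hx0 : 0 < x := by positivity
  have hx1 : x < 1 := Real.rpow_lt_one_of_one_lt_of_neg hp (by linarith)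
  have e : ((p : ℕ) : ℂ) ^ (-(σ : ℂ)) = (x : ℂ) := by
    rw [hx, ofReal_cpow (by positivity)]; simp
  have key : ∀ a b : ℝ, (a = 0 ∨ a = 1 ∨ a = -1) → (b = 0 ∨ b = 1 ∨ b = -1) →
      1 ≤ ‖(1 - (x : ℂ))⁻¹ * (1 - a * (x : ℂ))⁻¹ * (1 - b * (x : ℂ))⁻¹ *
        (1 - a * b * (x : ℂ))⁻¹‖ := by
    intro a b ha hb
    have : (1 - (x : ℂ))⁻¹ * (1 - a * (x : ℂ))⁻¹ * (1 - b * (x : ℂ))⁻¹ * (1 - a * b * (x : ℂ))⁻¹
        = (((1 - x) * (1 - a * x) * (1 - b * x) * (1 - a * b * x))⁻¹ : ℝ) := by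
      push_cast; simp only [mul_inv]
    rw [this, norm_real]
    have h0 : 0 < 1 - x := by linarith
    have h2 : 0 < 1 + x := by linarith
    have h3 : (1 - x) * (1 + x) ≤ 1 := by nlinarith
    have h4 : 0 < (1 - x) * (1 + x) := by positivity
    refine le_trans ?_ (le_abs_self _)
    rcases ha with rfl | rfl | rfl <;> rcases hb with rfl | rfl | rfl <;>
    refine (one_le_inv₀ ?_).2 ?_ <;> simp only [zero_mul, one_mul, mul_zero, mul_one, sub_zero,
      neg_mul, sub_neg_eq_add, mul_neg, neg_neg, neg_zero] <;>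
    first | positivity | nlinarith [mul_pos h0 h0, mul_pos h4 h4, mul_pos h0 (mul_pos h0 h0)]
  rw [e, hψ]
  rcases MulChar.isQuadratic_iff_sq_eq_one.2 h₁ ((p : ℕ) : ZMod q₁) with a | a | a <;>
  rcases MulChar.isQuadratic_iff_sq_eq_one.2 h₂ ((p : ℕ) : ZMod q₂) with b | b | b <;>
  rw [a, b]
  · simpa using key 0 0 (by simp) (by simp)
  · simpa using key 0 1 (by simp) (by simp)
  · simpa using key 0 (-1) (by simp) (by simp)
  · simpa using key 1 0 (by simp) (by simp)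
  · simpa using key 1 1 (by simp) (by simp)
  · simpa using key 1 (-1) (by simp) (by simp)
  · simpa using key (-1) 0 (by simp) (by simp)
  · simpa using key (-1) 1 (by simp) (by simp)
  · simpa using key (-1) (-1) (by simp) (by simp)

lemma big_of_exp {L M : ℝ} (hL : 2 ≤ L) (hM : Real.exp 73 * L ≤ M) : 10 ^ 7 * L ≤ M := by
  refine le_trans (mul_le_mul_of_nonneg_right ?_ (by linarith)) hM
  have h1 : (2 : ℝ) ≤ Real.exp 1 := by have := Real.exp_one_gt_d9; linarith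
  calc (10 : ℝ) ^ 7 ≤ 2 ^ 73 := by norm_num
    _ ≤ Real.exp 1 ^ 73 := by gcongr
    _ = _ := by rw [← Real.exp_nat_mul]; norm_num

/-- Landau: two primitive quadratic characters with different conductors cannot both have a
small value at `1`. -/
theorem landau {q₁ q₂ : ℕ} [NeZero q₁] [NeZero q₂] {χ₁ : DirichletCharacter ℂ q₁}
    {χ₂ : DirichletCharacter ℂ q₂} (hp₁ : χ₁.IsPrimitive) (hp₂ : χ₂.IsPrimitive)
    (hn₁ : χ₁ ≠ 1) (hn₂ : χ₂ ≠ 1) (h₁ : χ₁ ^ 2 = 1) (h₂ : χ₂ ^ 2 = 1) (hne : q₁ ≠ q₂)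
    {N : ℕ} (hN : 2 ≤ Real.log N) (hq : 6 * (q₁ * q₂) ≤ N) {M : ℝ}
    (hM1 : 12 * Real.log N ^ 2 ≤ M) :
    1 / (20 * M ^ 2) ≤ ‖χ₁.LFunction 1‖ ∨ 1 / (20 * M ^ 2) ≤ ‖χ₂.LFunction 1‖ := by
  by_contra hcon
  push Not at hcon
  have : NeZero (q₁ * q₂) := ⟨mul_ne_zero (NeZero.ne _) (NeZero.ne _)⟩
  set ψ : DirichletCharacter ℂ (q₁ * q₂) :=
    DirichletCharacter.changeLevel (dvd_mul_right q₁ q₂) χ₁ *
      DirichletCharacter.changeLevel (dvd_mul_left q₂ q₁) χ₂ with hψ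
  have hψ1 : ψ ≠ 1 := fun h => by
    have e2 : DirichletCharacter.changeLevel (dvd_mul_left q₂ q₁) χ₂ ^ 2 = 1 := by
      rw [← map_pow, h₂, map_one]
    have e3 : DirichletCharacter.changeLevel (dvd_mul_right q₁ q₂) χ₁
        = DirichletCharacter.changeLevel (dvd_mul_left q₂ q₁) χ₂ := by
      have := congrArg (· * DirichletCharacter.changeLevel (dvd_mul_left q₂ q₁) χ₂) h
      simp only [hψ] at this
      rwa [mul_assoc, ← sq, e2, mul_one, one_mul] at this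
    have e4 := congrArg DirichletCharacter.conductor e3
    rw [DirichletCharacter.conductor_changeLevel, DirichletCharacter.conductor_changeLevel,
      hp₁, hp₂] at e4
    exact hne e4
  have hψv : ∀ n : ℕ, ψ n = χ₁ n * χ₂ n := fun n => by
    by_cases h : Nat.Coprime n (q₁ * q₂)
    · have hc : IsCoprime (n : ℤ) ((q₁ * q₂ : ℕ) : ℤ) := Nat.isCoprime_iff_coprime.2 h
      have a1 := χ₁.changeLevel_eq_cast_of_dvd' (dvd_mul_right q₁ q₂) hc
      have a2 := χ₂.changeLevel_eq_cast_of_dvd' (dvd_mul_left q₂ q₁) hc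
      simp only [Int.cast_natCast] at a1 a2
      rw [hψ, MulChar.mul_apply, a1, a2]
    · rw [ψ.map_nonunit (by rwa [ZMod.isUnit_iff_coprime])]
      rw [Nat.coprime_mul_iff_right, not_and_or] at h
      rcases h with h | h
      · rw [χ₁.map_nonunit (by rwa [ZMod.isUnit_iff_coprime]), zero_mul]
      · rw [χ₂.map_nonunit (by rwa [ZMod.isUnit_iff_coprime]), mul_zero]
  set L := Real.log N with hL
  have hM0 : 6 * L ≤ M := by nlinarith
  have hM : 12 ≤ M := by linarith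
  set ε : ℝ := 1 / (20 * M ^ 3) with hε
  have hε0 : 0 < ε := by positivity
  have hε1 : ε ≤ 1 := by
    rw [hε, div_le_one (by positivity)]
    have : 1 ≤ M ^ 3 := one_le_pow₀ (by linarith)
    linarith
  have H := one_le_norm_four χ₁ χ₂ ψ h₁ h₂ hψv (σ := 1 + ε) (by linarith)
  have hs : 1 < ((1 + ε : ℝ) : ℂ).re := by simpa using hε0
  rw [← χ₁.LFunction_eq_LSeries hs, ← χ₂.LFunction_eq_LSeries hs, ← ψ.LFunction_eq_LSeries hs,
    norm_mul, norm_mul, norm_mul] at H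
  have hn : ‖((1 + ε : ℝ) : ℂ)‖ ≤ 2 := by
    rw [norm_real, Real.norm_of_nonneg (by linarith)]; linarith
  have hpos : 0 ≤ 1 / (2 * L) := by positivity
  have hpos' : 0 ≤ 1 / L := by positivity
  have hq' : (6 : ℝ) * (q₁ * q₂) ≤ N := by exact_mod_cast hq
  have hq1 : (1 : ℝ) ≤ q₁ := by exact_mod_cast NeZero.pos q₁
  have hq2 : (1 : ℝ) ≤ q₂ := by exact_mod_cast NeZero.pos q₂
  have b0 : ‖riemannZeta ((1 + ε : ℝ) : ℂ)‖ ≤ 5 / ε := by
    simpa using norm_zeta_one_add_le hε0 hε1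
  have b3 : ‖ψ.LFunction ((1 + ε : ℝ) : ℂ)‖ ≤ M := by
    refine (norm_LFunction_le hψ1 hN (by rw [ofReal_re]; linarith) ?_).trans hM0
    push_cast at hn ⊢; nlinarith [mul_pos (by linarith : (0 : ℝ) < q₁) (by linarith : (0 : ℝ) < q₂)]
  have hd : ‖((1 + ε : ℝ) : ℂ) - 1‖ = ε := by simp [abs_of_pos hε0]
  have hMε : M * ε = 1 / (20 * M ^ 2) := by rw [hε]; field_simp
  have b1 : ‖χ₁.LFunction ((1 + ε : ℝ) : ℂ)‖ < 1 / (10 * M ^ 2) := by
    have := LFunction_lip hn₁ hN (ρ := 2) (by nlinarith) (s₁ := ((1 + ε : ℝ) : ℂ)) (s₂ := 1)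
      (by rw [ofReal_re]; linarith) hn (by rw [one_re]; linarith) (by simp)
    rw [hd] at this
    have h4 := norm_le_insert' (χ₁.LFunction ((1 + ε : ℝ) : ℂ)) (χ₁.LFunction 1)
    have h5 : 12 * L ^ 2 * ε ≤ M * ε := by gcongr
    have h6 : 1 / (10 * M ^ 2) = 1 / (20 * M ^ 2) + 1 / (20 * M ^ 2) := by ring
    linarith [hcon.1]
  have b2 : ‖χ₂.LFunction ((1 + ε : ℝ) : ℂ)‖ < 1 / (10 * M ^ 2) := by
    have := LFunction_lip hn₂ hN (ρ := 2) (by nlinarith) (s₁ := ((1 + ε : ℝ) : ℂ)) (s₂ := 1)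
      (by rw [ofReal_re]; linarith) hn (by rw [one_re]; linarith) (by simp)
    rw [hd] at this
    have h4 := norm_le_insert' (χ₂.LFunction ((1 + ε : ℝ) : ℂ)) (χ₂.LFunction 1)
    have h5 : 12 * L ^ 2 * ε ≤ M * ε := by gcongr
    have h6 : 1 / (10 * M ^ 2) = 1 / (20 * M ^ 2) + 1 / (20 * M ^ 2) := by ring
    linarith [hcon.2]
  have b4 : ‖χ₁.LFunction ((1 + ε : ℝ) : ℂ)‖ * ‖χ₂.LFunction ((1 + ε : ℝ) : ℂ)‖
      < 1 / (10 * M ^ 2) * (1 / (10 * M ^ 2)) :=
    mul_lt_mul'' b1 b2 (norm_nonneg _) (norm_nonneg _)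
  have b5 : 5 / ε * (1 / (10 * M ^ 2) * (1 / (10 * M ^ 2))) * M = 1 := by
    rw [hε]; field_simp; norm_num
  have b6 : ‖riemannZeta ((1 + ε : ℝ) : ℂ)‖ * ‖χ₁.LFunction ((1 + ε : ℝ) : ℂ)‖ *
      ‖χ₂.LFunction ((1 + ε : ℝ) : ℂ)‖ * ‖ψ.LFunction ((1 + ε : ℝ) : ℂ)‖
      ≤ 5 / ε * (‖χ₁.LFunction ((1 + ε : ℝ) : ℂ)‖ * ‖χ₂.LFunction ((1 + ε : ℝ) : ℂ)‖) * M := by
    rw [mul_assoc ‖riemannZeta _‖]; gcongr
  have b7 : 5 / ε * (‖χ₁.LFunction ((1 + ε : ℝ) : ℂ)‖ * ‖χ₂.LFunction ((1 + ε : ℝ) : ℂ)‖) * M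
      < 5 / ε * (1 / (10 * M ^ 2) * (1 / (10 * M ^ 2))) * M := by gcongr
  linarith

/-- A weak zero-free region with a lower bound for `|L|`. -/
theorem zero_free {q : ℕ} [NeZero q] {χ : DirichletCharacter ℂ q} (hχ : χ ≠ 1) {N : ℕ}
    (hN : 2 ≤ Real.log N) {M T : ℝ} (hM1 : 12 * Real.log N ^ 2 ≤ M)
    (hM2 : Real.exp 73 * Real.log N ≤ M) (hq : q * (6 + 4 * T) ≤ N)
    (hreal : χ ^ 2 = 1 → 1 / (20 * M ^ 2) ≤ ‖χ.LFunction 1‖) {s : ℂ}
    (hs : |s.re - 1| ≤ 1 / M ^ 12) (ht : |s.im| ≤ T) : 1 / M ^ 12 ≤ ‖χ.LFunction s‖ := by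
  set L := Real.log N with hL
  have hM3 := big_of_exp hN hM2
  have hM : 10 ^ 7 ≤ M := by linarith
  have hM' : 1 ≤ M := by linarith
  have hT : 0 ≤ T := (abs_nonneg _).trans ht
  have hq1 : (1 : ℝ) ≤ q := by exact_mod_cast NeZero.pos q
  set δ : ℝ := 1 / M ^ 12 with hδ
  have hδ0 : 0 < δ := by positivity
  have hpow : ∀ a b : ℕ, a ≤ b → M ^ a ≤ M ^ b := fun a b h => pow_le_pow_right₀ hM' h
  have hδτ : δ ≤ 1 / (80 * M ^ 3) := by
    refine one_div_le_one_div_of_le (by positivity) ?_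
    calc 80 * M ^ 3 ≤ M * M ^ 3 := by gcongr; linarith
      _ = M ^ 4 := by ring
      _ ≤ _ := hpow _ _ (by norm_num)
  have hδL : δ ≤ 1 / (2 * L) := by
    refine one_div_le_one_div_of_le (by positivity) ?_
    have := hpow 1 12 (by norm_num)
    linarith
  have hL4 : 1 / (2 * L) ≤ 1 / 4 := one_div_le_one_div_of_le (by norm_num) (by linarith)
  rw [abs_le] at hs
  have hns : ‖s‖ ≤ 2 + T := by
    refine (norm_le_abs_re_add_abs_im s).trans (add_le_add ?_ ht)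
    rw [abs_le]; constructor <;> linarith [hs.1, hs.2]
  have hqρ : q * (2 + 2 * (2 + T)) ≤ N :=
    le_trans (mul_le_mul_of_nonneg_left (by linarith) (by linarith)) hq
  by_cases hc : χ ^ 2 = 1 ∧ |s.im| ≤ 1 / (80 * M ^ 3)
  · have h1 := LFunction_lip hχ hN hqρ (s₁ := 1) (s₂ := s) (by rw [one_re]; linarith)
      (by simp; linarith) (by linarith [hs.1]) hns
    have h2 : ‖1 - s‖ ≤ 2 * (1 / (80 * M ^ 3)) := by
      refine (norm_le_abs_re_add_abs_im _).trans ?_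
      have : |1 - s.re| ≤ 1 / (80 * M ^ 3) := by rw [abs_le]; constructor <;> linarith [hs.1, hs.2]
      simp only [sub_re, one_re, sub_im, one_im, zero_sub, abs_neg]
      linarith [hc.2]
    have h3 : 12 * L ^ 2 * ‖1 - s‖ ≤ M * (2 * (1 / (80 * M ^ 3))) := by gcongr
    have h4 : M * (2 * (1 / (80 * M ^ 3))) = 1 / (40 * M ^ 2) := by field_simp; norm_num
    have h5 := norm_le_insert' (χ.LFunction 1) (χ.LFunction s)
    have h6 := hreal hc.1
    have h7 : 1 / (20 * M ^ 2) = 1 / (40 * M ^ 2) + 1 / (40 * M ^ 2) := by ring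
    have h8 : 1 / (80 * M ^ 3) ≤ 1 / (40 * M ^ 2) :=
      one_div_le_one_div_of_le (by positivity) (by linarith [hpow 2 3 (by norm_num), sq_nonneg M])
    linarith
  · have H := χ.norm_LFunction_product_ge_one hδ0 s.im
    have hN2 : 2 ≤ N := by
      have : (2 : ℝ) ≤ N := by nlinarith
      exact_mod_cast this
    have hqN : q ≤ N := by
      have : (q : ℝ) ≤ N := by nlinarith
      exact_mod_cast this
    have b0 : ‖DirichletCharacter.LFunctionTrivChar q (1 + δ)‖ ≤ M * (5 / δ) := by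
      refine (norm_LFunction_one_le (by simpa using hδ0) hN2 hqN).trans ?_
      gcongr
      exact norm_zeta_one_add_le hδ0 (by linarith)
    have hn2 : ‖1 + δ + 2 * I * s.im‖ ≤ 2 + 2 * T := by
      refine (norm_le_abs_re_add_abs_im _).trans ?_
      simp only [add_re, one_re, ofReal_re, mul_re, re_ofNat, I_re, mul_zero, im_ofNat, I_im,
        mul_one, sub_self, zero_mul, mul_im, add_zero, ofReal_im, add_im, one_im, zero_add, abs_mul]
      rw [abs_of_pos (by linarith : 0 < 1 + δ)]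
      norm_num; linarith
    have b2 : ‖(χ ^ 2).LFunction (1 + δ + 2 * I * s.im)‖ ≤ 83 * M ^ 4 := by
      by_cases h2 : χ ^ 2 = 1
      · have ht' : 1 / (80 * M ^ 3) < |s.im| := by
          by_contra h; exact hc ⟨h2, not_lt.1 h⟩
        have hre : 1 < (1 + δ + 2 * I * s.im : ℂ).re := by simpa using hδ0
        rw [h2]
        refine (norm_LFunction_one_le hre hN2 hqN).trans ?_
        have z := norm_zeta_le hre (N := N) (by omega)
        have z1 : ‖1 + δ + 2 * I * s.im‖ / N ≤ 1 := by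
          rw [div_le_one (by positivity)]; nlinarith
        have z2 : 2 / ‖1 + δ + 2 * I * s.im - 1‖ ≤ 80 * M ^ 3 := by
          have a := abs_im_le_norm (1 + δ + 2 * I * s.im - 1)
          have a' : (1 + δ + 2 * I * s.im - 1 : ℂ).im = 2 * s.im := by simp
          rw [a', abs_mul, abs_two] at a
          have a0 : 0 < 1 / (80 * M ^ 3) := by positivity
          rw [div_le_iff₀ (by linarith)]
          rw [div_lt_iff₀ (by positivity)] at ht'
          nlinarith [pow_pos (by linarith : 0 < M) 3]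
        have z3 := hpow 1 3 (by norm_num)
        calc _ ≤ M * (83 * M ^ 3) := by gcongr; linarith
          _ = _ := by ring
      · refine (norm_LFunction_le h2 hN ?_ 
          (le_trans (mul_le_mul_of_nonneg_left (by linarith) (by linarith)) hq)).trans ?_
        · have : 0 ≤ 1 / L := by positivity
          simp only [add_re, one_re, ofReal_re, mul_re, re_ofNat, I_re, mul_zero, im_ofNat, I_im,
            mul_one, sub_self, zero_mul, mul_im, add_zero, ofReal_im]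
          linarith
        · have := hpow 1 4 (by norm_num)
          linarith
    have b1 : 4 * δ * M ≤ ‖χ.LFunction (1 + δ + I * s.im)‖ := by
      refine le_of_pow_le_pow_left₀ (n := 4) (by norm_num) (norm_nonneg _) ?_
      rw [ge_iff_le, norm_mul, norm_mul, norm_pow, norm_pow] at H
      have c1 : 1 ≤ (M * (5 / δ)) ^ 3 * ‖χ.LFunction (1 + δ + I * s.im)‖ ^ 4 * (83 * M ^ 4) :=
        H.trans (by gcongr)
      have c2 : (4 * δ * M) ^ 4 * ((M * (5 / δ)) ^ 3 * (83 * M ^ 4)) = 2656000 / M := by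
        rw [hδ]; field_simp; norm_num
      have c3 : 2656000 / M ≤ 1 := by rw [div_le_one (by linarith)]; linarith
      have c4 : 0 < (M * (5 / δ)) ^ 3 * (83 * M ^ 4) := by positivity
      refine le_of_mul_le_mul_right ?_ c4
      linarith
    have h1 := LFunction_lip hχ hN hqρ (s₁ := 1 + δ + I * s.im) (s₂ := s)
      (by rw [show (1 + δ + I * s.im : ℂ).re = 1 + δ by simp]; linarith)
      ?_ (by linarith [hs.1]) hns
    · have h2 : ‖1 + δ + I * s.im - s‖ ≤ 2 * δ := by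
        refine (norm_le_abs_re_add_abs_im _).trans ?_
        have : |1 + δ - s.re| ≤ 2 * δ := by rw [abs_le]; constructor <;> linarith [hs.1, hs.2]
        simpa using this
      have h3 : 12 * L ^ 2 * ‖1 + δ + I * s.im - s‖ ≤ M * (2 * δ) := by gcongr
      have h5 := norm_le_insert' (χ.LFunction (1 + δ + I * s.im)) (χ.LFunction s)
      nlinarith
    · refine (norm_le_abs_re_add_abs_im _).trans ?_
      simp only [add_re, one_re, ofReal_re, mul_re, I_re, zero_mul, I_im, ofReal_im, mul_zero,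
        sub_self, add_zero, add_im, one_im, mul_im, one_mul, zero_add]
      rw [abs_of_pos (by linarith : 0 < 1 + δ)]
      linarith

end Pool.Agent.Lib.ANT
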